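import Mathlib
import Pool.Agent.H17.ZetaB

/-!
# MP_103a5c SimpleZeros, block M (main terms): definitions

Notation: `L = log T`. A parameter `q : Par` is `(a1, a2, a3; b1, b2)`, it stands for the Dirichlet series
`AA q s = ζ(s+a1) ζ(s+a2) ζ(s+a3) / (ζ(s+b1) ζ(s+b2))` with coefficients `cc q`.
All objects are used with small shifts: `q.sc L` = all components divided by `L`.
-/

set_option autoImplicit false

open MeasureTheory Filter Topology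

namespace H98.SZ

/-- `n ^ (-a)` as an arithmetic function -/
noncomputable def pw (a : ℂ) : ArithmeticFunction ℂ :=
  ⟨fun n => if n = 0 then 0 else (n : ℂ) ^ (-a), by simp⟩

/-- `μ(n) n ^ (-b)` as an arithmetic function -/
noncomputable def mpw (b : ℂ) : ArithmeticFunction ℂ :=
  ⟨fun n => if n = 0 then 0 else (ArithmeticFunction.moebius n : ℂ) * (n : ℂ) ^ (-b), by simp⟩

/-- five shifts -/
structure Par where
  a1 : ℂ
  a2 : ℂ
  a3 : ℂ
  b1 : ℂ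
  b2 : ℂ

/-- all shifts divided by `L` -/
noncomputable def Par.sc (q : Par) (L : ℝ) : Par := ⟨q.a1 / L, q.a2 / L, q.a3 / L, q.b1 / L, q.b2 / L⟩

/-- size of a parameter -/
noncomputable def Par.nm (q : Par) : ℝ := 1 + ‖q.a1‖ + ‖q.a2‖ + ‖q.a3‖ + ‖q.b1‖ + ‖q.b2‖

/-- the real parts of all shifts are in `[-1/2, 3]` -/
def Par.ok (q : Par) : Prop :=
  ∀ x ∈ ({q.a1, q.a2, q.a3, q.b1, q.b2} : Set ℂ), -(1 / 2 : ℝ) ≤ x.re ∧ x.re ≤ 3

/-- the real parts of all `s + shift` are `> 1` -/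
def Par.gt (q : Par) (s : ℂ) : Prop :=
  ∀ x ∈ ({q.a1, q.a2, q.a3, q.b1, q.b2} : Set ℂ), 1 < (s + x).re

/-- coefficients of `AA q` -/
noncomputable def cc (q : Par) : ArithmeticFunction ℂ := pw q.a1 * pw q.a2 * pw q.a3 * mpw q.b1 * mpw q.b2

/-- the Dirichlet series -/
noncomputable def AA (q : Par) (s : ℂ) : ℂ :=
  riemannZeta (s + q.a1) * riemannZeta (s + q.a2) * riemannZeta (s + q.a3) /
    (riemannZeta (s + q.b1) * riemannZeta (s + q.b2))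

/-- inverse of the Euler factor of `AA q s` at `p` -/
noncomputable def Ai (q : Par) (s : ℂ) (p : ℕ) : ℂ :=
  (1 - (p : ℂ) ^ (-(s + q.a1))) * (1 - (p : ℂ) ^ (-(s + q.a2))) * (1 - (p : ℂ) ^ (-(s + q.a3))) /
    ((1 - (p : ℂ) ^ (-(s + q.b1))) * (1 - (p : ℂ) ^ (-(s + q.b2))))

/-- `β_p = 1 - (p/(p-1)) / A_p(s)` -/
noncomputable def bet (q : Par) (s : ℂ) (p : ℕ) : ℂ := 1 - (p : ℂ) / ((p : ℂ) - 1) * Ai q s p

/-- the mean of `e(-n/k)` over reduced classes, `μ(k/(k,n)) / φ(k/(k,n))` -/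
noncomputable def rho (k n : ℕ) : ℝ :=
  (ArithmeticFunction.moebius (k / Nat.gcd k n) : ℝ) / (Nat.totient (k / Nat.gcd k n) : ℝ)

/-- the principal part `∑_k (x(k)/k) ∑_n c(n) ρ_k(n) W(n/k)` -/
noncomputable def PRIN (x c : ℕ → ℂ) (W : ℝ → ℂ) : ℂ :=
  ∑' k : ℕ, x k / (k : ℂ) * ∑' n : ℕ, c n * (rho k n : ℂ) * W ((n : ℝ) / (k : ℝ))

/-- the window `exp (-((T - 2π r)/Δ)²)`, `Δ = T / √(log T)` -/
noncomputable def win (T r : ℝ) : ℝ := Real.exp (-((T - 2 * Real.pi * r) / (T / Real.sqrt (Real.log T))) ^ 2)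

/-- the twisted window `win T r * r ^ (κ / L)`, `0` for `r ≤ 0` -/
noncomputable def winK (κ : ℂ) (T r : ℝ) : ℂ :=
  if 0 < r then (win T r : ℂ) * (r : ℂ) ^ (κ / (Real.log T : ℂ)) else 0

/-- `ω = ∫ win T = Δ / (2 √π)` -/
noncomputable def om (T : ℝ) : ℝ := T / Real.sqrt (Real.log T) / (2 * Real.sqrt Real.pi)

/-- Mellin transform of the window -/
noncomputable def mw (T : ℝ) (s : ℂ) : ℂ := mellin (fun r : ℝ => (win T r : ℂ)) s

/-- `∑_k μ(k) k^(z-w) ∏_{p | k} β_p(1+z)` -/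
noncomputable def BB (q : Par) (z w : ℂ) : ℂ :=
  ∑' k : ℕ, (ArithmeticFunction.moebius k : ℂ) * (k : ℂ) ^ (z - w) * ∏ p ∈ k.primeFactors, bet q (1 + z) p

/-- the generating function of the principal part -/
noncomputable def Zf (q : Par) (z w : ℂ) : ℂ := AA q (1 + z) * BB q z w

/-- the scaled limit of `Zf / L` -/
noncomputable def RR (q : Par) (t τ : ℂ) : ℂ :=
  (τ + q.a1) * (τ + q.a2) * (τ + q.a3) / ((t + q.a1) * (t + q.a2) * (t + q.a3)) *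
    ((t + q.b1) * (t + q.b2) / ((τ + q.b1) * (τ + q.b2))) / (τ - t)

/-- the local factor of `BB · AA(1+w) / ζ(1+w-z)` in terms of `X = 1/p` and numbers in the unit disc:
`a_i = p^(-(z+a_i))`, `b_j = p^(-(z+b_j))`, `ν = p^(z-w)` -/
noncomputable def hl (X : ℝ) (a1 a2 a3 b1 b2 ν : ℂ) : ℂ :=
  (1 - ν + ν * (1 - (X : ℂ))⁻¹ * ((1 - X * a1) * (1 - X * a2) * (1 - X * a3) / ((1 - X * b1) * (1 - X * b2)))) *
    ((1 - X * (ν * b1)) * (1 - X * (ν * b2)) / ((1 - X * (ν * a1)) * (1 - X * (ν * a2)) * (1 - X * (ν * a3)))) *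
    (1 - X * ν)

/-- the local factor at the prime `p` -/
noncomputable def hp (q : Par) (z w : ℂ) (p : ℕ) : ℂ :=
  hl (1 / (p : ℝ)) ((p : ℂ) ^ (-(z + q.a1))) ((p : ℂ) ^ (-(z + q.a2))) ((p : ℂ) ^ (-(z + q.a3)))
    ((p : ℂ) ^ (-(z + q.b1))) ((p : ℂ) ^ (-(z + q.b2))) ((p : ℂ) ^ (z - w))

/-- `H = ∏_p hp` -/
noncomputable def HH (q : Par) (z w : ℂ) : ℂ := ∏' p : Nat.Primes, hp q z w p

/-- Fourier-Laplace data: `P u = ∫ phat ξ exp(-(2+iξ) u) dξ` with rapidly decreasing `phat` -/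
structure FL (P : ℝ → ℂ) (ph : ℝ → ℂ) : Prop where
  meas : Measurable ph
  int : ∀ K : ℕ, Integrable fun ξ : ℝ => ‖ph ξ‖ * (1 + |ξ|) ^ K
  rep : ∀ u : ℝ, P u = ∫ ξ : ℝ, ph ξ * Complex.exp (-((2 + Complex.I * ξ) * u))

/-- parameter data: a measurable family of parameters with a weight all of whose moments are finite -/
structure PD {Θ : Type} [MeasurableSpace Θ] (ν : Measure Θ) (g : Θ → ℂ) (q : Θ → Par) (κ : Θ → ℂ) : Prop where
  mg : Measurable g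
  mκ : Measurable κ
  κle : ∃ B : ℝ, ∀ θ, ‖κ θ‖ ≤ B
  m1 : Measurable fun θ => (q θ).a1
  m2 : Measurable fun θ => (q θ).a2
  m3 : Measurable fun θ => (q θ).a3
  m4 : Measurable fun θ => (q θ).b1
  m5 : Measurable fun θ => (q θ).b2
  ok : ∀ θ, (q θ).ok
  int : ∀ K : ℕ, Integrable (fun θ => ‖g θ‖ * (q θ).nm ^ K) ν

/-- the average over the parameters of (coefficient of index `n`) times (twisted window at `r`) -/
noncomputable def cw {Θ : Type} [MeasurableSpace Θ] (ν : Measure Θ) (g : Θ → ℂ) (q : Θ → Par) (κ : Θ → ℂ)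
    (T : ℝ) (n : ℕ) (r : ℝ) : ℂ :=
  ∫ θ, g θ * cc ((q θ).sc (Real.log T)) n * winK (κ θ) T r ∂ν

/-- the averaged principal part -/
noncomputable def PRA {Θ : Type} [MeasurableSpace Θ] (ν : Measure Θ) (g : Θ → ℂ) (q : Θ → Par) (κ : Θ → ℂ)
    (x : ℕ → ℂ) (T : ℝ) : ℂ :=
  ∑' k : ℕ, x k / (k : ℂ) * ∑' n : ℕ, (rho k n : ℂ) * cw ν g q κ T n ((n : ℝ) / (k : ℝ))

/-- `x(k) = μ(k) P(log k / L)` -/
noncomputable def xx (P : ℝ → ℂ) (L : ℝ) (k : ℕ) : ℂ :=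
  (ArithmeticFunction.moebius k : ℂ) * P (Real.log k / L)

end H98.SZ
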