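import Pool.Agent.H98.SZ.Slc

/-!
# SZ / Sle: the slots of `y` and of `log * x`

Both on `Θ = ℝ × ℝ`, `ν = mc.prod volume`, `θ = (φ, η)`, weight `gc φ * ph η`. Integrability: `‖gc φ‖ ≤ 1`, `mc` finite, `(1+‖a‖+‖b‖)^K ≤ (10 (1+|η|))^K`, `FL.int`.
* `sl_y`: `u = 2+iη`, `a = u + cm φ`, `b = u` (real parts in `[2-1/4, 2+1/4]`). For `n ≥ 1`: `(pw ((u+c)/L) * mpw (u/L)) n = n^(-u/L) (pw (c/L) * mpw 0) n` (completely multiplicative twist); integrate over `φ`
  (`circ_neg` as in `sl_Lam`): `n^(-u/L) Λ(n)/L`; then over `η`: `∫ ph η n^(-u/L) dη = α(log n/L)` (`FL.rep`, `n^(-u/L) = exp(-(u log n/L))`). Use `integral_prod` (integrable: finite sum, bounded) or `integral_prod_mul` after the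
  factorization of the integrand `gc φ (pw (c/L) * mpw 0) n · ph η n^(-u/L)`. Limit factor: `∫∫ gc φ ph η (τ+u+c)/(t+u+c) (t+u)/(τ+u) = ∫ ph η (τ-t)/((t+u)(τ+u))`: inner integral `circ_neg` for `c ↦ (τ+u+c)/(t+u+c)`,
  derivative `(t-τ)/(t+u)²` at `0` (`Re (t+u) = 3`); `integral_prod_symm` needs integrability: bounded times `‖ph η‖` times polynomial.
* `sl_lx`: `a = cm φ`, `b = 2+iη`: `(pw (c/L) * mpw (b/L)) n = ∑_{kl=n} k^(-c/L) μ(l) l^(-b/L)`, the integrand is a finite sum of products of a function of `φ` and a function of `η`: `integral_finsetSum`, `integral_prod_mul`,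
  `circ_neg` and `FL.rep`: `∑_{kl = n} (log k/L) μ(l) P(log l/L)`. Limit factor: the integrand is a product `gc φ (τ+c)/(t+c) · ph η (t+b)/(τ+b)` (`integral_prod_mul`).
-/

set_option autoImplicit false

open MeasureTheory Filter Topology

namespace H98.SZ

theorem Sle_fin : IsFiniteMeasure mc := by
  unfold mc
  infer_instance

theorem Sle_ci {f : ℝ → ℂ} (hf : Continuous f) : Integrable f mc := by
  unfold mc
  exact hf.integrableOn_Ioc

theorem Sle_int {P ph : ℝ → ℂ} (h : FL P ph) {E : Type} [NormedAddCommGroup E] {f : ℝ × ℝ → E}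
    (hf : AEStronglyMeasurable f (mc.prod volume)) (C : ℝ) (K : ℕ)
    (hb : ∀ θ : ℝ × ℝ, ‖f θ‖ ≤ C * (‖ph θ.2‖ * (1 + |θ.2|) ^ K)) : Integrable f (mc.prod volume) := by
  have := Sle_fin
  have h1 : Integrable (fun θ : ℝ × ℝ => C * (‖ph θ.2‖ * (1 + |θ.2|) ^ K)) (mc.prod volume) :=
    ((h.int K).comp_snd mc).const_mul C
  exact h1.mono' hf (Filter.Eventually.of_forall hb)

theorem Sle_S2 {P ph : ℝ → ℂ} (h : FL P ph) {a b : ℝ × ℝ → ℂ} (ma : Measurable a) (mb : Measurable b)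
    (ra : ∀ θ, -(1 / 2 : ℝ) ≤ (a θ).re ∧ (a θ).re ≤ 3) (rb : ∀ θ, -(1 / 2 : ℝ) ≤ (b θ).re ∧ (b θ).re ≤ 3)
    (na : ∀ θ, ‖a θ‖ ≤ 3 + |θ.2|) (nb : ∀ θ, ‖b θ‖ ≤ 3 + |θ.2|) :
    S2 (mc.prod volume) (fun θ : ℝ × ℝ => gc θ.1 * ph θ.2) a b := by
  have mgc : Measurable gc := gc_cont.measurable
  have mph : Measurable ph := h.meas
  have mg : Measurable (fun θ : ℝ × ℝ => gc θ.1 * ph θ.2) := by fun_prop
  refine ⟨mg, ma, mb, ra, rb, fun K => ?_⟩
  refine Sle_int h ?_ (10 ^ K) K ?_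
  · exact Measurable.aestronglyMeasurable (mg.norm.mul (((measurable_const.add ma.norm).add mb.norm).pow_const K))
  · intro θ
    have h1 : ‖gc θ.1 * ph θ.2‖ ≤ ‖ph θ.2‖ := by
      rw [norm_mul]
      calc ‖gc θ.1‖ * ‖ph θ.2‖ ≤ 1 * ‖ph θ.2‖ := by gcongr; exact gc_norm _
        _ = ‖ph θ.2‖ := one_mul _
    have h2 : 1 + ‖a θ‖ + ‖b θ‖ ≤ 10 * (1 + |θ.2|) := by
      have := na θ
      have := nb θ
      have := abs_nonneg θ.2
      linarith
    have h3 : (0 : ℝ) ≤ 1 + ‖a θ‖ + ‖b θ‖ := by positivity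
    rw [Real.norm_of_nonneg (by positivity)]
    calc ‖gc θ.1 * ph θ.2‖ * (1 + ‖a θ‖ + ‖b θ‖) ^ K ≤ ‖ph θ.2‖ * (10 * (1 + |θ.2|)) ^ K := by gcongr
      _ = 10 ^ K * (‖ph θ.2‖ * (1 + |θ.2|) ^ K) := by rw [mul_pow]; ring

theorem Sle_c1 {k : ℕ} (hk : k ≠ 0) (L : ℝ) :
    ∫ φ, gc φ * (k : ℂ) ^ (-(cm φ / (L : ℂ))) ∂mc = ((Real.log k / L : ℝ) : ℂ) := by
  have hk' : (k : ℂ) ≠ 0 := by exact_mod_cast hk
  have hd : ∀ c : ℂ, HasDerivAt (fun c : ℂ => (k : ℂ) ^ (-(c / (L : ℂ)))) ((k : ℂ) ^ (-(c / (L : ℂ))) * Complex.log k * (-(1 / (L : ℂ)))) c := by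
    intro c
    exact HasDerivAt.const_cpow (((hasDerivAt_id c).div_const (L : ℂ)).neg) (Or.inl hk')
  have h1 := circ_neg (f := fun c : ℂ => (k : ℂ) ^ (-(c / (L : ℂ)))) (fun c _ => (hd c).differentiableAt.differentiableWithinAt)
  rw [h1, (hd 0).deriv, ← Complex.natCast_log]
  push_cast
  simp
  ring

theorem Sle_cn {k : ℕ} (hk : k ≠ 0) (L : ℝ) : Continuous fun φ => gc φ * (k : ℂ) ^ (-(cm φ / (L : ℂ))) := by
  have hk' : (k : ℂ) ≠ 0 := by exact_mod_cast hk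
  exact gc_cont.mul (Continuous.const_cpow ((cm_cont.div_const _).neg) (Or.inl hk'))

theorem Sle_pw {k : ℕ} (hk : k ≠ 0) (a : ℂ) : pw a k = (k : ℂ) ^ (-a) := by
  simp [pw, hk]

theorem Sle_mpw {k : ℕ} (hk : k ≠ 0) (a : ℂ) : mpw a k = (ArithmeticFunction.moebius k : ℂ) * (k : ℂ) ^ (-a) := by
  simp [mpw, hk]

theorem Sle_rep {P ph : ℝ → ℂ} (h : FL P ph) {k : ℕ} (hk : k ≠ 0) (L : ℝ) :
    ∫ η : ℝ, ph η * (k : ℂ) ^ (-((2 + Complex.I * η) / (L : ℂ))) = P (Real.log k / L) := by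
  have hk' : (k : ℂ) ≠ 0 := by exact_mod_cast hk
  rw [h.rep]
  refine integral_congr_ae (Filter.Eventually.of_forall fun η => ?_)
  simp only
  rw [Complex.cpow_def_of_ne_zero hk', ← Complex.natCast_log]
  congr 2
  push_cast
  ring

theorem Sle_I (η : ℝ) : (2 + Complex.I * (η : ℂ)).re = 2 ∧ ‖(2 + Complex.I * (η : ℂ))‖ ≤ 2 + |η| := by
  refine ⟨by simp, ?_⟩
  calc ‖(2 + Complex.I * (η : ℂ))‖ ≤ ‖(2 : ℂ)‖ + ‖Complex.I * (η : ℂ)‖ := norm_add_le _ _
    _ = 2 + |η| := by simp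

theorem Sle_re (φ : ℝ) : -(1 / 4 : ℝ) ≤ (cm φ).re ∧ (cm φ).re ≤ 1 / 4 := by
  have h := Complex.abs_re_le_norm (cm φ)
  rw [cm_norm] at h
  exact abs_le.mp h

theorem Sle_mu {k : ℕ} (hk : k ≠ 0) (L : ℝ) :
    ∫ φ, gc φ * (pw (cm φ / (L : ℂ)) * mpw 0) k ∂mc = ((ArithmeticFunction.vonMangoldt k / L : ℝ) : ℂ) := by
  have hx : ∀ x ∈ Nat.divisorsAntidiagonal k, x.1 ≠ 0 ∧ x.2 ≠ 0 := by
    intro x hx
    have := Nat.mem_divisorsAntidiagonal.mp hx
    constructor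
    · rintro h0; rw [h0, zero_mul] at this; exact hk this.1.symm
    · rintro h0; rw [h0, mul_zero] at this; exact hk this.1.symm
  have h1 : ∀ φ, gc φ * (pw (cm φ / (L : ℂ)) * mpw 0) k =
      ∑ x ∈ Nat.divisorsAntidiagonal k, (gc φ * (x.1 : ℂ) ^ (-(cm φ / (L : ℂ)))) * (ArithmeticFunction.moebius x.2 : ℂ) := by
    intro φ
    rw [ArithmeticFunction.mul_apply, Finset.mul_sum]
    refine Finset.sum_congr rfl fun x hxx => ?_
    rw [Sle_pw (hx x hxx).1, Sle_mpw (hx x hxx).2]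
    simp
    ring
  simp only [h1]
  rw [integral_finsetSum _ (fun x hxx => (Sle_ci (Sle_cn (hx x hxx).1 L)).mul_const _)]
  have h2 : ∀ x ∈ Nat.divisorsAntidiagonal k, ∫ φ, (gc φ * (x.1 : ℂ) ^ (-(cm φ / (L : ℂ)))) * (ArithmeticFunction.moebius x.2 : ℂ) ∂mc =
      ((Real.log x.1 * (ArithmeticFunction.moebius x.2 : ℝ) / L : ℝ) : ℂ) := by
    intro x hxx
    rw [integral_mul_const, Sle_c1 (hx x hxx).1]
    push_cast
    ring
  rw [Finset.sum_congr rfl h2, ← Complex.ofReal_sum, ← Finset.sum_div]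
  congr 2
  have h3 : (ArithmeticFunction.log * (ArithmeticFunction.moebius : ArithmeticFunction ℝ)) k = ArithmeticFunction.vonMangoldt k := by
    rw [ArithmeticFunction.log_mul_moebius_eq_vonMangoldt]
  rw [ArithmeticFunction.mul_apply] at h3
  rw [← h3]
  refine Finset.sum_congr rfl fun x _ => ?_
  simp [ArithmeticFunction.log_apply, ArithmeticFunction.intCoe_apply]

theorem Sle_frac {t τ : ℂ} (ht : ∀ c ∈ Metric.closedBall (0 : ℂ) (1 / 4), t + c ≠ 0) :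
    ∫ φ, gc φ * ((τ + cm φ) / (t + cm φ)) ∂mc = (τ - t) / t ^ 2 := by
  have ht0 : t ≠ 0 := by
    have := ht 0 (by simp)
    simpa using this
  have hd : ∀ c : ℂ, t + c ≠ 0 → HasDerivAt (fun c : ℂ => (τ + c) / (t + c)) ((1 * (t + c) - (τ + c) * 1) / (t + c) ^ 2) c := by
    intro c hc
    exact HasDerivAt.div ((hasDerivAt_id c).const_add τ) ((hasDerivAt_id c).const_add t) hc
  have h1 := circ_neg (f := fun c : ℂ => (τ + c) / (t + c)) (fun c hc => (hd c (ht c hc)).differentiableAt.differentiableWithinAt)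
  rw [h1, (hd 0 (by simpa using ht0)).deriv]
  simp
  field_simp
  ring

theorem sl_y {α ah : ℝ → ℂ} (h : FL α ah) :
    Sl2 (yF α) (fun t τ => ∫ η : ℝ, ah η * ((τ - t) / ((t + (2 + Complex.I * η)) * (τ + (2 + Complex.I * η))))) := by
  have := Sle_fin
  have mgc : Measurable gc := gc_cont.measurable
  have mcm : Measurable cm := cm_cont.measurable
  have mah : Measurable ah := h.meas
  refine ⟨ℝ × ℝ, inferInstance, mc.prod volume, inferInstance, fun θ : ℝ × ℝ => gc θ.1 * ah θ.2,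
    fun θ => (2 + Complex.I * (θ.2 : ℂ)) + cm θ.1, fun θ => 2 + Complex.I * (θ.2 : ℂ), ?_, ?_, ?_⟩
  · refine Sle_S2 h (by fun_prop) (by fun_prop) ?_ ?_ ?_ ?_
    · intro θ
      have h1 := Sle_re θ.1
      rw [Complex.add_re, (Sle_I θ.2).1]
      constructor <;> linarith [h1.1, h1.2]
    · intro θ
      rw [(Sle_I θ.2).1]
      norm_num
    · intro θ
      calc ‖(2 + Complex.I * (θ.2 : ℂ)) + cm θ.1‖ ≤ ‖(2 + Complex.I * (θ.2 : ℂ))‖ + ‖cm θ.1‖ := norm_add_le _ _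
        _ ≤ (2 + |θ.2|) + 1 / 4 := by rw [cm_norm]; gcongr; exact (Sle_I θ.2).2
        _ ≤ 3 + |θ.2| := by linarith
    · intro θ
      have := (Sle_I θ.2).2
      linarith
  · intro L _
    ext k
    by_cases hk : k = 0
    · subst hk
      simp
    have hk' : (k : ℂ) ≠ 0 := by exact_mod_cast hk
    have hx : ∀ x ∈ Nat.divisorsAntidiagonal k, x.1 ≠ 0 ∧ x.2 ≠ 0 ∧ x.1 * x.2 = k := by
      intro x hx
      have := Nat.mem_divisorsAntidiagonal.mp hx
      refine ⟨?_, ?_, this.1⟩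
      · rintro h0; rw [h0, zero_mul] at this; exact hk this.1.symm
      · rintro h0; rw [h0, mul_zero] at this; exact hk this.1.symm
    have key : ∀ u c : ℂ, (pw ((u + c) / (L : ℂ)) * mpw (u / (L : ℂ))) k = (pw (c / (L : ℂ)) * mpw 0) k * (k : ℂ) ^ (-(u / (L : ℂ))) := by
      intro u c
      rw [ArithmeticFunction.mul_apply, ArithmeticFunction.mul_apply, Finset.sum_mul]
      refine Finset.sum_congr rfl fun x hxx => ?_
      obtain ⟨h1, h2, h3⟩ := hx x hxx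
      have h1' : (x.1 : ℂ) ≠ 0 := by exact_mod_cast h1
      rw [Sle_pw h1, Sle_mpw h2, Sle_pw h1, Sle_mpw h2, ← h3, Nat.cast_mul, Complex.natCast_mul_natCast_cpow,
        show -((u + c) / (L : ℂ)) = -(u / (L : ℂ)) + -(c / (L : ℂ)) by ring, Complex.cpow_add _ _ h1']
      simp
      ring
    change ∫ θ : ℝ × ℝ, (gc θ.1 * ah θ.2) * (pw (((2 + Complex.I * (θ.2 : ℂ)) + cm θ.1) / (L : ℂ)) * mpw ((2 + Complex.I * (θ.2 : ℂ)) / (L : ℂ))) k ∂(mc.prod volume) =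
      ((ArithmeticFunction.vonMangoldt k / L : ℝ) : ℂ) * α (Real.log k / L)
    have h2 : ∀ θ : ℝ × ℝ, (gc θ.1 * ah θ.2) * (pw (((2 + Complex.I * (θ.2 : ℂ)) + cm θ.1) / (L : ℂ)) * mpw ((2 + Complex.I * (θ.2 : ℂ)) / (L : ℂ))) k =
        (gc θ.1 * (pw (cm θ.1 / (L : ℂ)) * mpw 0) k) * (ah θ.2 * (k : ℂ) ^ (-((2 + Complex.I * (θ.2 : ℂ)) / (L : ℂ)))) := by
      intro θ
      rw [key]
      ring
    simp only [h2]
    rw [integral_prod_mul (fun φ => gc φ * (pw (cm φ / (L : ℂ)) * mpw 0) k) (fun η : ℝ => ah η * (k : ℂ) ^ (-((2 + Complex.I * (η : ℂ)) / (L : ℂ)))),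
      Sle_mu hk, Sle_rep h hk]
  · intro y ξ
    unfold R2
    set t : ℂ := 1 + Complex.I * (y : ℂ) with ht
    set τ : ℂ := 2 + Complex.I * (ξ : ℂ) with hτ
    have htre : t.re = 1 := by simp [ht]
    have hτre : τ.re = 2 := by simp [hτ]
    have n1 : ∀ θ : ℝ × ℝ, 1 ≤ ‖t + ((2 + Complex.I * (θ.2 : ℂ)) + cm θ.1)‖ := by
      intro θ
      have h1 := Complex.re_le_norm (t + ((2 + Complex.I * (θ.2 : ℂ)) + cm θ.1))
      rw [Complex.add_re t, Complex.add_re (2 + Complex.I * (θ.2 : ℂ)) (cm θ.1), (Sle_I θ.2).1, htre] at h1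
      have := (Sle_re θ.1).1
      linarith
    have n2 : ∀ η : ℝ, 1 ≤ ‖τ + (2 + Complex.I * (η : ℂ))‖ := by
      intro η
      have h1 := Complex.re_le_norm (τ + (2 + Complex.I * (η : ℂ)))
      rw [Complex.add_re, (Sle_I η).1, hτre] at h1
      linarith
    have n3 : ∀ η : ℝ, 1 ≤ ‖t + (2 + Complex.I * (η : ℂ))‖ := by
      intro η
      have h1 := Complex.re_le_norm (t + (2 + Complex.I * (η : ℂ)))
      rw [Complex.add_re, (Sle_I η).1, htre] at h1
      linarith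
    have hI : Integrable (fun θ : ℝ × ℝ => gc θ.1 * ah θ.2 * ((τ + ((2 + Complex.I * (θ.2 : ℂ)) + cm θ.1)) / (t + ((2 + Complex.I * (θ.2 : ℂ)) + cm θ.1)) *
        ((t + (2 + Complex.I * (θ.2 : ℂ))) / (τ + (2 + Complex.I * (θ.2 : ℂ)))))) (mc.prod volume) := by
      refine Sle_int h ?_ ((‖τ‖ + 3) * (‖t‖ + 3)) 2 ?_
      · exact Measurable.aestronglyMeasurable (by fun_prop)
      · intro θ
        have hη := abs_nonneg θ.2
        have b1 : ‖gc θ.1‖ ≤ 1 := gc_norm _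
        have b2 : ‖τ + ((2 + Complex.I * (θ.2 : ℂ)) + cm θ.1)‖ ≤ (‖τ‖ + 3) * (1 + |θ.2|) := by
          have h1 : ‖τ + ((2 + Complex.I * (θ.2 : ℂ)) + cm θ.1)‖ ≤ ‖τ‖ + (‖(2 + Complex.I * (θ.2 : ℂ))‖ + ‖cm θ.1‖) :=
            (norm_add_le _ _).trans (by gcongr; exact norm_add_le _ _)
          rw [cm_norm] at h1
          have h2 := (Sle_I θ.2).2
          nlinarith [norm_nonneg τ, mul_nonneg (norm_nonneg τ) hη]
        have b3 : ‖t + (2 + Complex.I * (θ.2 : ℂ))‖ ≤ (‖t‖ + 3) * (1 + |θ.2|) := by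
          have h1 := norm_add_le t (2 + Complex.I * (θ.2 : ℂ))
          have h2 := (Sle_I θ.2).2
          nlinarith [norm_nonneg t, mul_nonneg (norm_nonneg t) hη]
        have b4 : ‖(τ + ((2 + Complex.I * (θ.2 : ℂ)) + cm θ.1)) / (t + ((2 + Complex.I * (θ.2 : ℂ)) + cm θ.1))‖ ≤ (‖τ‖ + 3) * (1 + |θ.2|) := by
          rw [norm_div]
          exact (div_le_self (norm_nonneg _) (n1 θ)).trans b2
        have b5 : ‖(t + (2 + Complex.I * (θ.2 : ℂ))) / (τ + (2 + Complex.I * (θ.2 : ℂ)))‖ ≤ (‖t‖ + 3) * (1 + |θ.2|) := by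
          rw [norm_div]
          exact (div_le_self (norm_nonneg _) (n2 θ.2)).trans b3
        rw [norm_mul, norm_mul, norm_mul]
        calc ‖gc θ.1‖ * ‖ah θ.2‖ * (‖(τ + ((2 + Complex.I * (θ.2 : ℂ)) + cm θ.1)) / (t + ((2 + Complex.I * (θ.2 : ℂ)) + cm θ.1))‖ *
              ‖(t + (2 + Complex.I * (θ.2 : ℂ))) / (τ + (2 + Complex.I * (θ.2 : ℂ)))‖)
            ≤ 1 * ‖ah θ.2‖ * (((‖τ‖ + 3) * (1 + |θ.2|)) * ((‖t‖ + 3) * (1 + |θ.2|))) := by gcongr
          _ = (‖τ‖ + 3) * (‖t‖ + 3) * (‖ah θ.2‖ * (1 + |θ.2|) ^ 2) := by ring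
    rw [integral_prod_symm _ hI]
    refine integral_congr_ae (Filter.Eventually.of_forall fun η => ?_)
    simp only
    set u : ℂ := 2 + Complex.I * (η : ℂ) with hu
    have hune : ∀ c ∈ Metric.closedBall (0 : ℂ) (1 / 4), (t + u) + c ≠ 0 := by
      intro c hc h0
      have h1 : ‖c‖ ≤ 1 / 4 := by simpa using hc
      have h2 := Complex.abs_re_le_norm c
      have h3 : ((t + u) + c).re = 0 := by rw [h0]; simp
      rw [Complex.add_re (t + u) c, Complex.add_re t u, (Sle_I η).1, htre] at h3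
      have := (abs_le.mp (h2.trans h1)).1
      linarith
    have e1 : ∀ φ : ℝ, gc φ * ah η * ((τ + (u + cm φ)) / (t + (u + cm φ)) * ((t + u) / (τ + u))) =
        (gc φ * (((τ + u) + cm φ) / ((t + u) + cm φ))) * (ah η * ((t + u) / (τ + u))) := by
      intro φ
      rw [add_assoc τ, add_assoc t]
      ring
    simp only [e1]
    rw [integral_mul_const, Sle_frac hune]
    have m1 : t + u ≠ 0 := by
      intro h0
      have := n3 η
      rw [← hu, h0, norm_zero] at this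
      linarith
    have m2 : τ + u ≠ 0 := by
      intro h0
      have := n2 η
      rw [← hu, h0, norm_zero] at this
      linarith
    field_simp
    ring

theorem sl_lx {P ph : ℝ → ℂ} (h : FL P ph) :
    Sl2 (fun L => lgF L * xF P L) (fun t τ => (τ - t) / t ^ 2 * ∫ η : ℝ, ph η * ((t + (2 + Complex.I * η)) / (τ + (2 + Complex.I * η)))) := by
  have := Sle_fin
  have mgc : Measurable gc := gc_cont.measurable
  have mcm : Measurable cm := cm_cont.measurable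
  have mph : Measurable ph := h.meas
  refine ⟨ℝ × ℝ, inferInstance, mc.prod volume, inferInstance, fun θ : ℝ × ℝ => gc θ.1 * ph θ.2,
    fun θ => cm θ.1, fun θ => 2 + Complex.I * (θ.2 : ℂ), ?_, ?_, ?_⟩
  · refine Sle_S2 h (by fun_prop) (by fun_prop) ?_ ?_ ?_ ?_
    · intro θ
      have h1 := Sle_re θ.1
      constructor <;> linarith [h1.1, h1.2]
    · intro θ
      rw [(Sle_I θ.2).1]
      norm_num
    · intro θ
      rw [cm_norm]
      have := abs_nonneg θ.2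
      linarith
    · intro θ
      have := (Sle_I θ.2).2
      linarith
  · intro L _
    ext k
    by_cases hk : k = 0
    · subst hk
      simp
    have hx : ∀ x ∈ Nat.divisorsAntidiagonal k, x.1 ≠ 0 ∧ x.2 ≠ 0 := by
      intro x hx
      have := Nat.mem_divisorsAntidiagonal.mp hx
      constructor
      · rintro h0; rw [h0, zero_mul] at this; exact hk this.1.symm
      · rintro h0; rw [h0, mul_zero] at this; exact hk this.1.symm
    change ∫ θ : ℝ × ℝ, (gc θ.1 * ph θ.2) * (pw (cm θ.1 / (L : ℂ)) * mpw ((2 + Complex.I * (θ.2 : ℂ)) / (L : ℂ))) k ∂(mc.prod volume) = _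
    have h2 : ∀ θ : ℝ × ℝ, (gc θ.1 * ph θ.2) * (pw (cm θ.1 / (L : ℂ)) * mpw ((2 + Complex.I * (θ.2 : ℂ)) / (L : ℂ))) k =
        ∑ x ∈ Nat.divisorsAntidiagonal k, ((ArithmeticFunction.moebius x.2 : ℂ) * (gc θ.1 * (x.1 : ℂ) ^ (-(cm θ.1 / (L : ℂ))))) *
          (ph θ.2 * (x.2 : ℂ) ^ (-((2 + Complex.I * (θ.2 : ℂ)) / (L : ℂ)))) := by
      intro θ
      rw [ArithmeticFunction.mul_apply, Finset.mul_sum]
      refine Finset.sum_congr rfl fun x hxx => ?_
      rw [Sle_pw (hx x hxx).1, Sle_mpw (hx x hxx).2]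
      ring
    simp only [h2]
    have hph : ∀ x ∈ Nat.divisorsAntidiagonal k, Integrable (fun η : ℝ => ph η * (x.2 : ℂ) ^ (-((2 + Complex.I * (η : ℂ)) / (L : ℂ)))) := by
      intro x hxx
      have h0 := h.int 0
      simp only [pow_zero, mul_one] at h0
      have hx2 : (x.2 : ℂ) ≠ 0 := by exact_mod_cast (hx x hxx).2
      have hx2' : (0 : ℝ) < x.2 := by exact_mod_cast Nat.pos_of_ne_zero (hx x hxx).2
      have hc : Continuous fun η : ℝ => (x.2 : ℂ) ^ (-((2 + Complex.I * (η : ℂ)) / (L : ℂ))) :=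
        Continuous.const_cpow (by fun_prop) (Or.inl hx2)
      refine Integrable.mono' (h0.const_mul ((x.2 : ℝ) ^ (-(2 / L)))) (mph.mul hc.measurable).aestronglyMeasurable
        (Filter.Eventually.of_forall fun η => ?_)
      rw [norm_mul, mul_comm]
      gcongr
      rw [show ((x.2 : ℂ)) = (((x.2 : ℝ)) : ℂ) by push_cast; rfl, Complex.norm_cpow_eq_rpow_re_of_pos hx2']
      apply le_of_eq
      congr 1
      rw [Complex.neg_re, Complex.div_ofReal_re]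
      simp
    rw [integral_finsetSum]
    · rw [ArithmeticFunction.mul_apply]
      refine Finset.sum_congr rfl fun x hxx => ?_
      rw [integral_prod_mul (fun φ => (ArithmeticFunction.moebius x.2 : ℂ) * (gc φ * (x.1 : ℂ) ^ (-(cm φ / (L : ℂ)))))
        (fun η : ℝ => ph η * (x.2 : ℂ) ^ (-((2 + Complex.I * (η : ℂ)) / (L : ℂ)))), integral_const_mul, Sle_c1 (hx x hxx).1, Sle_rep h (hx x hxx).2]
      simp only [lgF, xF, ArithmeticFunction.coe_mk]
      ring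
    · intro x hxx
      exact Integrable.mul_prod ((Sle_ci (Sle_cn (hx x hxx).1 L)).const_mul _) (hph x hxx)
  · intro y ξ
    unfold R2
    set t : ℂ := 1 + Complex.I * (y : ℂ) with ht
    set τ : ℂ := 2 + Complex.I * (ξ : ℂ) with hτ
    have htre : t.re = 1 := by simp [ht]
    have hne : ∀ c ∈ Metric.closedBall (0 : ℂ) (1 / 4), t + c ≠ 0 := by
      intro c hc h0
      have h1 : ‖c‖ ≤ 1 / 4 := by simpa using hc
      have h2 := Complex.abs_re_le_norm c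
      have h3 : (t + c).re = 0 := by rw [h0]; simp
      rw [Complex.add_re, htre] at h3
      have := (abs_le.mp (h2.trans h1)).1
      linarith
    have e1 : ∀ θ : ℝ × ℝ, gc θ.1 * ph θ.2 * ((τ + cm θ.1) / (t + cm θ.1) * ((t + (2 + Complex.I * (θ.2 : ℂ))) / (τ + (2 + Complex.I * (θ.2 : ℂ))))) =
        (gc θ.1 * ((τ + cm θ.1) / (t + cm θ.1))) * (ph θ.2 * ((t + (2 + Complex.I * (θ.2 : ℂ))) / (τ + (2 + Complex.I * (θ.2 : ℂ))))) := by
      intro θ
      ring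
    simp only [e1]
    rw [integral_prod_mul (fun φ => gc φ * ((τ + cm φ) / (t + cm φ))) (fun η : ℝ => ph η * ((t + (2 + Complex.I * (η : ℂ))) / (τ + (2 + Complex.I * (η : ℂ))))),
      Sle_frac hne]

end H98.SZ
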