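import Pool.Agent.H98.SZ.Defs

/-!
# SZ / Slf: Fourier-Laplace data of smooth compactly supported functions

`f u = P u * exp(2u)` is smooth with compact support, hence a Schwartz function (`HasCompactSupport.toSchwartzMap`). With Mathlib's transforms (`𝓕 g w = ∫ exp(-2πi v w) g v dv`) put `G = 𝓕⁻ f` (Schwartz),
`ph ξ = (1/2π) G(ξ/(2π))`. Then `f u = 𝓕 G u = ∫ exp(-2πi u v) G v dv = ∫ exp(-i u ξ) ph ξ dξ` (substitution `ξ = 2π v`, `Measure.integral_comp_div` or `integral_comp_mul_left`), so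
`P u = exp(-2u) f u = ∫ ph ξ exp(-((2+iξ) u)) dξ`. `ph` is continuous; all moments: Schwartz decay (`SchwartzMap.integrable_pow_mul` or `decay`), rescaled.
Also real-valued variant: if `P` is real valued nothing more is needed.
-/

set_option autoImplicit false

open MeasureTheory Filter Topology

namespace H98.SZ

open scoped FourierTransform SchwartzMap in
theorem Slf_aux (G : 𝓢(ℝ, ℂ)) (K : ℕ) : Integrable fun v : ℝ => 1 / (2 * Real.pi) * ‖G v‖ * (1 + 2 * Real.pi * |v|) ^ K := by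
  have hpi := Real.pi_pos
  have h0 : Integrable fun v : ℝ => ‖G v‖ := G.integrable.norm
  have hK : Integrable fun v : ℝ => ‖v‖ ^ K * ‖G v‖ := G.integrable_pow_mul volume K
  have hb : Integrable fun v : ℝ => 1 / (2 * Real.pi) * 2 ^ (K - 1) * (‖G v‖ + (2 * Real.pi) ^ K * (‖v‖ ^ K * ‖G v‖)) :=
    (h0.add (hK.const_mul _)).const_mul _
  refine hb.mono' ?_ ?_
  · apply Continuous.aestronglyMeasurable
    have hG : Continuous G := G.continuous
    fun_prop
  · refine Filter.Eventually.of_forall ?_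
    intro v
    have hv := abs_nonneg v
    have hG := norm_nonneg (G v)
    have h1 : (1 + 2 * Real.pi * |v|) ^ K ≤ 2 ^ (K - 1) * (1 ^ K + (2 * Real.pi * |v|) ^ K) :=
      add_pow_le zero_le_one (by positivity) K
    rw [Real.norm_of_nonneg (by positivity)]
    calc 1 / (2 * Real.pi) * ‖G v‖ * (1 + 2 * Real.pi * |v|) ^ K
        ≤ 1 / (2 * Real.pi) * ‖G v‖ * (2 ^ (K - 1) * (1 ^ K + (2 * Real.pi * |v|) ^ K)) :=
          mul_le_mul_of_nonneg_left h1 (by positivity)
      _ = 1 / (2 * Real.pi) * 2 ^ (K - 1) * (‖G v‖ + (2 * Real.pi) ^ K * (‖v‖ ^ K * ‖G v‖)) := by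
          rw [one_pow, mul_pow, Real.norm_eq_abs]
          ring

open scoped FourierTransform SchwartzMap in
theorem FL_exists {P : ℝ → ℂ} (h1 : ContDiff ℝ (⊤ : ℕ∞) P) (h2 : HasCompactSupport P) : ∃ ph : ℝ → ℂ, FL P ph := by
  have hpi := Real.pi_pos
  have hpi2 : (2 * Real.pi : ℝ) ≠ 0 := by positivity
  have hf1 : ContDiff ℝ (⊤ : ℕ∞) (fun u : ℝ => P u * Complex.exp (2 * (u : ℂ))) := by
    apply h1.mul
    apply ContDiff.cexp
    exact contDiff_const.mul Complex.ofRealCLM.contDiff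
  have hf2 : HasCompactSupport (fun u : ℝ => P u * Complex.exp (2 * (u : ℂ))) := h2.mul_right
  let g : 𝓢(ℝ, ℂ) := hf2.toSchwartzMap hf1
  have hg : ∀ u : ℝ, g u = P u * Complex.exp (2 * (u : ℂ)) := fun u => rfl
  let G : 𝓢(ℝ, ℂ) := 𝓕⁻ g
  have hGc : Continuous G := G.continuous
  have hFG : 𝓕 G = g := FourierTransform.fourier_fourierInv_eq g
  refine ⟨fun ξ => ((1 / (2 * Real.pi) : ℝ) : ℂ) * G (ξ / (2 * Real.pi)), ?_, ?_, ?_⟩
  · apply Continuous.measurable
    fun_prop
  · intro K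
    have h := (Slf_aux G K).comp_div hpi2
    refine h.congr ?_
    refine Filter.Eventually.of_forall ?_
    intro ξ
    show 1 / (2 * Real.pi) * ‖G (ξ / (2 * Real.pi))‖ * (1 + 2 * Real.pi * |ξ / (2 * Real.pi)|) ^ K =
      ‖((1 / (2 * Real.pi) : ℝ) : ℂ) * G (ξ / (2 * Real.pi))‖ * (1 + |ξ|) ^ K
    rw [norm_mul, Complex.norm_real, Real.norm_of_nonneg (by positivity : (0 : ℝ) ≤ 1 / (2 * Real.pi)), abs_div,
      abs_of_pos (by positivity : (0 : ℝ) < 2 * Real.pi), mul_div_cancel₀ _ hpi2]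
  · intro u
    have e1 : P u = Complex.exp (-(2 * (u : ℂ))) * g u := by
      rw [hg, mul_comm (P u), ← mul_assoc, ← Complex.exp_add, neg_add_cancel, Complex.exp_zero, one_mul]
    have e2 : g u = ∫ v : ℝ, Complex.exp (((-2 * Real.pi * v * u : ℝ) : ℂ) * Complex.I) • G v := by
      have h := Real.fourier_real_eq_integral_exp_smul (G : ℝ → ℂ) u
      rw [← SchwartzMap.fourier_coe, hFG] at h
      exact h
    have e3 := MeasureTheory.Measure.integral_comp_div
      (fun v : ℝ => G v * Complex.exp (-((2 + Complex.I * ((2 * Real.pi * v : ℝ) : ℂ)) * u))) (2 * Real.pi)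
    have e4 : (∫ ξ : ℝ, ((1 / (2 * Real.pi) : ℝ) : ℂ) * G (ξ / (2 * Real.pi)) * Complex.exp (-((2 + Complex.I * ξ) * u))) =
        ∫ ξ : ℝ, ((1 / (2 * Real.pi) : ℝ) : ℂ) * (G (ξ / (2 * Real.pi)) *
          Complex.exp (-((2 + Complex.I * ((2 * Real.pi * (ξ / (2 * Real.pi)) : ℝ) : ℂ)) * u))) := by
      congr 1
      funext ξ
      rw [mul_div_cancel₀ _ hpi2, mul_assoc]
    rw [e4, integral_const_mul, e3, e1, e2, ← integral_const_mul, abs_of_pos (by positivity : (0 : ℝ) < 2 * Real.pi),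
      Complex.real_smul, ← mul_assoc, ← Complex.ofReal_mul, one_div, inv_mul_cancel₀ hpi2, Complex.ofReal_one, one_mul]
    congr 1
    funext v
    rw [smul_eq_mul, ← mul_assoc, ← Complex.exp_add, mul_comm]
    congr 2
    push_cast
    ring

end H98.SZ
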