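import Pool.Agent.H98.SZ.Slb
import Pool.Agent.H98.SZ.Sle
import Pool.Agent.H98.SZ.Slf

/-!
# SZ / Nfg: normal form of all main terms

`NFg` is `NF` for the slots given by `Sl1`, `Sl2`, and the window slot `sk_SK`, `sk_WK`, `sk_RK` (for `T ≥ 3`; `Tendsto.congr'`; the coefficient functions agree for `log T ≥ 1`, the limits agree pointwise in `(ξ, y)`).
-/

set_option autoImplicit false

open MeasureTheory Filter Topology

namespace H98.SZ

/-- the limit functional in normal form -/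
noncomputable def NL (ph : ℝ → ℂ) (R : ℂ → ℂ → ℂ) : ℂ :=
  ∫ ξ : ℝ, ∫ y : ℝ, NI ph R 1 ξ y

theorem Nfg_NI {ph : ℝ → ℂ} {R R' : ℂ → ℂ → ℂ} {c c' : ℂ} (hc : c = c')
    (h : ∀ y ξ : ℝ, R (1 + Complex.I * y) (2 + Complex.I * ξ) = R' (1 + Complex.I * y) (2 + Complex.I * ξ)) (ξ y : ℝ) :
    NI ph R c ξ y = NI ph R' c' ξ y := by
  unfold NI
  rw [h y ξ, hc]

theorem Nfg_log {T : ℝ} (hT : 3 ≤ T) : 1 ≤ Real.log T := by
  have h1 : Real.exp 1 ≤ 3 := by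
    have := Real.exp_one_lt_d9
    linarith
  have h2 : Real.log (Real.exp 1) ≤ Real.log T :=
    Real.log_le_log (Real.exp_pos 1) (h1.trans hT)
  rwa [Real.log_exp] at h2

theorem NFg {A B C : ℝ → ArithmeticFunction ℂ} {RA RB RC : ℂ → ℂ → ℂ} (hA : Sl1 A RA) (hB : Sl2 B RB) (hC : Sl2 C RC) (j : ℕ)
    {P ph : ℝ → ℂ} (hP : FL P ph) :
    Tendsto (fun T : ℝ => PRIN (xx P (Real.log T)) (fun n => (A (Real.log T) * B (Real.log T) * C (Real.log T)) n)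
        (fun r => wj j T r / (Real.log T : ℂ) ^ j) / (om T : ℂ)) atTop
      (𝓝 (NL ph (fun t τ => RA t τ * RB t τ * RC t τ))) := by
  obtain ⟨Θ1, i1, ν1, j1, g1, a1, s1, f1, r1⟩ := hA
  obtain ⟨Θ2, i2, ν2, j2, g2, a2, b2, s2, f2, r2⟩ := hB
  obtain ⟨Θ3, i3, ν3, j3, g3, a3, b3, s3, f3, r3⟩ := hC
  have : SFinite mc := by
    unfold mc
    infer_instance
  have h := NF s1 s2 s3 (sk_SK j) hP
  have hlim : (∫ ξ : ℝ, ∫ y : ℝ, NI ph (fun t τ => R1 ν1 g1 a1 t τ * R2 ν2 g2 a2 b2 t τ * R2 ν3 g3 a3 b3 t τ)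
      (RK mc (gj j) cm) ξ y) = NL ph (fun t τ => RA t τ * RB t τ * RC t τ) := by
    unfold NL
    refine integral_congr_ae (Filter.Eventually.of_forall fun ξ => ?_)
    refine integral_congr_ae (Filter.Eventually.of_forall fun y => ?_)
    refine Nfg_NI (sk_RK j) (fun y ξ => ?_) ξ y
    simp only [r1 y ξ, r2 y ξ, r3 y ξ]
  rw [hlim] at h
  refine h.congr' ?_
  filter_upwards [Filter.eventually_ge_atTop (3 : ℝ)] with T hT
  have hL := Nfg_log hT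
  have e1 : F1 ν1 g1 a1 (Real.log T) = A (Real.log T) := f1 _ hL
  have e2 : F2 ν2 g2 a2 b2 (Real.log T) = B (Real.log T) := f2 _ hL
  have e3 : F2 ν3 g3 a3 b3 (Real.log T) = C (Real.log T) := f3 _ hL
  have e4 : WK mc (gj j) cm T = fun r => wj j T r / (Real.log T : ℂ) ^ j := by
    funext r
    exact sk_WK j hT r
  rw [e1, e2, e3, e4]

theorem NFg_int {A B C : ℝ → ArithmeticFunction ℂ} {RA RB RC : ℂ → ℂ → ℂ} (hA : Sl1 A RA) (hB : Sl2 B RB) (hC : Sl2 C RC)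
    {P ph : ℝ → ℂ} (hP : FL P ph) :
    Integrable (fun p : ℝ × ℝ => NI ph (fun t τ => RA t τ * RB t τ * RC t τ) 1 p.1 p.2) (volume.prod volume) := by
  obtain ⟨Θ1, i1, ν1, j1, g1, a1, s1, f1, r1⟩ := hA
  obtain ⟨Θ2, i2, ν2, j2, g2, a2, b2, s2, f2, r2⟩ := hB
  obtain ⟨Θ3, i3, ν3, j3, g3, a3, b3, s3, f3, r3⟩ := hC
  have : SFinite mc := by
    unfold mc
    infer_instance
  have h := NF_int s1 s2 s3 (sk_SK 0) hP
  refine h.congr (Filter.Eventually.of_forall fun p => ?_)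
  refine Nfg_NI (sk_RK 0) (fun y ξ => ?_) p.1 p.2
  simp only [r1 y ξ, r2 y ξ, r3 y ξ]

end H98.SZ
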