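import Pool.Agent.H98.SZ.Hbd

/-!
# SZ / Bsm: the series `BB` converges absolutely, with a fixed majorant

Let `C` be the constant of `bet_bound` and `mj C δ k = ∏_{p | k} (C p^(-1-δ))` for squarefree `k ≥ 1`, `0` otherwise. Under the hypotheses
`‖μ(k) k^(z-w) ∏_{p|k} bet‖ ≤ k^(Re(z-w)) ∏ (C/p) ≤ ∏_{p|k} p^(-δ) C/p` (`k` squarefree: `k = ∏_{p | k} p`, `Nat.prod_primeFactors_of_squarefree`).
Summable: for every finite set of `k ≤ N` the sum is at most `∏_{p ≤ N} (1 + C p^(-1-δ))` (expand the product: `Finset.prod_one_add`, injection `k ↦ primeFactors k`) `≤ exp (C ∑_p p^(-1-δ)) < ∞`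
(`summable_of_sum_le` / `summable_of_sum_range_le`).
-/

set_option autoImplicit false

open Filter Topology

namespace H98.SZ

/-- the general term of `BB` -/
noncomputable def bt (q : Par) (z w : ℂ) (k : ℕ) : ℂ :=
  (ArithmeticFunction.moebius k : ℂ) * (k : ℂ) ^ (z - w) * ∏ p ∈ k.primeFactors, bet q (1 + z) p

private theorem Bsm_prod {δ : ℝ} {k : ℕ} (hk : Squarefree k) :
    (k : ℝ) ^ (-δ) = ∏ p ∈ k.primeFactors, (p : ℝ) ^ (-δ) := by
  conv_lhs => rw [← Nat.prod_primeFactors_of_squarefree hk]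
  rw [Nat.cast_prod, Real.finsetProd_rpow _ _ fun p _ => Nat.cast_nonneg p]

private theorem Bsm_sum {C δ : ℝ} (hC : 0 ≤ C) (hδ : 0 < δ) :
    Summable fun k : ℕ => if Squarefree k then ∏ p ∈ k.primeFactors, (C * (p : ℝ) ^ (-(1 + δ)))
      else 0 := by
  have hg0 : ∀ n : ℕ, 0 ≤ C * (n : ℝ) ^ (-(1 + δ)) := fun n =>
    mul_nonneg hC (Real.rpow_nonneg (Nat.cast_nonneg n) _)
  have hgs : Summable fun n : ℕ => C * (n : ℝ) ^ (-(1 + δ)) :=
    (Real.summable_nat_rpow.2 (by linarith)).mul_left C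
  refine summable_of_sum_le (c := Real.exp (∑' n : ℕ, C * (n : ℝ) ^ (-(1 + δ)))) (fun k => ?_)
    fun u => ?_
  · show (0 : ℝ) ≤ if Squarefree k then ∏ p ∈ k.primeFactors, (C * (p : ℝ) ^ (-(1 + δ))) else 0
    split_ifs
    · exact Finset.prod_nonneg fun p _ => hg0 p
    · exact le_rfl
  · rw [← Finset.sum_filter]
    obtain ⟨s, hs⟩ : ∃ s : Finset ℕ, s = (u.filter Squarefree).biUnion Nat.primeFactors := ⟨_, rfl⟩
    have h1 : ∑ k ∈ u.filter Squarefree, ∏ p ∈ k.primeFactors, (C * (p : ℝ) ^ (-(1 + δ)))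
        = ∑ t ∈ (u.filter Squarefree).image Nat.primeFactors,
          ∏ p ∈ t, (C * (p : ℝ) ^ (-(1 + δ))) := by
      rw [Finset.sum_image]
      intro a ha b hb hab
      have ha' := (Finset.mem_filter.1 (Finset.mem_coe.1 ha)).2
      have hb' := (Finset.mem_filter.1 (Finset.mem_coe.1 hb)).2
      have hab' : a.primeFactors = b.primeFactors := hab
      rw [← Nat.prod_primeFactors_of_squarefree ha', hab',
        Nat.prod_primeFactors_of_squarefree hb']
    rw [h1]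
    have h2 : ∑ t ∈ (u.filter Squarefree).image Nat.primeFactors,
          ∏ p ∈ t, (C * (p : ℝ) ^ (-(1 + δ)))
        ≤ ∑ t ∈ s.powerset, ∏ p ∈ t, (C * (p : ℝ) ^ (-(1 + δ))) := by
      refine Finset.sum_le_sum_of_subset_of_nonneg ?_ fun t _ _ =>
        Finset.prod_nonneg fun p _ => hg0 p
      intro t ht
      obtain ⟨k, hk, rfl⟩ := Finset.mem_image.1 ht
      rw [Finset.mem_powerset, hs]
      exact Finset.subset_biUnion_of_mem Nat.primeFactors hk
    refine h2.trans ?_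
    rw [← Finset.prod_one_add]
    have h3 : ∏ p ∈ s, (1 + C * (p : ℝ) ^ (-(1 + δ)))
        ≤ ∏ p ∈ s, Real.exp (C * (p : ℝ) ^ (-(1 + δ))) := by
      refine Finset.prod_le_prod (fun p _ => by linarith [hg0 p]) fun p _ => ?_
      have := Real.add_one_le_exp (C * (p : ℝ) ^ (-(1 + δ)))
      linarith
    refine h3.trans ?_
    rw [← Real.exp_sum]
    exact Real.exp_le_exp.2 (hgs.sum_le_tsum s fun n _ => hg0 n)

theorem bt_majorant {δ : ℝ} (hδ : 0 < δ) : ∃ m : ℕ → ℝ, (∀ k, 0 ≤ m k) ∧ Summable m ∧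
    ∀ (q : Par) (z w : ℂ), q.nn z → (z - w).re ≤ -δ → ∀ k, ‖bt q z w k‖ ≤ m k := by
  obtain ⟨C, hC0, hC⟩ := bet_bound
  refine ⟨fun k : ℕ => if Squarefree k then ∏ p ∈ k.primeFactors, (C * (p : ℝ) ^ (-(1 + δ)))
      else 0, fun k => ?_, Bsm_sum hC0 hδ, fun q z w hq hzw k => ?_⟩
  · show (0 : ℝ) ≤ if Squarefree k then ∏ p ∈ k.primeFactors, (C * (p : ℝ) ^ (-(1 + δ))) else 0
    split_ifs
    · exact Finset.prod_nonneg fun p _ =>
        mul_nonneg hC0 (Real.rpow_nonneg (Nat.cast_nonneg p) _)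
    · exact le_rfl
  · show ‖bt q z w k‖ ≤ if Squarefree k then ∏ p ∈ k.primeFactors,
      (C * (p : ℝ) ^ (-(1 + δ))) else 0
    unfold bt
    split_ifs with hk
    · have hk0 : 0 < k := Nat.pos_of_ne_zero hk.ne_zero
      rw [norm_mul, norm_mul]
      have h1 : ‖(ArithmeticFunction.moebius k : ℂ)‖ ≤ 1 := by
        rw [Complex.norm_intCast]
        have := ArithmeticFunction.abs_moebius_eq_one_of_squarefree hk
        exact_mod_cast this.le
      have h2 : ‖(k : ℂ) ^ (z - w)‖ ≤ (k : ℝ) ^ (-δ) := by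
        rw [Complex.norm_natCast_cpow_of_pos hk0]
        exact Real.rpow_le_rpow_of_exponent_le (by exact_mod_cast hk0) hzw
      have h3 : ‖∏ p ∈ k.primeFactors, bet q (1 + z) p‖ ≤ ∏ p ∈ k.primeFactors, (C / (p : ℝ)) := by
        rw [norm_prod]
        exact Finset.prod_le_prod (fun p _ => norm_nonneg _) fun p hp =>
          hC q z hq p (Nat.prime_of_mem_primeFactors hp)
      have h4 : (k : ℝ) ^ (-δ) * ∏ p ∈ k.primeFactors, (C / (p : ℝ))
          = ∏ p ∈ k.primeFactors, (C * (p : ℝ) ^ (-(1 + δ))) := by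
        rw [Bsm_prod hk, ← Finset.prod_mul_distrib]
        refine Finset.prod_congr rfl fun p hp => ?_
        have hp0 : (0 : ℝ) < p := by exact_mod_cast (Nat.prime_of_mem_primeFactors hp).pos
        rw [show -(1 + δ) = -δ + (-1) by ring, Real.rpow_add hp0, Real.rpow_neg_one]
        ring
      rw [← h4]
      calc ‖(ArithmeticFunction.moebius k : ℂ)‖ * ‖(k : ℂ) ^ (z - w)‖ *
            ‖∏ p ∈ k.primeFactors, bet q (1 + z) p‖
          ≤ (1 * (k : ℝ) ^ (-δ)) * ∏ p ∈ k.primeFactors, (C / (p : ℝ)) := by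
            refine mul_le_mul (mul_le_mul h1 h2 (norm_nonneg _) zero_le_one) h3
              (norm_nonneg _) ?_
            positivity
        _ = (k : ℝ) ^ (-δ) * ∏ p ∈ k.primeFactors, (C / (p : ℝ)) := by rw [one_mul]
    · rw [ArithmeticFunction.moebius_eq_zero_of_not_squarefree hk]
      simp

end H98.SZ
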