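import Pool.Agent.H98.SZ.Bsm

/-!
# SZ / Bzh: `BB = ζ(1+w-z) / AA(1+w) · HH`

1. Euler product of `BB`: `k ↦ μ(k) k^(z-w) ∏_{p|k} bet q (1+z) p` is multiplicative (value `1` at `1`, `0` at prime powers `p^e`, `e ≥ 2`), absolutely summable by `bt_majorant`:
   `EulerProduct.eulerProduct_hasProd` (or `_tprod`): `HasProd (fun p : Nat.Primes => ∑' e, bt (p^e)) (BB q z w)`, `∑' e, bt (p^e) = 1 - p^(z-w) bet q (1+z) p`.
2. `riemannZeta_eulerProduct_hasProd : HasProd (fun p : Primes => (1 - (p:ℂ)^(-s))⁻¹) (riemannZeta s)` for `1 < Re s`; for `s = 1+w-z`, `1+w+a_i`, `1+w+b_j`.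
3. For each prime `p` : `hp q z w p = (1 - p^(z-w) bet) * ∏_i (1 - p^(-(1+w+a_i)))⁻¹ / ∏_j (1 - p^(-(1+w+b_j)))⁻¹ * (1 - p^(-(1+w-z)))`:
   `X ν p^(-(z+a)) = p^(-(1+w+a))`, `X ν = p^(-(1+w-z))` (`Complex.cpow_add`, `X = p^(-1)`), `bet_eq`.
4. So `BB * AA(1+w) = ζ(1+w-z) * HH` (`HasProd.mul`, `HasProd.div`/`HasProd.inv₀`; zeta has no zeros in `Re > 1`: `riemannZeta_ne_zero_of_one_lt_re`; uniqueness of limits `HasProd.unique`).
-/

set_option autoImplicit false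

open Filter Topology

namespace H98.SZ

private theorem Bzh_mul (q : Par) (z w : ℂ) {m n : ℕ} (h : Nat.Coprime m n) :
    bt q z w (m * n) = bt q z w m * bt q z w n := by
  unfold bt
  rw [ArithmeticFunction.isMultiplicative_moebius.map_mul_of_coprime h, Nat.cast_mul,
    Complex.natCast_mul_natCast_cpow, h.primeFactors_mul,
    Finset.prod_union h.disjoint_primeFactors, Int.cast_mul]
  ring

private theorem Bzh_loc (q : Par) (z w : ℂ) {p : ℕ} (hp : p.Prime) :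
    ∑' e : ℕ, bt q z w (p ^ e) = 1 - (p : ℂ) ^ (z - w) * bet q (1 + z) p := by
  rw [tsum_eq_sum (s := Finset.range 2)]
  · rw [Finset.sum_range_succ, Finset.sum_range_one]
    unfold bt
    rw [pow_zero, pow_one, ArithmeticFunction.moebius_apply_prime hp, hp.primeFactors,
      Finset.prod_singleton]
    simp
    ring
  · intro e he
    have he2 : 2 ≤ e := by
      rw [Finset.mem_range, not_lt] at he
      exact he
    have hs : ¬ Squarefree (p ^ e) := by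
      rw [Nat.squarefree_pow_iff hp.one_lt.ne' (by omega)]
      rintro ⟨-, h1⟩
      omega
    unfold bt
    rw [ArithmeticFunction.moebius_eq_zero_of_not_squarefree hs, Int.cast_zero, zero_mul, zero_mul]

theorem BB_euler (q : Par) (z w : ℂ) (h : q.nn z) (hw : (z - w).re < 0) :
    HasProd (fun p : Nat.Primes => 1 - (p : ℂ) ^ (z - w) * bet q (1 + z) p) (BB q z w) := by
  obtain ⟨m, hm0, hms, hm⟩ := bt_majorant (δ := -(z - w).re) (by linarith)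
  have hsum : Summable fun k => ‖bt q z w k‖ :=
    Summable.of_nonneg_of_le (fun _ => norm_nonneg _) (hm q z w h (by rw [neg_neg])) hms
  have h1 : bt q z w 1 = 1 := by
    unfold bt
    simp
  have h0 : bt q z w 0 = 0 := by
    unfold bt
    simp
  have h2 := EulerProduct.eulerProduct_hasProd h1 (fun h => Bzh_mul q z w h) hsum h0
  have h3 : (fun p : Nat.Primes => 1 - (p : ℂ) ^ (z - w) * bet q (1 + z) p) =
      fun p : Nat.Primes => ∑' e : ℕ, bt q z w ((p : ℕ) ^ e) := by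
    funext p
    exact (Bzh_loc q z w p.2).symm
  rw [h3]
  exact h2

private theorem Bzh_pow {p : ℕ} (hp : p ≠ 0) (z w a : ℂ) :
    ((1 / (p : ℝ) : ℝ) : ℂ) * ((p : ℂ) ^ (z - w) * (p : ℂ) ^ (-(z + a))) =
      (p : ℂ) ^ (-(1 + w + a)) := by
  have hp0 : (p : ℂ) ≠ 0 := Nat.cast_ne_zero.2 hp
  have h1 : -(1 + w + a) = -1 + ((z - w) + -(z + a)) := by ring
  rw [h1, Complex.cpow_add _ _ hp0, Complex.cpow_add _ _ hp0, Complex.cpow_neg_one]
  push_cast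
  rw [one_div]

private theorem Bzh_pow' {p : ℕ} (hp : p ≠ 0) (z w : ℂ) :
    ((1 / (p : ℝ) : ℝ) : ℂ) * (p : ℂ) ^ (z - w) = (p : ℂ) ^ (-(1 + w - z)) := by
  have hp0 : (p : ℂ) ≠ 0 := Nat.cast_ne_zero.2 hp
  have h1 : -(1 + w - z) = -1 + (z - w) := by ring
  rw [h1, Complex.cpow_add _ _ hp0, Complex.cpow_neg_one]
  push_cast
  rw [one_div]

private theorem Bzh_ne {p : ℕ} (hp : p.Prime) {s : ℂ} (hs : 1 < s.re) :
    1 - (p : ℂ) ^ (-s) ≠ 0 := by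
  intro h0
  have h1 : (p : ℂ) ^ (-s) = 1 := by linear_combination -h0
  have h2 : ‖(p : ℂ) ^ (-s)‖ = (p : ℝ) ^ (-s).re :=
    Complex.norm_natCast_cpow_of_pos hp.pos _
  rw [h1, norm_one, Complex.neg_re] at h2
  have h3 : (p : ℝ) ^ (-s.re) < 1 :=
    Real.rpow_lt_one_of_one_lt_of_neg (by exact_mod_cast hp.one_lt) (by linarith)
  linarith

private theorem Bzh_fac (q : Par) (z w : ℂ) {p : ℕ} (hp' : p.Prime)
    (h1 : 1 < (1 + w - z).re) (hb1 : 1 < (1 + w + q.b1).re) (hb2 : 1 < (1 + w + q.b2).re) :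
    (1 - (p : ℂ) ^ (z - w) * bet q (1 + z) p) * (1 - (p : ℂ) ^ (-(1 + w + q.a1)))⁻¹ *
      (1 - (p : ℂ) ^ (-(1 + w + q.a2)))⁻¹ * (1 - (p : ℂ) ^ (-(1 + w + q.a3)))⁻¹ =
    (1 - (p : ℂ) ^ (-(1 + w - z)))⁻¹ * hp q z w p * (1 - (p : ℂ) ^ (-(1 + w + q.b1)))⁻¹ *
      (1 - (p : ℂ) ^ (-(1 + w + q.b2)))⁻¹ := by
  have n1 := Bzh_ne hp' h1
  have n2 := Bzh_ne hp' hb1
  have n3 := Bzh_ne hp' hb2
  unfold hp hl
  rw [Bzh_pow hp'.ne_zero, Bzh_pow hp'.ne_zero, Bzh_pow hp'.ne_zero, Bzh_pow hp'.ne_zero,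
    Bzh_pow hp'.ne_zero, Bzh_pow' hp'.ne_zero, bet_eq q z hp']
  generalize (1 - ((1 / (p : ℝ) : ℝ) : ℂ))⁻¹ = Y
  generalize ((1 - ((1 / (p : ℝ) : ℝ) : ℂ) * (p : ℂ) ^ (-(z + q.a1))) *
    (1 - ((1 / (p : ℝ) : ℝ) : ℂ) * (p : ℂ) ^ (-(z + q.a2))) *
      (1 - ((1 / (p : ℝ) : ℝ) : ℂ) * (p : ℂ) ^ (-(z + q.a3))) /
      ((1 - ((1 / (p : ℝ) : ℝ) : ℂ) * (p : ℂ) ^ (-(z + q.b1))) *
        (1 - ((1 / (p : ℝ) : ℝ) : ℂ) * (p : ℂ) ^ (-(z + q.b2))))) = Q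
  generalize (1 - (p : ℂ) ^ (-(1 + w - z))) = N1 at n1 ⊢
  generalize (1 - (p : ℂ) ^ (-(1 + w + q.b1))) = N2 at n2 ⊢
  generalize (1 - (p : ℂ) ^ (-(1 + w + q.b2))) = N3 at n3 ⊢
  rw [div_eq_mul_inv, mul_inv, mul_inv]
  have e1 : N1⁻¹ * N1 = 1 := inv_mul_cancel₀ n1
  have e2 : N2 * N2⁻¹ = 1 := mul_inv_cancel₀ n2
  have e3 : N3 * N3⁻¹ = 1 := mul_inv_cancel₀ n3
  have e4 : ∀ a b c d : ℂ, N1⁻¹ * (a * (N2 * N3 * (b * c * d)) * N1) * N2⁻¹ * N3⁻¹ =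
      a * b * c * d * (N1⁻¹ * N1) * (N2 * N2⁻¹) * (N3 * N3⁻¹) := by
    intro a b c d
    ring
  rw [e4, e1, e2, e3]
  ring

theorem BB_eq (q : Par) (z w : ℂ) (h : q.nn z) (hw : (z - w).re < 0) :
    BB q z w * AA q (1 + w) = riemannZeta (1 + w - z) * HH q z w := by
  have hwz : 0 < w.re - z.re := by
    rw [Complex.sub_re] at hw
    linarith
  have hre : ∀ x : ℂ, 0 ≤ (z + x).re → 1 < (1 + w + x).re := by
    intro x hx
    simp only [Complex.add_re, Complex.one_re] at hx ⊢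
    linarith
  have h0 : 1 < (1 + w - z).re := by
    simp only [Complex.add_re, Complex.one_re, Complex.sub_re]
    linarith
  have ha1 := hre _ (h q.a1 (by simp))
  have ha2 := hre _ (h q.a2 (by simp))
  have ha3 := hre _ (h q.a3 (by simp))
  have hb1 := hre _ (h q.b1 (by simp))
  have hb2 := hre _ (h q.b2 (by simp))
  have P1 := (((BB_euler q z w h hw).mul (riemannZeta_eulerProduct_hasProd ha1)).mul
    (riemannZeta_eulerProduct_hasProd ha2)).mul (riemannZeta_eulerProduct_hasProd ha3)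
  have P2 := (((riemannZeta_eulerProduct_hasProd h0).mul (HH_mult q z w h hw.le).hasProd).mul
    (riemannZeta_eulerProduct_hasProd hb1)).mul (riemannZeta_eulerProduct_hasProd hb2)
  have hfe : (fun p : Nat.Primes => (1 - (p : ℂ) ^ (z - w) * bet q (1 + z) p) *
      (1 - (p : ℂ) ^ (-(1 + w + q.a1)))⁻¹ *
      (1 - (p : ℂ) ^ (-(1 + w + q.a2)))⁻¹ * (1 - (p : ℂ) ^ (-(1 + w + q.a3)))⁻¹) =
    fun p : Nat.Primes => (1 - (p : ℂ) ^ (-(1 + w - z)))⁻¹ * hp q z w p *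
      (1 - (p : ℂ) ^ (-(1 + w + q.b1)))⁻¹ * (1 - (p : ℂ) ^ (-(1 + w + q.b2)))⁻¹ := by
    funext p
    exact Bzh_fac q z w p.2 h0 hb1 hb2
  rw [hfe] at P1
  have hu := P1.unique P2
  have z1 := riemannZeta_ne_zero_of_one_lt_re hb1
  have z2 := riemannZeta_ne_zero_of_one_lt_re hb2
  have hHH : (∏' p : Nat.Primes, hp q z w p) = HH q z w := rfl
  rw [hHH] at hu
  unfold AA
  rw [← mul_div_assoc, div_eq_iff (mul_ne_zero z1 z2)]
  linear_combination hu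

theorem AA_ne_zero (q : Par) (s : ℂ) (h : q.gt s) : AA q s ≠ 0 := by
  unfold AA
  refine div_ne_zero (mul_ne_zero (mul_ne_zero ?_ ?_) ?_) (mul_ne_zero ?_ ?_)
  · exact riemannZeta_ne_zero_of_one_lt_re (h q.a1 (by simp))
  · exact riemannZeta_ne_zero_of_one_lt_re (h q.a2 (by simp))
  · exact riemannZeta_ne_zero_of_one_lt_re (h q.a3 (by simp))
  · exact riemannZeta_ne_zero_of_one_lt_re (h q.b1 (by simp))
  · exact riemannZeta_ne_zero_of_one_lt_re (h q.b2 (by simp))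

end H98.SZ
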