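import Pool.Agent.H98.SZ.Defs

/-!
# SZ / Dom: the dominating function

`|y| ≤ L`: `LL(y/L) ≤ log 4 ≤ 2`, `min(1+|y|, L) ≥ (1+|y|)/2`: at most `4 · 2^K (1+|y|)^(-2)`.
`|y| > L`: `min(1+|y|, L) = L`; with `x = |y|/L > 1`, `L³/(1+y²) ≤ L/x²`, and `min 1 A ≤ A^(2/3)`: at most `L^(-2) (L/x²)^(2/3) LL(x)^K = |y|^(-4/3) LL(x)^K`, `LL(x) ≤ LL(y)`, `LL(y)^K ≤ C (1+|y|)^(1/12)`
(`isLittleO_log_rpow_atTop`), `|y| ≥ (1+|y|)/2`.
-/

set_option autoImplicit false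

open Filter Topology Pool.Agent.H17.ZB

namespace H98.SZ

theorem Dom_LL (K : ℕ) (y : ℝ) :
    LL y ^ K ≤ 3 * (12 * ((K : ℝ) + 1)) ^ K * (1 + |y|) ^ (1 / 12 : ℝ) := by
  have hy := abs_nonneg y
  have hK : (0 : ℝ) < (K : ℝ) + 1 := by positivity
  obtain ⟨e, he⟩ : ∃ e : ℝ, e = 1 / (12 * ((K : ℝ) + 1)) := ⟨_, rfl⟩
  have he0 : 0 < e := by rw [he]; positivity
  have h1 : LL y ≤ (|y| + 3) ^ e / e := by
    unfold LL
    exact Real.log_le_rpow_div (by positivity) he0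
  have h2 : LL y ^ K ≤ ((|y| + 3) ^ e / e) ^ K := pow_le_pow_left₀ (LL_pos y).le h1 K
  have h3 : ((|y| + 3) ^ e / e) ^ K = (|y| + 3) ^ (e * K) * (12 * ((K : ℝ) + 1)) ^ K := by
    rw [div_pow, ← Real.rpow_natCast ((|y| + 3) ^ e) K, ← Real.rpow_mul (by positivity),
      div_eq_mul_inv, ← inv_pow]
    congr 2
    rw [he]
    simp
  have h4 : (|y| + 3) ^ (e * K) ≤ (|y| + 3) ^ (1 / 12 : ℝ) := by
    apply Real.rpow_le_rpow_of_exponent_le (by linarith)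
    rw [he, div_mul_eq_mul_div, div_le_div_iff₀ (by positivity) (by norm_num)]
    nlinarith
  have h5 : (|y| + 3) ^ (1 / 12 : ℝ) ≤ 3 * (1 + |y|) ^ (1 / 12 : ℝ) := by
    calc (|y| + 3) ^ (1 / 12 : ℝ) ≤ (3 * (1 + |y|)) ^ (1 / 12 : ℝ) :=
          Real.rpow_le_rpow (by positivity) (by linarith) (by norm_num)
      _ = 3 ^ (1 / 12 : ℝ) * (1 + |y|) ^ (1 / 12 : ℝ) :=
          Real.mul_rpow (by norm_num) (by positivity)
      _ ≤ 3 * (1 + |y|) ^ (1 / 12 : ℝ) := by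
        have h6 : (3 : ℝ) ^ (1 / 12 : ℝ) ≤ 3 := by
          calc (3 : ℝ) ^ (1 / 12 : ℝ) ≤ 3 ^ (1 : ℝ) :=
                Real.rpow_le_rpow_of_exponent_le (by norm_num) (by norm_num)
            _ = 3 := Real.rpow_one 3
        exact mul_le_mul_of_nonneg_right h6 (Real.rpow_nonneg (by positivity) _)
  have hc : (0 : ℝ) ≤ (12 * ((K : ℝ) + 1)) ^ K := by positivity
  calc LL y ^ K ≤ (|y| + 3) ^ (e * K) * (12 * ((K : ℝ) + 1)) ^ K := by rw [← h3]; exact h2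
    _ ≤ (3 * (1 + |y|) ^ (1 / 12 : ℝ)) * (12 * ((K : ℝ) + 1)) ^ K :=
        mul_le_mul_of_nonneg_right (h4.trans h5) hc
    _ = 3 * (12 * ((K : ℝ) + 1)) ^ K * (1 + |y|) ^ (1 / 12 : ℝ) := by ring

theorem Dom_small (K : ℕ) (L : ℝ) (hL : 1 ≤ L) (y : ℝ) (hy : |y| ≤ L) :
    (min (1 + |y|) L)⁻¹ ^ 2 * LL (y / L) ^ K * min 1 (L ^ 3 / (1 + y ^ 2)) ≤
      4 * 2 ^ K * (1 + |y|) ^ (-(5 / 4) : ℝ) := by
  have hy0 := abs_nonneg y
  have hL0 : 0 < L := by linarith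
  have h1 : LL (y / L) ≤ 2 := by
    unfold LL
    have h2 : |y / L| + 3 ≤ 4 := by
      rw [abs_div, abs_of_pos hL0]
      have h3 : |y| / L ≤ 1 := by
        rw [div_le_one hL0]
        exact hy
      linarith
    have h4 : Real.log (|y / L| + 3) ≤ Real.log 4 := Real.log_le_log (by positivity) h2
    have h5 : Real.log 4 = 2 * Real.log 2 := by
      rw [show (4 : ℝ) = 2 ^ 2 by norm_num, Real.log_pow]
      norm_num
    have h6 := Real.log_two_lt_d9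
    linarith
  have h2 : LL (y / L) ^ K ≤ 2 ^ K := pow_le_pow_left₀ (LL_pos _).le h1 K
  have h3 : (1 + |y|) / 2 ≤ min (1 + |y|) L := le_min (by linarith) (by linarith)
  have hp : 0 < (1 + |y|) / 2 := by positivity
  have h4 : (min (1 + |y|) L)⁻¹ ≤ ((1 + |y|) / 2)⁻¹ := inv_anti₀ hp h3
  have h4' : 0 ≤ (min (1 + |y|) L)⁻¹ := inv_nonneg.mpr (hp.le.trans h3)
  have h5 : (min (1 + |y|) L)⁻¹ ^ 2 ≤ (((1 + |y|) / 2)⁻¹) ^ 2 := pow_le_pow_left₀ h4' h4 2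
  have h6 : (((1 + |y|) / 2)⁻¹) ^ 2 = 4 * (1 + |y|) ^ (-2 : ℝ) := by
    rw [Real.rpow_neg (by positivity), Real.rpow_two]
    rw [inv_div, div_pow, div_eq_mul_inv]
    norm_num
  have h7 : (1 + |y|) ^ (-2 : ℝ) ≤ (1 + |y|) ^ (-(5 / 4) : ℝ) :=
    Real.rpow_le_rpow_of_exponent_le (by linarith) (by norm_num)
  have h8 : min 1 (L ^ 3 / (1 + y ^ 2)) ≤ 1 := min_le_left _ _
  have h8' : 0 ≤ min 1 (L ^ 3 / (1 + y ^ 2)) := le_min (by norm_num) (by positivity)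
  have h9 : 0 ≤ LL (y / L) ^ K := pow_nonneg (LL_pos _).le K
  have h10 : (min (1 + |y|) L)⁻¹ ^ 2 ≤ 4 * (1 + |y|) ^ (-(5 / 4) : ℝ) := by
    rw [h6] at h5
    linarith
  have h11 : 0 ≤ (1 + |y|) ^ (-(5 / 4) : ℝ) := Real.rpow_nonneg (by positivity) _
  calc (min (1 + |y|) L)⁻¹ ^ 2 * LL (y / L) ^ K * min 1 (L ^ 3 / (1 + y ^ 2))
      ≤ (min (1 + |y|) L)⁻¹ ^ 2 * LL (y / L) ^ K * 1 :=
        mul_le_mul_of_nonneg_left h8 (mul_nonneg (by positivity) h9)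
    _ = (min (1 + |y|) L)⁻¹ ^ 2 * LL (y / L) ^ K := mul_one _
    _ ≤ (4 * (1 + |y|) ^ (-(5 / 4) : ℝ)) * 2 ^ K := mul_le_mul h10 h2 h9 (by positivity)
    _ = 4 * 2 ^ K * (1 + |y|) ^ (-(5 / 4) : ℝ) := by ring

theorem Dom_min (A : ℝ) (hA : 0 ≤ A) : min 1 A ≤ A ^ (2 / 3 : ℝ) := by
  rcases le_total 1 A with h | h
  · rw [min_eq_left h]
    exact Real.one_le_rpow h (by norm_num)
  · rw [min_eq_right h]
    calc A = A ^ (1 : ℝ) := (Real.rpow_one A).symm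
      _ ≤ A ^ (2 / 3 : ℝ) := by
        rcases hA.eq_or_lt with h0 | h0
        · rw [← h0, Real.zero_rpow (by norm_num), Real.zero_rpow (by norm_num)]
        · exact Real.rpow_le_rpow_of_exponent_ge h0 h (by norm_num)

theorem Dom_large (K : ℕ) (L : ℝ) (hL : 1 ≤ L) (y : ℝ) (hy : L < |y|) :
    (min (1 + |y|) L)⁻¹ ^ 2 * LL (y / L) ^ K * min 1 (L ^ 3 / (1 + y ^ 2)) ≤
      2 * (3 * (12 * ((K : ℝ) + 1)) ^ K) * (1 + |y|) ^ (-(5 / 4) : ℝ) := by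
  have hy0 := abs_nonneg y
  have hL0 : 0 < L := by linarith
  have h1 : min (1 + |y|) L = L := min_eq_right (by linarith)
  have h2 : LL (y / L) ≤ LL y := by
    unfold LL
    apply Real.log_le_log (by positivity)
    have h3 : |y / L| ≤ |y| := by
      rw [abs_div, abs_of_pos hL0]
      exact div_le_self hy0 hL
    linarith
  have h3 : LL (y / L) ^ K ≤ 3 * (12 * ((K : ℝ) + 1)) ^ K * (1 + |y|) ^ (1 / 12 : ℝ) :=
    (pow_le_pow_left₀ (LL_pos _).le h2 K).trans (Dom_LL K y)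
  have hq : 0 < 1 + y ^ 2 := by positivity
  have h4 : min 1 (L ^ 3 / (1 + y ^ 2)) ≤ L ^ 2 * (1 + y ^ 2) ^ (-(2 / 3) : ℝ) := by
    refine (Dom_min _ (by positivity)).trans (le_of_eq ?_)
    rw [Real.div_rpow (by positivity) hq.le, Real.rpow_neg hq.le, div_eq_mul_inv]
    congr 1
    rw [← Real.rpow_natCast L 3, ← Real.rpow_mul hL0.le, ← Real.rpow_natCast L 2]
    norm_num
  have h5 : (1 + y ^ 2) ^ (-(2 / 3) : ℝ) ≤ 2 * (1 + |y|) ^ (-(4 / 3) : ℝ) := by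
    have h6 : (1 + |y|) ^ 2 / 2 ≤ 1 + y ^ 2 := by
      have := sq_abs y
      nlinarith [sq_nonneg (1 - |y|)]
    calc (1 + y ^ 2) ^ (-(2 / 3) : ℝ) ≤ ((1 + |y|) ^ 2 / 2) ^ (-(2 / 3) : ℝ) :=
          Real.rpow_le_rpow_of_nonpos (by positivity) h6 (by norm_num)
      _ = ((1 + |y|) ^ 2) ^ (-(2 / 3) : ℝ) * ((2 : ℝ)⁻¹) ^ (-(2 / 3) : ℝ) := by
          rw [div_eq_mul_inv, Real.mul_rpow (by positivity) (by positivity)]
      _ = (1 + |y|) ^ (-(4 / 3) : ℝ) * (2 : ℝ) ^ (2 / 3 : ℝ) := by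
          congr 1
          · rw [← Real.rpow_natCast (1 + |y|) 2, ← Real.rpow_mul (by positivity)]
            norm_num
          · rw [Real.inv_rpow (by norm_num), Real.rpow_neg (by norm_num), inv_inv]
      _ ≤ (1 + |y|) ^ (-(4 / 3) : ℝ) * 2 := by
          apply mul_le_mul_of_nonneg_left _ (Real.rpow_nonneg (by positivity) _)
          calc (2 : ℝ) ^ (2 / 3 : ℝ) ≤ 2 ^ (1 : ℝ) :=
                Real.rpow_le_rpow_of_exponent_le (by norm_num) (by norm_num)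
            _ = 2 := Real.rpow_one 2
      _ = 2 * (1 + |y|) ^ (-(4 / 3) : ℝ) := mul_comm _ _
  have h6 : (1 + |y|) ^ (1 / 12 : ℝ) * (1 + |y|) ^ (-(4 / 3) : ℝ) =
      (1 + |y|) ^ (-(5 / 4) : ℝ) := by
    rw [← Real.rpow_add (by positivity)]
    norm_num
  have h7 : 0 ≤ LL (y / L) ^ K := pow_nonneg (LL_pos _).le K
  have h8 : 0 ≤ min 1 (L ^ 3 / (1 + y ^ 2)) := le_min (by norm_num) (by positivity)
  have h9 : min 1 (L ^ 3 / (1 + y ^ 2)) ≤ L ^ 2 * (2 * (1 + |y|) ^ (-(4 / 3) : ℝ)) :=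
    h4.trans (mul_le_mul_of_nonneg_left h5 (by positivity))
  rw [h1]
  have h10 : L⁻¹ ^ 2 * L ^ 2 = 1 := by
    rw [← mul_pow, inv_mul_cancel₀ hL0.ne', one_pow]
  obtain ⟨B, hB⟩ : ∃ B : ℝ, B = 3 * (12 * ((K : ℝ) + 1)) ^ K := ⟨_, rfl⟩
  have hB0 : 0 ≤ B := by rw [hB]; positivity
  rw [← hB] at h3
  rw [← hB]
  have h11 : 0 ≤ B * (1 + |y|) ^ (1 / 12 : ℝ) := mul_nonneg hB0 (Real.rpow_nonneg (by positivity) _)
  calc L⁻¹ ^ 2 * LL (y / L) ^ K * min 1 (L ^ 3 / (1 + y ^ 2))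
      ≤ L⁻¹ ^ 2 * (B * (1 + |y|) ^ (1 / 12 : ℝ)) * (L ^ 2 * (2 * (1 + |y|) ^ (-(4 / 3) : ℝ))) := by
        apply mul_le_mul (mul_le_mul_of_nonneg_left h3 (by positivity)) h9 h8
        exact mul_nonneg (by positivity) h11
    _ = (L⁻¹ ^ 2 * L ^ 2) * (2 * B) * ((1 + |y|) ^ (1 / 12 : ℝ) * (1 + |y|) ^ (-(4 / 3) : ℝ)) := by
        ring
    _ = 2 * B * (1 + |y|) ^ (-(5 / 4) : ℝ) := by rw [h10, h6, one_mul]

theorem dom_bound (K : ℕ) : ∃ C : ℝ, 0 ≤ C ∧ ∀ L : ℝ, 1 ≤ L → ∀ y : ℝ,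
    (min (1 + |y|) L)⁻¹ ^ 2 * LL (y / L) ^ K * min 1 (L ^ 3 / (1 + y ^ 2)) ≤ C * (1 + |y|) ^ (-(5 / 4) : ℝ) := by
  refine ⟨4 * 2 ^ K + 2 * (3 * (12 * ((K : ℝ) + 1)) ^ K), by positivity, ?_⟩
  intro L hL y
  have h0 : 0 ≤ (1 + |y|) ^ (-(5 / 4) : ℝ) := Real.rpow_nonneg (by positivity) _
  have ha : (0 : ℝ) ≤ 4 * 2 ^ K := by positivity
  have hb : (0 : ℝ) ≤ 2 * (3 * (12 * ((K : ℝ) + 1)) ^ K) := by positivity
  rcases le_or_gt |y| L with h | h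
  · refine (Dom_small K L hL y h).trans ?_
    exact mul_le_mul_of_nonneg_right (by linarith) h0
  · refine (Dom_large K L hL y h).trans ?_
    exact mul_le_mul_of_nonneg_right (by linarith) h0

end H98.SZ
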