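import Pool.Agent.H98.SZ.Win

/-!
# SZ / Wiv: Mellin inversion for the twisted window

`f r = winK κ T r`. On `r > 0`: `mellin f s = mw T (s + κ/L)` (`mellin_cpow_smul`, up to commuting the factors; `mellin` only sees `r > 0`), convergent for `Re(s+κ/L) > 0` (`win_conv`).
With `σ = 1 + 1/L`: `VerticalIntegrable`: `y ↦ mw T (σ + iy + κ/L)` is continuous (`mellin_differentiableAt_of_isBigO_rpow_exp`/dominated convergence) and by `mw_bound` (`t = 1 + κ + iLy`, real part bounded by `1+B`)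
it is `O(min(1, L³/(1+(Im t)²)))`, integrable. `mellinInv_mellin_eq`; then substitute `y → y/L` (`Measure.integral_comp_div` / `integral_comp_mul_left`).
`mw_cont`: continuity of `mw T` on `Re s > 0` (differentiable there).
-/

set_option autoImplicit false

open Filter Topology MeasureTheory

namespace H98.SZ

private theorem Wiv_cont (T : ℝ) : Continuous fun r : ℝ => (win T r : ℂ) := by
  unfold win
  fun_prop

private theorem Wiv_le (T r : ℝ) : ‖(win T r : ℂ)‖ ≤ 1 := by
  unfold win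
  rw [Complex.norm_real, Real.norm_eq_abs, abs_of_pos (Real.exp_pos _), Real.exp_le_one_iff]
  have := sq_nonneg ((T - 2 * Real.pi * r) / (T / Real.sqrt (Real.log T)))
  linarith

private theorem Wiv_top {T : ℝ} (hT : 3 ≤ T) :
    (fun r : ℝ => (win T r : ℂ)) =O[atTop] fun t => Real.exp (-1 * t) := by
  obtain ⟨D, hD⟩ : ∃ D, D = T / Real.sqrt (Real.log T) := ⟨_, rfl⟩
  have hT0 : (0 : ℝ) < T := by linarith
  have hDpos : 0 < D := by
    rw [hD]
    exact div_pos hT0 (Real.sqrt_pos.2 (Real.log_pos (by linarith)))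
  refine Asymptotics.IsBigO.of_bound 1 ?_
  filter_upwards [eventually_ge_atTop (max T (D ^ 2))] with r hr
  have h1 : T ≤ r := (le_max_left _ _).trans hr
  have h2 : D ^ 2 ≤ r := (le_max_right _ _).trans hr
  have hr0 : 0 < r := hT0.trans_le h1
  unfold win
  rw [Complex.norm_real, Real.norm_eq_abs, Real.norm_eq_abs, abs_of_pos (Real.exp_pos _),
    abs_of_pos (Real.exp_pos _), one_mul, Real.exp_le_exp, ← hD]
  have h3 : 3 < Real.pi := Real.pi_gt_three
  have h4 : r ≤ 2 * Real.pi * r - T := by nlinarith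
  have h5 : r ^ 2 ≤ (T - 2 * Real.pi * r) ^ 2 := by nlinarith
  have h6 : r ≤ ((T - 2 * Real.pi * r) / D) ^ 2 := by
    rw [div_pow, le_div_iff₀ (by positivity)]
    nlinarith
  linarith

theorem mw_cont {T : ℝ} (hT : 3 ≤ T) : ContinuousOn (mw T) {s : ℂ | 0 < s.re} := by
  intro s hs
  have h : DifferentiableAt ℂ (mw T) s := by
    unfold mw
    refine mellin_differentiableAt_of_isBigO_rpow_exp (a := 1) (b := 0) one_pos
      ((Wiv_cont T).locallyIntegrable.locallyIntegrableOn _) (Wiv_top hT) ?_ hs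
    refine Asymptotics.IsBigO.of_bound 1 (Eventually.of_forall fun r => ?_)
    rw [neg_zero, Real.rpow_zero, norm_one, one_mul]
    exact Wiv_le T r
  exact h.continuousAt.continuousWithinAt

private theorem Wiv_mellin (κ : ℂ) (T : ℝ) (s : ℂ) :
    mellin (fun r => winK κ T r) s = mw T (s + κ / (Real.log T : ℂ)) := by
  unfold mw
  rw [← mellin_cpow_smul]
  unfold mellin
  refine setIntegral_congr_fun measurableSet_Ioi fun t ht => ?_
  have ht' : 0 < t := ht
  unfold winK
  simp only [if_pos ht', smul_eq_mul]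
  ring

private theorem Wiv_conv {κ : ℂ} {T : ℝ} (hT : 3 ≤ T) {s : ℂ}
    (hs : 0 < (s + κ / (Real.log T : ℂ)).re) : MellinConvergent (fun r => winK κ T r) s := by
  have h := (MellinConvergent.cpow_smul (f := fun r : ℝ => (win T r : ℂ)) (s := s)
    (a := κ / (Real.log T : ℂ))).2 (win_conv hT hs)
  unfold MellinConvergent at h ⊢
  refine h.congr_fun (fun t ht => ?_) measurableSet_Ioi
  have ht' : 0 < t := ht
  unfold winK
  simp only [if_pos ht', smul_eq_mul]
  ring

private theorem Wiv_contAt (κ : ℂ) (T : ℝ) {r : ℝ} (hr : 0 < r) :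
    ContinuousAt (fun r => winK κ T r) r := by
  have h1 : ContinuousAt (fun r : ℝ => (win T r : ℂ) * (r : ℂ) ^ (κ / (Real.log T : ℂ))) r := by
    refine ContinuousAt.mul (Wiv_cont T).continuousAt ?_
    have h2 : ContinuousAt (fun z : ℂ => z ^ (κ / (Real.log T : ℂ))) (r : ℂ) :=
      continuousAt_cpow_const (Or.inl (by simpa using hr))
    exact ContinuousAt.comp (f := fun r : ℝ => (r : ℂ)) (x := r) h2
      Complex.continuous_ofReal.continuousAt
  refine h1.congr ?_
  filter_upwards [lt_mem_nhds hr] with t ht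
  unfold winK
  rw [if_pos ht]

theorem winK_inv (B : ℝ) : ∃ T0 : ℝ, 3 ≤ T0 ∧ ∀ T : ℝ, T0 ≤ T → ∀ κ : ℂ, ‖κ‖ ≤ B → ∀ r : ℝ, 0 < r →
    winK κ T r = ((1 / (2 * Real.pi * Real.log T) : ℝ) : ℂ) *
      ∫ y : ℝ, mw T (1 + (1 + Complex.I * y + κ) / (Real.log T : ℂ)) * (r : ℂ) ^ (-(1 + (1 + Complex.I * y) / (Real.log T : ℂ))) := by
  obtain ⟨C, T0, hC, hT0, hb⟩ := mw_bound (1 + |B|)
  refine ⟨max T0 (Real.exp (|B| + 1)), hT0.trans (le_max_left _ _), ?_⟩
  intro T hT κ hκ r hr
  have hT1 : T0 ≤ T := (le_max_left _ _).trans hT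
  have hT3 : 3 ≤ T := hT0.trans hT1
  have hTpos : 0 < T := by linarith
  have hL1 : |B| + 1 ≤ Real.log T := by
    rw [Real.le_log_iff_exp_le hTpos]
    exact (le_max_right _ _).trans hT
  obtain ⟨L, hL⟩ : ∃ L, L = Real.log T := ⟨_, rfl⟩
  rw [← hL] at hL1
  have hLpos : 0 < L := by linarith [abs_nonneg B]
  have hLne : (L : ℂ) ≠ 0 := by exact_mod_cast hLpos.ne'
  have hκB : ‖κ‖ ≤ |B| := hκ.trans (le_abs_self B)
  have hκre : |κ.re| ≤ |B| := (Complex.abs_re_le_norm κ).trans hκB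
  obtain ⟨σ, hσ⟩ : ∃ σ : ℝ, σ = 1 + 1 / L := ⟨_, rfl⟩
  have hre : ∀ y : ℝ, 0 < ((σ : ℂ) + y * Complex.I + κ / (L : ℂ)).re := by
    intro y
    have h1 : ((σ : ℂ) + y * Complex.I + κ / (L : ℂ)).re = σ + κ.re / L := by
      rw [Complex.add_re, Complex.add_re, Complex.ofReal_re, Complex.div_ofReal_re]
      simp
    rw [h1, hσ]
    have h2 : -1 < κ.re / L := by
      rw [lt_div_iff₀ hLpos]
      have := (abs_le.1 hκre).1
      linarith
    have h3 : 0 < 1 / L := by positivity
    linarith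
  have hcv : MellinConvergent (fun r => winK κ T r) (σ : ℂ) := by
    refine Wiv_conv hT3 ?_
    have h1 := hre 0
    rw [Complex.ofReal_zero, zero_mul, add_zero] at h1
    rw [← hL]
    exact h1
  obtain ⟨g, hg⟩ : ∃ g : ℝ → ℂ, g = fun y : ℝ => mw T ((σ : ℂ) + y * Complex.I + κ / (L : ℂ)) :=
    ⟨_, rfl⟩
  have hgc : Continuous g := by
    rw [hg]
    have h1 : Continuous fun y : ℝ => ((σ : ℂ) + y * Complex.I + κ / (L : ℂ)) := by fun_prop
    exact (mw_cont hT3).comp_continuous h1 hre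
  have hgb : ∀ y : ℝ, ‖g y‖ ≤ C * om T * L ^ 3 * (1 + (κ.im + L * y) ^ 2)⁻¹ := by
    intro y
    obtain ⟨t, ht⟩ : ∃ t : ℂ, t = 1 + κ + Complex.I * ((L * y : ℝ) : ℂ) := ⟨_, rfl⟩
    have htre : t.re = 1 + κ.re := by
      rw [ht]
      simp
    have htim : t.im = κ.im + L * y := by
      rw [ht]
      simp
    have h1 := hb T hT1 t (by
      rw [htre]
      refine (abs_add_le _ _).trans ?_
      rw [abs_one]
      linarith)
    have h2 : (1 : ℂ) + t / (Real.log T : ℂ) = (σ : ℂ) + y * Complex.I + κ / (L : ℂ) := by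
      rw [ht, hσ, ← hL]
      push_cast
      field_simp
      ring
    rw [h2, htim, ← hL] at h1
    rw [hg]
    refine h1.trans ?_
    have h3 : 0 ≤ om T := by
      unfold om
      positivity
    have h4 : min 1 (L ^ 3 / (1 + (κ.im + L * y) ^ 2)) ≤ L ^ 3 * (1 + (κ.im + L * y) ^ 2)⁻¹ := by
      rw [← div_eq_mul_inv]
      exact min_le_right _ _
    have h5 := mul_le_mul_of_nonneg_left h4 (mul_nonneg hC h3)
    rw [← mul_assoc] at h5
    exact h5
  have hgi : Integrable g := by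
    have h1 : Integrable fun y : ℝ => (1 + y ^ 2)⁻¹ := integrable_inv_one_add_sq
    have h2 : Integrable fun y : ℝ => (1 + (κ.im + y) ^ 2)⁻¹ := h1.comp_add_left κ.im
    have h3 : Integrable fun y : ℝ => (1 + (κ.im + L * y) ^ 2)⁻¹ := h2.comp_mul_left' hLpos.ne'
    exact Integrable.mono' (h3.const_mul _) hgc.aestronglyMeasurable (Eventually.of_forall hgb)
  have hvi : Complex.VerticalIntegrable (mellin (fun r => winK κ T r)) σ := by
    unfold Complex.VerticalIntegrable
    refine hgi.congr (Eventually.of_forall fun y => ?_)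
    rw [hg]
    simp only
    rw [Wiv_mellin, ← hL]
  have hinv := mellinInv_mellin_eq σ (fun r => winK κ T r) hr hcv hvi (Wiv_contAt κ T hr)
  unfold mellinInv at hinv
  rw [← hinv, ← hL]
  obtain ⟨G, hG⟩ : ∃ G : ℝ → ℂ, G = fun y : ℝ => (r : ℂ) ^ (-((σ : ℂ) + y * Complex.I)) •
      mellin (fun r => winK κ T r) ((σ : ℂ) + y * Complex.I) := ⟨_, rfl⟩
  have h1 : (fun y : ℝ => mw T (1 + (1 + Complex.I * y + κ) / (L : ℂ)) *
      (r : ℂ) ^ (-(1 + (1 + Complex.I * y) / (L : ℂ)))) = fun y => G (y / L) := by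
    funext y
    rw [hG]
    simp only [smul_eq_mul]
    rw [Wiv_mellin, ← hL, mul_comm]
    have e1 : (1 : ℂ) + (1 + Complex.I * y + κ) / (L : ℂ) =
        (σ : ℂ) + ((y / L : ℝ) : ℂ) * Complex.I + κ / (L : ℂ) := by
      rw [hσ]
      push_cast
      field_simp
      ring
    have e2 : (1 : ℂ) + (1 + Complex.I * y) / (L : ℂ) =
        (σ : ℂ) + ((y / L : ℝ) : ℂ) * Complex.I := by
      rw [hσ]
      push_cast
      field_simp
      ring
    rw [e1, e2]
  rw [h1, Measure.integral_comp_div, abs_of_pos hLpos, ← hG, Complex.real_smul, Complex.real_smul,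
    ← mul_assoc]
  congr 1
  push_cast
  field_simp

end H98.SZ
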