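import Pool.Agent.H98.SZ.Bsm
import Pool.Agent.H98.SZ.Wiv

/-!
# SZ / Mea: measurability

`riemannZeta` is continuous off `1` (`differentiableAt_riemannZeta`), hence measurable (`measurable_of_continuousOn_compl_singleton`). `x ↦ (p : ℂ)^x` is continuous for `p ≠ 0`. So `AA`, `Ai`, `bet` and each term `bt`
are measurable functions of the parameters. `BB` is, under the hypotheses, the limit of its partial sums over `Finset.range N` (`bt_majorant` gives summability for each point; `HasSum.tendsto_sum_nat`):
`measurable_of_tendsto_metrizable`. `mw T` is continuous on the open set `Re s > 0` (`mw_cont`): the composition with a measurable map into this set is measurable (write it as the composition with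
the indicator `Set.indicator {s | 0 < s.re} (mw T)`, which is measurable: `ContinuousOn.measurable_piecewise` / `Measurable.indicator`).
-/

set_option autoImplicit false

open Filter Topology MeasureTheory

namespace H98.SZ

variable {Ω : Type} [MeasurableSpace Ω]

/-- a measurable family of parameters -/
structure MP (q : Ω → Par) : Prop where
  m1 : Measurable fun θ => (q θ).a1
  m2 : Measurable fun θ => (q θ).a2
  m3 : Measurable fun θ => (q θ).a3
  m4 : Measurable fun θ => (q θ).b1
  m5 : Measurable fun θ => (q θ).b2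

theorem Mea_zeta : Measurable riemannZeta := by
  apply measurable_of_continuousOn_compl_singleton (1 : ℂ)
  intro s hs
  exact (differentiableAt_riemannZeta hs).continuousAt.continuousWithinAt

theorem Mea_cpow {s : Ω → ℂ} (hs : Measurable s) (c : ℂ) : Measurable fun θ => c ^ (s θ) :=
  measurable_const.pow hs

theorem MP.sc {q : Ω → Par} (h : MP q) (L : ℝ) : MP fun θ => (q θ).sc L := by
  refine ⟨?_, ?_, ?_, ?_, ?_⟩
  · exact h.m1.div_const _
  · exact h.m2.div_const _
  · exact h.m3.div_const _
  · exact h.m4.div_const _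
  · exact h.m5.div_const _

theorem AA_meas {q : Ω → Par} (h : MP q) {s : Ω → ℂ} (hs : Measurable s) : Measurable fun θ => AA (q θ) (s θ) := by
  unfold AA
  exact (((Mea_zeta.comp (hs.add h.m1)).mul (Mea_zeta.comp (hs.add h.m2))).mul
    (Mea_zeta.comp (hs.add h.m3))).div ((Mea_zeta.comp (hs.add h.m4)).mul (Mea_zeta.comp (hs.add h.m5)))

theorem bet_meas {q : Ω → Par} (h : MP q) {s : Ω → ℂ} (hs : Measurable s) (p : ℕ) : Measurable fun θ => bet (q θ) (s θ) p := by
  unfold bet Ai
  have e1 := Mea_cpow (hs.add h.m1).neg (p : ℂ)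
  have e2 := Mea_cpow (hs.add h.m2).neg (p : ℂ)
  have e3 := Mea_cpow (hs.add h.m3).neg (p : ℂ)
  have e4 := Mea_cpow (hs.add h.m4).neg (p : ℂ)
  have e5 := Mea_cpow (hs.add h.m5).neg (p : ℂ)
  exact measurable_const.sub (measurable_const.mul
    ((((measurable_const.sub e1).mul (measurable_const.sub e2)).mul (measurable_const.sub e3)).div
      ((measurable_const.sub e4).mul (measurable_const.sub e5))))

theorem cc_meas {q : Ω → Par} (h : MP q) (n : ℕ) : Measurable fun θ => cc (q θ) n := by
  have key : ∀ (F G : Ω → ArithmeticFunction ℂ), (∀ m, Measurable fun θ => F θ m) →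
      (∀ m, Measurable fun θ => G θ m) → ∀ m, Measurable fun θ => (F θ * G θ) m := by
    intro F G hF hG m
    have : (fun θ => (F θ * G θ) m) = fun θ => ∑ x ∈ m.divisorsAntidiagonal, F θ x.1 * G θ x.2 := by
      funext θ
      rw [ArithmeticFunction.mul_apply]
    rw [this]
    exact Finset.measurable_sum _ fun x _ => (hF x.1).mul (hG x.2)
  have hpw : ∀ a : Ω → ℂ, Measurable a → ∀ m, Measurable fun θ => pw (a θ) m := by
    intro a ha m
    have : (fun θ => pw (a θ) m) = fun θ => if m = 0 then 0 else (m : ℂ) ^ (-(a θ)) := by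
      funext θ
      rfl
    rw [this]
    by_cases h0 : m = 0
    · simp only [h0, if_true]
      exact measurable_const
    · simp only [h0, if_false]
      exact Mea_cpow ha.neg _
  have hmpw : ∀ b : Ω → ℂ, Measurable b → ∀ m, Measurable fun θ => mpw (b θ) m := by
    intro b hb m
    have : (fun θ => mpw (b θ) m) = fun θ => if m = 0 then 0 else
        (ArithmeticFunction.moebius m : ℂ) * (m : ℂ) ^ (-(b θ)) := by
      funext θ
      rfl
    rw [this]
    by_cases h0 : m = 0
    · simp only [h0, if_true]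
      exact measurable_const
    · simp only [h0, if_false]
      exact measurable_const.mul (Mea_cpow hb.neg _)
  unfold cc
  exact key _ _ (key _ _ (key _ _ (key _ _ (hpw _ h.m1) (hpw _ h.m2)) (hpw _ h.m3)) (hmpw _ h.m4))
    (hmpw _ h.m5) n

theorem BB_meas {q : Ω → Par} (h : MP q) {z w : Ω → ℂ} (hz : Measurable z) (hw : Measurable w)
    (h1 : ∀ θ, (q θ).nn (z θ)) (h2 : ∀ θ, (z θ - w θ).re < 0) : Measurable fun θ => BB (q θ) (z θ) (w θ) := by
  have hterm : ∀ k : ℕ, Measurable fun θ => bt (q θ) (z θ) (w θ) k := by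
    intro k
    unfold bt
    exact (measurable_const.mul (Mea_cpow (hz.sub hw) _)).mul
      (Finset.measurable_prod _ fun p _ => bet_meas h (measurable_const.add hz) p)
  have hlim : ∀ θ, Filter.Tendsto (fun N : ℕ => ∑ k ∈ Finset.range N, bt (q θ) (z θ) (w θ) k)
      Filter.atTop (𝓝 (BB (q θ) (z θ) (w θ))) := by
    intro θ
    have hd : 0 < -((z θ - w θ).re) := by
      have := h2 θ
      linarith
    obtain ⟨m, _, hms, hmb⟩ := bt_majorant hd
    have hsum : Summable fun k => bt (q θ) (z θ) (w θ) k :=
      Summable.of_norm_bounded hms fun k => hmb (q θ) (z θ) (w θ) (h1 θ) (by linarith) k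
    exact hsum.hasSum.tendsto_sum_nat
  refine measurable_of_tendsto_metrizable (f := fun (N : ℕ) θ => ∑ k ∈ Finset.range N, bt (q θ) (z θ) (w θ) k)
    (fun N => Finset.measurable_sum _ fun k _ => hterm k) ?_
  rw [tendsto_pi_nhds]
  exact hlim

theorem Zf_meas {q : Ω → Par} (h : MP q) {z w : Ω → ℂ} (hz : Measurable z) (hw : Measurable w)
    (h1 : ∀ θ, (q θ).nn (z θ)) (h2 : ∀ θ, (z θ - w θ).re < 0) : Measurable fun θ => Zf (q θ) (z θ) (w θ) := by
  unfold Zf
  exact (AA_meas h (measurable_const.add hz)).mul (BB_meas h hz hw h1 h2)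

theorem mw_meas {T : ℝ} (hT : 3 ≤ T) {s : Ω → ℂ} (hs : Measurable s) (h : ∀ θ, 0 < (s θ).re) : Measurable fun θ => mw T (s θ) := by
  have hopen : IsOpen {s : ℂ | 0 < s.re} := isOpen_lt continuous_const Complex.continuous_re
  have hg : Measurable (Set.indicator {s : ℂ | 0 < s.re} (mw T)) := by
    have h0 := ContinuousOn.measurable_piecewise (f := mw T) (g := fun _ : ℂ => (0 : ℂ))
      (s := {s : ℂ | 0 < s.re}) (mw_cont hT) continuousOn_const hopen.measurableSet
    have e : Set.indicator {s : ℂ | 0 < s.re} (mw T) = Set.piecewise {s : ℂ | 0 < s.re} (mw T) (fun _ : ℂ => (0 : ℂ)) := by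
      funext x
      by_cases hx : x ∈ {s : ℂ | 0 < s.re}
      · rw [Set.indicator_of_mem hx, Set.piecewise_eq_of_mem _ _ _ hx]
      · rw [Set.indicator_of_notMem hx, Set.piecewise_eq_of_notMem _ _ _ hx]
    rw [e]
    exact h0
  have e2 : (fun θ => mw T (s θ)) = (Set.indicator {s : ℂ | 0 < s.re} (mw T)) ∘ s := by
    funext θ
    simp only [Function.comp]
    rw [Set.indicator_of_mem (show s θ ∈ {s : ℂ | 0 < s.re} from h θ)]
  rw [e2]
  exact hg.comp hs

theorem RR_meas {q : Ω → Par} (h : MP q) {z w : Ω → ℂ} (hz : Measurable z) (hw : Measurable w) : Measurable fun θ => RR (q θ) (z θ) (w θ) := by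
  unfold RR
  exact ((((((hw.add h.m1).mul (hw.add h.m2)).mul (hw.add h.m3)).div
    (((hz.add h.m1).mul (hz.add h.m2)).mul (hz.add h.m3))).mul
    (((hz.add h.m4).mul (hz.add h.m5)).div ((hw.add h.m4).mul (hw.add h.m5))))).div (hw.sub hz)

end H98.SZ
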