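import Pool.Agent.H98.SZ.Defs

/-!
# SZ / Zzb: bounds for `ζ(1+x)` and `1/ζ(1+x)`, `0 < Re x ≤ 1`

`ZB.Z s = (s-1) ζ(s) = 1 + (s-1) W(s)` (`Z_of_ne`), `‖W s‖ ≤ 15 LL(Im s)` (`W_bound`), so `‖ζ(1+x)‖ = ‖Z‖/‖x‖ ≤ 1/‖x‖ + 15 LL`.
Lower: for `‖x‖ ≤ 2`: `1/ζ = x/Z`, `‖Z‖ ≥ c/LL^7` (`Z_lower`; `1 ≤ Re(1+x) ≤ 2`), `‖x‖ ≤ 2 min ‖x‖ 1`. For `‖x‖ > 2`: `|Im x| ≥ 1` and `zeta_lower`.
`z_lim`: `x ζ(1+x) = Z(1+x) → Z 1 = 1` (`Z_differentiable.continuous`), applied to `x = t/L`, `L → ∞`.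
`LL_add`: `log(|u+v|+3) ≤ log((|u|+3)(|v|+3)) = LL u + LL v ≤ 2 LL u LL v`.
-/

set_option autoImplicit false

open Filter Topology Pool.Agent.H17.ZB

namespace H98.SZ

theorem z_up : ∃ C : ℝ, 0 < C ∧ ∀ x : ℂ, 0 < x.re → x.re ≤ 1 → ‖riemannZeta (1 + x)‖ ≤ C * (1 / ‖x‖ + 1) * LL x.im := by
  refine ⟨15, by norm_num, fun x hx hx1 => ?_⟩
  have hx0 : x ≠ 0 := by
    intro h
    rw [h] at hx
    simp at hx
  have hs : (1 : ℂ) + x ≠ 1 := by
    intro h
    exact hx0 (by simpa using h)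
  have him : ((1 : ℂ) + x).im = x.im := by simp
  have hre : ((1 : ℂ) + x).re = 1 + x.re := by simp
  have hL := LL_ge_one x.im
  have hW : ‖W (1 + x)‖ ≤ 15 * LL x.im := by
    have h := W_bound (s := 1 + x) (by
      rw [him, hre]
      have : 0 < 1 / (2 * LL x.im) := by positivity
      linarith) (by rw [hre]; linarith)
    rwa [him] at h
  have e : riemannZeta (1 + x) = W (1 + x) + 1 / x := by
    rw [W_of_ne hs]
    have : (1 : ℂ) + x - 1 = x := by ring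
    rw [this]
    ring
  rw [e]
  have hn : 0 ≤ 1 / ‖x‖ := by positivity
  calc ‖W (1 + x) + 1 / x‖ ≤ ‖W (1 + x)‖ + ‖1 / x‖ := norm_add_le _ _
    _ ≤ 15 * LL x.im + 1 / ‖x‖ := by
        have : ‖1 / x‖ = 1 / ‖x‖ := by rw [norm_div, norm_one]
        rw [this]
        linarith
    _ ≤ 15 * (1 / ‖x‖ + 1) * LL x.im := by nlinarith [mul_nonneg hn (sub_nonneg.mpr hL)]

theorem z_lo : ∃ C : ℝ, 0 < C ∧ ∀ x : ℂ, 0 < x.re → x.re ≤ 1 → ‖(riemannZeta (1 + x))⁻¹‖ ≤ C * min ‖x‖ 1 * LL x.im ^ 8 := by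
  obtain ⟨κ, c, hκ, hκ8, hc, hc1, hZ⟩ := Z_lower
  have hk := kap0_pos
  refine ⟨2 / c + 1 / (482 * kap0), by positivity, fun x hx hx1 => ?_⟩
  have hx0 : x ≠ 0 := by
    intro h
    rw [h] at hx
    simp at hx
  have hxn : 0 < ‖x‖ := norm_pos_iff.mpr hx0
  have hs : (1 : ℂ) + x ≠ 1 := by
    intro h
    exact hx0 (by simpa using h)
  have him : ((1 : ℂ) + x).im = x.im := by simp
  have hre : ((1 : ℂ) + x).re = 1 + x.re := by simp
  have hL := LL_ge_one x.im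
  have hL0 : 0 < LL x.im := LL_pos x.im
  have h78 : LL x.im ^ 7 ≤ LL x.im ^ 8 := pow_le_pow_right₀ hL (by norm_num)
  have hm0 : 0 < min ‖x‖ 1 := lt_min hxn one_pos
  rcases le_or_gt ‖x‖ 2 with h2 | h2
  · have hz : c / LL x.im ^ 7 ≤ ‖Z (1 + x)‖ := by
      have h := hZ (1 + x) (by
        rw [him, hre]
        have : 0 < κ / LL x.im ^ 9 := by positivity
        linarith) (by rw [hre]; linarith)
      rwa [him] at h
    have hZe : Z (1 + x) = x * riemannZeta (1 + x) := by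
      rw [Z_of_ne hs]
      have : (1 : ℂ) + x - 1 = x := by ring
      rw [this]
    have hZpos : 0 < c / LL x.im ^ 7 := by positivity
    have hzn : ‖Z (1 + x)‖ = ‖x‖ * ‖riemannZeta (1 + x)‖ := by rw [hZe, norm_mul]
    have hζpos : 0 < ‖riemannZeta (1 + x)‖ := by
      rcases (norm_nonneg (riemannZeta (1 + x))).lt_or_eq with h | h
      · exact h
      · rw [hzn, ← h, mul_zero] at hz
        linarith
    have hmin : ‖x‖ ≤ 2 * min ‖x‖ 1 := by
      rcases le_total ‖x‖ 1 with h | h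
      · rw [min_eq_left h]; linarith
      · rw [min_eq_right h]; linarith
    rw [norm_inv]
    have h3 : c ≤ ‖x‖ * ‖riemannZeta (1 + x)‖ * LL x.im ^ 7 := by
      rw [hzn, div_le_iff₀ (by positivity)] at hz
      exact hz
    have h4 : ‖riemannZeta (1 + x)‖⁻¹ ≤ ‖x‖ * LL x.im ^ 7 / c := by
      rw [inv_le_comm₀ hζpos (by positivity), inv_div, div_le_iff₀ (by positivity)]
      linarith
    have h5 : ‖x‖ * LL x.im ^ 7 / c ≤ 2 / c * min ‖x‖ 1 * LL x.im ^ 8 := by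
      rw [div_mul_eq_mul_div, div_mul_eq_mul_div]
      apply div_le_div_of_nonneg_right _ hc.le
      exact mul_le_mul hmin h78 (by positivity) (by positivity)
    have h6 : 0 ≤ 1 / (482 * kap0) * min ‖x‖ 1 * LL x.im ^ 8 := by positivity
    have h7 : (2 / c + 1 / (482 * kap0)) * min ‖x‖ 1 * LL x.im ^ 8 =
        2 / c * min ‖x‖ 1 * LL x.im ^ 8 + 1 / (482 * kap0) * min ‖x‖ 1 * LL x.im ^ 8 := by ring
    rw [h7]
    linarith
  · have hi : 1 ≤ |x.im| := by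
      have := norm_le_re_im x hx.le
      linarith
    have h := zeta_lower (σ := 1 + x.re) (t := x.im) hi (by
      have : 0 < kap0 / LL x.im ^ 9 := by positivity
      linarith) (by linarith)
    have hx' : (((1 + x.re : ℝ) : ℂ) + Complex.I * (x.im : ℝ)) = 1 + x := by
      apply Complex.ext <;> simp
    rw [hx'] at h
    have hpos : 0 < 482 * kap0 / LL x.im ^ 7 := by positivity
    have hm1 : min ‖x‖ 1 = 1 := min_eq_right (by linarith)
    rw [norm_inv, hm1]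
    have h4 : ‖riemannZeta (1 + x)‖⁻¹ ≤ (482 * kap0 / LL x.im ^ 7)⁻¹ := inv_anti₀ hpos h
    have h5 : (482 * kap0 / LL x.im ^ 7)⁻¹ ≤ 1 / (482 * kap0) * LL x.im ^ 8 := by
      rw [inv_div, div_eq_mul_one_div, mul_comm]
      exact mul_le_mul_of_nonneg_left h78 (by positivity)
    have h6 : 0 ≤ 2 / c * LL x.im ^ 8 := by positivity
    have h7 : (2 / c + 1 / (482 * kap0)) * 1 * LL x.im ^ 8 =
        2 / c * LL x.im ^ 8 + 1 / (482 * kap0) * LL x.im ^ 8 := by ring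
    rw [h7]
    linarith

theorem LL_add (u v : ℝ) : LL (u + v) ≤ 2 * LL u * LL v := by
  have hu := LL_ge_one u
  have hv := LL_ge_one v
  have h1 : LL (u + v) ≤ LL u + LL v := by
    unfold LL
    rw [← Real.log_mul (by positivity) (by positivity)]
    apply Real.log_le_log (by positivity)
    have ha := abs_nonneg u
    have hb := abs_nonneg v
    have hab := abs_add_le u v
    nlinarith [mul_nonneg ha hb]
  nlinarith [mul_nonneg (sub_nonneg.mpr hu) (sub_nonneg.mpr hv)]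

theorem LL_le_one_add (u : ℝ) : LL u ≤ 2 * (1 + |u|) := by
  unfold LL
  have ha := abs_nonneg u
  have h := Real.log_le_sub_one_of_pos (show 0 < |u| + 3 by positivity)
  linarith

/-- `ζ(1+t/L)/L → 1/t` -/
theorem z_lim {t : ℂ} (ht : t ≠ 0) : Tendsto (fun L : ℝ => riemannZeta (1 + t / (L : ℂ)) / (L : ℂ)) atTop (𝓝 (1 / t)) := by
  have h1 : Tendsto (fun L : ℝ => (1 : ℂ) + t / (L : ℂ)) atTop (𝓝 1) := by
    have h0 : Tendsto (fun L : ℝ => ((L⁻¹ : ℝ) : ℂ)) atTop (𝓝 ((0 : ℝ) : ℂ)) :=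
      (Complex.continuous_ofReal.tendsto 0).comp tendsto_inv_atTop_zero
    have h2 : Tendsto (fun L : ℝ => (1 : ℂ) + t * ((L⁻¹ : ℝ) : ℂ)) atTop (𝓝 (1 + t * ((0 : ℝ) : ℂ))) :=
      tendsto_const_nhds.add (tendsto_const_nhds.mul h0)
    have h3 : (1 : ℂ) + t * ((0 : ℝ) : ℂ) = 1 := by simp
    rw [h3] at h2
    refine h2.congr fun L => ?_
    rw [Complex.ofReal_inv, div_eq_mul_inv]
  have h2 : Tendsto (fun L : ℝ => Z (1 + t / (L : ℂ)) / t) atTop (𝓝 (Z 1 / t)) :=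
    ((Z_differentiable.continuous.tendsto 1).comp h1).div_const t
  have hZ1 : Z 1 = 1 := by
    unfold Z
    simp
  rw [hZ1] at h2
  refine h2.congr' ?_
  filter_upwards [eventually_gt_atTop (0 : ℝ)] with L hL
  have hLc : (L : ℂ) ≠ 0 := by exact_mod_cast hL.ne'
  have hs : (1 : ℂ) + t / (L : ℂ) ≠ 1 := by
    intro h
    have h3 : t / (L : ℂ) = 0 := by simpa using h
    rcases div_eq_zero_iff.mp h3 with h4 | h4
    · exact ht h4
    · exact hLc h4
  rw [Z_of_ne hs]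
  have h5 : (1 : ℂ) + t / (L : ℂ) - 1 = t / (L : ℂ) := by ring
  rw [h5]
  field_simp

end H98.SZ
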