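import Pool.Agent.H98.SZ.Bzh
import Pool.Agent.H98.SZ.Zzb

/-!
# SZ / Zbd: uniform bound for `Zf`

Notation: `t = 1+iy`, `τ = 2+iξ`, `z = t/L`, `w = τ/L`, `q' = q.sc L`. By `BB_eq`, `AA_ne_zero`: `Zf q' z w = AA q' (1+z) / AA q' (1+w) * ζ(1+w-z) * HH q' z w`, `‖HH‖ ≤ C` (`HH_bound`).
The arguments of the zeta functions are `1 + x`, `x = (t+a_i)/L`, `(t+b_j)/L`, `(τ+a_i)/L`, `(τ+b_j)/L`, `(τ-t)/L` with `0 < Re x ≤ 5/L ≤ 1` (`q.ok`).
`z_up`, `z_lo` give the factors (each times `C LL(Im x)` resp. `C LL(Im x)^8`):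
  `L (1/|t+a_i| + 1/L)` (3), `min(|t+b_j|, L)/L` (2), `min(|τ+a_i|, L)/L` (3), `L (1/|τ+b_j| + 1/L)` (2), `L (1/|τ-t| + 1/L)` (1): the powers of `L` give `L^(3-2-3+2+1) = L`.
Elementary: `1/|t+a| ≤ 3 q.nm/(1+|y|)` (`1+|y| ≤ 1+|t+a|+|a| ≤ (3+2|a|)|t+a|` since `|t+a| ≥ 1/2`); `min(|t+b|,L) ≤ q.nm min(1+|y|, L)`; `|τ+a| ≤ 3(1+|ξ|) q.nm`; `1/|τ+b| ≤ 1`;
`1/|τ-t| ≤ 2(1+|ξ|)/(1+|y|)`. `1/(1+|y|) + 1/L ≤ 2/min(1+|y|,L)`. `LL(Im x) ≤ 2 LL(y/L) LL(Im a)` etc. (`LL_add`, `LL` is monotone in `|·|` and `L ≥ 1`), `LL(u) ≤ 2(1+|u|)`.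
Total `C L nm^K (1+|ξ|)^K (2/min)^4 min^2 LL(y/L)^K`, `K = 100` is enough (each of the 11 factors contributes at most `LL^8`).
-/

set_option autoImplicit false

open Filter Topology Pool.Agent.H17.ZB

namespace H98.SZ

private theorem Zbd_lin {L : ℝ} (hL : 5 ≤ L) {u : ℂ} (h1 : 1 / 2 ≤ u.re) (h2 : u.re ≤ 5) :
    0 < (u / (L : ℂ)).re ∧ (u / (L : ℂ)).re ≤ 1 := by
  rw [Complex.div_ofReal_re]
  constructor
  · exact div_pos (by linarith) (by linarith)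
  · rw [div_le_one (by linarith)]
    linarith

private theorem Zbd_nrm {L : ℝ} (hL : 5 ≤ L) (u : ℂ) : ‖u / (L : ℂ)‖ = ‖u‖ / L := by
  rw [norm_div, Complex.norm_real, Real.norm_eq_abs, abs_of_pos (by linarith)]

private theorem Zbd_U {C1 : ℝ} (h : ∀ x : ℂ, 0 < x.re → x.re ≤ 1 →
    ‖riemannZeta (1 + x)‖ ≤ C1 * (1 / ‖x‖ + 1) * LL x.im) (hC : 0 < C1) {L : ℝ} (hL : 5 ≤ L)
    {u : ℂ} (h1 : 1 / 2 ≤ u.re) (h2 : u.re ≤ 5) {r l : ℝ} (hr : 1 / ‖u‖ ≤ r)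
    (hl : LL (u.im / L) ≤ l) : ‖riemannZeta (1 + u / (L : ℂ))‖ ≤ C1 * (L * r + 1) * l := by
  have h3 := Zbd_lin hL h1 h2
  have h4 := h _ h3.1 h3.2
  rw [Complex.div_ofReal_im, Zbd_nrm hL] at h4
  have h5 : 1 / (‖u‖ / L) = L * (1 / ‖u‖) := by
    rw [one_div_div, mul_one_div]
  rw [h5] at h4
  have hL0 : (0 : ℝ) ≤ L := by linarith
  have h6 : 0 ≤ 1 / ‖u‖ := by positivity
  have h7 : C1 * (L * (1 / ‖u‖) + 1) ≤ C1 * (L * r + 1) := by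
    apply mul_le_mul_of_nonneg_left _ hC.le
    have := mul_le_mul_of_nonneg_left hr hL0
    linarith
  have h8 : 0 ≤ C1 * (L * r + 1) :=
    le_trans (mul_nonneg hC.le (by positivity)) h7
  exact h4.trans (mul_le_mul h7 hl (LL_pos _).le h8)

private theorem Zbd_D {C2 : ℝ} (h : ∀ x : ℂ, 0 < x.re → x.re ≤ 1 →
    ‖(riemannZeta (1 + x))⁻¹‖ ≤ C2 * min ‖x‖ 1 * LL x.im ^ 8) (hC : 0 < C2) {L : ℝ} (hL : 5 ≤ L)
    {u : ℂ} (h1 : 1 / 2 ≤ u.re) (h2 : u.re ≤ 5) {m l : ℝ} (hm : min (‖u‖ / L) 1 ≤ m)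
    (hl : LL (u.im / L) ≤ l) : ‖(riemannZeta (1 + u / (L : ℂ)))⁻¹‖ ≤ C2 * m * l ^ 8 := by
  have h3 := Zbd_lin hL h1 h2
  have h4 := h _ h3.1 h3.2
  rw [Complex.div_ofReal_im, Zbd_nrm hL] at h4
  have hL0 : (0 : ℝ) < L := by linarith
  have h5 : 0 ≤ min (‖u‖ / L) 1 := le_min (by positivity) zero_le_one
  have h7 : C2 * min (‖u‖ / L) 1 ≤ C2 * m := mul_le_mul_of_nonneg_left hm hC.le
  have h8 : 0 ≤ C2 * m := le_trans (mul_nonneg hC.le h5) h7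
  exact h4.trans (mul_le_mul h7 (pow_le_pow_left₀ (LL_pos _).le hl 8)
    (pow_nonneg (LL_pos _).le 8) h8)

private theorem Zbd_im {L : ℝ} (hL : 5 ≤ L) (v : ℝ) : |v / L| ≤ |v| := by
  rw [abs_div, abs_of_pos (by linarith : (0 : ℝ) < L)]
  exact div_le_self (abs_nonneg v) (by linarith)

private theorem Zbd_LLa {L : ℝ} (hL : 5 ≤ L) (y : ℝ) {a : ℂ} {N : ℝ} (hN : 1 + ‖a‖ ≤ N) :
    LL ((y + a.im) / L) ≤ 4 * LL (y / L) * N := by
  have h1 := LL_add (y / L) (a.im / L)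
  rw [← add_div] at h1
  have h2 := LL_le_one_add (a.im / L)
  have h3 := Zbd_im hL a.im
  have h4 := Complex.abs_im_le_norm a
  have h5 : LL (a.im / L) ≤ 2 * N := by linarith
  have h6 := LL_pos (y / L)
  have h7 : 2 * LL (y / L) * LL (a.im / L) ≤ 2 * LL (y / L) * (2 * N) :=
    mul_le_mul_of_nonneg_left h5 (by linarith)
  linarith

private theorem Zbd_LLb {L : ℝ} (hL : 5 ≤ L) (ξ : ℝ) {a : ℂ} {N : ℝ} (hN : 1 + ‖a‖ ≤ N) :
    LL ((ξ + a.im) / L) ≤ 2 * ((1 + |ξ|) * N) := by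
  have h2 := LL_le_one_add ((ξ + a.im) / L)
  have h3 := Zbd_im hL (ξ + a.im)
  have h4 := Complex.abs_im_le_norm a
  have h5 := abs_add_le ξ a.im
  have h6 : (1 + |ξ|) * (1 + ‖a‖) ≤ (1 + |ξ|) * N :=
    mul_le_mul_of_nonneg_left hN (by positivity)
  have h7 : 0 ≤ |ξ| * ‖a‖ := by positivity
  nlinarith

private theorem Zbd_LLc {L : ℝ} (hL : 5 ≤ L) (y ξ : ℝ) :
    LL ((ξ - y) / L) ≤ 4 * ((1 + |ξ|) * LL (y / L)) := by
  have h1 := LL_add (-(y / L)) (ξ / L)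
  have h0 : -(y / L) + ξ / L = (ξ - y) / L := by ring
  rw [h0] at h1
  have h00 : LL (-(y / L)) = LL (y / L) := by
    unfold LL
    rw [abs_neg]
  rw [h00] at h1
  have h2 := LL_le_one_add (ξ / L)
  have h3 := Zbd_im hL ξ
  have h5 : LL (ξ / L) ≤ 2 * (1 + |ξ|) := by linarith
  have h6 := LL_pos (y / L)
  have h7 : 2 * LL (y / L) * LL (ξ / L) ≤ 2 * LL (y / L) * (2 * (1 + |ξ|)) :=
    mul_le_mul_of_nonneg_left h5 (by linarith)
  linarith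

private theorem Zbd_inv {y : ℝ} {u a : ℂ} {N : ℝ} (hN : 1 + ‖a‖ ≤ N) (h1 : 1 / 2 ≤ u.re)
    (hi : u.im = y + a.im) : 1 / ‖u‖ ≤ 3 * N / (1 + |y|) := by
  have h2 : u.re ≤ ‖u‖ := Complex.re_le_norm u
  have h3 := Complex.abs_im_le_norm u
  have h4 := Complex.abs_im_le_norm a
  have h5 : |y| ≤ |u.im| + |a.im| := by
    have h6 : y = u.im - a.im := by rw [hi]; ring
    have h7 : |u.im - a.im| ≤ |u.im| + |a.im| := abs_sub _ _
    rw [← h6] at h7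
    exact h7
  have hu : 0 < ‖u‖ := by linarith
  have hy : 0 < 1 + |y| := by positivity
  rw [div_le_div_iff₀ hu hy, one_mul]
  have h8 : 0 ≤ ‖a‖ := norm_nonneg a
  nlinarith

private theorem Zbd_min {L : ℝ} (hL : 5 ≤ L) {y : ℝ} {u a : ℂ} {N : ℝ} (hN : 1 + ‖a‖ ≤ N)
    (hu : ‖u‖ ≤ 1 + |y| + ‖a‖) : min (‖u‖ / L) 1 ≤ N * (min (1 + |y|) L / L) := by
  have hL0 : (0 : ℝ) < L := by linarith
  have ha : 0 ≤ ‖a‖ := norm_nonneg a
  have hy : 0 ≤ |y| := abs_nonneg y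
  have hN1 : 1 ≤ N := by linarith
  rcases le_total (1 + |y|) L with h | h
  · rw [min_eq_left h]
    refine (min_le_left _ _).trans ?_
    rw [← mul_div_assoc]
    apply div_le_div_of_nonneg_right _ hL0.le
    nlinarith
  · rw [min_eq_right h, div_self hL0.ne', mul_one]
    exact (min_le_right _ _).trans hN1

private theorem Zbd_alg (C1 C2 CH L m N X Λ : ℝ) (hL : L ≠ 0) (hm : m ≠ 0) :
    (C1 * (4 * N * L / m) * (4 * Λ * N)) * (C1 * (4 * N * L / m) * (4 * Λ * N)) *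
      (C1 * (4 * N * L / m) * (4 * Λ * N)) * (C2 * (N * (m / L)) * (4 * Λ * N) ^ 8) *
      (C2 * (N * (m / L)) * (4 * Λ * N) ^ 8) *
      ((C1 * (3 * X * L / m) * (4 * (X * Λ))) * CH *
        ((C1 * (2 * L) * (2 * (X * N))) * (C1 * (2 * L) * (2 * (X * N)))) *
        ((C2 * (2 * (X * N) / L) * (2 * (X * N)) ^ 8) *
          (C2 * (2 * (X * N) / L) * (2 * (X * N)) ^ 8) *
          (C2 * (2 * (X * N) / L) * (2 * (X * N)) ^ 8))) =
    (16 ^ 3 * C1 ^ 3 * (4 ^ 16 * C2 ^ 2) * (12 * C1 * CH * (16 * C1 ^ 2) * (2 ^ 27 * C2 ^ 3))) *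
      L * N ^ 53 * X ^ 31 * (m⁻¹ ^ 2 * Λ ^ 20) := by
  field_simp
  ring

private theorem Zbd_id (u1 u2 u3 v1 v2 G H x1 x2 x3 y1 y2 : ℂ) :
    u1 * u2 * u3 / (v1 * v2) * (G * H * (x1 * x2 * x3 / (y1 * y2))⁻¹) =
    u1 * u2 * u3 * v1⁻¹ * v2⁻¹ * (G * H * (y1 * y2) * (x1⁻¹ * x2⁻¹ * x3⁻¹)) := by
  rw [inv_div]
  simp only [div_eq_mul_inv, mul_inv]
  ring

theorem Zf_bound : ∃ (C : ℝ) (K : ℕ), 0 ≤ C ∧ ∀ L : ℝ, 5 ≤ L → ∀ q : Par, q.ok → ∀ y ξ : ℝ,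
    ‖Zf (q.sc L) ((1 + Complex.I * y) / L) ((2 + Complex.I * ξ) / L)‖ ≤
      C * L * q.nm ^ K * (1 + |ξ|) ^ K * ((min (1 + |y|) L)⁻¹ ^ 2 * LL (y / L) ^ K) := by
  obtain ⟨C1, hC1, hU⟩ := z_up
  obtain ⟨C2, hC2, hD⟩ := z_lo
  obtain ⟨CH, hCH, hH⟩ := HH_bound
  refine ⟨16 ^ 3 * C1 ^ 3 * (4 ^ 16 * C2 ^ 2) * (12 * C1 * CH * (16 * C1 ^ 2) * (2 ^ 27 * C2 ^ 3)),
    100, by positivity, fun L hL q hq y ξ => ?_⟩
  have hL0 : (0 : ℝ) < L := by linarith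
  have hLc : (L : ℂ) ≠ 0 := Complex.ofReal_ne_zero.2 hL0.ne'
  obtain ⟨N, hN⟩ : ∃ N : ℝ, N = q.nm := ⟨_, rfl⟩
  obtain ⟨X, hX⟩ : ∃ X : ℝ, X = 1 + |ξ| := ⟨_, rfl⟩
  obtain ⟨m, hm⟩ : ∃ m : ℝ, m = min (1 + |y|) L := ⟨_, rfl⟩
  obtain ⟨Λ, hΛ⟩ : ∃ Λ : ℝ, Λ = LL (y / L) := ⟨_, rfl⟩
  obtain ⟨t, ht⟩ : ∃ t : ℂ, t = 1 + Complex.I * y := ⟨_, rfl⟩
  obtain ⟨τ, hτ⟩ : ∃ τ : ℂ, τ = 2 + Complex.I * ξ := ⟨_, rfl⟩
  rw [← hN, ← hX, ← hm, ← hΛ, ← ht, ← hτ]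
  have htr : t.re = 1 := by rw [ht]; simp
  have hti : t.im = y := by rw [ht]; simp
  have hτr : τ.re = 2 := by rw [hτ]; simp
  have hτi : τ.im = ξ := by rw [hτ]; simp
  have hy0 : 0 ≤ |y| := abs_nonneg y
  have hξ0 : 0 ≤ |ξ| := abs_nonneg ξ
  have hm0 : 0 < m := by rw [hm]; exact lt_min (by linarith) hL0
  have hmY : m ≤ 1 + |y| := by rw [hm]; exact min_le_left _ _
  have hmL : m ≤ L := by rw [hm]; exact min_le_right _ _
  have hX1 : 1 ≤ X := by rw [hX]; linarith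
  have hΛ1 : 1 ≤ Λ := by rw [hΛ]; exact LL_ge_one _
  have n1 := norm_nonneg q.a1
  have n2 := norm_nonneg q.a2
  have n3 := norm_nonneg q.a3
  have n4 := norm_nonneg q.b1
  have n5 := norm_nonneg q.b2
  have hnm : q.nm = 1 + ‖q.a1‖ + ‖q.a2‖ + ‖q.a3‖ + ‖q.b1‖ + ‖q.b2‖ := rfl
  have N1 : 1 + ‖q.a1‖ ≤ N := by rw [hN, hnm]; linarith
  have N2 : 1 + ‖q.a2‖ ≤ N := by rw [hN, hnm]; linarith
  have N3 : 1 + ‖q.a3‖ ≤ N := by rw [hN, hnm]; linarith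
  have N4 : 1 + ‖q.b1‖ ≤ N := by rw [hN, hnm]; linarith
  have N5 : 1 + ‖q.b2‖ ≤ N := by rw [hN, hnm]; linarith
  have hN1 : 1 ≤ N := by linarith
  have k1 := hq q.a1 (by simp)
  have k2 := hq q.a2 (by simp)
  have k3 := hq q.a3 (by simp)
  have k4 := hq q.b1 (by simp)
  have k5 := hq q.b2 (by simp)
  have htn : ‖t‖ ≤ 1 + |y| := by
    rw [ht]
    refine (norm_add_le _ _).trans ?_
    rw [norm_one, norm_mul, Complex.norm_I, one_mul, Complex.norm_real, Real.norm_eq_abs]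
  have hτn : ‖τ‖ ≤ 2 + |ξ| := by
    rw [hτ]
    refine (norm_add_le _ _).trans ?_
    rw [norm_mul, Complex.norm_I, one_mul, Complex.norm_real, Real.norm_eq_abs]
    norm_num
  -- the five kinds of factors
  have FA : ∀ a : ℂ, 1 + ‖a‖ ≤ N → (-(1 / 2 : ℝ) ≤ a.re ∧ a.re ≤ 3) →
      ‖riemannZeta (1 + (t + a) / (L : ℂ))‖ ≤ C1 * (4 * N * L / m) * (4 * Λ * N) := by
    intro a ha hr
    have r1 : 1 / 2 ≤ (t + a).re := by rw [Complex.add_re, htr]; linarith [hr.1]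
    have r2 : (t + a).re ≤ 5 := by rw [Complex.add_re, htr]; linarith [hr.2]
    have i1 : (t + a).im = y + a.im := by rw [Complex.add_im, hti]
    have h1 := Zbd_inv ha r1 i1
    have h2 : 1 / ‖t + a‖ ≤ 3 * N / m :=
      h1.trans (div_le_div_of_nonneg_left (by linarith) hm0 hmY)
    have h3 := Zbd_LLa hL y ha
    rw [← i1, ← hΛ] at h3
    refine (Zbd_U hU hC1 hL r1 r2 h2 h3).trans ?_
    have h4 : L * (3 * N / m) + 1 ≤ 4 * N * L / m := by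
      rw [le_div_iff₀ hm0]
      have e : (L * (3 * N / m) + 1) * m = 3 * (N * L) + m := by
        field_simp
      rw [e]
      have e2 : L ≤ N * L := le_mul_of_one_le_left hL0.le hN1
      linarith
    have h5 : 0 ≤ 4 * Λ * N := by positivity
    exact mul_le_mul_of_nonneg_right (mul_le_mul_of_nonneg_left h4 hC1.le) h5
  have FB : ∀ a : ℂ, 1 + ‖a‖ ≤ N → (-(1 / 2 : ℝ) ≤ a.re ∧ a.re ≤ 3) →
      ‖(riemannZeta (1 + (t + a) / (L : ℂ)))⁻¹‖ ≤ C2 * (N * (m / L)) * (4 * Λ * N) ^ 8 := by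
    intro a ha hr
    have r1 : 1 / 2 ≤ (t + a).re := by rw [Complex.add_re, htr]; linarith [hr.1]
    have r2 : (t + a).re ≤ 5 := by rw [Complex.add_re, htr]; linarith [hr.2]
    have i1 : (t + a).im = y + a.im := by rw [Complex.add_im, hti]
    have h3 := Zbd_LLa hL y ha
    rw [← i1, ← hΛ] at h3
    have h4 : ‖t + a‖ ≤ 1 + |y| + ‖a‖ := (norm_add_le _ _).trans (by linarith)
    have h5 := Zbd_min hL (y := y) ha h4
    rw [← hm] at h5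
    exact Zbd_D hD hC2 hL r1 r2 h5 h3
  have FD : ∀ a : ℂ, 1 + ‖a‖ ≤ N → (-(1 / 2 : ℝ) ≤ a.re ∧ a.re ≤ 3) →
      ‖(riemannZeta (1 + (τ + a) / (L : ℂ)))⁻¹‖ ≤
        C2 * (2 * (X * N) / L) * (2 * (X * N)) ^ 8 := by
    intro a ha hr
    have r1 : 1 / 2 ≤ (τ + a).re := by rw [Complex.add_re, hτr]; linarith [hr.1]
    have r2 : (τ + a).re ≤ 5 := by rw [Complex.add_re, hτr]; linarith [hr.2]
    have i1 : (τ + a).im = ξ + a.im := by rw [Complex.add_im, hτi]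
    have h3 := Zbd_LLb hL ξ ha
    rw [← i1, ← hX] at h3
    have h6 : (1 + |ξ|) * (1 + ‖a‖) ≤ X * N := by
      rw [hX]
      exact mul_le_mul_of_nonneg_left ha (by positivity)
    have h7 : 0 ≤ |ξ| * ‖a‖ := by positivity
    have h8 : 0 ≤ ‖a‖ := norm_nonneg a
    have h9 : (1 + |ξ|) * (1 + ‖a‖) = 1 + |ξ| + ‖a‖ + |ξ| * ‖a‖ := by ring
    rw [h9] at h6
    have h4 : ‖τ + a‖ ≤ 2 * (X * N) := by
      refine (norm_add_le _ _).trans ?_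
      linarith
    have h5 : min (‖τ + a‖ / L) 1 ≤ 2 * (X * N) / L :=
      (min_le_left _ _).trans (div_le_div_of_nonneg_right h4 hL0.le)
    exact Zbd_D hD hC2 hL r1 r2 h5 h3
  have FE : ∀ a : ℂ, 1 + ‖a‖ ≤ N → (-(1 / 2 : ℝ) ≤ a.re ∧ a.re ≤ 3) →
      ‖riemannZeta (1 + (τ + a) / (L : ℂ))‖ ≤ C1 * (2 * L) * (2 * (X * N)) := by
    intro a ha hr
    have r1 : 1 / 2 ≤ (τ + a).re := by rw [Complex.add_re, hτr]; linarith [hr.1]
    have r2 : (τ + a).re ≤ 5 := by rw [Complex.add_re, hτr]; linarith [hr.2]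
    have i1 : (τ + a).im = ξ + a.im := by rw [Complex.add_im, hτi]
    have h3 := Zbd_LLb hL ξ ha
    rw [← i1, ← hX] at h3
    have h4 : 1 ≤ ‖τ + a‖ := by
      have := Complex.re_le_norm (τ + a)
      rw [Complex.add_re, hτr] at this
      linarith [hr.1]
    have h5 : 1 / ‖τ + a‖ ≤ 1 := by
      rw [div_le_one (by linarith)]
      exact h4
    refine (Zbd_U hU hC1 hL r1 r2 h5 h3).trans ?_
    have h6 : L * 1 + 1 ≤ 2 * L := by linarith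
    have h7 : 0 ≤ 2 * (X * N) := by positivity
    exact mul_le_mul_of_nonneg_right (mul_le_mul_of_nonneg_left h6 hC1.le) h7
  have FG : ‖riemannZeta (1 + (τ - t) / (L : ℂ))‖ ≤ C1 * (3 * X * L / m) * (4 * (X * Λ)) := by
    have r0 : (τ - t).re = 1 := by rw [Complex.sub_re, hτr, htr]; norm_num
    have r1 : 1 / 2 ≤ (τ - t).re := by rw [r0]; norm_num
    have r2 : (τ - t).re ≤ 5 := by rw [r0]; norm_num
    have i1 : (τ - t).im = ξ - y := by rw [Complex.sub_im, hτi, hti]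
    have h3 := Zbd_LLc hL y ξ
    rw [← i1, ← hΛ, ← hX] at h3
    have h4 : 1 ≤ ‖τ - t‖ := by
      have := Complex.re_le_norm (τ - t)
      rw [r0] at this
      exact this
    have h5 : |ξ - y| ≤ ‖τ - t‖ := by
      have := Complex.abs_im_le_norm (τ - t)
      rw [i1] at this
      exact this
    have h6 : |y| ≤ |ξ| + |ξ - y| := by
      have h7 : |ξ - (ξ - y)| ≤ |ξ| + |ξ - y| := abs_sub _ _
      have h8 : ξ - (ξ - y) = y := by ring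
      rw [h8] at h7
      exact h7
    have h7 : 1 / ‖τ - t‖ ≤ 2 * X / (1 + |y|) := by
      rw [div_le_div_iff₀ (by linarith) (by linarith), one_mul, hX]
      have e2 : |ξ| ≤ |ξ| * ‖τ - t‖ := le_mul_of_one_le_right hξ0 h4
      linarith
    have h2 : 1 / ‖τ - t‖ ≤ 2 * X / m :=
      h7.trans (div_le_div_of_nonneg_left (by linarith) hm0 hmY)
    refine (Zbd_U hU hC1 hL r1 r2 h2 h3).trans ?_
    have h4 : L * (2 * X / m) + 1 ≤ 3 * X * L / m := by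
      rw [le_div_iff₀ hm0]
      have e : (L * (2 * X / m) + 1) * m = 2 * (X * L) + m := by
        field_simp
      rw [e]
      have e2 : L ≤ X * L := le_mul_of_one_le_left hL0.le hX1
      linarith
    have h5 : 0 ≤ 4 * (X * Λ) := by positivity
    exact mul_le_mul_of_nonneg_right (mul_le_mul_of_nonneg_left h4 hC1.le) h5
  -- the identity
  have hnn : (q.sc L).nn (t / (L : ℂ)) := by
    have g : ∀ a : ℂ, (-(1 / 2 : ℝ) ≤ a.re ∧ a.re ≤ 3) → 0 ≤ (t / (L : ℂ) + a / (L : ℂ)).re := by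
      intro a ha
      rw [← add_div]
      have r1 : 1 / 2 ≤ (t + a).re := by rw [Complex.add_re, htr]; linarith [ha.1]
      have r2 : (t + a).re ≤ 5 := by rw [Complex.add_re, htr]; linarith [ha.2]
      exact (Zbd_lin hL r1 r2).1.le
    intro x hx
    simp only [Set.mem_insert_iff, Set.mem_singleton_iff, Par.sc] at hx
    rcases hx with rfl | rfl | rfl | rfl | rfl
    · exact g _ k1
    · exact g _ k2
    · exact g _ k3
    · exact g _ k4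
    · exact g _ k5
  have hlt : (t / (L : ℂ) - τ / (L : ℂ)).re < 0 := by
    rw [← sub_div, Complex.div_ofReal_re, Complex.sub_re, htr, hτr]
    exact div_neg_of_neg_of_pos (by norm_num) hL0
  have hBB := BB_eq (q.sc L) (t / L) (τ / L) hnn hlt
  have hgt : (q.sc L).gt (1 + τ / (L : ℂ)) := by
    have g : ∀ a : ℂ, (-(1 / 2 : ℝ) ≤ a.re ∧ a.re ≤ 3) →
        1 < (1 + τ / (L : ℂ) + a / (L : ℂ)).re := by
      intro a ha
      rw [add_assoc, ← add_div, Complex.add_re, Complex.one_re]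
      have r1 : 1 / 2 ≤ (τ + a).re := by rw [Complex.add_re, hτr]; linarith [ha.1]
      have r2 : (τ + a).re ≤ 5 := by rw [Complex.add_re, hτr]; linarith [ha.2]
      linarith [(Zbd_lin hL r1 r2).1]
    intro x hx
    simp only [Set.mem_insert_iff, Set.mem_singleton_iff, Par.sc] at hx
    rcases hx with rfl | rfl | rfl | rfl | rfl
    · exact g _ k1
    · exact g _ k2
    · exact g _ k3
    · exact g _ k4
    · exact g _ k5
  have hne := AA_ne_zero (q.sc L) (1 + τ / (L : ℂ)) hgt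
  have hBB2 : BB (q.sc L) (t / L) (τ / L) =
      riemannZeta (1 + τ / L - t / L) * HH (q.sc L) (t / L) (τ / L) *
        (AA (q.sc L) (1 + τ / (L : ℂ)))⁻¹ := by
    rw [← hBB, mul_assoc, mul_inv_cancel₀ hne, mul_one]
  have e1 : ∀ a : ℂ, 1 + t / (L : ℂ) + a / (L : ℂ) = 1 + (t + a) / (L : ℂ) := by
    intro a
    ring
  have e2 : ∀ a : ℂ, 1 + τ / (L : ℂ) + a / (L : ℂ) = 1 + (τ + a) / (L : ℂ) := by
    intro a
    ring
  have e3 : 1 + τ / (L : ℂ) - t / (L : ℂ) = 1 + (τ - t) / (L : ℂ) := by ring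
  have hZ : Zf (q.sc L) (t / L) (τ / L) =
      riemannZeta (1 + (t + q.a1) / L) * riemannZeta (1 + (t + q.a2) / L) *
      riemannZeta (1 + (t + q.a3) / L) * (riemannZeta (1 + (t + q.b1) / L))⁻¹ *
      (riemannZeta (1 + (t + q.b2) / L))⁻¹ *
      (riemannZeta (1 + (τ - t) / L) * HH (q.sc L) (t / L) (τ / L) *
        (riemannZeta (1 + (τ + q.b1) / L) * riemannZeta (1 + (τ + q.b2) / L)) *
        ((riemannZeta (1 + (τ + q.a1) / L))⁻¹ * (riemannZeta (1 + (τ + q.a2) / L))⁻¹ *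
          (riemannZeta (1 + (τ + q.a3) / L))⁻¹)) := by
    unfold Zf
    rw [hBB2, e3]
    unfold AA
    simp only [Par.sc, e1, e2]
    exact Zbd_id _ _ _ _ _ _ _ _ _ _ _ _
  rw [hZ]
  have hHH := hH (q.sc L) (t / L) (τ / L) hnn hlt.le
  have hA1 := FA q.a1 N1 k1
  have hA2 := FA q.a2 N2 k2
  have hA3 := FA q.a3 N3 k3
  have hB1 := FB q.b1 N4 k4
  have hB2 := FB q.b2 N5 k5
  have hD1 := FD q.a1 N1 k1
  have hD2 := FD q.a2 N2 k2
  have hD3 := FD q.a3 N3 k3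
  have hE1 := FE q.b1 N4 k4
  have hE2 := FE q.b2 N5 k5
  have hfin := Zbd_alg C1 C2 CH L m N X Λ hL0.ne' hm0.ne'
  have p1 : 0 ≤ C1 * (4 * N * L / m) * (4 * Λ * N) := by positivity
  have p2 : 0 ≤ C2 * (N * (m / L)) * (4 * Λ * N) ^ 8 := by positivity
  have p3 : 0 ≤ C1 * (3 * X * L / m) * (4 * (X * Λ)) := by positivity
  have p4 : 0 ≤ C1 * (2 * L) * (2 * (X * N)) := by positivity
  have p5 : 0 ≤ C2 * (2 * (X * N) / L) * (2 * (X * N)) ^ 8 := by positivity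
  have step : ‖riemannZeta (1 + (t + q.a1) / L) * riemannZeta (1 + (t + q.a2) / L) *
      riemannZeta (1 + (t + q.a3) / L) * (riemannZeta (1 + (t + q.b1) / L))⁻¹ *
      (riemannZeta (1 + (t + q.b2) / L))⁻¹ *
      (riemannZeta (1 + (τ - t) / L) * HH (q.sc L) (t / L) (τ / L) *
        (riemannZeta (1 + (τ + q.b1) / L) * riemannZeta (1 + (τ + q.b2) / L)) *
        ((riemannZeta (1 + (τ + q.a1) / L))⁻¹ * (riemannZeta (1 + (τ + q.a2) / L))⁻¹ *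
          (riemannZeta (1 + (τ + q.a3) / L))⁻¹))‖ ≤
      (C1 * (4 * N * L / m) * (4 * Λ * N)) * (C1 * (4 * N * L / m) * (4 * Λ * N)) *
      (C1 * (4 * N * L / m) * (4 * Λ * N)) * (C2 * (N * (m / L)) * (4 * Λ * N) ^ 8) *
      (C2 * (N * (m / L)) * (4 * Λ * N) ^ 8) *
      ((C1 * (3 * X * L / m) * (4 * (X * Λ))) * CH *
        ((C1 * (2 * L) * (2 * (X * N))) * (C1 * (2 * L) * (2 * (X * N)))) *
        ((C2 * (2 * (X * N) / L) * (2 * (X * N)) ^ 8) *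
          (C2 * (2 * (X * N) / L) * (2 * (X * N)) ^ 8) *
          (C2 * (2 * (X * N) / L) * (2 * (X * N)) ^ 8))) := by
    simp only [norm_mul]
    gcongr
  refine step.trans ?_
  rw [hfin]
  have q1 : N ^ 53 ≤ N ^ 100 := pow_le_pow_right₀ hN1 (by norm_num)
  have q2 : X ^ 31 ≤ X ^ 100 := pow_le_pow_right₀ hX1 (by norm_num)
  have q3 : Λ ^ 20 ≤ Λ ^ 100 := pow_le_pow_right₀ hΛ1 (by norm_num)
  gcongr

end H98.SZ
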