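import Pool.Agent.H98.SZ.Nsm
import Pool.Agent.H98.SZ.Mea
import Pool.Agent.H98.SZ.Zbd
import Pool.Agent.H98.SZ.Dom

/-!
# SZ / EIa: the inner sum for fixed `k`

`L = log T`, `z = (1+iy)/L`, `s = 1+z`. For `n ≥ 1`, `k ≥ 1`: `winK (κ θ) T (n/k) = (2πL)⁻¹ ∫ mw T (1+(1+iy+κ θ)/L) (n/k)^(-s) dy` (`winK_inv`), `(n/k)^(-s) = n^(-s) k^s`. Insert this in `cw`.
All sums and integrals converge absolutely: `‖g θ‖` integrable (`int 0`), `∫ ‖mw T (...)‖ dy < ∞` uniformly in `θ` (`mw_bound` with `B + 1`), `‖n^(-s)‖ = n^(-1-1/L)`, `|rho| ≤ 1`, and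
`‖cc ((q θ).sc L) n‖ n^(-1-1/L) ≤ m n` with `m` summable (`cc_le` with `δ = 1/(2L)`: `Re((1+iy)/L + a/L) ≥ 1/L - 1/(2L)` by `ok`). So (`hasSum_integral_of_summable_integral_norm`, `integral_prod`)
`∑_n rho k n cw = ∫∫ g (2πL)⁻¹ mw k^s ∑_n rho k n cc n^(-s) = ∫∫ g (2πL)⁻¹ mw k^s AA ∏ bet` by `nsum`. (`n = 0` contributes `0` since `cc q 0 = 0`.) Measurability: `Mea`.
The function `KI` is the integrand; `KI_int` its integrability with an explicit norm bound for later use.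
-/

set_option autoImplicit false

open Filter Topology MeasureTheory

namespace H98.SZ

variable {Θ : Type} [MeasurableSpace Θ]

/-- the weight common to all `k`: `g(θ) (2πL)⁻¹ mw T (1+(1+iy+κ)/L)` -/
noncomputable def GW (g : Θ → ℂ) (κ : Θ → ℂ) (T : ℝ) (θ : Θ) (y : ℝ) : ℂ :=
  g θ * ((1 / (2 * Real.pi * Real.log T) : ℝ) : ℂ) * mw T (1 + (1 + Complex.I * y + κ θ) / (Real.log T : ℂ))

theorem EIa_B {ν : Measure Θ} {g : Θ → ℂ} {q : Θ → Par} {κ : Θ → ℂ} (h : PD ν g q κ) :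
    ∃ B : ℝ, 0 ≤ B ∧ ∀ θ, ‖κ θ‖ ≤ B := by
  obtain ⟨B, hB⟩ := h.κle
  exact ⟨max B 0, le_max_right _ _, fun θ => (hB θ).trans (le_max_left _ _)⟩

theorem EIa_log {B T : ℝ} (hT : Real.exp (B + 2) ≤ T) : B + 2 ≤ Real.log T := by
  have h1 := Real.log_le_log (Real.exp_pos _) hT
  rwa [Real.log_exp] at h1

theorem EIa_re {κ : ℂ} {B L y : ℝ} (hL : B + 2 ≤ L) (hκ : ‖κ‖ ≤ B) :
    0 < (1 + (1 + Complex.I * y + κ) / (L : ℂ)).re := by
  have hB : 0 ≤ B := (norm_nonneg _).trans hκ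
  have hL0 : 0 < L := by linarith
  rw [Complex.add_re, Complex.one_re, Complex.div_ofReal_re]
  have h1 : (1 + Complex.I * y + κ).re = 1 + κ.re := by simp
  rw [h1]
  have h2 := abs_le.1 (Complex.abs_re_le_norm κ)
  have h3 : -1 < (1 + κ.re) / L := by
    rw [lt_div_iff₀ hL0]
    linarith
  linarith

theorem EIa_MP {ν : Measure Θ} {g : Θ → ℂ} {q : Θ → Par} {κ : Θ → ℂ} (h : PD ν g q κ) :
    MP (fun p : Θ × ℝ => q p.1) :=
  ⟨h.m1.comp measurable_fst, h.m2.comp measurable_fst, h.m3.comp measurable_fst,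
    h.m4.comp measurable_fst, h.m5.comp measurable_fst⟩

theorem GW_int (ν : Measure Θ) [SFinite ν] {g : Θ → ℂ} {q : Θ → Par} {κ : Θ → ℂ} (h : PD ν g q κ) : ∃ T0 : ℝ, 3 ≤ T0 ∧ ∀ T : ℝ, T0 ≤ T →
    Integrable (fun p : Θ × ℝ => GW g κ T p.1 p.2) (ν.prod volume) := by
  obtain ⟨B, hB0, hB⟩ := EIa_B h
  obtain ⟨C, T1, hC, hT1, hmw⟩ := mw_bound (B + 1)
  refine ⟨max T1 (Real.exp (B + 2)), hT1.trans (le_max_left _ _), fun T hT => ?_⟩
  have hTa : T1 ≤ T := (le_max_left _ _).trans hT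
  have hT3 : 3 ≤ T := hT1.trans hTa
  have hL := EIa_log ((le_max_right _ _).trans hT)
  have hL0 : 0 < Real.log T := by linarith
  obtain ⟨L, hLdef⟩ : ∃ L, L = Real.log T := ⟨_, rfl⟩
  have hom : 0 ≤ om T := by
    unfold om
    positivity
  have hgi : Integrable (fun θ => ‖g θ‖) ν := by
    have h1 := h.int 0
    simpa using h1
  have hdom : Integrable (fun p : Θ × ℝ => (‖g p.1‖ * (C * om T * L ^ 3 * (2 * (1 + B ^ 2)))) *
      ((1 / (2 * Real.pi * L)) * (1 + p.2 ^ 2)⁻¹)) (ν.prod volume) :=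
    (hgi.mul_const _).mul_prod (integrable_inv_one_add_sq.const_mul _)
  refine hdom.mono' ?_ ?_
  · have hm1 : Measurable (fun p : Θ × ℝ => 1 + (1 + Complex.I * (p.2 : ℂ) + κ p.1) /
        (Real.log T : ℂ)) := by
      refine measurable_const.add (Measurable.div_const ?_ _)
      exact (measurable_const.add (measurable_const.mul
        (Complex.measurable_ofReal.comp measurable_snd))).add (h.mκ.comp measurable_fst)
    have hm2 := mw_meas hT3 hm1 (fun p => EIa_re hL (hB p.1))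
    exact (((h.mg.comp measurable_fst).mul_const _).mul hm2).aestronglyMeasurable
  · refine Filter.Eventually.of_forall fun p => ?_
    obtain ⟨θ, y⟩ := p
    show ‖GW g κ T θ y‖ ≤ (‖g θ‖ * (C * om T * L ^ 3 * (2 * (1 + B ^ 2)))) *
      ((1 / (2 * Real.pi * L)) * (1 + y ^ 2)⁻¹)
    have hκ := hB θ
    have hre := abs_le.1 ((Complex.abs_re_le_norm (κ θ)).trans hκ)
    have him := abs_le.1 ((Complex.abs_im_le_norm (κ θ)).trans hκ)
    have h1 := hmw T hTa (1 + Complex.I * y + κ θ) (by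
      have h2 : (1 + Complex.I * y + κ θ).re = 1 + (κ θ).re := by simp
      rw [h2, abs_le]
      constructor <;> linarith)
    have h3 : (1 + Complex.I * y + κ θ).im = y + (κ θ).im := by simp
    rw [h3, ← hLdef] at h1
    have hL0' : 0 < L := by rw [hLdef]; exact hL0
    have h4 : min 1 (L ^ 3 / (1 + (y + (κ θ).im) ^ 2)) ≤
        L ^ 3 * (2 * (1 + B ^ 2)) * (1 + y ^ 2)⁻¹ := by
      refine (min_le_right _ _).trans ?_
      rw [mul_assoc, div_eq_mul_inv]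
      refine mul_le_mul_of_nonneg_left ?_ (by positivity)
      rw [← div_eq_mul_inv, inv_eq_one_div, div_le_div_iff₀ (by positivity) (by positivity)]
      have hsq : (κ θ).im ^ 2 ≤ B ^ 2 := by nlinarith
      have e1 : 1 + y ^ 2 ≤ 2 * (1 + (κ θ).im ^ 2) * (1 + (y + (κ θ).im) ^ 2) := by
        nlinarith [sq_nonneg (y + 2 * (κ θ).im), sq_nonneg ((κ θ).im * (y + (κ θ).im)),
          sq_nonneg (y + (κ θ).im + (κ θ).im)]
      calc 1 * (1 + y ^ 2) ≤ 2 * (1 + (κ θ).im ^ 2) * (1 + (y + (κ θ).im) ^ 2) := by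
            rw [one_mul]; exact e1
        _ ≤ 2 * (1 + B ^ 2) * (1 + (y + (κ θ).im) ^ 2) := by
            refine mul_le_mul_of_nonneg_right ?_ (by positivity)
            linarith
    have hcn : ‖((1 / (2 * Real.pi * Real.log T) : ℝ) : ℂ)‖ = 1 / (2 * Real.pi * L) := by
      rw [Complex.norm_real, Real.norm_eq_abs, ← hLdef, abs_of_nonneg (by positivity)]
    unfold GW
    rw [norm_mul, norm_mul, hcn]
    calc ‖g θ‖ * (1 / (2 * Real.pi * L)) *
          ‖mw T (1 + (1 + Complex.I * y + κ θ) / (Real.log T : ℂ))‖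
        ≤ ‖g θ‖ * (1 / (2 * Real.pi * L)) *
          (C * om T * (L ^ 3 * (2 * (1 + B ^ 2)) * (1 + y ^ 2)⁻¹)) := by
          refine mul_le_mul_of_nonneg_left ?_ (by positivity)
          rw [hLdef] at h1 h4 ⊢
          exact h1.trans (mul_le_mul_of_nonneg_left h4 (mul_nonneg hC hom))
      _ = _ := by ring

/-- the integrand for given `n` -/
noncomputable def EIa_F (g : Θ → ℂ) (q : Θ → Par) (κ : Θ → ℂ) (T : ℝ) (k n : ℕ)
    (p : Θ × ℝ) : ℂ :=
  ((k : ℂ) ^ (1 + (1 + Complex.I * p.2) / (Real.log T : ℂ)) *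
    ((rho k n : ℂ) * (cc ((q p.1).sc (Real.log T)) n *
      (n : ℂ) ^ (-(1 + (1 + Complex.I * p.2) / (Real.log T : ℂ)))))) * GW g κ T p.1 p.2

theorem EIa_gt {q : Par} (hq : q.ok) {L y : ℝ} (hL : 0 < L) :
    ∀ x ∈ ({(q.sc L).a1, (q.sc L).a2, (q.sc L).a3, (q.sc L).b1, (q.sc L).b2} : Set ℂ),
      1 + 1 / (2 * L) ≤ ((1 + (1 + Complex.I * y) / (L : ℂ)) + x).re := by
  have key : ∀ a : ℂ, -(1 / 2 : ℝ) ≤ a.re →
      1 + 1 / (2 * L) ≤ ((1 + (1 + Complex.I * y) / (L : ℂ)) + a / (L : ℂ)).re := by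
    intro a ha
    rw [Complex.add_re, Complex.add_re, Complex.one_re, Complex.div_ofReal_re,
      Complex.div_ofReal_re]
    have h1 : (1 + Complex.I * (y : ℂ)).re = 1 := by simp
    rw [h1]
    have h2 : 1 / (2 * L) = (1 / 2) / L := by
      field_simp
    have h3 : (1 / 2) / L ≤ (1 + a.re) / L := by
      refine div_le_div_of_nonneg_right ?_ hL.le
      linarith
    have h4 : (1 + a.re) / L = 1 / L + a.re / L := by ring
    rw [h2]
    linarith
  intro x hx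
  have h1 := (hq q.a1 (by simp)).1
  have h2 := (hq q.a2 (by simp)).1
  have h3 := (hq q.a3 (by simp)).1
  have h4 := (hq q.b1 (by simp)).1
  have h5 := (hq q.b2 (by simp)).1
  simp only [Set.mem_insert_iff, Set.mem_singleton_iff] at hx
  rcases hx with rfl | rfl | rfl | rfl | rfl
  · exact key _ h1
  · exact key _ h2
  · exact key _ h3
  · exact key _ h4
  · exact key _ h5

theorem EIa_sre (L y : ℝ) : (1 + (1 + Complex.I * y) / (L : ℂ)).re = 1 + 1 / L := by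
  rw [Complex.add_re, Complex.one_re, Complex.div_ofReal_re]
  simp

theorem EIa_fb {k : ℕ} (hk : 0 < k) {m : ℕ → ℝ} {L : ℝ}
    (hm : ∀ (q : Par) (s : ℂ),
      (∀ x ∈ ({q.a1, q.a2, q.a3, q.b1, q.b2} : Set ℂ), 1 + 1 / (2 * L) ≤ (s + x).re) →
      ∀ n : ℕ, 1 ≤ n → ‖cc q n‖ * (n : ℝ) ^ (-s.re) ≤ m n) (hm0 : ∀ n, 0 ≤ m n)
    (hL : 0 < L) {q : Par} (hq : q.ok) (y : ℝ) (n : ℕ) :
    ‖(k : ℂ) ^ (1 + (1 + Complex.I * y) / (L : ℂ)) *
      ((rho k n : ℂ) * (cc (q.sc L) n * (n : ℂ) ^ (-(1 + (1 + Complex.I * y) / (L : ℂ)))))‖ ≤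
      (k : ℝ) ^ (1 + 1 / L) * m n := by
  have hk0 : (0 : ℝ) ≤ (k : ℝ) ^ (1 + 1 / L) := Real.rpow_nonneg (Nat.cast_nonneg k) _
  rcases Nat.eq_zero_or_pos n with rfl | hn
  · rw [ArithmeticFunction.map_zero, zero_mul, mul_zero, mul_zero, norm_zero]
    exact mul_nonneg hk0 (hm0 0)
  · rw [norm_mul, norm_mul, norm_mul, Complex.norm_natCast_cpow_of_pos hk,
      Complex.norm_natCast_cpow_of_pos hn, EIa_sre, Complex.neg_re, EIa_sre]
    refine mul_le_mul_of_nonneg_left ?_ hk0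
    have h1 := hm (q.sc L) (1 + (1 + Complex.I * y) / (L : ℂ)) (EIa_gt hq hL) n hn
    rw [EIa_sre] at h1
    have h2 : ‖(rho k n : ℂ)‖ ≤ 1 := by
      rw [Complex.norm_real]
      exact rho_abs_le k n
    calc ‖(rho k n : ℂ)‖ * (‖cc (q.sc L) n‖ * (n : ℝ) ^ (-(1 + 1 / L)))
        ≤ 1 * m n := mul_le_mul h2 h1
          (mul_nonneg (norm_nonneg _) (Real.rpow_nonneg (Nat.cast_nonneg n) _)) zero_le_one
      _ = m n := one_mul _

theorem EIa_F_int {ν : Measure Θ} [SFinite ν] {g : Θ → ℂ} {q : Θ → Par} {κ : Θ → ℂ}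
    (h : PD ν g q κ) {T : ℝ} (hT : 0 < Real.log T)
    (hGW : Integrable (fun p : Θ × ℝ => GW g κ T p.1 p.2) (ν.prod volume)) {k : ℕ} (hk : 0 < k)
    {m : ℕ → ℝ}
    (hm : ∀ (q : Par) (s : ℂ),
      (∀ x ∈ ({q.a1, q.a2, q.a3, q.b1, q.b2} : Set ℂ),
        1 + 1 / (2 * Real.log T) ≤ (s + x).re) →
      ∀ n : ℕ, 1 ≤ n → ‖cc q n‖ * (n : ℝ) ^ (-s.re) ≤ m n) (hm0 : ∀ n, 0 ≤ m n) (n : ℕ) :
    Integrable (EIa_F g q κ T k n) (ν.prod volume) := by
  have hs : Measurable (fun p : Θ × ℝ => 1 + (1 + Complex.I * (p.2 : ℂ)) /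
      (Real.log T : ℂ)) := by
    refine measurable_const.add (Measurable.div_const ?_ _)
    exact measurable_const.add (measurable_const.mul
      (Complex.measurable_ofReal.comp measurable_snd))
  refine Integrable.bdd_mul (c := (k : ℝ) ^ (1 + 1 / Real.log T) * m n) hGW ?_ ?_
  · refine Measurable.aestronglyMeasurable ?_
    refine Measurable.mul (measurable_const.pow hs) (measurable_const.mul (Measurable.mul ?_ ?_))
    · exact cc_meas ((EIa_MP h).sc (Real.log T)) n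
    · exact measurable_const.pow hs.neg
  · refine Filter.Eventually.of_forall fun p => ?_
    exact EIa_fb hk hm hm0 hT (h.ok p.1) p.2 n

theorem EIa_F_eq {ν : Measure Θ} [SFinite ν] {g : Θ → ℂ} {q : Θ → Par} {κ : Θ → ℂ}
    {B T : ℝ} (hB : ∀ θ, ‖κ θ‖ ≤ B)
    (hinv : ∀ κ : ℂ, ‖κ‖ ≤ B → ∀ r : ℝ, 0 < r →
      winK κ T r = ((1 / (2 * Real.pi * Real.log T) : ℝ) : ℂ) *
        ∫ y : ℝ, mw T (1 + (1 + Complex.I * y + κ) / (Real.log T : ℂ)) *
          (r : ℂ) ^ (-(1 + (1 + Complex.I * y) / (Real.log T : ℂ))))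
    {k : ℕ} (hk : 0 < k) (n : ℕ) (hF : Integrable (EIa_F g q κ T k n) (ν.prod volume)) :
    ∫ p, EIa_F g q κ T k n p ∂(ν.prod volume) =
      (rho k n : ℂ) * cw ν g q κ T n ((n : ℝ) / (k : ℝ)) := by
  rw [integral_prod _ hF]
  unfold cw
  rw [← integral_const_mul]
  refine integral_congr_ae (Filter.Eventually.of_forall fun θ => ?_)
  show ∫ y : ℝ, EIa_F g q κ T k n (θ, y) =
    (rho k n : ℂ) * (g θ * cc ((q θ).sc (Real.log T)) n * winK (κ θ) T ((n : ℝ) / (k : ℝ)))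
  rcases Nat.eq_zero_or_pos n with rfl | hn
  · unfold EIa_F
    simp [ArithmeticFunction.map_zero]
  · have hk' : (0 : ℝ) < k := Nat.cast_pos.2 hk
    have hn' : (0 : ℝ) < n := Nat.cast_pos.2 hn
    rw [hinv (κ θ) (hB θ) _ (div_pos hn' hk')]
    have e1 : (rho k n : ℂ) * (g θ * cc ((q θ).sc (Real.log T)) n *
        (((1 / (2 * Real.pi * Real.log T) : ℝ) : ℂ) *
        ∫ y : ℝ, mw T (1 + (1 + Complex.I * y + κ θ) / (Real.log T : ℂ)) *
          (((n : ℝ) / (k : ℝ) : ℝ) : ℂ) ^ (-(1 + (1 + Complex.I * y) / (Real.log T : ℂ))))) =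
        ((rho k n : ℂ) * (g θ * cc ((q θ).sc (Real.log T)) n *
        ((1 / (2 * Real.pi * Real.log T) : ℝ) : ℂ))) *
        ∫ y : ℝ, mw T (1 + (1 + Complex.I * y + κ θ) / (Real.log T : ℂ)) *
          (((n : ℝ) / (k : ℝ) : ℝ) : ℂ) ^ (-(1 + (1 + Complex.I * y) / (Real.log T : ℂ))) := by
      ring
    rw [e1, ← integral_const_mul]
    refine integral_congr_ae (Filter.Eventually.of_forall fun y => ?_)
    have e2 : (((n : ℝ) / (k : ℝ) : ℝ) : ℂ) ^ (-(1 + (1 + Complex.I * y) / (Real.log T : ℂ))) =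
        (k : ℂ) ^ (1 + (1 + Complex.I * y) / (Real.log T : ℂ)) *
          (n : ℂ) ^ (-(1 + (1 + Complex.I * y) / (Real.log T : ℂ))) := by
      obtain ⟨s, hs⟩ : ∃ s : ℂ, s = 1 + (1 + Complex.I * y) / (Real.log T : ℂ) := ⟨_, rfl⟩
      rw [← hs]
      have h1 : (((n : ℝ) / (k : ℝ) : ℝ) : ℂ) = ((n : ℝ) : ℂ) * (((k : ℝ)⁻¹ : ℝ) : ℂ) := by
        push_cast
        rw [div_eq_mul_inv]
      rw [h1, Complex.mul_cpow_ofReal_nonneg hn'.le (inv_nonneg.2 hk'.le)]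
      have h2 : (((k : ℝ)⁻¹ : ℝ) : ℂ) ^ (-s) = (k : ℂ) ^ s := by
        rw [Complex.ofReal_inv, Complex.ofReal_natCast, Complex.inv_cpow, Complex.cpow_neg,
          inv_inv]
        rw [Complex.natCast_arg]
        exact Real.pi_pos.ne
      rw [h2, Complex.ofReal_natCast, mul_comm]
    show EIa_F g q κ T k n (θ, y) = ((rho k n : ℂ) * (g θ * cc ((q θ).sc (Real.log T)) n *
        ((1 / (2 * Real.pi * Real.log T) : ℝ) : ℂ))) *
        (mw T (1 + (1 + Complex.I * y + κ θ) / (Real.log T : ℂ)) *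
          (((n : ℝ) / (k : ℝ) : ℝ) : ℂ) ^ (-(1 + (1 + Complex.I * y) / (Real.log T : ℂ))))
    rw [e2]
    unfold EIa_F GW
    ring

theorem EIa (ν : Measure Θ) [SFinite ν] {g : Θ → ℂ} {q : Θ → Par} {κ : Θ → ℂ} (h : PD ν g q κ) : ∃ T0 : ℝ, 3 ≤ T0 ∧ ∀ T : ℝ, T0 ≤ T →
    ∀ k : ℕ, Squarefree k →
      HasSum (fun n : ℕ => (rho k n : ℂ) * cw ν g q κ T n ((n : ℝ) / (k : ℝ)))
        (∫ p : Θ × ℝ, GW g κ T p.1 p.2 * ((k : ℂ) ^ (1 + (1 + Complex.I * p.2) / (Real.log T : ℂ)) *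
          (AA ((q p.1).sc (Real.log T)) (1 + (1 + Complex.I * p.2) / (Real.log T : ℂ)) *
            ∏ l ∈ k.primeFactors, bet ((q p.1).sc (Real.log T)) (1 + (1 + Complex.I * p.2) / (Real.log T : ℂ)) l)) ∂(ν.prod volume)) := by
  obtain ⟨B, hB0, hB⟩ := EIa_B h
  obtain ⟨T1, hT1, hGW⟩ := GW_int ν h
  obtain ⟨T2, hT2, hinv⟩ := winK_inv B
  refine ⟨max T1 T2, hT1.trans (le_max_left _ _), fun T hT k hk => ?_⟩
  have hTa : T1 ≤ T := (le_max_left _ _).trans hT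
  have hTb : T2 ≤ T := (le_max_right _ _).trans hT
  have hL : 0 < Real.log T := Real.log_pos (by linarith)
  have hk0 : 0 < k := Nat.pos_of_ne_zero hk.ne_zero
  obtain ⟨m, hm0, hms, hm⟩ := cc_le (δ := 1 / (2 * Real.log T)) (by positivity)
  have hG := hGW T hTa
  have hFint := fun n => EIa_F_int h hL hG hk0 hm hm0 n
  have hsum : Summable fun n => ∫ p, ‖EIa_F g q κ T k n p‖ ∂(ν.prod volume) := by
    have hc : Summable fun n => (k : ℝ) ^ (1 + 1 / Real.log T) * m n *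
        ∫ p : Θ × ℝ, ‖GW g κ T p.1 p.2‖ ∂(ν.prod volume) :=
      (hms.mul_left _).mul_right _
    refine Summable.of_nonneg_of_le (fun n => integral_nonneg fun p => norm_nonneg _)
      (fun n => ?_) hc
    rw [← integral_const_mul]
    refine integral_mono (hFint n).norm (hG.norm.const_mul _) fun p => ?_
    show ‖EIa_F g q κ T k n p‖ ≤ (k : ℝ) ^ (1 + 1 / Real.log T) * m n * ‖GW g κ T p.1 p.2‖
    unfold EIa_F
    rw [norm_mul]
    exact mul_le_mul_of_nonneg_right (EIa_fb hk0 hm hm0 hL (h.ok p.1) p.2 n) (norm_nonneg _)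
  have h1 := hasSum_integral_of_summable_integral_norm hFint hsum
  have h2 : (fun n => ∫ p, EIa_F g q κ T k n p ∂(ν.prod volume)) =
      fun n : ℕ => (rho k n : ℂ) * cw ν g q κ T n ((n : ℝ) / (k : ℝ)) := by
    funext n
    exact EIa_F_eq hB (hinv T hTb) hk0 n (hFint n)
  rw [h2] at h1
  have h3 : (fun p : Θ × ℝ => ∑' n, EIa_F g q κ T k n p) = fun p : Θ × ℝ =>
      GW g κ T p.1 p.2 * ((k : ℂ) ^ (1 + (1 + Complex.I * p.2) / (Real.log T : ℂ)) *
          (AA ((q p.1).sc (Real.log T)) (1 + (1 + Complex.I * p.2) / (Real.log T : ℂ)) *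
            ∏ l ∈ k.primeFactors, bet ((q p.1).sc (Real.log T)) (1 + (1 + Complex.I * p.2) / (Real.log T : ℂ)) l)) := by
    funext p
    have hgt : ((q p.1).sc (Real.log T)).gt (1 + (1 + Complex.I * p.2) / (Real.log T : ℂ)) := by
      intro x hx
      refine lt_of_lt_of_le ?_ (EIa_gt (h.ok p.1) hL x hx)
      have : 0 < 1 / (2 * Real.log T) := by positivity
      linarith
    have h4 := ((nsum _ _ hgt hk).mul_left
      ((k : ℂ) ^ (1 + (1 + Complex.I * p.2) / (Real.log T : ℂ)))).mul_right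
      (GW g κ T p.1 p.2)
    rw [mul_comm (GW g κ T p.1 p.2)]
    exact h4.tsum_eq
  rw [h3] at h1
  exact h1

end H98.SZ
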