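import Pool.Agent.H98.SZ.EIa

/-!
# SZ / EIb: the exact integral representation of the averaged principal part

`L = log T`, `z = (1+iy)/L`, `w = (2+iξ)/L`. For squarefree `k ≥ 1`: `P(log k/L) = ∫ ph ξ k^(-w) dξ` (`FL.rep`: `exp(-(2+iξ) log k/L) = k^(-w)`), so with `EIa`
`xx P L k / k * (inner sum) = ∫∫∫ ph GW μ(k) k^(-1-w) k^(1+z) AA ∏ bet = ∫∫∫ ph GW AA · bt ((q θ).sc L) z w k` (product of integrals, `integral_prod_mul`, Fubini). For `k` not squarefree both sides are `0`.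
Sum over `k`: `‖bt‖ ≤ m k`, `m` summable (`bt_majorant` with `δ = 1/L`: `Re(z-w) = -1/L`, `nn` by `ok`), and `∫∫∫ ‖ph‖ ‖GW‖ ‖AA‖ < ∞`: `‖AA ((q θ).sc L) (1+z)‖ ≤ C_L nm^K (1+|y|)^K'`... simpler: `‖AA q' s‖ ≤ ∑_n ‖cc q' n‖ n^(-Re s) ≤ ∑ m' n`
(`cc_le`, `nsum` with `k = 1`), a constant depending on `L` only. So `hasSum_integral_of_summable_integral_norm` and `∑_k bt = BB`, `AA · BB = Zf`.
-/

set_option autoImplicit false

open Filter Topology MeasureTheory

namespace H98.SZ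

variable {Θ : Type} [MeasurableSpace Θ]

/-- `(θ, ξ, y) ↦ (ξ, (θ, y))` preserves the measures -/
theorem EIb_mp (ν : Measure Θ) [SFinite ν] :
    MeasurePreserving (fun p : Θ × ℝ × ℝ => (p.2.1, (p.1, p.2.2)))
      (ν.prod ((volume : Measure ℝ).prod (volume : Measure ℝ)))
      ((volume : Measure ℝ).prod (ν.prod (volume : Measure ℝ))) := by
  have h1 := (measurePreserving_prodAssoc ν (volume : Measure ℝ) (volume : Measure ℝ)).symm
  have h2 := (Measure.measurePreserving_swap (μ := ν) (ν := (volume : Measure ℝ))).prod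
    (MeasurePreserving.id (volume : Measure ℝ))
  have h3 := measurePreserving_prodAssoc (volume : Measure ℝ) ν (volume : Measure ℝ)
  exact h3.comp (h2.comp h1)

theorem EIb_int {ν : Measure Θ} [SFinite ν] {f : ℝ → ℂ} {G : Θ × ℝ → ℂ} (hf : Integrable f)
    (hG : Integrable G (ν.prod volume)) :
    Integrable (fun p : Θ × ℝ × ℝ => f p.2.1 * G (p.1, p.2.2))
      (ν.prod (volume.prod volume)) :=
  ((EIb_mp ν).integrable_comp (hf.mul_prod hG).aestronglyMeasurable).2 (hf.mul_prod hG)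

theorem EIb_val {ν : Measure Θ} [SFinite ν] {f : ℝ → ℂ} {G : Θ × ℝ → ℂ} (hf : Measurable f)
    (hG : AEStronglyMeasurable G (ν.prod volume)) :
    ∫ p : Θ × ℝ × ℝ, f p.2.1 * G (p.1, p.2.2) ∂(ν.prod (volume.prod volume)) =
      (∫ ξ, f ξ) * ∫ p, G p ∂(ν.prod volume) := by
  rw [← integral_prod_mul f G, ← (EIb_mp ν).map_eq, integral_map]
  · exact (EIb_mp ν).aemeasurable
  · rw [(EIb_mp ν).map_eq]
    exact (hf.aestronglyMeasurable.comp_fst).mul hG.comp_snd

/-- the integrand for given `k` -/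
noncomputable def EIb_F (g : Θ → ℂ) (q : Θ → Par) (κ : Θ → ℂ) (ph : ℝ → ℂ) (T : ℝ) (k : ℕ)
    (p : Θ × ℝ × ℝ) : ℂ :=
  (AA ((q p.1).sc (Real.log T)) (1 + (1 + Complex.I * p.2.2) / (Real.log T : ℂ)) *
    bt ((q p.1).sc (Real.log T)) ((1 + Complex.I * p.2.2) / (Real.log T : ℂ))
      ((2 + Complex.I * p.2.1) / (Real.log T : ℂ)) k) *
  (ph p.2.1 * GW g κ T p.1 p.2.2)

theorem EIb_AA {m : ℕ → ℝ} {L : ℝ}
    (hm : ∀ (q : Par) (s : ℂ),
      (∀ x ∈ ({q.a1, q.a2, q.a3, q.b1, q.b2} : Set ℂ), 1 + 1 / (2 * L) ≤ (s + x).re) →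
      ∀ n : ℕ, 1 ≤ n → ‖cc q n‖ * (n : ℝ) ^ (-s.re) ≤ m n) (hm0 : ∀ n, 0 ≤ m n)
    (hms : Summable m) (hL : 0 < L) {q : Par} (hq : q.ok) (y : ℝ) :
    ‖AA (q.sc L) (1 + (1 + Complex.I * y) / (L : ℂ))‖ ≤ ∑' n, m n := by
  have hgt : (q.sc L).gt (1 + (1 + Complex.I * y) / (L : ℂ)) := by
    intro x hx
    refine lt_of_lt_of_le ?_ (EIa_gt hq hL x hx)
    have : 0 < 1 / (2 * L) := by positivity
    linarith
  have h1 := nsum (q.sc L) (1 + (1 + Complex.I * y) / (L : ℂ)) hgt squarefree_one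
  rw [Nat.primeFactors_one, Finset.prod_empty, mul_one] at h1
  refine h1.norm_le_of_bounded hms.hasSum fun n => ?_
  have h2 := EIa_fb (k := 1) one_pos hm hm0 hL hq y n
  rw [Nat.cast_one, Complex.one_cpow, one_mul, Nat.cast_one, Real.one_rpow, one_mul] at h2
  exact h2

theorem EIb_nn {L : ℝ} (hL : 0 < L) {q : Par} (hq : q.ok) (y : ℝ) :
    (q.sc L).nn ((1 + Complex.I * y) / (L : ℂ)) := by
  intro x hx
  have h1 := EIa_gt (y := y) hq hL x hx
  have h2 : 0 < 1 / (2 * L) := by positivity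
  rw [add_assoc, Complex.add_re, Complex.one_re] at h1
  linarith

theorem EIb_re {L : ℝ} (y ξ : ℝ) :
    ((1 + Complex.I * y) / (L : ℂ) - (2 + Complex.I * ξ) / (L : ℂ)).re = -(1 / L) := by
  rw [← sub_div, Complex.div_ofReal_re]
  have h1 : ((1 + Complex.I * (y : ℂ)) - (2 + Complex.I * (ξ : ℂ))).re = -1 := by
    simp
    norm_num
  rw [h1]
  ring

theorem EIb_cpow {k : ℕ} (hk : k ≠ 0) (z w : ℂ) :
    (k : ℂ) ^ (z - w) = (k : ℂ)⁻¹ * ((k : ℂ) ^ (1 + z) * (k : ℂ) ^ (-w)) := by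
  have hk' : (k : ℂ) ≠ 0 := Nat.cast_ne_zero.2 hk
  rw [← Complex.cpow_add _ _ hk']
  have h1 : 1 + z + -w = 1 + (z - w) := by ring
  rw [h1, Complex.cpow_add _ _ hk', Complex.cpow_one, ← mul_assoc, inv_mul_cancel₀ hk', one_mul]

theorem EIb_exp {k : ℕ} (hk : k ≠ 0) {L : ℝ} (ξ : ℝ) :
    Complex.exp (-((2 + Complex.I * ξ) * ((Real.log k / L : ℝ) : ℂ))) =
      (k : ℂ) ^ (-((2 + Complex.I * ξ) / (L : ℂ))) := by
  have hk' : (k : ℂ) ≠ 0 := Nat.cast_ne_zero.2 hk
  rw [Complex.cpow_def_of_ne_zero hk', ← Complex.natCast_log]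
  push_cast
  ring_nf

theorem EIb_meas {ν : Measure Θ} {g : Θ → ℂ} {q : Θ → Par} {κ : Θ → ℂ}
    (h : PD ν g q κ) (T : ℝ) (k : ℕ) :
    Measurable (fun p : Θ × ℝ × ℝ =>
      AA ((q p.1).sc (Real.log T)) (1 + (1 + Complex.I * p.2.2) / (Real.log T : ℂ)) *
      bt ((q p.1).sc (Real.log T)) ((1 + Complex.I * p.2.2) / (Real.log T : ℂ))
      ((2 + Complex.I * p.2.1) / (Real.log T : ℂ)) k) := by
  have hq : MP (fun p : Θ × ℝ × ℝ => (q p.1).sc (Real.log T)) :=
    MP.sc ⟨h.m1.comp measurable_fst, h.m2.comp measurable_fst, h.m3.comp measurable_fst,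
      h.m4.comp measurable_fst, h.m5.comp measurable_fst⟩ (Real.log T)
  have hz : Measurable (fun p : Θ × ℝ × ℝ => (1 + Complex.I * (p.2.2 : ℂ)) /
      (Real.log T : ℂ)) :=
    (measurable_const.add (measurable_const.mul
      (Complex.measurable_ofReal.comp (measurable_snd.comp measurable_snd)))).div_const _
  have hw : Measurable (fun p : Θ × ℝ × ℝ => (2 + Complex.I * (p.2.1 : ℂ)) /
      (Real.log T : ℂ)) :=
    (measurable_const.add (measurable_const.mul
      (Complex.measurable_ofReal.comp (measurable_fst.comp measurable_snd)))).div_const _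
  refine (AA_meas hq (measurable_const.add hz)).mul ?_
  unfold bt
  exact (measurable_const.mul (Mea_cpow (hz.sub hw) _)).mul
      (Finset.measurable_prod _ fun p _ => bet_meas hq (measurable_const.add hz) p)

theorem EIb_term {ν : Measure Θ} [SFinite ν] {g : Θ → ℂ} {q : Θ → Par} {κ : Θ → ℂ}
    (h : PD ν g q κ) {P ph : ℝ → ℂ} (hP : FL P ph) {T : ℝ}
    (hGW : Integrable (fun p : Θ × ℝ => GW g κ T p.1 p.2) (ν.prod volume)) {k : ℕ} (hk : k ≠ 0) :
    ∫ p, EIb_F g q κ ph T k p ∂(ν.prod (volume.prod volume)) =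
      xx P (Real.log T) k / (k : ℂ) *
        ∫ p : Θ × ℝ, GW g κ T p.1 p.2 * ((k : ℂ) ^ (1 + (1 + Complex.I * p.2) / (Real.log T : ℂ)) *
          (AA ((q p.1).sc (Real.log T)) (1 + (1 + Complex.I * p.2) / (Real.log T : ℂ)) *
            ∏ l ∈ k.primeFactors, bet ((q p.1).sc (Real.log T))
              (1 + (1 + Complex.I * p.2) / (Real.log T : ℂ)) l)) ∂(ν.prod volume) := by
  have hf : Measurable (fun ξ : ℝ => ph ξ *
      Complex.exp (-((2 + Complex.I * ξ) * ((Real.log k / Real.log T : ℝ) : ℂ)))) := by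
    refine hP.meas.mul (Complex.measurable_exp.comp (Measurable.neg (Measurable.mul_const ?_ _)))
    exact measurable_const.add (measurable_const.mul Complex.measurable_ofReal)
  have hG : AEStronglyMeasurable (fun p : Θ × ℝ => GW g κ T p.1 p.2 *
      ((k : ℂ) ^ (1 + (1 + Complex.I * p.2) / (Real.log T : ℂ)) *
          (AA ((q p.1).sc (Real.log T)) (1 + (1 + Complex.I * p.2) / (Real.log T : ℂ)) *
            ∏ l ∈ k.primeFactors, bet ((q p.1).sc (Real.log T))
              (1 + (1 + Complex.I * p.2) / (Real.log T : ℂ)) l))) (ν.prod volume) := by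
    have hz : Measurable (fun p : Θ × ℝ => 1 + (1 + Complex.I * (p.2 : ℂ)) /
        (Real.log T : ℂ)) :=
      measurable_const.add ((measurable_const.add (measurable_const.mul
        (Complex.measurable_ofReal.comp measurable_snd))).div_const _)
    have hq := (EIa_MP h).sc (Real.log T)
    refine hGW.aestronglyMeasurable.mul (Measurable.aestronglyMeasurable ?_)
    exact (Mea_cpow hz _).mul ((AA_meas hq hz).mul
      (Finset.measurable_prod _ fun p _ => bet_meas hq hz p))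
  have h1 := EIb_val (ν := ν) hf hG
  have h2 : xx P (Real.log T) k / (k : ℂ) = ((ArithmeticFunction.moebius k : ℂ) * (k : ℂ)⁻¹) *
      P (Real.log k / Real.log T) := by
    unfold xx
    rw [div_eq_mul_inv]
    ring
  rw [h2, hP.rep, mul_assoc, ← h1, ← integral_const_mul]
  refine integral_congr_ae (Filter.Eventually.of_forall fun p => ?_)
  show EIb_F g q κ ph T k p = (ArithmeticFunction.moebius k : ℂ) * (k : ℂ)⁻¹ *
    (ph p.2.1 * Complex.exp (-((2 + Complex.I * p.2.1) *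
      ((Real.log k / Real.log T : ℝ) : ℂ))) *
    (GW g κ T p.1 p.2.2 * ((k : ℂ) ^ (1 + (1 + Complex.I * p.2.2) / (Real.log T : ℂ)) *
          (AA ((q p.1).sc (Real.log T)) (1 + (1 + Complex.I * p.2.2) / (Real.log T : ℂ)) *
            ∏ l ∈ k.primeFactors, bet ((q p.1).sc (Real.log T))
              (1 + (1 + Complex.I * p.2.2) / (Real.log T : ℂ)) l))))
  rw [EIb_exp hk]
  unfold EIb_F bt
  rw [EIb_cpow hk]
  ring

theorem EIb (ν : Measure Θ) [SFinite ν] {g : Θ → ℂ} {q : Θ → Par} {κ : Θ → ℂ} (h : PD ν g q κ) {P ph : ℝ → ℂ} (hP : FL P ph) :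
    ∃ T0 : ℝ, 3 ≤ T0 ∧ ∀ T : ℝ, T0 ≤ T →
      PRA ν g q κ (xx P (Real.log T)) T =
        ∫ p : Θ × ℝ × ℝ, ph p.2.1 * GW g κ T p.1 p.2.2 *
          Zf ((q p.1).sc (Real.log T)) ((1 + Complex.I * p.2.2) / (Real.log T : ℂ)) ((2 + Complex.I * p.2.1) / (Real.log T : ℂ))
          ∂(ν.prod (volume.prod volume)) := by
  obtain ⟨T1, hT1, hGW⟩ := GW_int ν h
  obtain ⟨T2, hT2, hE⟩ := EIa ν h
  refine ⟨max T1 T2, hT1.trans (le_max_left _ _), fun T hT => ?_⟩
  have hTa : T1 ≤ T := (le_max_left _ _).trans hT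
  have hTb : T2 ≤ T := (le_max_right _ _).trans hT
  have hL : 0 < Real.log T := Real.log_pos (by linarith)
  obtain ⟨m, hm0, hms, hm⟩ := cc_le (δ := 1 / (2 * Real.log T)) (by positivity)
  obtain ⟨b, hb0, hbs, hb⟩ := bt_majorant (δ := 1 / Real.log T) (by positivity)
  have hG := hGW T hTa
  have hph : Integrable ph := by
    have h1 := hP.int 0
    simp only [pow_zero, mul_one] at h1
    exact (integrable_norm_iff hP.meas.aestronglyMeasurable).1 h1
  have hD : Integrable (fun p : Θ × ℝ × ℝ => ph p.2.1 * GW g κ T p.1 p.2.2)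
      (ν.prod (volume.prod volume)) := EIb_int hph hG
  have hbd : ∀ (k : ℕ) (p : Θ × ℝ × ℝ),
      ‖AA ((q p.1).sc (Real.log T)) (1 + (1 + Complex.I * p.2.2) / (Real.log T : ℂ)) *
      bt ((q p.1).sc (Real.log T)) ((1 + Complex.I * p.2.2) / (Real.log T : ℂ))
      ((2 + Complex.I * p.2.1) / (Real.log T : ℂ)) k‖ ≤ (∑' n, m n) * b k := by
    intro k p
    rw [norm_mul]
    exact mul_le_mul (EIb_AA hm hm0 hms hL (h.ok p.1) p.2.2)
      (hb _ _ _ (EIb_nn hL (h.ok p.1) p.2.2) (EIb_re _ _).le k) (norm_nonneg _)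
      (tsum_nonneg hm0)
  have hFint : ∀ k, Integrable (EIb_F g q κ ph T k) (ν.prod (volume.prod volume)) := by
    intro k
    refine Integrable.bdd_mul (c := (∑' n, m n) * b k) hD ?_ ?_
    · exact (EIb_meas h T k).aestronglyMeasurable
    · exact Filter.Eventually.of_forall fun p => hbd k p
  have hsum : Summable fun k => ∫ p, ‖EIb_F g q κ ph T k p‖ ∂(ν.prod (volume.prod volume)) := by
    have hc : Summable fun k => (∑' n, m n) * b k *
        ∫ p : Θ × ℝ × ℝ, ‖ph p.2.1 * GW g κ T p.1 p.2.2‖ ∂(ν.prod (volume.prod volume)) :=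
      (hbs.mul_left _).mul_right _
    refine Summable.of_nonneg_of_le (fun n => integral_nonneg fun p => norm_nonneg _)
      (fun k => ?_) hc
    rw [← integral_const_mul]
    refine integral_mono (hFint k).norm (hD.norm.const_mul _) fun p => ?_
    show ‖EIb_F g q κ ph T k p‖ ≤ (∑' n, m n) * b k * ‖ph p.2.1 * GW g κ T p.1 p.2.2‖
    unfold EIb_F
    rw [norm_mul]
    exact mul_le_mul_of_nonneg_right (hbd k p) (norm_nonneg _)
  have h1 := (hasSum_integral_of_summable_integral_norm hFint hsum).tsum_eq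
  have h2 : PRA ν g q κ (xx P (Real.log T)) T =
      ∑' k, ∫ p, EIb_F g q κ ph T k p ∂(ν.prod (volume.prod volume)) := by
    unfold PRA
    refine tsum_congr fun k => ?_
    by_cases hk : Squarefree k
    · rw [(hE T hTb k hk).tsum_eq, EIb_term h hP hG hk.ne_zero]
    · have h3 : ArithmeticFunction.moebius k = 0 :=
        ArithmeticFunction.moebius_eq_zero_of_not_squarefree hk
      have h4 : xx P (Real.log T) k = 0 := by
        unfold xx
        rw [h3, Int.cast_zero, zero_mul]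
      have h5 : ∀ p, EIb_F g q κ ph T k p = 0 := by
        intro p
        unfold EIb_F bt
        rw [h3, Int.cast_zero, zero_mul, zero_mul, mul_zero, zero_mul]
      rw [h4, zero_div, zero_mul]
      simp only [h5, integral_zero]
  rw [h2, h1]
  refine integral_congr_ae (Filter.Eventually.of_forall fun p => ?_)
  show ∑' k, EIb_F g q κ ph T k p = ph p.2.1 * GW g κ T p.1 p.2.2 *
    (AA ((q p.1).sc (Real.log T)) (1 + (1 + Complex.I * p.2.2) / (Real.log T : ℂ)) *
      ∑' k, bt ((q p.1).sc (Real.log T)) ((1 + Complex.I * p.2.2) / (Real.log T : ℂ))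
        ((2 + Complex.I * p.2.1) / (Real.log T : ℂ)) k)
  unfold EIb_F
  rw [tsum_mul_right, tsum_mul_left, mul_comm]

end H98.SZ
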