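import Pool.Agent.H98.SZ.Defs

/-!
# SZ / Wlm: Mellin transform of the window (limit)

`mw T (1 + t/L) / om T = (1/√π) ∫_{u < √L} exp(-u²) r^(t/L) du`, `r = (T - Δu)/(2π) = (T/2π)(1 - u/√L)`, `r^(t/L) = exp((t/L)(L - log 2π + log(1 - u/√L))) → exp t` for each `u`.
Dominated convergence on `u ≤ √L/2`: there `|log(1-u/√L)| ≤ 1 + |u|`, `|r^(t/L)| ≤ exp(|t|(2+|u|))` (`L ≥ 1`), times `exp(-u²)` integrable. The part `√L/2 < u < √L`: `exp(-u²) ≤ exp(-L/4)` and
`∫ |r^(t/L)| dr`-wise: in the variable `r ∈ (0, T/(4π))`: `(1/om) exp(-L/4) ∫_0^(T/(4π)) r^(Re t/L) dr ≤ C √L/T exp(-L/4) T^(1+|Re t|/L) → 0` (`|Re t|/L ≤ 1/2`). `∫ exp(-u²) = √π` (`integral_gaussian`).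
-/

set_option autoImplicit false

open Filter Topology MeasureTheory

namespace H98.SZ

private lemma Wlm_cpow {x : ℝ} (hx : 0 < x) (z : ℂ) :
    (x : ℂ) ^ z = Complex.exp ((Real.log x : ℂ) * z) := by
  rw [Complex.cpow_def_of_ne_zero (by exact_mod_cast hx.ne'), Complex.ofReal_log hx.le]

private lemma Wlm_cov (G : ℝ → ℂ) {c S : ℝ} (hc : 0 < c) (hS : 0 < S) :
    ∫ r : ℝ, G r = ((c / S : ℝ) : ℂ) * ∫ u : ℝ, G (c - c / S * u) := by
  have hcS : 0 < c / S := div_pos hc hS
  have h1 := MeasureTheory.Measure.integral_comp_mul_left (fun v : ℝ => G (c - v)) (c / S)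
  have h2 := integral_sub_left_eq_self G volume c
  rw [h1, h2, abs_of_pos (inv_pos.mpr hcS), Complex.real_smul, ← mul_assoc, ← Complex.ofReal_mul,
    mul_inv_cancel₀ hcS.ne', Complex.ofReal_one, one_mul]

private lemma Wlm_int (G : ℝ → ℂ) {c S : ℝ} (hc : 0 < c) (hS : 0 < S)
    (h : Integrable fun u : ℝ => G (c - c / S * u)) : Integrable G := by
  have hcS : c / S ≠ 0 := (div_pos hc hS).ne'
  have h1 : Integrable (fun v : ℝ => G (c - v)) :=
    (integrable_comp_mul_left_iff (fun v : ℝ => G (c - v)) hcS).mp h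
  exact (integrable_comp_sub_left G c).mp h1

private lemma Wlm_win {T : ℝ} (hT : 3 ≤ T) (u : ℝ) :
    win T (T / (2 * Real.pi) - T / (2 * Real.pi) / Real.sqrt (Real.log T) * u) = Real.exp (-u ^ 2) := by
  have hL : 0 < Real.log T := Real.log_pos (by linarith)
  have hS : 0 < Real.sqrt (Real.log T) := Real.sqrt_pos.mpr hL
  have hp := Real.pi_pos
  have hT0 : 0 < T := by linarith
  unfold win
  congr 1
  have : (T - 2 * Real.pi * (T / (2 * Real.pi) - T / (2 * Real.pi) / Real.sqrt (Real.log T) * u)) /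
      (T / Real.sqrt (Real.log T)) = u := by
    field_simp
    ring
  rw [this]

private lemma Wlm_om (T : ℝ) :
    T / (2 * Real.pi) / Real.sqrt (Real.log T) = om T / Real.sqrt Real.pi := by
  have hp := Real.pi_pos
  have h2 : Real.sqrt Real.pi * Real.sqrt Real.pi = Real.pi := Real.mul_self_sqrt hp.le
  unfold om
  rw [div_div, div_div, div_div]
  rw [show Real.sqrt (Real.log T) * (2 * Real.sqrt Real.pi * Real.sqrt Real.pi)
    = 2 * Real.pi * Real.sqrt (Real.log T) by rw [mul_assoc 2, h2]; ring]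

private lemma Wlm_gauss : ∫ u : ℝ, Real.exp (-u ^ 2) = Real.sqrt Real.pi := by
  have := integral_gaussian 1
  simpa using this

private lemma Wlm_ompos {T : ℝ} (hT : 3 ≤ T) : 0 < om T := by
  have hL : 0 < Real.log T := Real.log_pos (by linarith)
  have hS : 0 < Real.sqrt (Real.log T) := Real.sqrt_pos.mpr hL
  have hp : 0 < Real.sqrt Real.pi := Real.sqrt_pos.mpr Real.pi_pos
  have hT0 : 0 < T := by linarith
  unfold om
  positivity

/-- the transformed integrand on `u < S / 2` -/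
private noncomputable def Wlm_H (t : ℂ) (T u : ℝ) : ℂ :=
  if u < Real.sqrt (Real.log T) / 2 then
    (Real.exp (-u ^ 2) : ℂ) * Complex.exp ((Real.log (T / (2 * Real.pi)
      - T / (2 * Real.pi) / Real.sqrt (Real.log T) * u) : ℂ) * (t / (Real.log T : ℂ))) else 0

private lemma Wlm_facts {T : ℝ} (hT : 10 ≤ T) : 1 ≤ Real.log T ∧ 1 ≤ Real.sqrt (Real.log T) ∧
    0 < T / (2 * Real.pi) ∧ 0 ≤ Real.log (T / (2 * Real.pi)) ∧
    Real.log (T / (2 * Real.pi)) = Real.log T - Real.log (2 * Real.pi) ∧ 0 ≤ Real.log (2 * Real.pi) := by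
  have hp := Real.pi_gt_three
  have hp4 := Real.pi_lt_four
  have hT0 : 0 < T := by linarith
  have h1 : 1 ≤ Real.log T := by
    rw [Real.le_log_iff_exp_le hT0]
    have := Real.exp_one_lt_d9
    linarith
  refine ⟨h1, by rw [Real.one_le_sqrt]; exact h1, by positivity, ?_, ?_, ?_⟩
  · apply Real.log_nonneg
    rw [le_div_iff₀ (by positivity)]
    linarith
  · rw [Real.log_div hT0.ne' (by positivity)]
  · apply Real.log_nonneg
    linarith

private lemma Wlm_log {T : ℝ} (hT : 10 ≤ T) {u : ℝ} (hu : u < Real.sqrt (Real.log T) / 2) :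
    1 / 2 < 1 - u / Real.sqrt (Real.log T) ∧
    Real.log (T / (2 * Real.pi) - T / (2 * Real.pi) / Real.sqrt (Real.log T) * u)
      = Real.log T - Real.log (2 * Real.pi) + Real.log (1 - u / Real.sqrt (Real.log T)) ∧
    |Real.log (1 - u / Real.sqrt (Real.log T))| ≤ 1 + |u| := by
  obtain ⟨h1, hS, hc, -, hlog, -⟩ := Wlm_facts hT
  have hS0 : 0 < Real.sqrt (Real.log T) := by linarith
  have hx : 1 / 2 < 1 - u / Real.sqrt (Real.log T) := by
    have : u / Real.sqrt (Real.log T) < 1 / 2 := by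
      rw [div_lt_iff₀ hS0]; linarith
    linarith
  refine ⟨hx, ?_, ?_⟩
  · rw [show T / (2 * Real.pi) - T / (2 * Real.pi) / Real.sqrt (Real.log T) * u
      = T / (2 * Real.pi) * (1 - u / Real.sqrt (Real.log T)) by field_simp]
    rw [Real.log_mul hc.ne' (by linarith), hlog]
  · have hx0 : 0 < 1 - u / Real.sqrt (Real.log T) := by linarith
    have hup := Real.log_le_sub_one_of_pos hx0
    have hlow : -1 ≤ Real.log (1 - u / Real.sqrt (Real.log T)) := by
      have h2 : Real.log (1 / 2) ≤ Real.log (1 - u / Real.sqrt (Real.log T)) :=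
        Real.log_le_log (by norm_num) hx.le
      have h3 : Real.log (1 / 2) = - Real.log 2 := by
        rw [one_div, Real.log_inv]
      have h4 := Real.log_two_lt_d9
      linarith
    have hus : |u / Real.sqrt (Real.log T)| ≤ |u| := by
      rw [abs_div, abs_of_pos hS0]
      exact div_le_self (abs_nonneg _) hS
    rw [abs_le]
    constructor
    · have := abs_nonneg u
      linarith
    · have := neg_abs_le (u / Real.sqrt (Real.log T))
      linarith

private lemma Wlm_bd (t : ℂ) {T : ℝ} (hT : 10 ≤ T) (u : ℝ) :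
    ‖Wlm_H t T u‖ ≤ Real.exp (2 * ‖t‖ + ‖t‖ ^ 2 / 2) * Real.exp (-(1 / 2) * u ^ 2) := by
  unfold Wlm_H
  split_ifs with hu
  · obtain ⟨h1, hS, hc, hlc, hlog, hl2⟩ := Wlm_facts hT
    obtain ⟨hx, hl, hlb⟩ := Wlm_log hT hu
    have hL0 : 0 < Real.log T := by linarith
    rw [norm_mul, Complex.norm_exp, Complex.norm_real, Real.norm_eq_abs, abs_of_pos (Real.exp_pos _),
      ← Real.exp_add, ← Real.exp_add, hl]
    apply Real.exp_le_exp.mpr
    have e1 : ((Real.log T - Real.log (2 * Real.pi) + Real.log (1 - u / Real.sqrt (Real.log T)) : ℝ) : ℂ)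
        * (t / (Real.log T : ℂ)) = ((((Real.log T - Real.log (2 * Real.pi)
          + Real.log (1 - u / Real.sqrt (Real.log T))) / Real.log T : ℝ)) : ℂ) * t := by
      push_cast
      ring
    rw [e1, Complex.re_ofReal_mul]
    have h3 : |(Real.log T - Real.log (2 * Real.pi) + Real.log (1 - u / Real.sqrt (Real.log T))) / Real.log T|
        ≤ 2 + |u| := by
      rw [abs_div, abs_of_pos hL0, div_le_iff₀ hL0]
      have h4 : |Real.log T - Real.log (2 * Real.pi) + Real.log (1 - u / Real.sqrt (Real.log T))|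
          ≤ Real.log T + (1 + |u|) := by
        refine (abs_add_le _ _).trans (add_le_add ?_ hlb)
        rw [← hlog, abs_of_nonneg hlc, hlog]
        linarith
      have h5 := abs_nonneg u
      nlinarith
    have h6 : ((Real.log T - Real.log (2 * Real.pi) + Real.log (1 - u / Real.sqrt (Real.log T))) / Real.log T)
        * t.re ≤ (2 + |u|) * ‖t‖ := by
      refine (le_abs_self _).trans ?_
      rw [abs_mul]
      exact mul_le_mul h3 (Complex.abs_re_le_norm t) (abs_nonneg _) (by positivity)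
    have h7 : |u| * ‖t‖ ≤ u ^ 2 / 2 + ‖t‖ ^ 2 / 2 := by
      have := sq_nonneg (|u| - ‖t‖)
      have h8 : |u| ^ 2 = u ^ 2 := sq_abs u
      nlinarith
    nlinarith
  · rw [norm_zero]
    positivity

private lemma Wlm_meas (t : ℂ) (T : ℝ) : AEStronglyMeasurable (Wlm_H t T) volume := by
  have : Measurable (Wlm_H t T) := by
    unfold Wlm_H
    apply Measurable.ite (measurableSet_Iio)
    · fun_prop
    · exact measurable_const
  exact this.aestronglyMeasurable

private lemma Wlm_bdint (t : ℂ) :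
    Integrable fun u : ℝ => Real.exp (2 * ‖t‖ + ‖t‖ ^ 2 / 2) * Real.exp (-(1 / 2) * u ^ 2) :=
  (integrable_exp_neg_mul_sq (by norm_num : (0 : ℝ) < 1 / 2)).const_mul _

private lemma Wlm_Hint (t : ℂ) {T : ℝ} (hT : 10 ≤ T) : Integrable (Wlm_H t T) :=
  (Wlm_bdint t).mono' (Wlm_meas t T) (Eventually.of_forall fun u => Wlm_bd t hT u)

private lemma Wlm_lim (t : ℂ) : Tendsto (fun T : ℝ => ∫ u : ℝ, Wlm_H t T u) atTop
    (𝓝 ((Real.sqrt Real.pi : ℂ) * Complex.exp t)) := by
  have hval : ∫ u : ℝ, ((Real.exp (-u ^ 2) : ℝ) : ℂ) * Complex.exp t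
      = (Real.sqrt Real.pi : ℂ) * Complex.exp t := by
    rw [integral_mul_const, integral_complex_ofReal, Wlm_gauss]
  rw [← hval]
  apply tendsto_integral_filter_of_dominated_convergence
    (fun u : ℝ => Real.exp (2 * ‖t‖ + ‖t‖ ^ 2 / 2) * Real.exp (-(1 / 2) * u ^ 2))
  · exact Eventually.of_forall fun T => Wlm_meas t T
  · filter_upwards [eventually_ge_atTop 10] with T hT
    exact Eventually.of_forall fun u => Wlm_bd t hT u
  · exact Wlm_bdint t
  · refine Eventually.of_forall fun u => ?_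
    have hLt : Tendsto (fun T : ℝ => Real.log T) atTop atTop := Real.tendsto_log_atTop
    have hSt : Tendsto (fun T : ℝ => Real.sqrt (Real.log T)) atTop atTop :=
      Real.tendsto_sqrt_atTop.comp hLt
    have hev : ∀ᶠ T : ℝ in atTop, Wlm_H t T u = ((Real.exp (-u ^ 2) : ℝ) : ℂ) *
        Complex.exp ((((1 - (Real.log (2 * Real.pi) - Real.log (1 - u / Real.sqrt (Real.log T))) / Real.log T : ℝ)) : ℂ) * t) := by
      filter_upwards [eventually_ge_atTop 10, hSt.eventually_gt_atTop (2 * u)] with T hT hS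
      have hu : u < Real.sqrt (Real.log T) / 2 := by linarith
      obtain ⟨hx, hl, hlb⟩ := Wlm_log hT hu
      obtain ⟨h1, -⟩ := Wlm_facts hT
      have hL0 : (Real.log T : ℂ) ≠ 0 := by
        exact_mod_cast (by linarith : Real.log T ≠ 0)
      unfold Wlm_H
      rw [if_pos hu, hl]
      congr 2
      push_cast
      field_simp
      ring
    rw [tendsto_congr' hev]
    apply Tendsto.mul tendsto_const_nhds
    have hlog1 : Tendsto (fun T : ℝ => Real.log (1 - u / Real.sqrt (Real.log T))) atTop (𝓝 0) := by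
      have h1 : Tendsto (fun T : ℝ => 1 - u / Real.sqrt (Real.log T)) atTop (𝓝 (1 - 0)) :=
        tendsto_const_nhds.sub (tendsto_const_nhds.div_atTop hSt)
      have h2 := (Real.continuousAt_log (by norm_num : (1 - 0 : ℝ) ≠ 0)).tendsto.comp h1
      simpa [Function.comp_def] using h2
    have h3 : Tendsto (fun T : ℝ => (1 - (Real.log (2 * Real.pi) - Real.log (1 - u / Real.sqrt (Real.log T))) / Real.log T : ℝ))
        atTop (𝓝 (1 - 0)) :=
      tendsto_const_nhds.sub ((tendsto_const_nhds.sub hlog1).div_atTop hLt)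
    have h4 : Tendsto (fun T : ℝ => ((((1 - (Real.log (2 * Real.pi) - Real.log (1 - u / Real.sqrt (Real.log T))) / Real.log T : ℝ)) : ℂ)))
        atTop (𝓝 ((1 - 0 : ℝ) : ℂ)) := (Complex.continuous_ofReal.tendsto _).comp h3
    have h5 := (Complex.continuous_exp.tendsto (((1 - 0 : ℝ) : ℂ) * t)).comp (h4.mul_const t)
    simpa [Function.comp_def] using h5

private lemma Wlm_winle (T r : ℝ) : win T r ≤ 1 := by
  unfold win
  rw [Real.exp_le_one_iff]
  have := sq_nonneg ((T - 2 * Real.pi * r) / (T / Real.sqrt (Real.log T)))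
  linarith

private lemma Wlm_winpos (T r : ℝ) : 0 < win T r := Real.exp_pos _

private lemma Wlm_winsmall {T r : ℝ} (hT : 10 ≤ T) (hr : r ≤ T / (2 * Real.pi) / 2) :
    win T r ≤ Real.exp (-(Real.log T / 4)) := by
  obtain ⟨h1, hS, hc, -, -, -⟩ := Wlm_facts hT
  have hp := Real.pi_pos
  have hT0 : 0 < T := by linarith
  have hS0 : 0 < Real.sqrt (Real.log T) := by linarith
  have hsq : Real.sqrt (Real.log T) ^ 2 = Real.log T := Real.sq_sqrt (by linarith)
  unfold win
  apply Real.exp_le_exp.mpr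
  have h2 : T / 2 ≤ T - 2 * Real.pi * r := by
    have : 2 * Real.pi * r ≤ 2 * Real.pi * (T / (2 * Real.pi) / 2) :=
      mul_le_mul_of_nonneg_left hr (by positivity)
    have e : 2 * Real.pi * (T / (2 * Real.pi) / 2) = T / 2 := by field_simp
    linarith
  have h3 : Real.sqrt (Real.log T) / 2 ≤ (T - 2 * Real.pi * r) / (T / Real.sqrt (Real.log T)) := by
    rw [le_div_iff₀ (by positivity)]
    calc Real.sqrt (Real.log T) / 2 * (T / Real.sqrt (Real.log T)) = T / 2 := by field_simp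
      _ ≤ _ := h2
  have h4 : (Real.sqrt (Real.log T) / 2) ^ 2 ≤ ((T - 2 * Real.pi * r) / (T / Real.sqrt (Real.log T))) ^ 2 :=
    pow_le_pow_left₀ (by positivity) h3 2
  have h5 : (Real.sqrt (Real.log T) / 2) ^ 2 = Real.log T / 4 := by
    rw [div_pow, hsq]; norm_num
  linarith

private lemma Wlm_Fnorm (t : ℂ) (T : ℝ) {r : ℝ} (hr : 0 < r) :
    ‖(r : ℂ) ^ (t / (Real.log T : ℂ)) * (win T r : ℂ)‖ = r ^ (t.re / Real.log T) * win T r := by
  rw [norm_mul, Complex.norm_cpow_eq_rpow_re_of_pos hr, Complex.norm_real, Real.norm_eq_abs,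
    abs_of_pos (Wlm_winpos T r), Complex.div_ofReal_re]

private lemma Wlm_Fmeas (t : ℂ) (T : ℝ) :
    Measurable fun r : ℝ => (r : ℂ) ^ (t / (Real.log T : ℂ)) * (win T r : ℂ) := by
  unfold win
  fun_prop

private lemma Wlm_int1 (t : ℂ) {T : ℝ} (hT : 10 ≤ T) (ht : 2 * ‖t‖ ≤ Real.log T) :
    IntegrableOn (fun r : ℝ => (r : ℂ) ^ (t / (Real.log T : ℂ)) * (win T r : ℂ))
      (Set.Ioc 0 (T / (2 * Real.pi) / 2)) ∧
    ‖∫ r in Set.Ioc 0 (T / (2 * Real.pi) / 2), (r : ℂ) ^ (t / (Real.log T : ℂ)) * (win T r : ℂ)‖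
      ≤ Real.exp (-(Real.log T / 4)) * (2 * (T * Real.exp ‖t‖)) := by
  obtain ⟨h1, hS, hc, -, -, -⟩ := Wlm_facts hT
  have hp3 := Real.pi_gt_three
  have hT0 : 0 < T := by linarith
  have hL0 : 0 < Real.log T := by linarith
  obtain ⟨a, ha⟩ : ∃ a : ℝ, a = t.re / Real.log T := ⟨_, rfl⟩
  have hre := Complex.abs_re_le_norm t
  have ha1 : |a| ≤ 1 / 2 := by
    rw [ha, abs_div, abs_of_pos hL0, div_le_iff₀ hL0]
    linarith
  have ha2 := abs_le.mp ha1
  have haL : a * Real.log T ≤ ‖t‖ := by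
    rw [ha, div_mul_cancel₀ _ hL0.ne']
    exact (le_abs_self _).trans hre
  have hc2 : 0 ≤ T / (2 * Real.pi) / 2 := by positivity
  have hri : IntegrableOn (fun r : ℝ => r ^ a) (Set.Ioc 0 (T / (2 * Real.pi) / 2)) := by
    have := intervalIntegral.intervalIntegrable_rpow' (a := 0) (b := T / (2 * Real.pi) / 2)
      (by linarith : -1 < a)
    rwa [intervalIntegrable_iff_integrableOn_Ioc_of_le hc2] at this
  have hb : ∀ r ∈ Set.Ioc 0 (T / (2 * Real.pi) / 2),
      ‖(r : ℂ) ^ (t / (Real.log T : ℂ)) * (win T r : ℂ)‖ ≤ Real.exp (-(Real.log T / 4)) * r ^ a := by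
    intro r hr
    rw [Wlm_Fnorm t T hr.1, ← ha, mul_comm]
    exact mul_le_mul_of_nonneg_right (Wlm_winsmall hT hr.2) (Real.rpow_nonneg hr.1.le _)
  have hI : IntegrableOn (fun r : ℝ => (r : ℂ) ^ (t / (Real.log T : ℂ)) * (win T r : ℂ))
      (Set.Ioc 0 (T / (2 * Real.pi) / 2)) := by
    refine Integrable.mono' (hri.const_mul (Real.exp (-(Real.log T / 4))))
      (Wlm_Fmeas t T).aestronglyMeasurable ?_
    exact (ae_restrict_iff' measurableSet_Ioc).mpr (Eventually.of_forall hb)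
  refine ⟨hI, ?_⟩
  have h2 : ‖∫ r in Set.Ioc 0 (T / (2 * Real.pi) / 2), (r : ℂ) ^ (t / (Real.log T : ℂ)) * (win T r : ℂ)‖
      ≤ ∫ r in Set.Ioc 0 (T / (2 * Real.pi) / 2), Real.exp (-(Real.log T / 4)) * r ^ a :=
    norm_integral_le_of_norm_le (hri.const_mul _)
      ((ae_restrict_iff' measurableSet_Ioc).mpr (Eventually.of_forall hb))
  refine h2.trans ?_
  rw [integral_const_mul]
  apply mul_le_mul_of_nonneg_left _ (Real.exp_pos _).le
  rw [← intervalIntegral.integral_of_le hc2, integral_rpow (Or.inl (by linarith)),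
    Real.zero_rpow (by linarith), sub_zero, div_le_iff₀ (by linarith)]
  have h3 : (T / (2 * Real.pi) / 2) ^ (a + 1) ≤ T ^ (a + 1) := by
    apply Real.rpow_le_rpow hc2 _ (by linarith)
    rw [div_div, div_le_iff₀ (by positivity)]
    nlinarith
  have h4 : T ^ (a + 1) ≤ T * Real.exp ‖t‖ := by
    rw [Real.rpow_add hT0, Real.rpow_one, mul_comm]
    apply mul_le_mul_of_nonneg_left _ hT0.le
    rw [Real.rpow_def_of_pos hT0, mul_comm]
    exact Real.exp_le_exp.mpr haL
  have h5 : 0 < T * Real.exp ‖t‖ := by positivity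
  nlinarith

private lemma Wlm_G (t : ℂ) {T : ℝ} (hT : 10 ≤ T) (u : ℝ) :
    (Set.Ioi (T / (2 * Real.pi) / 2)).indicator
      (fun r : ℝ => (r : ℂ) ^ (t / (Real.log T : ℂ)) * (win T r : ℂ))
      (T / (2 * Real.pi) - T / (2 * Real.pi) / Real.sqrt (Real.log T) * u) = Wlm_H t T u := by
  obtain ⟨h1, hS, hc, -, -, -⟩ := Wlm_facts hT
  have hS0 : 0 < Real.sqrt (Real.log T) := by linarith
  have hiff : T / (2 * Real.pi) - T / (2 * Real.pi) / Real.sqrt (Real.log T) * u
      ∈ Set.Ioi (T / (2 * Real.pi) / 2) ↔ u < Real.sqrt (Real.log T) / 2 := by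
    rw [Set.mem_Ioi]
    have hcS : 0 < T / (2 * Real.pi) / Real.sqrt (Real.log T) := by positivity
    have e : T / (2 * Real.pi) = T / (2 * Real.pi) / Real.sqrt (Real.log T) * Real.sqrt (Real.log T) := by
      field_simp
    constructor
    · intro h
      have h2 : T / (2 * Real.pi) / Real.sqrt (Real.log T) * u
          < T / (2 * Real.pi) / Real.sqrt (Real.log T) * (Real.sqrt (Real.log T) / 2) := by
        rw [← mul_div_assoc, ← e]; linarith
      exact lt_of_mul_lt_mul_left h2 hcS.le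
    · intro h
      have h2 := mul_lt_mul_of_pos_left h hcS
      rw [← mul_div_assoc, ← e] at h2
      linarith
  unfold Wlm_H
  by_cases hu : u < Real.sqrt (Real.log T) / 2
  · rw [if_pos hu, Set.indicator_of_mem (hiff.mpr hu)]
    have hpos : 0 < T / (2 * Real.pi) - T / (2 * Real.pi) / Real.sqrt (Real.log T) * u := by
      have := hiff.mpr hu
      rw [Set.mem_Ioi] at this
      linarith
    rw [Wlm_cpow hpos, Wlm_win (by linarith), mul_comm]
  · rw [if_neg hu, Set.indicator_of_notMem (fun h => hu (hiff.mp h))]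

private lemma Wlm_split (t : ℂ) {T : ℝ} (hT : 10 ≤ T) (ht : 2 * ‖t‖ ≤ Real.log T) :
    mw T (1 + t / (Real.log T : ℂ))
      = (∫ r in Set.Ioc 0 (T / (2 * Real.pi) / 2), (r : ℂ) ^ (t / (Real.log T : ℂ)) * (win T r : ℂ))
        + ((om T / Real.sqrt Real.pi : ℝ) : ℂ) * ∫ u : ℝ, Wlm_H t T u := by
  obtain ⟨h1, hS, hc, -, -, -⟩ := Wlm_facts hT
  have hS0 : 0 < Real.sqrt (Real.log T) := by linarith
  have e0 : mw T (1 + t / (Real.log T : ℂ))
      = ∫ r in Set.Ioi (0 : ℝ), (r : ℂ) ^ (t / (Real.log T : ℂ)) * (win T r : ℂ) := by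
    unfold mw mellin
    rw [add_sub_cancel_left]
    rfl
  have hG : Integrable ((Set.Ioi (T / (2 * Real.pi) / 2)).indicator
      (fun r : ℝ => (r : ℂ) ^ (t / (Real.log T : ℂ)) * (win T r : ℂ))) := by
    apply Wlm_int _ hc hS0
    simp only [Wlm_G t hT]
    exact Wlm_Hint t hT
  have hI2 : IntegrableOn (fun r : ℝ => (r : ℂ) ^ (t / (Real.log T : ℂ)) * (win T r : ℂ))
      (Set.Ioi (T / (2 * Real.pi) / 2)) := (integrable_indicator_iff measurableSet_Ioi).mp hG
  have hc2 : 0 ≤ T / (2 * Real.pi) / 2 := by positivity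
  rw [e0, ← Set.Ioc_union_Ioi_eq_Ioi hc2,
    setIntegral_union (Set.Ioc_disjoint_Ioi le_rfl) measurableSet_Ioi (Wlm_int1 t hT ht).1 hI2]
  congr 1
  have h := Wlm_cov ((Set.Ioi (T / (2 * Real.pi) / 2)).indicator
      (fun r : ℝ => (r : ℂ) ^ (t / (Real.log T : ℂ)) * (win T r : ℂ))) hc hS0
  simp only [Wlm_G t hT] at h
  rw [← integral_indicator measurableSet_Ioi, h, Wlm_om]

theorem mw_tendsto (t : ℂ) : Tendsto (fun T : ℝ => mw T (1 + t / (Real.log T : ℂ)) / (om T : ℂ)) atTop (𝓝 (Complex.exp t)) := by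
  have hLt : Tendsto (fun T : ℝ => Real.log T) atTop atTop := Real.tendsto_log_atTop
  have hsp : 0 < Real.sqrt Real.pi := Real.sqrt_pos.mpr Real.pi_pos
  have hspc : (Real.sqrt Real.pi : ℂ) ≠ 0 := by exact_mod_cast hsp.ne'
  -- the small part
  obtain ⟨F, hF⟩ : ∃ F : ℝ → ℂ, F = fun T : ℝ => (∫ r in Set.Ioc 0 (T / (2 * Real.pi) / 2),
    (r : ℂ) ^ (t / (Real.log T : ℂ)) * (win T r : ℂ)) := ⟨_, rfl⟩
  have hsplit : ∀ᶠ T : ℝ in atTop, mw T (1 + t / (Real.log T : ℂ)) / (om T : ℂ)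
      = F T / (om T : ℂ) + ((Real.sqrt Real.pi : ℂ))⁻¹ * ∫ u : ℝ, Wlm_H t T u := by
    filter_upwards [eventually_ge_atTop 10, hLt.eventually_ge_atTop (2 * ‖t‖)] with T hT hL
    have hom : (om T : ℂ) ≠ 0 := by exact_mod_cast (Wlm_ompos (by linarith : (3 : ℝ) ≤ T)).ne'
    rw [Wlm_split t hT hL, hF, add_div]
    congr 1
    push_cast
    field_simp
  have hsmall : Tendsto (fun T : ℝ => F T / (om T : ℂ)) atTop (𝓝 0) := by
    have h0 : Tendsto (fun T : ℝ => 16 * Real.sqrt Real.pi * Real.exp ‖t‖ *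
        ((Real.log T / 4) ^ 1 * Real.exp (-(Real.log T / 4)))) atTop (𝓝 0) := by
      have h1 := (Real.tendsto_pow_mul_exp_neg_atTop_nhds_zero 1).comp
        (hLt.atTop_div_const (by norm_num : (0 : ℝ) < 4))
      have h2 := h1.const_mul (16 * Real.sqrt Real.pi * Real.exp ‖t‖)
      simpa [Function.comp_def] using h2
    apply squeeze_zero_norm' _ h0
    filter_upwards [eventually_ge_atTop 10, hLt.eventually_ge_atTop (2 * ‖t‖)] with T hT hL
    obtain ⟨h1, hS, hc, -, -, -⟩ := Wlm_facts hT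
    have hompos := Wlm_ompos (by linarith : (3 : ℝ) ≤ T)
    have hT0 : 0 < T := by linarith
    have hS0 : 0 < Real.sqrt (Real.log T) := by linarith
    rw [norm_div, Complex.norm_real, Real.norm_eq_abs, abs_of_pos hompos, div_le_iff₀ hompos, hF]
    refine (Wlm_int1 t hT hL).2.trans ?_
    have hSL : Real.sqrt (Real.log T) ≤ Real.log T := by
      rw [Real.sqrt_le_left (by linarith)]
      nlinarith
    have e1 : 16 * Real.sqrt Real.pi * Real.exp ‖t‖ * ((Real.log T / 4) ^ 1 * Real.exp (-(Real.log T / 4))) * om T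
        = Real.exp (-(Real.log T / 4)) * (2 * (T * Real.exp ‖t‖)) * (Real.log T / Real.sqrt (Real.log T)) := by
      unfold om
      field_simp
      ring
    rw [e1]
    have h3 : 1 ≤ Real.log T / Real.sqrt (Real.log T) := by
      rw [le_div_iff₀ hS0, one_mul]
      exact hSL
    exact le_mul_of_one_le_right (by positivity) h3
  rw [tendsto_congr' hsplit]
  have h := hsmall.add ((Wlm_lim t).const_mul ((Real.sqrt Real.pi : ℂ))⁻¹)
  rw [zero_add, ← mul_assoc, inv_mul_cancel₀ hspc, one_mul] at h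
  exact h

/-- the complete mass -/
theorem om_eq {T : ℝ} (hT : 3 ≤ T) : ∫ r : ℝ, win T r = om T := by
  have hL : 0 < Real.log T := Real.log_pos (by linarith)
  have hS : 0 < Real.sqrt (Real.log T) := Real.sqrt_pos.mpr hL
  have hc : 0 < T / (2 * Real.pi) := by have := Real.pi_pos; have : 0 < T := by linarith
                                        positivity
  have h := Wlm_cov (fun r => (win T r : ℂ)) hc hS
  simp only [Wlm_win hT] at h
  rw [integral_complex_ofReal, integral_complex_ofReal, Wlm_gauss, Wlm_om T] at h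
  have hsp : 0 < Real.sqrt Real.pi := Real.sqrt_pos.mpr Real.pi_pos
  have h2 : ∫ r : ℝ, win T r = om T / Real.sqrt Real.pi * Real.sqrt Real.pi := by exact_mod_cast h
  rw [h2]
  field_simp

end H98.SZ
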