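import Pool.Agent.H98.SZ.Bzh
import Pool.Agent.H98.SZ.Zzb

/-!
# SZ / Zlm: the scaled limit of `Zf`

For fixed `q`, `t = 1+iy`, `τ = 2+iξ` and `L ≥ 5`: `Zf q' z w = AA q' (1+z) / AA q' (1+w) * ζ(1+w-z) * HH q' z w` (`BB_eq`, `AA_ne_zero`).
Divide every zeta value by `L` (`3-2-3+2+1 = 1` powers): `z_lim` for `t+a_i`, `t+b_j`, `τ+a_i`, `τ+b_j`, `τ-t` (all nonzero, real parts `≥ 1/2`), and `HH → 1` by `HH_tendsto` (all shifts `a/L → 0`).
The limit of the product is `RR q t τ`.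
-/

set_option autoImplicit false

open Filter Topology

namespace H98.SZ

theorem Zlm_ne {x : ℂ} (h : 0 < x.re) : x ≠ 0 := by
  intro h0
  rw [h0] at h
  simp at h

theorem Zlm_re1 (y : ℝ) : (1 + Complex.I * (y : ℂ)).re = 1 := by simp

theorem Zlm_re2 (y : ℝ) : (2 + Complex.I * (y : ℂ)).re = 2 := by simp

theorem Zlm_im1 (y : ℝ) : (1 + Complex.I * (y : ℂ)).im = y := by simp

theorem Zlm_im2 (y : ℝ) : (2 + Complex.I * (y : ℂ)).im = y := by simp

theorem Zlm_ok {q : Par} (hq : q.ok) : (-(1 / 2 : ℝ) ≤ q.a1.re ∧ -(1 / 2 : ℝ) ≤ q.a2.re ∧ -(1 / 2 : ℝ) ≤ q.a3.re) ∧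
    -(1 / 2 : ℝ) ≤ q.b1.re ∧ -(1 / 2 : ℝ) ≤ q.b2.re := by
  refine ⟨⟨(hq _ ?_).1, (hq _ ?_).1, (hq _ ?_).1⟩, (hq _ ?_).1, (hq _ ?_).1⟩ <;> simp

/-- the factorisation of the generating function -/
theorem Zlm_fac (q : Par) (hq : q.ok) (y ξ : ℝ) (L : ℝ) (hL : 0 < L) :
    Zf (q.sc L) ((1 + Complex.I * y) / L) ((2 + Complex.I * ξ) / L) / (L : ℂ) =
      ((riemannZeta (1 + ((1 + Complex.I * y) + q.a1) / L) / L) * (riemannZeta (1 + ((1 + Complex.I * y) + q.a2) / L) / L) *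
        (riemannZeta (1 + ((1 + Complex.I * y) + q.a3) / L) / L)) /
      ((riemannZeta (1 + ((1 + Complex.I * y) + q.b1) / L) / L) * (riemannZeta (1 + ((1 + Complex.I * y) + q.b2) / L) / L)) *
      (((riemannZeta (1 + ((2 + Complex.I * ξ) + q.b1) / L) / L) * (riemannZeta (1 + ((2 + Complex.I * ξ) + q.b2) / L) / L)) /
      ((riemannZeta (1 + ((2 + Complex.I * ξ) + q.a1) / L) / L) * (riemannZeta (1 + ((2 + Complex.I * ξ) + q.a2) / L) / L) *
        (riemannZeta (1 + ((2 + Complex.I * ξ) + q.a3) / L) / L))) *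
      (riemannZeta (1 + ((2 + Complex.I * ξ) - (1 + Complex.I * y)) / L) / L) *
      HH (q.sc L) ((1 + Complex.I * y) / L) ((2 + Complex.I * ξ) / L) := by
  obtain ⟨⟨h1, h2, h3⟩, h4, h5⟩ := Zlm_ok hq
  have hLc : (L : ℂ) ≠ 0 := by exact_mod_cast hL.ne'
  set t : ℂ := 1 + Complex.I * y with ht
  set τ : ℂ := 2 + Complex.I * ξ with hτ
  have htr : t.re = 1 := by rw [ht]; exact Zlm_re1 y
  have hτr : τ.re = 2 := by rw [hτ]; exact Zlm_re2 ξ
  have hrd : ∀ x : ℂ, (x / (L : ℂ)).re = x.re / L := fun x => Complex.div_ofReal_re x L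
  have hnn : (q.sc L).nn (t / L) := by
    intro x hx
    simp only [Par.sc, Set.mem_insert_iff, Set.mem_singleton_iff] at hx
    rcases hx with h | h | h | h | h <;> subst h <;> rw [← add_div, hrd, Complex.add_re, htr] <;>
      apply div_nonneg _ hL.le <;> linarith
  have hgt : (q.sc L).gt (1 + τ / L) := by
    intro x hx
    simp only [Par.sc, Set.mem_insert_iff, Set.mem_singleton_iff] at hx
    rcases hx with h | h | h | h | h <;> subst h <;>
      rw [add_assoc, ← add_div, Complex.add_re, Complex.one_re, hrd, Complex.add_re, hτr] <;>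
      apply lt_add_of_pos_right <;> apply div_pos _ hL <;> linarith
  have hlt : (t / (L : ℂ) - τ / L).re < 0 := by
    rw [← sub_div, hrd, Complex.sub_re, htr, hτr]
    apply div_neg_of_neg_of_pos _ hL
    norm_num
  have hBB := BB_eq (q.sc L) (t / L) (τ / L) hnn hlt
  have hne := AA_ne_zero (q.sc L) (1 + τ / L) hgt
  have hB2 : BB (q.sc L) (t / L) (τ / L) =
      riemannZeta (1 + τ / L - t / L) * HH (q.sc L) (t / L) (τ / L) / AA (q.sc L) (1 + τ / L) := by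
    rw [← hBB, mul_div_assoc, div_self hne, mul_one]
  have e1 : ∀ a : ℂ, 1 + t / (L : ℂ) + a / L = 1 + (t + a) / L := by
    intro a; rw [add_div]; ring
  have e2 : ∀ a : ℂ, 1 + τ / (L : ℂ) + a / L = 1 + (τ + a) / L := by
    intro a; rw [add_div]; ring
  have e3 : 1 + τ / (L : ℂ) - t / L = 1 + (τ - t) / L := by
    rw [sub_div]; ring
  have hzne : ∀ a : ℂ, -(1 / 2 : ℝ) ≤ a.re → riemannZeta (1 + (τ + a) / L) ≠ 0 := by
    intro a ha
    apply riemannZeta_ne_zero_of_one_lt_re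
    rw [Complex.add_re, Complex.one_re, hrd, Complex.add_re, hτr]
    apply lt_add_of_pos_right
    apply div_pos _ hL
    linarith
  have hzne2 : ∀ a : ℂ, -(1 / 2 : ℝ) ≤ a.re → riemannZeta (1 + (t + a) / L) ≠ 0 := by
    intro a ha
    apply riemannZeta_ne_zero_of_one_lt_re
    rw [Complex.add_re, Complex.one_re, hrd, Complex.add_re, htr]
    apply lt_add_of_pos_right
    apply div_pos _ hL
    linarith
  rw [Zf, hB2, AA, AA]
  simp only [Par.sc]
  rw [e1, e1, e1, e1, e1, e2, e2, e2, e2, e2, e3]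
  have n1 := hzne q.a1 h1
  have n2 := hzne q.a2 h2
  have n3 := hzne q.a3 h3
  have n4 := hzne q.b1 h4
  have n5 := hzne q.b2 h5
  have m4 := hzne2 q.b1 h4
  have m5 := hzne2 q.b2 h5
  generalize riemannZeta (1 + (τ + q.a1) / L) = A1 at *
  generalize riemannZeta (1 + (τ + q.a2) / L) = A2 at *
  generalize riemannZeta (1 + (τ + q.a3) / L) = A3 at *
  generalize riemannZeta (1 + (τ + q.b1) / L) = B1 at *
  generalize riemannZeta (1 + (τ + q.b2) / L) = B2 at *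
  generalize riemannZeta (1 + (t + q.a1) / L) = C1 at *
  generalize riemannZeta (1 + (t + q.a2) / L) = C2 at *
  generalize riemannZeta (1 + (t + q.a3) / L) = C3 at *
  generalize riemannZeta (1 + (t + q.b1) / L) = D1 at *
  generalize riemannZeta (1 + (t + q.b2) / L) = D2 at *
  generalize riemannZeta (1 + (τ - t) / L) = E at *
  generalize HH _ (t / L) (τ / L) = H at *
  clear hBB hne hB2
  field_simp

theorem Zf_tendsto (q : Par) (hq : q.ok) (y ξ : ℝ) :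
    Tendsto (fun L : ℝ => Zf (q.sc L) ((1 + Complex.I * y) / L) ((2 + Complex.I * ξ) / L) / (L : ℂ)) atTop
      (𝓝 (RR q (1 + Complex.I * y) (2 + Complex.I * ξ))) := by
  obtain ⟨⟨h1, h2, h3⟩, h4, h5⟩ := Zlm_ok hq
  have hev : ∀ᶠ L : ℝ in atTop, ((riemannZeta (1 + ((1 + Complex.I * y) + q.a1) / L) / L) * (riemannZeta (1 + ((1 + Complex.I * y) + q.a2) / L) / L) *
        (riemannZeta (1 + ((1 + Complex.I * y) + q.a3) / L) / L)) /
      ((riemannZeta (1 + ((1 + Complex.I * y) + q.b1) / L) / L) * (riemannZeta (1 + ((1 + Complex.I * y) + q.b2) / L) / L)) *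
      (((riemannZeta (1 + ((2 + Complex.I * ξ) + q.b1) / L) / L) * (riemannZeta (1 + ((2 + Complex.I * ξ) + q.b2) / L) / L)) /
      ((riemannZeta (1 + ((2 + Complex.I * ξ) + q.a1) / L) / L) * (riemannZeta (1 + ((2 + Complex.I * ξ) + q.a2) / L) / L) *
        (riemannZeta (1 + ((2 + Complex.I * ξ) + q.a3) / L) / L))) *
      (riemannZeta (1 + ((2 + Complex.I * ξ) - (1 + Complex.I * y)) / L) / L) *
      HH (q.sc L) ((1 + Complex.I * y) / L) ((2 + Complex.I * ξ) / L) =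
      Zf (q.sc L) ((1 + Complex.I * y) / L) ((2 + Complex.I * ξ) / L) / (L : ℂ) := by
    filter_upwards [eventually_gt_atTop 0] with L hL
    exact (Zlm_fac q hq y ξ L hL).symm
  refine Tendsto.congr' hev ?_
  clear hev
  have htr : (1 + Complex.I * (y : ℂ)).re = 1 := Zlm_re1 y
  have hτr : (2 + Complex.I * (ξ : ℂ)).re = 2 := Zlm_re2 ξ
  have hdiv0 : ∀ a : ℂ, Tendsto (fun L : ℝ => a / (L : ℂ)) atTop (𝓝 0) := by
    intro a
    have h := (Complex.continuous_ofReal.tendsto 0).comp (tendsto_inv_atTop_zero (𝕜 := ℝ))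
    have h' := h.const_mul a
    simp only [Complex.ofReal_zero, mul_zero] at h'
    refine h'.congr ?_
    intro L
    simp [div_eq_mul_inv]
  have hrd : ∀ (L : ℝ) (x : ℂ), (x / (L : ℂ)).re = x.re / L := fun L x => Complex.div_ofReal_re x L
  have hH : Tendsto (fun L : ℝ => HH (q.sc L) ((1 + Complex.I * y) / L) ((2 + Complex.I * ξ) / L)) atTop (𝓝 1) := by
    refine HH_tendsto (fun L => q.sc L) (fun L => (1 + Complex.I * y) / L) (fun L => (2 + Complex.I * ξ) / L) ?_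
      (hdiv0 _) (hdiv0 _) (hdiv0 _) (hdiv0 _) (hdiv0 _) (hdiv0 _) (hdiv0 _)
    filter_upwards [eventually_gt_atTop 0] with L hL
    constructor
    · intro x hx
      simp only [Par.sc, Set.mem_insert_iff, Set.mem_singleton_iff] at hx
      rcases hx with h | h | h | h | h <;> subst h <;> rw [← add_div, hrd, Complex.add_re, htr] <;>
        apply div_nonneg _ hL.le <;> linarith
    · rw [← sub_div, hrd, Complex.sub_re, htr, hτr]
      apply (div_neg_of_neg_of_pos _ hL).le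
      norm_num
  have ht : ∀ a : ℂ, -(1 / 2 : ℝ) ≤ a.re → (1 + Complex.I * (y : ℂ)) + a ≠ 0 := by
    intro a ha
    apply Zlm_ne
    rw [Complex.add_re, htr]
    linarith
  have hτ : ∀ a : ℂ, -(1 / 2 : ℝ) ≤ a.re → (2 + Complex.I * (ξ : ℂ)) + a ≠ 0 := by
    intro a ha
    apply Zlm_ne
    rw [Complex.add_re, hτr]
    linarith
  have hd : (2 + Complex.I * (ξ : ℂ)) - (1 + Complex.I * (y : ℂ)) ≠ 0 := by
    apply Zlm_ne
    rw [Complex.sub_re, hτr, htr]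
    norm_num
  have inv_ne : ∀ x : ℂ, x ≠ 0 → 1 / x ≠ 0 := fun x hx => one_div_ne_zero hx
  have hfin := ((((((z_lim (ht _ h1)).mul (z_lim (ht _ h2))).mul (z_lim (ht _ h3))).div
    ((z_lim (ht _ h4)).mul (z_lim (ht _ h5))) (mul_ne_zero (inv_ne _ (ht _ h4)) (inv_ne _ (ht _ h5)))).mul
    (((z_lim (hτ _ h4)).mul (z_lim (hτ _ h5))).div (((z_lim (hτ _ h1)).mul (z_lim (hτ _ h2))).mul (z_lim (hτ _ h3)))
      (mul_ne_zero (mul_ne_zero (inv_ne _ (hτ _ h1)) (inv_ne _ (hτ _ h2))) (inv_ne _ (hτ _ h3))))).mul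
    (z_lim hd)).mul hH
  have hlim : 1 / (1 + Complex.I * (y : ℂ) + q.a1) * (1 / (1 + Complex.I * (y : ℂ) + q.a2)) * (1 / (1 + Complex.I * (y : ℂ) + q.a3)) /
      (1 / (1 + Complex.I * (y : ℂ) + q.b1) * (1 / (1 + Complex.I * (y : ℂ) + q.b2))) *
      (1 / (2 + Complex.I * (ξ : ℂ) + q.b1) * (1 / (2 + Complex.I * (ξ : ℂ) + q.b2)) /
      (1 / (2 + Complex.I * (ξ : ℂ) + q.a1) * (1 / (2 + Complex.I * (ξ : ℂ) + q.a2)) * (1 / (2 + Complex.I * (ξ : ℂ) + q.a3)))) *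
      (1 / ((2 + Complex.I * (ξ : ℂ)) - (1 + Complex.I * (y : ℂ)))) * 1 = RR q (1 + Complex.I * y) (2 + Complex.I * ξ) := by
    rw [RR]
    have a1 := ht _ h1
    have a2 := ht _ h2
    have a3 := ht _ h3
    have a4 := ht _ h4
    have a5 := ht _ h5
    have c1 := hτ _ h1
    have c2 := hτ _ h2
    have c3 := hτ _ h3
    have c4 := hτ _ h4
    have c5 := hτ _ h5
    generalize 1 + Complex.I * (y : ℂ) + q.a1 = A1 at *
    generalize 1 + Complex.I * (y : ℂ) + q.a2 = A2 at *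
    generalize 1 + Complex.I * (y : ℂ) + q.a3 = A3 at *
    generalize 1 + Complex.I * (y : ℂ) + q.b1 = B1 at *
    generalize 1 + Complex.I * (y : ℂ) + q.b2 = B2 at *
    generalize 2 + Complex.I * (ξ : ℂ) + q.a1 = C1 at *
    generalize 2 + Complex.I * (ξ : ℂ) + q.a2 = C2 at *
    generalize 2 + Complex.I * (ξ : ℂ) + q.a3 = C3 at *
    generalize 2 + Complex.I * (ξ : ℂ) + q.b1 = D1 at *
    generalize 2 + Complex.I * (ξ : ℂ) + q.b2 = D2 at *
    generalize (2 + Complex.I * (ξ : ℂ)) - (1 + Complex.I * (y : ℂ)) = E at *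
    field_simp
  rw [hlim] at hfin
  exact hfin

/-- the same bound for the limit -/
theorem RR_bound : ∃ (C : ℝ) (K : ℕ), 0 ≤ C ∧ ∀ q : Par, q.ok → ∀ y ξ : ℝ,
    ‖RR q (1 + Complex.I * y) (2 + Complex.I * ξ)‖ ≤ C * q.nm ^ K * (1 + |ξ|) ^ K * (1 + |y|)⁻¹ ^ 2 := by
  refine ⟨432, 8, by norm_num, ?_⟩
  intro q hq y ξ
  obtain ⟨⟨h1, h2, h3⟩, h4, h5⟩ := Zlm_ok hq
  have htr : (1 + Complex.I * (y : ℂ)).re = 1 := Zlm_re1 y
  have hτr : (2 + Complex.I * (ξ : ℂ)).re = 2 := Zlm_re2 ξ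
  have hti : (1 + Complex.I * (y : ℂ)).im = y := Zlm_im1 y
  have hτi : (2 + Complex.I * (ξ : ℂ)).im = ξ := Zlm_im2 ξ
  set t : ℂ := 1 + Complex.I * y with ht
  set τ : ℂ := 2 + Complex.I * ξ with hτ
  have hy0 := abs_nonneg y
  have hx0 := abs_nonneg ξ
  have na1 := norm_nonneg q.a1
  have na2 := norm_nonneg q.a2
  have na3 := norm_nonneg q.a3
  have nb1 := norm_nonneg q.b1
  have nb2 := norm_nonneg q.b2
  have hnm : q.nm = 1 + ‖q.a1‖ + ‖q.a2‖ + ‖q.a3‖ + ‖q.b1‖ + ‖q.b2‖ := rfl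
  have hnm1 : 1 ≤ q.nm := by rw [hnm]; linarith
  have htn : ‖t‖ ≤ 1 + |y| := by
    rw [ht]
    refine (norm_add_le _ _).trans ?_
    rw [norm_one, norm_mul, Complex.norm_I, one_mul, Complex.norm_real, Real.norm_eq_abs]
  have hτn : ‖τ‖ ≤ 2 + |ξ| := by
    rw [hτ]
    refine (norm_add_le _ _).trans ?_
    rw [norm_mul, Complex.norm_I, one_mul, Complex.norm_real, Real.norm_eq_abs]
    simp
  -- upper bound for `τ + a`
  have b1 : ∀ a : ℂ, 1 + ‖a‖ ≤ q.nm → ‖τ + a‖ ≤ 2 * q.nm * (1 + |ξ|) := by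
    intro a ha
    have := norm_add_le τ a
    have hn := norm_nonneg a
    nlinarith [mul_nonneg hx0 (sub_nonneg.2 hnm1), mul_nonneg hx0 (sub_nonneg.2 ha), mul_nonneg hx0 hn]
  -- lower bound for `t + a`
  have b2 : ∀ a : ℂ, 1 + ‖a‖ ≤ q.nm → -(1 / 2 : ℝ) ≤ a.re → ‖t + a‖⁻¹ ≤ 3 * q.nm * (1 + |y|)⁻¹ := by
    intro a ha hr
    have hn := norm_nonneg a
    have hre : (1 / 2 : ℝ) ≤ ‖t + a‖ := by
      refine le_trans ?_ (Complex.re_le_norm (t + a))
      rw [Complex.add_re, htr]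
      linarith
    have him : |y| ≤ ‖t + a‖ + ‖a‖ := by
      have e1 : y = (t + a).im - a.im := by rw [Complex.add_im, hti]; ring
      have e2 := Complex.abs_im_le_norm (t + a)
      have e3 := Complex.abs_im_le_norm a
      calc |y| = |(t + a).im - a.im| := by rw [← e1]
        _ ≤ |(t + a).im| + |a.im| := abs_sub _ _
        _ ≤ _ := by linarith
    have hp : 0 < ‖t + a‖ := by linarith
    rw [inv_eq_one_div, div_le_iff₀ hp]
    have hy1 : 0 < 1 + |y| := by linarith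
    have key : 1 + |y| ≤ 3 * q.nm * ‖t + a‖ := by
      nlinarith [mul_nonneg hn (sub_nonneg.2 hre), mul_nonneg (sub_nonneg.2 ha) hp.le, mul_nonneg hn hp.le]
    calc (1 : ℝ) = (1 + |y|) * (1 + |y|)⁻¹ := (mul_inv_cancel₀ hy1.ne').symm
      _ ≤ (3 * q.nm * ‖t + a‖) * (1 + |y|)⁻¹ := mul_le_mul_of_nonneg_right key (inv_nonneg.2 hy1.le)
      _ = _ := by ring
  -- upper bound for `t + b`
  have b3 : ∀ a : ℂ, 1 + ‖a‖ ≤ q.nm → ‖t + a‖ ≤ q.nm * (1 + |y|) := by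
    intro a ha
    have := norm_add_le t a
    have hn := norm_nonneg a
    nlinarith [mul_nonneg hy0 (sub_nonneg.2 hnm1), mul_nonneg hy0 (sub_nonneg.2 ha), mul_nonneg hy0 hn]
  -- lower bound for `τ + b`
  have b4 : ∀ a : ℂ, -(1 / 2 : ℝ) ≤ a.re → ‖τ + a‖⁻¹ ≤ 1 := by
    intro a hr
    apply inv_le_one_of_one_le₀
    refine le_trans ?_ (Complex.re_le_norm (τ + a))
    rw [Complex.add_re, hτr]
    linarith
  -- lower bound for `τ - t`
  have b5 : ‖τ - t‖⁻¹ ≤ 2 * (1 + |ξ|) * (1 + |y|)⁻¹ := by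
    have hre : (1 : ℝ) ≤ ‖τ - t‖ := by
      refine le_trans ?_ (Complex.re_le_norm (τ - t))
      rw [Complex.sub_re, htr, hτr]
      norm_num
    have him : |y| ≤ ‖τ - t‖ + |ξ| := by
      have e1 : y = ξ - (τ - t).im := by rw [Complex.sub_im, hti, hτi]; ring
      have e2 := Complex.abs_im_le_norm (τ - t)
      calc |y| = |ξ - (τ - t).im| := by rw [← e1]
        _ ≤ |ξ| + |(τ - t).im| := abs_sub _ _
        _ ≤ _ := by linarith
    have hp : 0 < ‖τ - t‖ := by linarith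
    rw [inv_eq_one_div, div_le_iff₀ hp]
    have hy1 : 0 < 1 + |y| := by linarith
    have key : 1 + |y| ≤ 2 * (1 + |ξ|) * ‖τ - t‖ := by
      nlinarith [mul_nonneg hx0 (sub_nonneg.2 hre)]
    calc (1 : ℝ) = (1 + |y|) * (1 + |y|)⁻¹ := (mul_inv_cancel₀ hy1.ne').symm
      _ ≤ (2 * (1 + |ξ|) * ‖τ - t‖) * (1 + |y|)⁻¹ := mul_le_mul_of_nonneg_right key (inv_nonneg.2 hy1.le)
      _ = _ := by ring
  have m1 : 1 + ‖q.a1‖ ≤ q.nm := by rw [hnm]; linarith
  have m2 : 1 + ‖q.a2‖ ≤ q.nm := by rw [hnm]; linarith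
  have m3 : 1 + ‖q.a3‖ ≤ q.nm := by rw [hnm]; linarith
  have m4 : 1 + ‖q.b1‖ ≤ q.nm := by rw [hnm]; linarith
  have m5 : 1 + ‖q.b2‖ ≤ q.nm := by rw [hnm]; linarith
  have hRR : ‖RR q t τ‖ = ‖τ + q.a1‖ * ‖τ + q.a2‖ * ‖τ + q.a3‖ * (‖t + q.a1‖⁻¹ * ‖t + q.a2‖⁻¹ * ‖t + q.a3‖⁻¹) *
      (‖t + q.b1‖ * ‖t + q.b2‖ * (‖τ + q.b1‖⁻¹ * ‖τ + q.b2‖⁻¹)) * ‖τ - t‖⁻¹ := by
    rw [RR]
    simp only [norm_div, norm_mul]
    simp only [div_eq_mul_inv, mul_inv]
  rw [hRR]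
  set D : ℝ := (1 + |y|)⁻¹ with hD
  set X : ℝ := 1 + |ξ| with hX
  set N : ℝ := q.nm with hN
  have hy1 : 0 < 1 + |y| := by linarith
  have hD0 : 0 < D := by rw [hD]; exact inv_pos.2 hy1
  have hX1 : 1 ≤ X := by rw [hX]; linarith
  have hyD : (1 + |y|) * D = 1 := mul_inv_cancel₀ hy1.ne'
  have s1 : ‖τ + q.a1‖ * ‖τ + q.a2‖ * ‖τ + q.a3‖ ≤ (2 * N * X) ^ 3 := by
    have := mul_le_mul (mul_le_mul (b1 _ m1) (b1 _ m2) (norm_nonneg _) (by positivity)) (b1 _ m3) (norm_nonneg _) (by positivity)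
    calc _ ≤ _ := this
      _ = _ := by ring
  have s2 : ‖t + q.a1‖⁻¹ * ‖t + q.a2‖⁻¹ * ‖t + q.a3‖⁻¹ ≤ (3 * N * D) ^ 3 := by
    have := mul_le_mul (mul_le_mul (b2 _ m1 h1) (b2 _ m2 h2) (by positivity) (by positivity)) (b2 _ m3 h3) (by positivity) (by positivity)
    calc _ ≤ _ := this
      _ = _ := by ring
  have s3 : ‖t + q.b1‖ * ‖t + q.b2‖ ≤ (N * (1 + |y|)) ^ 2 := by
    have := mul_le_mul (b3 _ m4) (b3 _ m5) (norm_nonneg _) (by positivity)
    calc _ ≤ _ := this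
      _ = _ := by ring
  have s4 : ‖τ + q.b1‖⁻¹ * ‖τ + q.b2‖⁻¹ ≤ 1 := by
    have := mul_le_mul (b4 _ h4) (b4 _ h5) (by positivity) zero_le_one
    calc _ ≤ _ := this
      _ = _ := by ring
  calc _ ≤ (2 * N * X) ^ 3 * (3 * N * D) ^ 3 * ((N * (1 + |y|)) ^ 2 * 1) * (2 * X * D) := by
        refine mul_le_mul (mul_le_mul (mul_le_mul s1 s2 (by positivity) (by positivity))
          (mul_le_mul s3 s4 (by positivity) (by positivity)) (by positivity) (by positivity)) b5 (by positivity) (by positivity)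
    _ = 432 * N ^ 8 * X ^ 4 * (((1 + |y|) * D) ^ 2 * D ^ 2) := by ring
    _ = 432 * N ^ 8 * X ^ 4 * D ^ 2 := by rw [hyD]; ring
    _ ≤ 432 * N ^ 8 * X ^ 8 * D ^ 2 := by
        have : X ^ 4 ≤ X ^ 8 := pow_le_pow_right₀ hX1 (by norm_num)
        gcongr

end H98.SZ
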