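import Pool.Agent.H98.SZ.EIb
import Pool.Agent.H98.SZ.Wlm
import Pool.Agent.H98.SZ.Zlm

/-!
# SZ / GTm: the general theorem on main terms

Divide `EIb` by `om T`. Integrand: `ph ξ g θ (1/2π) [mw T (1+(t+κ)/L)/om T] [Zf/L]`, `t = 1+iy` (the factor `1/(2πL)` of `GW` times `L`).
Pointwise limit: `mw_tendsto` at `t+κ θ` and `Zf_tendsto`. Domination: `mw_bound (B+1)`, `Zf_bound`, `dom_bound K`: norm at most
`C ‖ph ξ‖ (1+|ξ|)^K ‖g θ‖ (q θ).nm^K (1+|y|)^(-5/4)` (in `mw_bound` the imaginary part is `y + Im κ`, `|Im κ| ≤ B`: `1+y² ≤ (2+2B²)(1+(y+Im κ)²)`), integrable on the product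
(`Integrable.mul_prod`, `integrable_one_add_norm`/`integrable_rpow_neg`: `(1+|y|)^(-5/4)` is integrable). `tendsto_integral_filter_of_dominated_convergence` (`atTop` on `ℝ` is countably generated); measurability from `Mea`.
-/

set_option autoImplicit false

open Filter Topology MeasureTheory

namespace H98.SZ

variable {Θ : Type} [MeasurableSpace Θ]

/-- the integrand -/
noncomputable def GTm_F (g : Θ → ℂ) (q : Θ → Par) (κ : Θ → ℂ) (ph : ℝ → ℂ) (T : ℝ)
    (p : Θ × ℝ × ℝ) : ℂ :=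
  ph p.2.1 * GW g κ T p.1 p.2.2 *
    Zf ((q p.1).sc (Real.log T)) ((1 + Complex.I * p.2.2) / (Real.log T : ℂ))
      ((2 + Complex.I * p.2.1) / (Real.log T : ℂ))

theorem GTm_mp {ν : Measure Θ} {g : Θ → ℂ} {q : Θ → Par} {κ : Θ → ℂ} (h : PD ν g q κ) :
    MP (fun p : Θ × ℝ × ℝ => q p.1) :=
  ⟨h.m1.comp measurable_fst, h.m2.comp measurable_fst, h.m3.comp measurable_fst,
    h.m4.comp measurable_fst, h.m5.comp measurable_fst⟩

theorem GTm_nn (q : Par) (hq : q.ok) {L : ℝ} (hL : 0 < L) (y : ℝ) :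
    (q.sc L).nn ((1 + Complex.I * (y : ℂ)) / (L : ℂ)) := by
  have key : ∀ a : ℂ, a ∈ ({q.a1, q.a2, q.a3, q.b1, q.b2} : Set ℂ) →
      0 ≤ ((1 + Complex.I * (y : ℂ)) / (L : ℂ) + a / (L : ℂ)).re := by
    intro a ha
    have h1 := (hq a ha).1
    rw [← add_div, Complex.div_ofReal_re]
    apply div_nonneg _ hL.le
    simp only [Complex.add_re, Complex.one_re, Complex.mul_re, Complex.I_re, Complex.ofReal_re,
      Complex.I_im, Complex.ofReal_im]
    linarith
  intro x hx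
  simp only [Par.sc, Set.mem_insert_iff, Set.mem_singleton_iff] at hx
  rcases hx with rfl | rfl | rfl | rfl | rfl
  · exact key _ (by simp)
  · exact key _ (by simp)
  · exact key _ (by simp)
  · exact key _ (by simp)
  · exact key _ (by simp)

theorem GTm_om {T : ℝ} (hT : 3 ≤ T) : 0 < om T := by
  have h1 : 0 < Real.log T := Real.log_pos (by linarith)
  unfold om
  positivity

theorem GTm_meas {ν : Measure Θ} {g : Θ → ℂ} {q : Θ → Par} {κ : Θ → ℂ} (h : PD ν g q κ)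
    {P ph : ℝ → ℂ} (hP : FL P ph) {B T : ℝ} (hB : ∀ θ, ‖κ θ‖ ≤ B) (hT : 3 ≤ T)
    (hL : B < Real.log T) : Measurable (GTm_F g q κ ph T) := by
  have hL0 : 0 < Real.log T := Real.log_pos (by linarith)
  have m1 : Measurable fun p : Θ × ℝ × ℝ => ph p.2.1 :=
    hP.meas.comp (measurable_fst.comp measurable_snd)
  have m2 : Measurable fun p : Θ × ℝ × ℝ => g p.1 := h.mg.comp measurable_fst
  have my : Measurable fun p : Θ × ℝ × ℝ => ((p.2.2 : ℝ) : ℂ) :=
    Complex.measurable_ofReal.comp (measurable_snd.comp measurable_snd)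
  have mx : Measurable fun p : Θ × ℝ × ℝ => ((p.2.1 : ℝ) : ℂ) :=
    Complex.measurable_ofReal.comp (measurable_fst.comp measurable_snd)
  have mk : Measurable fun p : Θ × ℝ × ℝ => κ p.1 := h.mκ.comp measurable_fst
  have m3 : Measurable fun p : Θ × ℝ × ℝ =>
      mw T (1 + (1 + Complex.I * p.2.2 + κ p.1) / (Real.log T : ℂ)) := by
    refine mw_meas hT (((measurable_const.add (my.const_mul _)).add mk).div_const _
      |>.const_add _) ?_
    intro p
    have h1 : -B ≤ (κ p.1).re := by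
      have h2 := Complex.abs_re_le_norm (κ p.1)
      have h3 := hB p.1
      have h4 := neg_abs_le (κ p.1).re
      linarith
    rw [Complex.add_re, Complex.div_ofReal_re]
    simp only [Complex.add_re, Complex.one_re, Complex.mul_re, Complex.I_re, Complex.ofReal_re,
      Complex.I_im, Complex.ofReal_im]
    have h5 : 0 < (Real.log T + (1 + (0 * p.2.2 - 1 * 0) + (κ p.1).re)) / Real.log T := by
      apply div_pos _ hL0
      linarith
    rw [add_div, div_self hL0.ne'] at h5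
    exact h5
  have m4 : Measurable fun p : Θ × ℝ × ℝ => Zf ((q p.1).sc (Real.log T))
      ((1 + Complex.I * p.2.2) / (Real.log T : ℂ)) ((2 + Complex.I * p.2.1) / (Real.log T : ℂ)) := by
    refine Zf_meas ((GTm_mp h).sc _) ((measurable_const.add (my.const_mul _)).div_const _)
      ((measurable_const.add (mx.const_mul _)).div_const _) ?_ ?_
    · intro p
      exact GTm_nn (q p.1) (h.ok p.1) hL0 p.2.2
    · intro p
      rw [← sub_div, Complex.div_ofReal_re]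
      apply div_neg_of_neg_of_pos _ hL0
      simp only [Complex.sub_re, Complex.add_re, Complex.one_re, Complex.mul_re, Complex.I_re,
        Complex.ofReal_re, Complex.I_im, Complex.ofReal_im, Complex.re_ofNat]
      norm_num
  exact (m1.mul ((m2.mul_const _).mul m3)).mul m4

theorem GTm_min {c x : ℝ} (hc : 1 ≤ c) (hx : 0 ≤ x) : min 1 (c * x) ≤ c * min 1 x := by
  rcases le_total 1 x with h | h
  · rw [min_eq_left h, mul_one]
    exact (min_le_left _ _).trans hc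
  · rw [min_eq_right h]
    exact min_le_right _ _

theorem GTm_bd {ν : Measure Θ} {g : Θ → ℂ} {q : Θ → Par} {κ : Θ → ℂ} (h : PD ν g q κ)
    (ph : ℝ → ℂ) : ∃ (C : ℝ) (K : ℕ) (T0 : ℝ), 0 ≤ C ∧ 3 ≤ T0 ∧ ∀ T : ℝ, T0 ≤ T →
      ∀ p : Θ × ℝ × ℝ, ‖GTm_F g q κ ph T p / (om T : ℂ)‖ ≤
        C * ((‖g p.1‖ * (q p.1).nm ^ K) *
          ((‖ph p.2.1‖ * (1 + |p.2.1|) ^ K) * (1 + |p.2.2|) ^ (-(5 / 4) : ℝ))) := by
  obtain ⟨B, hB⟩ := h.κle
  obtain ⟨B', hB'⟩ : ∃ B', B' = max B 0 := ⟨_, rfl⟩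
  have hB0 : 0 ≤ B' := by
    rw [hB']
    exact le_max_right _ _
  have hBB : ∀ θ, ‖κ θ‖ ≤ B' := fun θ => (hB θ).trans (by rw [hB']; exact le_max_left _ _)
  obtain ⟨C1, T1, hC1, hT1, h1⟩ := mw_bound (B' + 1)
  obtain ⟨C2, K, hC2, h2⟩ := Zf_bound
  obtain ⟨C3, hC3, h3⟩ := dom_bound K
  refine ⟨C1 * (2 + 2 * B' ^ 2) * C2 * C3 / (2 * Real.pi), K, max T1 (max 3 (Real.exp 5)),
    by positivity, (le_max_left 3 _).trans (le_max_right T1 _), ?_⟩
  intro T hT p
  have hTT1 : T1 ≤ T := (le_max_left _ _).trans hT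
  have hT3 : 3 ≤ T := ((le_max_left 3 _).trans (le_max_right T1 _)).trans hT
  have hT5 : Real.exp 5 ≤ T := ((le_max_right 3 _).trans (le_max_right T1 _)).trans hT
  have hL5 : 5 ≤ Real.log T := by
    rw [Real.le_log_iff_exp_le (by linarith)]
    exact hT5
  have hom := GTm_om hT3
  obtain ⟨θ, ξ, y⟩ := p
  simp only
  obtain ⟨L, hL⟩ : ∃ L, L = Real.log T := ⟨_, rfl⟩
  rw [← hL] at hL5
  have hL0 : 0 < L := by linarith
  obtain ⟨D, hD⟩ : ∃ D, D = 2 + 2 * B' ^ 2 := ⟨_, rfl⟩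
  have hD1 : 1 ≤ D := by
    rw [hD]
    nlinarith [sq_nonneg B']
  have hκ := hBB θ
  have hre : |(κ θ).re| ≤ B' := (Complex.abs_re_le_norm _).trans hκ
  have him : |(κ θ).im| ≤ B' := (Complex.abs_im_le_norm _).trans hκ
  obtain ⟨t, ht⟩ : ∃ t : ℂ, t = 1 + Complex.I * (y : ℂ) + κ θ := ⟨_, rfl⟩
  have htre : t.re = 1 + (κ θ).re := by
    rw [ht]
    simp
  have htim : t.im = y + (κ θ).im := by
    rw [ht]
    simp
  have hM := h1 T hTT1 t (by
    rw [htre]
    rw [abs_le] at hre ⊢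
    constructor <;> linarith [hre.1, hre.2])
  rw [← hL] at hM
  have hm : min 1 (L ^ 3 / (1 + t.im ^ 2)) ≤ D * min 1 (L ^ 3 / (1 + y ^ 2)) := by
    refine (min_le_min_left 1 ?_).trans (GTm_min hD1 (by positivity))
    rw [mul_div_assoc', div_le_div_iff₀ (by positivity) (by positivity)]
    have h5 : 1 + y ^ 2 ≤ D * (1 + t.im ^ 2) := by
      rw [htim, hD]
      have h6 : (κ θ).im ^ 2 ≤ B' ^ 2 := by
        rw [← sq_abs]
        exact pow_le_pow_left₀ (abs_nonneg _) him 2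
      nlinarith [sq_nonneg (y + 2 * (κ θ).im), sq_nonneg (B' * (y + (κ θ).im)), sq_nonneg B']
    calc L ^ 3 * (1 + y ^ 2) ≤ L ^ 3 * (D * (1 + t.im ^ 2)) :=
          mul_le_mul_of_nonneg_left h5 (by positivity)
      _ = D * L ^ 3 * (1 + t.im ^ 2) := by ring
  have hZ := h2 L hL5 (q θ) (h.ok θ) y ξ
  have hW := h3 L (by linarith) y
  have e1 : ‖GTm_F g q κ ph T (θ, ξ, y) / (om T : ℂ)‖ =
      ‖ph ξ‖ * ‖g θ‖ / (2 * Real.pi * L * om T) *
        (‖mw T (1 + t / (L : ℂ))‖ *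
          ‖Zf ((q θ).sc L) ((1 + Complex.I * y) / L) ((2 + Complex.I * ξ) / L)‖) := by
    unfold GTm_F GW
    rw [norm_div, norm_mul, norm_mul, norm_mul, norm_mul, Complex.norm_real, Complex.norm_real,
      Real.norm_of_nonneg hom.le, ← hL, ← ht, Real.norm_of_nonneg (by positivity)]
    field_simp
  rw [e1]
  have hA : 0 ≤ ‖ph ξ‖ * ‖g θ‖ / (2 * Real.pi * L * om T) := by positivity
  have hMZ : ‖mw T (1 + t / (L : ℂ))‖ *
      ‖Zf ((q θ).sc L) ((1 + Complex.I * y) / L) ((2 + Complex.I * ξ) / L)‖ ≤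
      (C1 * om T * (D * min 1 (L ^ 3 / (1 + y ^ 2)))) *
        (C2 * L * (q θ).nm ^ K * (1 + |ξ|) ^ K *
          ((min (1 + |y|) L)⁻¹ ^ 2 * Pool.Agent.H17.ZB.LL (y / L) ^ K)) := by
    refine mul_le_mul (hM.trans ?_) hZ (norm_nonneg _) ?_
    · exact mul_le_mul_of_nonneg_left hm (by positivity)
    · have : 0 ≤ min 1 (L ^ 3 / (1 + y ^ 2)) := le_min zero_le_one (by positivity)
      positivity
  have hnm : 0 ≤ (q θ).nm := by
    unfold Par.nm
    positivity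
  refine (mul_le_mul_of_nonneg_left hMZ hA).trans ?_
  have e2 : ‖ph ξ‖ * ‖g θ‖ / (2 * Real.pi * L * om T) *
      ((C1 * om T * (D * min 1 (L ^ 3 / (1 + y ^ 2)))) *
        (C2 * L * (q θ).nm ^ K * (1 + |ξ|) ^ K *
          ((min (1 + |y|) L)⁻¹ ^ 2 * Pool.Agent.H17.ZB.LL (y / L) ^ K))) =
      (C1 * D * C2 / (2 * Real.pi) * ((‖g θ‖ * (q θ).nm ^ K) * (‖ph ξ‖ * (1 + |ξ|) ^ K))) *
        ((min (1 + |y|) L)⁻¹ ^ 2 * Pool.Agent.H17.ZB.LL (y / L) ^ K *
          min 1 (L ^ 3 / (1 + y ^ 2))) := by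
    field_simp
  rw [e2]
  refine (mul_le_mul_of_nonneg_left hW (by positivity)).trans (le_of_eq ?_)
  rw [← hD]
  ring

theorem GTm_lim {ν : Measure Θ} {g : Θ → ℂ} {q : Θ → Par} {κ : Θ → ℂ} (h : PD ν g q κ)
    (ph : ℝ → ℂ) (p : Θ × ℝ × ℝ) :
    Tendsto (fun T : ℝ => GTm_F g q κ ph T p / (om T : ℂ)) atTop
      (𝓝 (ph p.2.1 * g p.1 * ((1 / (2 * Real.pi) : ℝ) : ℂ) *
        Complex.exp (1 + Complex.I * p.2.2 + κ p.1) *
        RR (q p.1) (1 + Complex.I * p.2.2) (2 + Complex.I * p.2.1))) := by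
  obtain ⟨θ, ξ, y⟩ := p
  simp only
  have a1 := mw_tendsto (1 + Complex.I * (y : ℂ) + κ θ)
  have a2 := (Zf_tendsto (q θ) (h.ok θ) y ξ).comp Real.tendsto_log_atTop
  have a3 := (a1.const_mul (ph ξ * g θ * ((1 / (2 * Real.pi) : ℝ) : ℂ))).mul a2
  refine a3.congr fun T => ?_
  unfold GTm_F GW
  simp only [Function.comp]
  push_cast
  ring

theorem GTm_int {ν : Measure Θ} [SFinite ν] {g : Θ → ℂ} {q : Θ → Par} {κ : Θ → ℂ}
    (h : PD ν g q κ) {P ph : ℝ → ℂ} (hP : FL P ph) (C : ℝ) (K : ℕ) :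
    Integrable (fun p : Θ × ℝ × ℝ => C * ((‖g p.1‖ * (q p.1).nm ^ K) *
      ((‖ph p.2.1‖ * (1 + |p.2.1|) ^ K) * (1 + |p.2.2|) ^ (-(5 / 4) : ℝ))))
      (ν.prod (volume.prod volume)) := by
  have i3 : Integrable (fun y : ℝ => (1 + |y|) ^ (-(5 / 4) : ℝ)) := by
    have h1 := integrable_one_add_norm (E := ℝ) (μ := volume) (r := 5 / 4)
      (by rw [Module.finrank_self]; norm_num)
    simpa only [Real.norm_eq_abs] using h1
  exact ((h.int K).mul_prod ((hP.int K).mul_prod i3)).const_mul C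

/-- the limit functional -/
noncomputable def LIM (ν : Measure Θ) (g : Θ → ℂ) (q : Θ → Par) (κ : Θ → ℂ) (ph : ℝ → ℂ) : ℂ :=
  ∫ p : Θ × ℝ × ℝ, ph p.2.1 * g p.1 * ((1 / (2 * Real.pi) : ℝ) : ℂ) * Complex.exp (1 + Complex.I * p.2.2 + κ p.1) *
    RR (q p.1) (1 + Complex.I * p.2.2) (2 + Complex.I * p.2.1) ∂(ν.prod (volume.prod volume))

theorem GT (ν : Measure Θ) [SFinite ν] {g : Θ → ℂ} {q : Θ → Par} {κ : Θ → ℂ} (h : PD ν g q κ) {P ph : ℝ → ℂ} (hP : FL P ph) :
    Tendsto (fun T : ℝ => PRA ν g q κ (xx P (Real.log T)) T / (om T : ℂ)) atTop (𝓝 (LIM ν g q κ ph)) := by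
  obtain ⟨T1, hT1, hEI⟩ := EIb ν h hP
  obtain ⟨C, K, T2, hC, hT2, hbd⟩ := GTm_bd h ph
  obtain ⟨B, hB⟩ := h.κle
  have hev : (fun T : ℝ => ∫ p : Θ × ℝ × ℝ, GTm_F g q κ ph T p / (om T : ℂ)
      ∂(ν.prod (volume.prod volume))) =ᶠ[atTop]
      (fun T : ℝ => PRA ν g q κ (xx P (Real.log T)) T / (om T : ℂ)) := by
    filter_upwards [eventually_ge_atTop T1] with T hT
    rw [hEI T hT, integral_div]
    rfl
  refine Tendsto.congr' hev ?_
  unfold LIM
  refine tendsto_integral_filter_of_dominated_convergence _ ?_ ?_ (GTm_int h hP C K) ?_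
  · have h5 : ∀ᶠ T : ℝ in atTop, B < Real.log T :=
      Real.tendsto_log_atTop.eventually (eventually_gt_atTop B)
    filter_upwards [h5, eventually_ge_atTop 3] with T hT hT3
    exact ((GTm_meas h hP hB hT3 hT).div_const _).aestronglyMeasurable
  · filter_upwards [eventually_ge_atTop T2] with T hT
    exact Eventually.of_forall fun p => hbd T hT p
  · exact Eventually.of_forall fun p => GTm_lim h ph p

theorem LIM_int (ν : Measure Θ) [SFinite ν] {g : Θ → ℂ} {q : Θ → Par} {κ : Θ → ℂ} (h : PD ν g q κ) {P ph : ℝ → ℂ} (hP : FL P ph) :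
    Integrable (fun p : Θ × ℝ × ℝ => ph p.2.1 * g p.1 * ((1 / (2 * Real.pi) : ℝ) : ℂ) * Complex.exp (1 + Complex.I * p.2.2 + κ p.1) *
      RR (q p.1) (1 + Complex.I * p.2.2) (2 + Complex.I * p.2.1)) (ν.prod (volume.prod volume)) := by
  obtain ⟨C, K, T2, hC, hT2, hbd⟩ := GTm_bd h ph
  refine (GTm_int h hP C K).mono' ?_ (Eventually.of_forall fun p => ?_)
  · have m1 : Measurable fun p : Θ × ℝ × ℝ => ph p.2.1 :=
      hP.meas.comp (measurable_fst.comp measurable_snd)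
    have m2 : Measurable fun p : Θ × ℝ × ℝ => g p.1 := h.mg.comp measurable_fst
    have my : Measurable fun p : Θ × ℝ × ℝ => ((p.2.2 : ℝ) : ℂ) :=
      Complex.measurable_ofReal.comp (measurable_snd.comp measurable_snd)
    have mx : Measurable fun p : Θ × ℝ × ℝ => ((p.2.1 : ℝ) : ℂ) :=
      Complex.measurable_ofReal.comp (measurable_fst.comp measurable_snd)
    have mk : Measurable fun p : Θ × ℝ × ℝ => κ p.1 := h.mκ.comp measurable_fst
    have m3 : Measurable fun p : Θ × ℝ × ℝ => Complex.exp (1 + Complex.I * p.2.2 + κ p.1) :=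
      Complex.measurable_exp.comp ((measurable_const.add (my.const_mul _)).add mk)
    have m4 : Measurable fun p : Θ × ℝ × ℝ =>
        RR (q p.1) (1 + Complex.I * p.2.2) (2 + Complex.I * p.2.1) :=
      RR_meas (GTm_mp h) (measurable_const.add (my.const_mul _))
        (measurable_const.add (mx.const_mul _))
    exact ((((m1.mul m2).mul_const _).mul m3).mul m4).aestronglyMeasurable
  · refine le_of_tendsto (GTm_lim h ph p).norm ?_
    filter_upwards [eventually_ge_atTop T2] with T hT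
    exact hbd T hT p

end H98.SZ
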