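import Pool.Agent.H98.SZ.Jet

/-!
# SZ / Hbd: the product `HH` converges, is bounded and tends to `1`

For a prime `p`, `X = 1/p ≤ 1/2`, all the numbers `p^(-(z+a_i))`, `p^(-(z+b_j))`, `p^(z-w)` have norm `p^(-Re) ≤ 1` by the hypotheses
(`Complex.norm_natCast_cpow_of_pos`), so `‖hp q z w p - 1‖ ≤ C / p²` by `hl_bound`, and `∑ 1/p²` converges (`Nat.Primes.summable_rpow` or comparison with
`∑ 1/n²` along the injection `Nat.Primes → ℕ`). Multipliable: `multipliable_one_add_of_summable` (norm-summable `hp - 1`).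
Bound: `‖∏' (1 + f)‖ ≤ exp (∑' ‖f‖)`: limit of the finite inequality (`Finset.norm_prod_one_add_sub_one_le : ‖∏ (1 + f i) - 1‖ ≤ exp (∑ ‖f i‖) - 1`), via `HasProd` as a limit over finsets.
The same limit gives `‖HH - 1‖ ≤ exp (∑' ‖hp - 1‖) - 1`, and `∑'_p ‖hp (q i) (z i) (w i) p - 1‖ → 0` by `tendsto_tsum_of_dominated_convergence` (bound `C/p²`; for each `p` the six numbers tend
to `1` because `p^x → p^0 = 1` as `x → 0`, then `hl_cont`, `hl_one`).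
`bet_bound`: `bet q (1+z) p = 1 - (1-X)⁻¹ ∏(1 - X a_i)/∏(1 - X b_j)` with `a_i = p^(-(z+a_i))` (`p^(-(1+z+a)) = X p^(-(z+a))`, `p/(p-1) = (1-X)⁻¹`), then `bl_bound`.
`bet_eq` is this identity.
-/

set_option autoImplicit false

open Filter Topology

namespace H98.SZ

/-- all real parts of `z + shift` are `≥ 0` -/
def Par.nn (q : Par) (z : ℂ) : Prop := ∀ x ∈ ({q.a1, q.a2, q.a3, q.b1, q.b2} : Set ℂ), 0 ≤ (z + x).re

theorem Hbd_le {p : ℕ} (hp : p.Prime) {s : ℂ} (hs : s.re ≤ 0) : ‖(p : ℂ) ^ s‖ ≤ 1 := by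
  rw [Complex.norm_natCast_cpow_of_pos hp.pos]
  exact Real.rpow_le_one_of_one_le_of_nonpos (by exact_mod_cast hp.one_lt.le) hs

theorem Hbd_nn {q : Par} {z : ℂ} (h : q.nn z) :
    (-(z + q.a1)).re ≤ 0 ∧ (-(z + q.a2)).re ≤ 0 ∧ (-(z + q.a3)).re ≤ 0 ∧
      (-(z + q.b1)).re ≤ 0 ∧ (-(z + q.b2)).re ≤ 0 := by
  unfold Par.nn at h
  have h1 := h q.a1 (by simp)
  have h2 := h q.a2 (by simp)
  have h3 := h q.a3 (by simp)
  have h4 := h q.b1 (by simp)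
  have h5 := h q.b2 (by simp)
  simp only [Complex.neg_re]
  refine ⟨?_, ?_, ?_, ?_, ?_⟩ <;> linarith

theorem Hbd_X {p : ℕ} (hp : p.Prime) : 0 < 1 / (p : ℝ) ∧ 1 / (p : ℝ) ≤ 1 / 2 := by
  have h0 : (2 : ℝ) ≤ p := by exact_mod_cast hp.two_le
  exact ⟨by positivity, one_div_le_one_div_of_le (by norm_num) h0⟩

theorem Hbd_pw (z x : ℂ) {p : ℕ} (hp : p.Prime) :
    (p : ℂ) ^ (-(1 + z + x)) = ((1 / (p : ℝ) : ℝ) : ℂ) * (p : ℂ) ^ (-(z + x)) := by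
  have h0 : (p : ℂ) ≠ 0 := by exact_mod_cast hp.ne_zero
  have h1 : -(1 + z + x) = -1 + -(z + x) := by ring
  rw [h1, Complex.cpow_add _ _ h0, Complex.cpow_neg_one]
  push_cast
  rw [one_div]

theorem Hbd_prod {f : Nat.Primes → ℂ} (hf : Summable fun p => ‖f p‖) :
    ‖∏' p, (1 + f p) - 1‖ ≤ Real.exp (∑' p, ‖f p‖) - 1 := by
  have h1 := (multipliable_one_add_of_summable hf).hasProd
  have h2 : Tendsto (fun s : Finset Nat.Primes => ∏ p ∈ s, (1 + f p)) atTop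
      (𝓝 (∏' p, (1 + f p))) := h1
  have h3 : Tendsto (fun s : Finset Nat.Primes => ‖∏ p ∈ s, (1 + f p) - 1‖) atTop
      (𝓝 ‖∏' p, (1 + f p) - 1‖) := (h2.sub_const 1).norm
  refine le_of_tendsto h3 (Eventually.of_forall fun s => ?_)
  refine (Finset.norm_prod_one_add_sub_one_le s f).trans ?_
  have h4 := hf.sum_le_tsum s (fun _ _ => norm_nonneg _)
  linarith [Real.exp_le_exp.2 h4]

theorem Hbd_sum (C : ℝ) : Summable fun p : Nat.Primes => C / ((p : ℕ) : ℝ) ^ 2 := by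
  have h1 : Summable fun n : ℕ => 1 / (n : ℝ) ^ 2 := Real.summable_one_div_nat_pow.2 (by norm_num)
  have h2 : Summable fun p : Nat.Primes => 1 / ((p : ℕ) : ℝ) ^ 2 :=
    h1.comp_injective Nat.Primes.coe_nat_injective
  refine (h2.mul_left C).congr fun p => ?_
  rw [mul_one_div]

theorem bet_eq (q : Par) (z : ℂ) {p : ℕ} (hp : p.Prime) : bet q (1 + z) p =
    1 - (1 - ((1 / (p : ℝ) : ℝ) : ℂ))⁻¹ * ((1 - (1 / (p : ℝ) : ℝ) * (p : ℂ) ^ (-(z + q.a1))) * (1 - (1 / (p : ℝ) : ℝ) * (p : ℂ) ^ (-(z + q.a2))) *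
      (1 - (1 / (p : ℝ) : ℝ) * (p : ℂ) ^ (-(z + q.a3))) /
      ((1 - (1 / (p : ℝ) : ℝ) * (p : ℂ) ^ (-(z + q.b1))) * (1 - (1 / (p : ℝ) : ℝ) * (p : ℂ) ^ (-(z + q.b2))))) := by
  have h0 : (p : ℂ) ≠ 0 := by exact_mod_cast hp.ne_zero
  have h1 : (p : ℂ) - 1 ≠ 0 := by
    rw [sub_ne_zero]
    exact_mod_cast hp.one_lt.ne'
  have h2 : (p : ℂ) / ((p : ℂ) - 1) = (1 - ((1 / (p : ℝ) : ℝ) : ℂ))⁻¹ := by
    push_cast
    have h3 : (1 : ℂ) - 1 / (p : ℂ) = ((p : ℂ) - 1) / p := by field_simp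
    rw [h3, inv_div]
  unfold bet Ai
  rw [Hbd_pw z q.a1 hp, Hbd_pw z q.a2 hp, Hbd_pw z q.a3 hp, Hbd_pw z q.b1 hp, Hbd_pw z q.b2 hp, h2]

theorem bet_bound : ∃ C : ℝ, 0 ≤ C ∧ ∀ (q : Par) (z : ℂ), q.nn z → ∀ p : ℕ, p.Prime → ‖bet q (1 + z) p‖ ≤ C / p := by
  obtain ⟨C, h0, h⟩ := bl_bound
  refine ⟨C, h0, fun q z hz p hp => ?_⟩
  obtain ⟨h1, h2, h3, h4, h5⟩ := Hbd_nn hz
  obtain ⟨hX0, hX1⟩ := Hbd_X hp
  rw [bet_eq q z hp]
  refine (h (1 / (p : ℝ)) hX0 hX1 _ _ _ _ _ (Hbd_le hp h1) (Hbd_le hp h2) (Hbd_le hp h3)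
    (Hbd_le hp h4) (Hbd_le hp h5)).trans ?_
  rw [mul_one_div]

theorem hp_bound : ∃ C : ℝ, 0 ≤ C ∧ ∀ (q : Par) (z w : ℂ), q.nn z → (z - w).re ≤ 0 → ∀ p : ℕ, p.Prime → ‖hp q z w p - 1‖ ≤ C / (p : ℝ) ^ 2 := by
  obtain ⟨C, h0, h⟩ := hl_bound
  refine ⟨C, h0, fun q z w hz hw p hp => ?_⟩
  obtain ⟨h1, h2, h3, h4, h5⟩ := Hbd_nn hz
  obtain ⟨hX0, hX1⟩ := Hbd_X hp
  refine (h (1 / (p : ℝ)) hX0 hX1 _ _ _ _ _ _ (Hbd_le hp h1) (Hbd_le hp h2) (Hbd_le hp h3)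
    (Hbd_le hp h4) (Hbd_le hp h5) (Hbd_le hp hw)).trans ?_
  rw [one_div, inv_pow, div_eq_mul_inv]

theorem Hbd_HH {C : ℝ}
    (hC : ∀ (q : Par) (z w : ℂ), q.nn z → (z - w).re ≤ 0 → ∀ p : ℕ, p.Prime → ‖hp q z w p - 1‖ ≤ C / (p : ℝ) ^ 2)
    {q : Par} {z w : ℂ} (h : q.nn z) (hw : (z - w).re ≤ 0) :
    (Summable fun p : Nat.Primes => ‖hp q z w p - 1‖) ∧
      ‖HH q z w - 1‖ ≤ Real.exp (∑' p : Nat.Primes, ‖hp q z w p - 1‖) - 1 := by
  have h1 : Summable fun p : Nat.Primes => ‖hp q z w p - 1‖ :=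
    (Hbd_sum C).of_nonneg_of_le (fun _ => norm_nonneg _) fun p => hC q z w h hw p p.2
  refine ⟨h1, ?_⟩
  have h2 := Hbd_prod h1
  have h3 : HH q z w = ∏' p : Nat.Primes, (1 + (hp q z w p - 1)) := by
    unfold HH
    refine tprod_congr fun p => ?_
    ring
  rw [h3]
  exact h2

theorem HH_mult (q : Par) (z w : ℂ) (h : q.nn z) (hw : (z - w).re ≤ 0) : Multipliable fun p : Nat.Primes => hp q z w p := by
  obtain ⟨C, h0, hC⟩ := hp_bound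
  have h1 : Summable fun p : Nat.Primes => ‖hp q z w p - 1‖ :=
    (Hbd_sum C).of_nonneg_of_le (fun _ => norm_nonneg _) fun p => hC q z w h hw p p.2
  refine (multipliable_one_add_of_summable h1).congr fun p => ?_
  ring

theorem HH_bound : ∃ C : ℝ, 0 ≤ C ∧ ∀ (q : Par) (z w : ℂ), q.nn z → (z - w).re ≤ 0 → ‖HH q z w‖ ≤ C := by
  obtain ⟨C, h0, hC⟩ := hp_bound
  refine ⟨Real.exp (∑' p : Nat.Primes, C / ((p : ℕ) : ℝ) ^ 2), (Real.exp_pos _).le,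
    fun q z w h hw => ?_⟩
  have h1 := Hbd_HH hC h hw
  have h2 : HH q z w = (HH q z w - 1) + 1 := by ring
  rw [h2]
  refine (norm_add_le _ _).trans ?_
  rw [norm_one]
  have h3 := h1.2.trans (sub_le_sub_right (Real.exp_le_exp.2
    (Summable.tsum_le_tsum (fun p : Nat.Primes => hC q z w h hw p p.2) h1.1 (Hbd_sum C))) 1)
  linarith

theorem HH_tendsto {l : Filter ℝ} [l.IsCountablyGenerated] (q : ℝ → Par) (z w : ℝ → ℂ)
    (h : ∀ᶠ i in l, (q i).nn (z i) ∧ (z i - w i).re ≤ 0)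
    (h1 : Tendsto (fun i => (q i).a1) l (𝓝 0)) (h2 : Tendsto (fun i => (q i).a2) l (𝓝 0)) (h3 : Tendsto (fun i => (q i).a3) l (𝓝 0))
    (h4 : Tendsto (fun i => (q i).b1) l (𝓝 0)) (h5 : Tendsto (fun i => (q i).b2) l (𝓝 0))
    (hz : Tendsto z l (𝓝 0)) (hw : Tendsto w l (𝓝 0)) : Tendsto (fun i => HH (q i) (z i) (w i)) l (𝓝 1) := by
  obtain ⟨C, h0, hC⟩ := hp_bound
  have e1 : ∀ p : Nat.Primes,
      Tendsto (fun i => ‖hp (q i) (z i) (w i) p - 1‖) l (𝓝 0) := by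
    intro p
    obtain ⟨hX0, hX1⟩ := Hbd_X p.2
    have hp0 : ((p : ℕ) : ℂ) ≠ 0 := by exact_mod_cast p.2.ne_zero
    have e2 : ∀ x : ℝ → ℂ, Tendsto x l (𝓝 0) →
        Tendsto (fun i => ((p : ℕ) : ℂ) ^ (-(z i + x i))) l (𝓝 1) := by
      intro x hx
      have e3 : Tendsto (fun i => -(z i + x i)) l (𝓝 0) := by
        have := (hz.add hx).neg
        simpa using this
      have e4 := e3.const_cpow (Or.inl hp0)
      simpa using e4
    have e5 : Tendsto (fun i => ((p : ℕ) : ℂ) ^ (z i - w i)) l (𝓝 1) := by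
      have e3 : Tendsto (fun i => z i - w i) l (𝓝 0) := by
        have := hz.sub hw
        simpa using this
      have e4 := e3.const_cpow (Or.inl hp0)
      simpa using e4
    have e6 := (hl_cont hX0 hX1).tendsto.comp
      ((e2 _ h1).prodMk_nhds ((e2 _ h2).prodMk_nhds ((e2 _ h3).prodMk_nhds
        ((e2 _ h4).prodMk_nhds ((e2 _ h5).prodMk_nhds e5)))))
    have e7 : Tendsto (fun i => hp (q i) (z i) (w i) p) l (𝓝 1) := by
      rw [← hl_one hX0 hX1]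
      exact e6
    have e8 := (e7.sub_const 1).norm
    simpa using e8
  have e9 : Tendsto (fun i => ∑' p : Nat.Primes, ‖hp (q i) (z i) (w i) p - 1‖) l (𝓝 0) := by
    have e10 := tendsto_tsum_of_dominated_convergence (𝓕 := l) (Hbd_sum C) e1
      (h.mono fun i hi p => by
        rw [Real.norm_of_nonneg (norm_nonneg _)]
        exact hC (q i) (z i) (w i) hi.1 hi.2 p p.2)
    simpa using e10
  have e11 : Tendsto (fun i => Real.exp (∑' p : Nat.Primes, ‖hp (q i) (z i) (w i) p - 1‖) - 1) l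
      (𝓝 0) := by
    have := ((Real.continuous_exp.tendsto 0).comp e9).sub_const 1
    simpa using this
  rw [tendsto_iff_norm_sub_tendsto_zero]
  refine tendsto_of_tendsto_of_tendsto_of_le_of_le' tendsto_const_nhds e11
    (Eventually.of_forall fun _ => norm_nonneg _) (h.mono fun i hi => ?_)
  exact (Hbd_HH hC hi.1 hi.2).2

end H98.SZ
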