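import Pool.Agent.H98.SZ.Defs

/-!
# SZ / Jet: the local factor is `1 + O(X²)`

Say `J f c K` if `‖f - 1 - c X‖ ≤ K X²` (`0 < X ≤ 1/2`, `‖c‖ ≤ 8`). Then `1 - X a` has `c = -a`, `K = 0`; `(1 - X b)⁻¹ = 1 + X b + (X b)²/(1 - X b)` has `c = b`,
`K = 2` (`‖1 - X b‖ ≥ 1/2` for `‖b‖ ≤ 1`); products: `f g - 1 - (c + c') X = (f - 1 - cX) g + (1 + c X)(g - 1 - c' X) + c c' X²`, with `‖g‖ ≤ 1 + ‖c'‖/2 + K'/4`;
and `1 - ν + ν f` has `(ν c, K)`. In `hl`: first bracket: `(1 - X)⁻¹ ∏(1 - X a_i) / ∏(1 - X b_j)` has `c = 1 - ∑ a + ∑ b`, so the bracket has `c = ν (1 - ∑ a + ∑ b)`;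
second bracket `c = ν (∑ a - ∑ b)`; third `c = -ν`. Sum `0`.
`hl_one`: `field_simp` with `1 - X ≠ 0`. `hl_cont`: all denominators are nonzero at the point, `ContinuousAt.div` etc.
`bl_bound`: `β = 1 - (1-X)⁻¹ ∏(1 - X a_i) / ∏(1 - X b_j)` is `- (1 - ∑ a + ∑ b) X + O(X²)`, so `≤ C X`.
-/

set_option autoImplicit false

open Filter Topology

namespace H98.SZ

/-- `f = 1 + c X + O(X²)` -/
def Jet_J (X : ℝ) (f c : ℂ) (B K : ℝ) : Prop := 0 ≤ B ∧ 0 ≤ K ∧ ‖c‖ ≤ B ∧ ‖f - 1 - c * (X : ℂ)‖ ≤ K * X ^ 2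

theorem Jet_norm {X : ℝ} (h0 : 0 < X) (h1 : X ≤ 1 / 2) {f c : ℂ} {B K : ℝ} (h : Jet_J X f c B K) :
    ‖f - 1‖ ≤ (B + K / 2) * X := by
  obtain ⟨hB, hK, hc, hf⟩ := h
  have e : f - 1 = (f - 1 - c * (X : ℂ)) + c * (X : ℂ) := by ring
  have hX : ‖(X : ℂ)‖ = X := by rw [Complex.norm_real, Real.norm_eq_abs, abs_of_pos h0]
  rw [e]
  refine (norm_add_le _ _).trans ?_
  rw [norm_mul, hX]
  have h2 : ‖c‖ * X ≤ B * X := mul_le_mul_of_nonneg_right hc h0.le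
  have h3 : K * X ^ 2 ≤ K / 2 * X := by nlinarith [mul_nonneg hK h0.le]
  nlinarith

theorem Jet_norm' {X : ℝ} (h0 : 0 < X) (h1 : X ≤ 1 / 2) {f c : ℂ} {B K : ℝ} (h : Jet_J X f c B K) :
    ‖f‖ ≤ 1 + B / 2 + K / 4 := by
  have h2 := Jet_norm h0 h1 h
  obtain ⟨hB, hK, hc, hf⟩ := h
  have e : f = (f - 1) + 1 := by ring
  rw [e]
  refine (norm_add_le _ _).trans ?_
  rw [norm_one]
  have h3 : (B + K / 2) * X ≤ (B + K / 2) * (1 / 2) := mul_le_mul_of_nonneg_left h1 (by positivity)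
  linarith

theorem Jet_mul {X : ℝ} (h0 : 0 < X) (h1 : X ≤ 1 / 2) {f g c c' : ℂ} {B K B' K' : ℝ}
    (h : Jet_J X f c B K) (h' : Jet_J X g c' B' K') :
    Jet_J X (f * g) (c + c') (B + B') (K * (1 + B' / 2 + K' / 4) + (1 + B / 2) * K' + B * B') := by
  have hg := Jet_norm' h0 h1 h'
  obtain ⟨hB, hK, hc, hf⟩ := h
  obtain ⟨hB', hK', hc', hf'⟩ := h'
  have hX : ‖(X : ℂ)‖ = X := by rw [Complex.norm_real, Real.norm_eq_abs, abs_of_pos h0]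
  refine ⟨by positivity, by positivity, (norm_add_le _ _).trans (add_le_add hc hc'), ?_⟩
  have e : f * g - 1 - (c + c') * (X : ℂ) = (f - 1 - c * (X : ℂ)) * g + (1 + c * (X : ℂ)) * (g - 1 - c' * (X : ℂ)) + c * c' * ((X : ℂ) * (X : ℂ)) := by ring
  rw [e]
  refine (norm_add₃_le).trans ?_
  rw [norm_mul, norm_mul, norm_mul, norm_mul, norm_mul, hX]
  have a1 : ‖f - 1 - c * (X : ℂ)‖ * ‖g‖ ≤ (K * X ^ 2) * (1 + B' / 2 + K' / 4) :=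
    mul_le_mul hf hg (norm_nonneg _) (by positivity)
  have a2 : ‖1 + c * (X : ℂ)‖ ≤ 1 + B / 2 := by
    refine (norm_add_le _ _).trans ?_
    rw [norm_one, norm_mul, hX]
    have : ‖c‖ * X ≤ B * (1 / 2) := mul_le_mul hc h1 h0.le hB
    linarith
  have a3 : ‖1 + c * (X : ℂ)‖ * ‖g - 1 - c' * (X : ℂ)‖ ≤ (1 + B / 2) * (K' * X ^ 2) :=
    mul_le_mul a2 hf' (norm_nonneg _) (by positivity)
  have a4 : ‖c‖ * ‖c'‖ ≤ B * B' := mul_le_mul hc hc' (norm_nonneg _) hB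
  have a5 : ‖c‖ * ‖c'‖ * (X * X) ≤ B * B' * (X * X) := mul_le_mul_of_nonneg_right a4 (by positivity)
  calc _ ≤ (K * X ^ 2) * (1 + B' / 2 + K' / 4) + (1 + B / 2) * (K' * X ^ 2) + B * B' * (X * X) := by linarith
    _ = (K * (1 + B' / 2 + K' / 4) + (1 + B / 2) * K' + B * B') * X ^ 2 := by ring

theorem Jet_lin {X : ℝ} {a : ℂ} (ha : ‖a‖ ≤ 1) : Jet_J X (1 - (X : ℂ) * a) (-a) 1 0 := by
  refine ⟨by norm_num, le_refl _, by rwa [norm_neg], ?_⟩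
  have e : 1 - (X : ℂ) * a - 1 - (-a) * (X : ℂ) = 0 := by ring
  rw [e, norm_zero, zero_mul]

theorem Jet_ge {X : ℝ} (h0 : 0 < X) (h1 : X ≤ 1 / 2) {b : ℂ} (hb : ‖b‖ ≤ 1) : 1 / 2 ≤ ‖1 - (X : ℂ) * b‖ := by
  have hX : ‖(X : ℂ)‖ = X := by rw [Complex.norm_real, Real.norm_eq_abs, abs_of_pos h0]
  have h2 : ‖(X : ℂ) * b‖ ≤ 1 / 2 := by
    rw [norm_mul, hX]
    calc X * ‖b‖ ≤ (1 / 2) * 1 := mul_le_mul h1 hb (norm_nonneg _) (by norm_num)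
      _ = 1 / 2 := by norm_num
  have h3 := norm_sub_norm_le (1 : ℂ) ((X : ℂ) * b)
  rw [norm_one] at h3
  linarith

theorem Jet_inv {X : ℝ} (h0 : 0 < X) (h1 : X ≤ 1 / 2) {b : ℂ} (hb : ‖b‖ ≤ 1) : Jet_J X (1 - (X : ℂ) * b)⁻¹ b 1 2 := by
  refine ⟨by norm_num, by norm_num, hb, ?_⟩
  have h2 := Jet_ge h0 h1 hb
  have h3 : (1 - (X : ℂ) * b) ≠ 0 := by
    intro h
    rw [h, norm_zero] at h2
    norm_num at h2
  have e : (1 - (X : ℂ) * b)⁻¹ - 1 - b * (X : ℂ) = ((X : ℂ) * b) ^ 2 * (1 - (X : ℂ) * b)⁻¹ := by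
    field_simp
    ring
  have hX : ‖(X : ℂ)‖ = X := by rw [Complex.norm_real, Real.norm_eq_abs, abs_of_pos h0]
  rw [e, norm_mul, norm_pow, norm_mul, hX, norm_inv]
  have h4 : ‖1 - (X : ℂ) * b‖⁻¹ ≤ 2 := by
    rw [inv_le_comm₀ (by linarith) (by norm_num)]
    linarith
  have h5 : (X * ‖b‖) ^ 2 ≤ X ^ 2 := by
    have : X * ‖b‖ ≤ X := by nlinarith
    exact pow_le_pow_left₀ (by positivity) this 2
  calc (X * ‖b‖) ^ 2 * ‖1 - (X : ℂ) * b‖⁻¹ ≤ X ^ 2 * 2 := mul_le_mul h5 h4 (by positivity) (by positivity)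
    _ = 2 * X ^ 2 := by ring

theorem Jet_five {X : ℝ} (h0 : 0 < X) (h1 : X ≤ 1 / 2) {a1 a2 a3 b1 b2 : ℂ} (ha1 : ‖a1‖ ≤ 1) (ha2 : ‖a2‖ ≤ 1) (ha3 : ‖a3‖ ≤ 1)
    (hb1 : ‖b1‖ ≤ 1) (hb2 : ‖b2‖ ≤ 1) :
    Jet_J X ((1 - (X : ℂ))⁻¹ * ((1 - X * a1) * (1 - X * a2) * (1 - X * a3) / ((1 - X * b1) * (1 - X * b2))))
      (1 + (-a1 + -a2 + -a3 + (b1 + b2))) 6 200 := by
  have hinv1 : Jet_J X (1 - (X : ℂ))⁻¹ 1 1 2 := by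
    have := Jet_inv h0 h1 (b := 1) (by simp)
    rwa [mul_one] at this
  have h := Jet_mul h0 h1 hinv1 (Jet_mul h0 h1 (Jet_mul h0 h1 (Jet_mul h0 h1 (Jet_lin (X := X) ha1) (Jet_lin ha2)) (Jet_lin ha3))
    (Jet_mul h0 h1 (Jet_inv h0 h1 hb1) (Jet_inv h0 h1 hb2)))
  rw [div_eq_mul_inv, mul_inv]
  obtain ⟨g1, g2, g3, g4⟩ := h
  refine ⟨by norm_num, by norm_num, ?_, ?_⟩
  · exact g3.trans (by norm_num)
  · exact g4.trans (mul_le_mul_of_nonneg_right (by norm_num) (by positivity))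

theorem Jet_five' {X : ℝ} (h0 : 0 < X) (h1 : X ≤ 1 / 2) {a1 a2 a3 b1 b2 : ℂ} (ha1 : ‖a1‖ ≤ 1) (ha2 : ‖a2‖ ≤ 1) (ha3 : ‖a3‖ ≤ 1)
    (hb1 : ‖b1‖ ≤ 1) (hb2 : ‖b2‖ ≤ 1) :
    Jet_J X ((1 - X * b1) * (1 - X * b2) / ((1 - X * a1) * (1 - X * a2) * (1 - X * a3)))
      (-b1 + -b2 + (a1 + a2 + a3)) 5 200 := by
  have h := Jet_mul h0 h1 (Jet_mul h0 h1 (Jet_lin (X := X) hb1) (Jet_lin hb2))
    (Jet_mul h0 h1 (Jet_mul h0 h1 (Jet_inv h0 h1 ha1) (Jet_inv h0 h1 ha2)) (Jet_inv h0 h1 ha3))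
  rw [div_eq_mul_inv, mul_inv, mul_inv]
  obtain ⟨g1, g2, g3, g4⟩ := h
  refine ⟨by norm_num, by norm_num, ?_, ?_⟩
  · exact g3.trans (by norm_num)
  · exact g4.trans (mul_le_mul_of_nonneg_right (by norm_num) (by positivity))

theorem hl_bound : ∃ C : ℝ, 0 ≤ C ∧ ∀ (X : ℝ), 0 < X → X ≤ 1 / 2 → ∀ a1 a2 a3 b1 b2 ν : ℂ, ‖a1‖ ≤ 1 → ‖a2‖ ≤ 1 → ‖a3‖ ≤ 1 →
    ‖b1‖ ≤ 1 → ‖b2‖ ≤ 1 → ‖ν‖ ≤ 1 → ‖hl X a1 a2 a3 b1 b2 ν - 1‖ ≤ C * X ^ 2 := by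
  refine ⟨100000, by norm_num, ?_⟩
  intro X h0 h1 a1 a2 a3 b1 b2 ν ha1 ha2 ha3 hb1 hb2 hν
  have hm : ∀ {a : ℂ}, ‖a‖ ≤ 1 → ‖ν * a‖ ≤ 1 := by
    intro a ha
    rw [norm_mul]
    calc ‖ν‖ * ‖a‖ ≤ 1 * 1 := mul_le_mul hν ha (norm_nonneg _) (by norm_num)
      _ = 1 := by norm_num
  have hG := Jet_five h0 h1 ha1 ha2 ha3 hb1 hb2
  have hF1 : Jet_J X (1 - ν + ν * (1 - (X : ℂ))⁻¹ * ((1 - X * a1) * (1 - X * a2) * (1 - X * a3) / ((1 - X * b1) * (1 - X * b2))))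
      (ν * (1 + (-a1 + -a2 + -a3 + (b1 + b2)))) 6 200 := by
    obtain ⟨g1, g2, g3, g4⟩ := hG
    refine ⟨g1, g2, ?_, ?_⟩
    · rw [norm_mul]
      calc ‖ν‖ * ‖1 + (-a1 + -a2 + -a3 + (b1 + b2))‖ ≤ 1 * 6 := mul_le_mul hν g3 (norm_nonneg _) (by norm_num)
        _ = 6 := by norm_num
    · have e : 1 - ν + ν * (1 - (X : ℂ))⁻¹ * ((1 - X * a1) * (1 - X * a2) * (1 - X * a3) / ((1 - X * b1) * (1 - X * b2))) - 1 -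
          (ν * (1 + (-a1 + -a2 + -a3 + (b1 + b2)))) * (X : ℂ) =
          ν * ((1 - (X : ℂ))⁻¹ * ((1 - X * a1) * (1 - X * a2) * (1 - X * a3) / ((1 - X * b1) * (1 - X * b2))) - 1 -
            (1 + (-a1 + -a2 + -a3 + (b1 + b2))) * (X : ℂ)) := by ring
      rw [e, norm_mul]
      calc ‖ν‖ * _ ≤ 1 * (200 * X ^ 2) := mul_le_mul hν g4 (norm_nonneg _) (by norm_num)
        _ = 200 * X ^ 2 := by ring
  have hF2 := Jet_five' h0 h1 (hm ha1) (hm ha2) (hm ha3) (hm hb1) (hm hb2)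
  have hF3 := Jet_lin (X := X) hν
  have hF := Jet_mul h0 h1 (Jet_mul h0 h1 hF1 hF2) hF3
  obtain ⟨g1, g2, g3, g4⟩ := hF
  have e : ν * (1 + (-a1 + -a2 + -a3 + (b1 + b2))) + (-(ν * b1) + -(ν * b2) + (ν * a1 + ν * a2 + ν * a3)) + -ν = 0 := by ring
  rw [e, zero_mul, sub_zero] at g4
  unfold hl
  exact g4.trans (mul_le_mul_of_nonneg_right (by norm_num) (by positivity))

theorem hl_one {X : ℝ} (h0 : 0 < X) (h1 : X ≤ 1 / 2) : hl X 1 1 1 1 1 1 = 1 := by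
  have hX : (1 : ℂ) - (X : ℂ) ≠ 0 := by
    intro h
    have h2 : (X : ℂ) = ((1 : ℝ) : ℂ) := by
      rw [Complex.ofReal_one]
      linear_combination -h
    have h3 : X = 1 := by exact_mod_cast h2
    linarith
  unfold hl
  simp only [mul_one]
  field_simp
  ring

theorem hl_cont {X : ℝ} (h0 : 0 < X) (h1 : X ≤ 1 / 2) :
    ContinuousAt (fun v : ℂ × ℂ × ℂ × ℂ × ℂ × ℂ => hl X v.1 v.2.1 v.2.2.1 v.2.2.2.1 v.2.2.2.2.1 v.2.2.2.2.2) (1, 1, 1, 1, 1, 1) := by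
  have hX : (1 : ℂ) - (X : ℂ) ≠ 0 := by
    intro h
    have h2 : (X : ℂ) = ((1 : ℝ) : ℂ) := by
      rw [Complex.ofReal_one]
      linear_combination -h
    have h3 : X = 1 := by exact_mod_cast h2
    linarith
  unfold hl
  refine ContinuousAt.mul (ContinuousAt.mul ?_ ?_) ?_
  · refine ContinuousAt.add (by fun_prop) (ContinuousAt.mul (by fun_prop) (ContinuousAt.div (by fun_prop) (by fun_prop) ?_))
    simp only [mul_one]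
    exact mul_ne_zero hX hX
  · refine ContinuousAt.div (by fun_prop) (by fun_prop) ?_
    simp only [mul_one]
    exact mul_ne_zero (mul_ne_zero hX hX) hX
  · fun_prop

theorem bl_bound : ∃ C : ℝ, 0 ≤ C ∧ ∀ (X : ℝ), 0 < X → X ≤ 1 / 2 → ∀ a1 a2 a3 b1 b2 : ℂ, ‖a1‖ ≤ 1 → ‖a2‖ ≤ 1 → ‖a3‖ ≤ 1 →
    ‖b1‖ ≤ 1 → ‖b2‖ ≤ 1 →
    ‖1 - (1 - (X : ℂ))⁻¹ * ((1 - X * a1) * (1 - X * a2) * (1 - X * a3) / ((1 - X * b1) * (1 - X * b2)))‖ ≤ C * X := by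
  refine ⟨1000, by norm_num, ?_⟩
  intro X h0 h1 a1 a2 a3 b1 b2 ha1 ha2 ha3 hb1 hb2
  have h := Jet_norm h0 h1 (Jet_five h0 h1 ha1 ha2 ha3 hb1 hb2)
  rw [norm_sub_rev]
  exact h.trans (mul_le_mul_of_nonneg_right (by norm_num) h0.le)

end H98.SZ
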