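import Pool.Agent.H98.SZ.Rho

/-!
# SZ / Nsm: the sum over `n`

`cc_le`: `‖pw a n‖, ‖mpw b n‖ ≤ n^(-Re)` and the convolution of five such functions, so `‖cc q n‖ n^(-Re s) ≤ (f*f*f*f*f)(n)` with `f(n) = n^(-(1+δ))`
(`n^(-Re s) = ∏ n_i^(-Re s)` if `n = ∏ n_i`). The majorant `m = f*f*f*f*f` is summable (`LSeriesSummable` / `ArithmeticFunction` product of summable nonnegative functions; e.g.
`summable_mul...`, or `LSeriesSummable.mul` for the arithmetic function `f`).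
`cop_sum`: multiplication by the completely multiplicative indicator `1[(n,r)=1]` commutes with Dirichlet convolution, so the coefficient is the convolution of the five functions restricted to `(n,r)=1`.
`∑ 1[(n,r)=1] n^(-(s+a)) = ζ(s+a) ∏_{p | r} (1 - p^(-(s+a)))` (`DirichletCharacter.LSeries_modOne_eq`/`LFunctionTrivChar_eq_mul_riemannZeta`, `DirichletCharacter.LSeries_eulerProduct`; the trivial
character mod `r`) and `∑ μ(n) 1[(n,r)=1] n^(-(s+b))` is its inverse (`DirichletCharacter.LSeries.mul_mu_eq_one` or directly: the convolution of the two sequences is `1` at `n = 1` and `0` elsewhere).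
Multiply the five series (`LSeries_mul'`, `LSeriesHasSum.mul`).
`nsum`: insert `rho_eq` (finite sum over `r | k`), `cop_sum` for each `r`, and `∑_{r | k} μ(r) (r/φ(r)) ∏_{p | r} Ai = ∏_{p | k} (1 - (p/(p-1)) Ai) = ∏ bet` (as in `rho_prod`).
-/

set_option autoImplicit false

open Filter Topology

namespace H98.SZ

/-- restriction of an arithmetic function to the integers coprime to `r` -/
private noncomputable def Nsm_ci (r : ℕ) (F : ArithmeticFunction ℂ) : ArithmeticFunction ℂ :=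
  ⟨fun n => (if Nat.Coprime n r then 1 else 0) * F n, by simp⟩

private theorem Nsm_ci_apply (r : ℕ) (F : ArithmeticFunction ℂ) (n : ℕ) :
    Nsm_ci r F n = (if Nat.Coprime n r then 1 else 0) * F n := rfl

private theorem Nsm_ci_mul (r : ℕ) (F G : ArithmeticFunction ℂ) :
    Nsm_ci r (F * G) = Nsm_ci r F * Nsm_ci r G := by
  ext n
  rw [Nsm_ci_apply, ArithmeticFunction.mul_apply, ArithmeticFunction.mul_apply, Finset.mul_sum]
  apply Finset.sum_congr rfl
  intro x hx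
  rw [Nsm_ci_apply, Nsm_ci_apply]
  have hx1 : x.1 * x.2 = n := (Nat.mem_divisorsAntidiagonal.mp hx).1
  by_cases h1 : Nat.Coprime x.1 r
  · by_cases h2 : Nat.Coprime x.2 r
    · have h3 : Nat.Coprime n r := by
        rw [← hx1]
        exact Nat.Coprime.mul_left h1 h2
      rw [if_pos h1, if_pos h2, if_pos h3]
      ring
    · have h3 : ¬ Nat.Coprime n r := by
        rw [← hx1]
        exact fun h => h2 (Nat.Coprime.coprime_mul_left h)
      rw [if_neg h2, if_neg h3]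
      ring
  · have h3 : ¬ Nat.Coprime n r := by
      rw [← hx1]
      exact fun h => h1 (Nat.Coprime.coprime_mul_right h)
    rw [if_neg h1, if_neg h3]
    ring

private theorem Nsm_chi (r n : ℕ) : (1 : DirichletCharacter ℂ r) (n : ZMod r) = if Nat.Coprime n r then 1 else 0 := by
  by_cases h : Nat.Coprime n r
  · rw [if_pos h]
    exact MulChar.one_apply ((ZMod.isUnit_iff_coprime n r).mpr h)
  · rw [if_neg h]
    exact MulChar.map_nonunit _ (fun h' => h ((ZMod.isUnit_iff_coprime n r).mp h'))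

private theorem Nsm_zero {r : ℕ} (hr : r ≠ 0) {z : ℂ} (hz : 1 < z.re) :
    LSeriesHasSum (fun n : ℕ => (1 : DirichletCharacter ℂ r) (n : ZMod r)) z
      (riemannZeta z * ∏ p ∈ r.primeFactors, (1 - (p : ℂ) ^ (-z))) := by
  have : NeZero r := ⟨hr⟩
  have hz1 : z ≠ 1 := by
    intro h
    rw [h, Complex.one_re] at hz
    exact lt_irrefl _ hz
  have h1 := (DirichletCharacter.LSeriesSummable_of_one_lt_re (1 : DirichletCharacter ℂ r) hz).LSeriesHasSum
  have h2 := DirichletCharacter.LFunction_eq_LSeries (1 : DirichletCharacter ℂ r) hz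
  have h3 := DirichletCharacter.LFunctionTrivChar_eq_mul_riemannZeta (N := r) hz1
  rw [← h2] at h1
  have h4 : DirichletCharacter.LFunction (1 : DirichletCharacter ℂ r) z
      = riemannZeta z * ∏ p ∈ r.primeFactors, (1 - (p : ℂ) ^ (-z)) := by
    rw [mul_comm]
    exact h3
  rw [h4] at h1
  exact h1

private theorem Nsm_pw {r : ℕ} (hr : r ≠ 0) (a s : ℂ) (h : 1 < (s + a).re) :
    LSeriesHasSum (fun n => Nsm_ci r (pw a) n) s
      (riemannZeta (s + a) * ∏ p ∈ r.primeFactors, (1 - (p : ℂ) ^ (-(s + a)))) := by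
  have h1 := Nsm_zero hr h
  unfold LSeriesHasSum at h1 ⊢
  have h2 : LSeries.term (fun n => Nsm_ci r (pw a) n) s
      = LSeries.term (fun n : ℕ => (1 : DirichletCharacter ℂ r) (n : ZMod r)) (s + a) := by
    ext n
    by_cases hn : n = 0
    · rw [hn, LSeries.term_zero, LSeries.term_zero]
    · rw [LSeries.term_of_ne_zero hn, LSeries.term_of_ne_zero hn, Nsm_chi]
      have hn' : (n : ℂ) ≠ 0 := Nat.cast_ne_zero.mpr hn
      have h3 : Nsm_ci r (pw a) n = (if Nat.Coprime n r then 1 else 0) * (n : ℂ) ^ (-a) := by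
        rw [Nsm_ci_apply]
        unfold pw
        simp [hn]
      rw [h3, Complex.cpow_neg, Complex.cpow_add _ _ hn']
      have h5 : (n : ℂ) ^ a ≠ 0 := fun h => hn' ((Complex.cpow_eq_zero_iff _ _).mp h).1
      have h6 : (n : ℂ) ^ s ≠ 0 := fun h => hn' ((Complex.cpow_eq_zero_iff _ _).mp h).1
      field_simp
  rw [h2]
  exact h1

private theorem Nsm_mpw {r : ℕ} (hr : r ≠ 0) (b s : ℂ) (h : 1 < (s + b).re) :
    LSeriesHasSum (fun n => Nsm_ci r (mpw b) n) s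
      (riemannZeta (s + b) * ∏ p ∈ r.primeFactors, (1 - (p : ℂ) ^ (-(s + b))))⁻¹ := by
  have h0 := Nsm_zero hr h
  have hmu : LSeriesSummable (fun n => ((ArithmeticFunction.moebius n : ℤ) : ℂ)) (s + b) :=
    ArithmeticFunction.LSeriesSummable_moebius_iff.mpr h
  have h1 := (DirichletCharacter.LSeriesSummable_mul (1 : DirichletCharacter ℂ r) hmu).LSeriesHasSum
  have h2 := DirichletCharacter.LSeries.mul_mu_eq_one (1 : DirichletCharacter ℂ r) h
  rw [h0.LSeries_eq] at h2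
  have h3 := eq_inv_of_mul_eq_one_right h2
  rw [h3] at h1
  unfold LSeriesHasSum at h1 ⊢
  have h4 : LSeries.term (fun n => Nsm_ci r (mpw b) n) s
      = LSeries.term ((fun n : ℕ => (1 : DirichletCharacter ℂ r) (n : ZMod r)) * fun n : ℕ => ((ArithmeticFunction.moebius n : ℤ) : ℂ)) (s + b) := by
    ext n
    by_cases hn : n = 0
    · rw [hn, LSeries.term_zero, LSeries.term_zero]
    · rw [LSeries.term_of_ne_zero hn, LSeries.term_of_ne_zero hn, Pi.mul_apply, Nsm_chi]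
      have hn' : (n : ℂ) ≠ 0 := Nat.cast_ne_zero.mpr hn
      have h3 : Nsm_ci r (mpw b) n
          = (if Nat.Coprime n r then 1 else 0) * (((ArithmeticFunction.moebius n : ℤ) : ℂ) * (n : ℂ) ^ (-b)) := by
        rw [Nsm_ci_apply]
        unfold mpw
        simp [hn]
      rw [h3, Complex.cpow_neg, Complex.cpow_add _ _ hn']
      have h5 : (n : ℂ) ^ b ≠ 0 := fun h => hn' ((Complex.cpow_eq_zero_iff _ _).mp h).1
      have h6 : (n : ℂ) ^ s ≠ 0 := fun h => hn' ((Complex.cpow_eq_zero_iff _ _).mp h).1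
      field_simp
  rw [h4]
  exact h1

private theorem Nsm_norm_mul {F G : ArithmeticFunction ℂ} {f g : ArithmeticFunction ℝ} {σ : ℝ}
    (hF : ∀ n : ℕ, 1 ≤ n → ‖F n‖ * (n : ℝ) ^ (-σ) ≤ f n)
    (hG : ∀ n : ℕ, 1 ≤ n → ‖G n‖ * (n : ℝ) ^ (-σ) ≤ g n) :
    ∀ n : ℕ, 1 ≤ n → ‖(F * G) n‖ * (n : ℝ) ^ (-σ) ≤ (f * g) n := by
  intro n hn
  rw [ArithmeticFunction.mul_apply, ArithmeticFunction.mul_apply]
  have h1 : ‖∑ x ∈ n.divisorsAntidiagonal, F x.1 * G x.2‖ * (n : ℝ) ^ (-σ)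
      ≤ (∑ x ∈ n.divisorsAntidiagonal, ‖F x.1 * G x.2‖) * (n : ℝ) ^ (-σ) := by
    gcongr
    exact norm_sum_le _ _
  refine h1.trans ?_
  rw [Finset.sum_mul]
  apply Finset.sum_le_sum
  intro x hx
  have hx1 : x.1 * x.2 = n := (Nat.mem_divisorsAntidiagonal.mp hx).1
  have ha : 1 ≤ x.1 := by
    rcases Nat.eq_zero_or_pos x.1 with h | h
    · rw [h, zero_mul] at hx1
      omega
    · exact h
  have hb : 1 ≤ x.2 := by
    rcases Nat.eq_zero_or_pos x.2 with h | h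
    · rw [h, mul_zero] at hx1
      omega
    · exact h
  have hn2 : (n : ℝ) ^ (-σ) = (x.1 : ℝ) ^ (-σ) * (x.2 : ℝ) ^ (-σ) := by
    rw [← Real.mul_rpow (Nat.cast_nonneg _) (Nat.cast_nonneg _)]
    congr 1
    exact_mod_cast hx1.symm
  have h5 := hF x.1 ha
  have h6 := hG x.2 hb
  have h7 : 0 ≤ ‖G x.2‖ * (x.2 : ℝ) ^ (-σ) := by positivity
  have h8 : 0 ≤ ‖F x.1‖ * (x.1 : ℝ) ^ (-σ) := by positivity
  calc ‖F x.1 * G x.2‖ * (n : ℝ) ^ (-σ)
      = (‖F x.1‖ * (x.1 : ℝ) ^ (-σ)) * (‖G x.2‖ * (x.2 : ℝ) ^ (-σ)) := by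
        rw [hn2, norm_mul]
        ring
    _ ≤ f x.1 * g x.2 := mul_le_mul h5 h6 h7 (h8.trans h5)

private noncomputable def Nsm_f (δ : ℝ) : ArithmeticFunction ℝ :=
  ⟨fun n => if n = 0 then 0 else (n : ℝ) ^ (-(1 + δ)), by simp⟩

private theorem Nsm_f_apply (δ : ℝ) {n : ℕ} (hn : n ≠ 0) : Nsm_f δ n = (n : ℝ) ^ (-(1 + δ)) := by
  unfold Nsm_f
  simp [hn]

private theorem Nsm_f_nonneg (δ : ℝ) (n : ℕ) : 0 ≤ Nsm_f δ n := by
  by_cases hn : n = 0
  · rw [hn, ArithmeticFunction.map_zero]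
  · rw [Nsm_f_apply δ hn]
    positivity

private theorem Nsm_mul_nonneg {f g : ArithmeticFunction ℝ} (hf : ∀ n, 0 ≤ f n) (hg : ∀ n, 0 ≤ g n) (n : ℕ) :
    0 ≤ (f * g) n := by
  rw [ArithmeticFunction.mul_apply]
  exact Finset.sum_nonneg fun x _ => mul_nonneg (hf _) (hg _)

/-- cast to the complex numbers -/
private noncomputable def Nsm_c (f : ArithmeticFunction ℝ) : ArithmeticFunction ℂ :=
  ⟨fun n => ((f n : ℝ) : ℂ), by simp⟩

private theorem Nsm_c_apply (f : ArithmeticFunction ℝ) (n : ℕ) : Nsm_c f n = ((f n : ℝ) : ℂ) := rfl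

private theorem Nsm_c_mul (f g : ArithmeticFunction ℝ) : Nsm_c (f * g) = Nsm_c f * Nsm_c g := by
  ext n
  rw [Nsm_c_apply, ArithmeticFunction.mul_apply, ArithmeticFunction.mul_apply]
  push_cast
  apply Finset.sum_congr rfl
  intro x _
  rw [Nsm_c_apply, Nsm_c_apply]

private theorem Nsm_summ_iff (f : ArithmeticFunction ℝ) :
    LSeriesSummable (fun n => Nsm_c f n) 0 ↔ Summable (fun n => f n) := by
  unfold LSeriesSummable
  have h1 : LSeries.term (fun n => Nsm_c f n) 0 = fun n => ((f n : ℝ) : ℂ) := by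
    ext n
    by_cases hn : n = 0
    · rw [hn, LSeries.term_zero, ArithmeticFunction.map_zero]
      simp
    · rw [LSeries.term_of_ne_zero hn, Nsm_c_apply, Complex.cpow_zero, div_one]
  rw [h1]
  exact Complex.summable_ofReal

private theorem Nsm_summ_mul {f g : ArithmeticFunction ℝ} (hf : Summable (fun n => f n))
    (hg : Summable (fun n => g n)) : Summable (fun n => (f * g) n) := by
  rw [← Nsm_summ_iff] at hf hg ⊢
  rw [Nsm_c_mul]
  exact ArithmeticFunction.LSeriesSummable_mul hf hg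

private theorem Nsm_f_summ {δ : ℝ} (hδ : 0 < δ) : Summable (fun n => Nsm_f δ n) := by
  have h1 : Summable (fun n : ℕ => (n : ℝ) ^ (-(1 + δ))) := Real.summable_nat_rpow.mpr (by linarith)
  refine h1.of_nonneg_of_le (fun n => Nsm_f_nonneg δ n) (fun n => ?_)
  by_cases hn : n = 0
  · rw [hn, ArithmeticFunction.map_zero]
    positivity
  · rw [Nsm_f_apply δ hn]

private theorem Nsm_base {δ : ℝ} (a s : ℂ) (h : 1 + δ ≤ (s + a).re) {n : ℕ} (hn : 1 ≤ n) :
    ‖(n : ℂ) ^ (-a)‖ * (n : ℝ) ^ (-s.re) ≤ (n : ℝ) ^ (-(1 + δ)) := by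
  have hn0 : (0 : ℝ) < n := by exact_mod_cast hn
  have hn1 : (1 : ℝ) ≤ n := by exact_mod_cast hn
  have h1 : ‖(n : ℂ) ^ (-a)‖ = (n : ℝ) ^ (-a.re) := by
    rw [Complex.norm_natCast_cpow_of_pos hn, Complex.neg_re]
  rw [h1, ← Real.rpow_add hn0]
  apply Real.rpow_le_rpow_of_exponent_le hn1
  rw [Complex.add_re] at h
  linarith

private theorem Nsm_pw_le {δ : ℝ} (a s : ℂ) (h : 1 + δ ≤ (s + a).re) (n : ℕ) (hn : 1 ≤ n) :
    ‖pw a n‖ * (n : ℝ) ^ (-s.re) ≤ Nsm_f δ n := by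
  have hn0 : n ≠ 0 := by omega
  have h1 : pw a n = (n : ℂ) ^ (-a) := by
    unfold pw
    simp [hn0]
  rw [h1, Nsm_f_apply δ hn0]
  exact Nsm_base a s h hn

private theorem Nsm_mpw_le {δ : ℝ} (b s : ℂ) (h : 1 + δ ≤ (s + b).re) (n : ℕ) (hn : 1 ≤ n) :
    ‖mpw b n‖ * (n : ℝ) ^ (-s.re) ≤ Nsm_f δ n := by
  have hn0 : n ≠ 0 := by omega
  have h1 : mpw b n = ((ArithmeticFunction.moebius n : ℤ) : ℂ) * (n : ℂ) ^ (-b) := by
    unfold mpw
    simp [hn0]
  have h2 : ‖mpw b n‖ ≤ ‖(n : ℂ) ^ (-b)‖ := by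
    rw [h1, norm_mul]
    have h3 : ‖((ArithmeticFunction.moebius n : ℤ) : ℂ)‖ ≤ 1 := by
      rw [Complex.norm_intCast]
      exact_mod_cast ArithmeticFunction.abs_moebius_le_one
    calc _ ≤ 1 * ‖(n : ℂ) ^ (-b)‖ := by gcongr
      _ = _ := one_mul _
  rw [Nsm_f_apply δ hn0]
  refine le_trans ?_ (Nsm_base b s h hn)
  gcongr

private noncomputable def Nsm_g (q : Par) (s : ℂ) : ArithmeticFunction ℂ :=
  ⟨fun r => ((r : ℂ) / ((Nat.totient r : ℕ) : ℂ)) * ∏ p ∈ r.primeFactors, Ai q s p, by simp⟩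

private theorem Nsm_g_apply (q : Par) (s : ℂ) (r : ℕ) :
    Nsm_g q s r = ((r : ℂ) / ((Nat.totient r : ℕ) : ℂ)) * ∏ p ∈ r.primeFactors, Ai q s p := rfl

private theorem Nsm_g_mult (q : Par) (s : ℂ) : (Nsm_g q s).IsMultiplicative := by
  constructor
  · rw [Nsm_g_apply]
    simp
  · intro a b hab
    rw [Nsm_g_apply, Nsm_g_apply, Nsm_g_apply, Nat.totient_mul hab, hab.primeFactors_mul,
      Finset.prod_union hab.disjoint_primeFactors]
    push_cast
    rw [mul_div_mul_comm]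
    ring

theorem cc_le {δ : ℝ} (hδ : 0 < δ) : ∃ m : ℕ → ℝ, (∀ n, 0 ≤ m n) ∧ Summable m ∧
    ∀ (q : Par) (s : ℂ), (∀ x ∈ ({q.a1, q.a2, q.a3, q.b1, q.b2} : Set ℂ), 1 + δ ≤ (s + x).re) →
      ∀ n : ℕ, 1 ≤ n → ‖cc q n‖ * (n : ℝ) ^ (-s.re) ≤ m n := by
  set F := Nsm_f δ with hF
  have hn0 : ∀ n, 0 ≤ F n := Nsm_f_nonneg δ
  have hs0 : Summable (fun n => F n) := Nsm_f_summ hδ
  refine ⟨fun n => (F * F * F * F * F) n, ?_, ?_, ?_⟩
  · exact Nsm_mul_nonneg (Nsm_mul_nonneg (Nsm_mul_nonneg (Nsm_mul_nonneg hn0 hn0) hn0) hn0) hn0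
  · exact Nsm_summ_mul (Nsm_summ_mul (Nsm_summ_mul (Nsm_summ_mul hs0 hs0) hs0) hs0) hs0
  · intro q s h
    have h1 := Nsm_pw_le q.a1 s (h q.a1 (by simp))
    have h2 := Nsm_pw_le q.a2 s (h q.a2 (by simp))
    have h3 := Nsm_pw_le q.a3 s (h q.a3 (by simp))
    have h4 := Nsm_mpw_le q.b1 s (h q.b1 (by simp))
    have h5 := Nsm_mpw_le q.b2 s (h q.b2 (by simp))
    exact Nsm_norm_mul (Nsm_norm_mul (Nsm_norm_mul (Nsm_norm_mul h1 h2) h3) h4) h5

theorem cop_sum (q : Par) (s : ℂ) (h : q.gt s) {r : ℕ} (hr : r ≠ 0) :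
    HasSum (fun n : ℕ => (if Nat.Coprime n r then 1 else 0) * (cc q n * (n : ℂ) ^ (-s))) (AA q s * ∏ p ∈ r.primeFactors, Ai q s p) := by
  have h1 := Nsm_pw hr q.a1 s (h q.a1 (by simp))
  have h2 := Nsm_pw hr q.a2 s (h q.a2 (by simp))
  have h3 := Nsm_pw hr q.a3 s (h q.a3 (by simp))
  have h4 := Nsm_mpw hr q.b1 s (h q.b1 (by simp))
  have h5 := Nsm_mpw hr q.b2 s (h q.b2 (by simp))
  have h6 := ArithmeticFunction.LSeriesHasSum_mul (ArithmeticFunction.LSeriesHasSum_mul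
    (ArithmeticFunction.LSeriesHasSum_mul (ArithmeticFunction.LSeriesHasSum_mul h1 h2) h3) h4) h5
  have h7 : Nsm_ci r (pw q.a1) * Nsm_ci r (pw q.a2) * Nsm_ci r (pw q.a3) * Nsm_ci r (mpw q.b1) * Nsm_ci r (mpw q.b2)
      = Nsm_ci r (cc q) := by
    unfold cc
    rw [Nsm_ci_mul, Nsm_ci_mul, Nsm_ci_mul, Nsm_ci_mul]
  rw [h7] at h6
  unfold LSeriesHasSum at h6
  have h8 : LSeries.term (fun n => Nsm_ci r (cc q) n) s
      = fun n : ℕ => (if Nat.Coprime n r then 1 else 0) * (cc q n * (n : ℂ) ^ (-s)) := by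
    ext n
    by_cases hn : n = 0
    · rw [hn, LSeries.term_zero, ArithmeticFunction.map_zero]
      ring
    · rw [LSeries.term_of_ne_zero hn, Nsm_ci_apply, Complex.cpow_neg, div_eq_mul_inv]
      ring
  rw [h8] at h6
  have h9 : AA q s * ∏ p ∈ r.primeFactors, Ai q s p
      = riemannZeta (s + q.a1) * (∏ p ∈ r.primeFactors, (1 - (p : ℂ) ^ (-(s + q.a1))))
        * (riemannZeta (s + q.a2) * (∏ p ∈ r.primeFactors, (1 - (p : ℂ) ^ (-(s + q.a2)))))
        * (riemannZeta (s + q.a3) * (∏ p ∈ r.primeFactors, (1 - (p : ℂ) ^ (-(s + q.a3)))))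
        * (riemannZeta (s + q.b1) * (∏ p ∈ r.primeFactors, (1 - (p : ℂ) ^ (-(s + q.b1)))))⁻¹
        * (riemannZeta (s + q.b2) * (∏ p ∈ r.primeFactors, (1 - (p : ℂ) ^ (-(s + q.b2)))))⁻¹ := by
    unfold AA Ai
    rw [Finset.prod_div_distrib, Finset.prod_mul_distrib, Finset.prod_mul_distrib, Finset.prod_mul_distrib]
    simp only [div_eq_mul_inv, mul_inv]
    ring
  rw [h9]
  exact h6

theorem nsum (q : Par) (s : ℂ) (h : q.gt s) {k : ℕ} (hk : Squarefree k) :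
    HasSum (fun n : ℕ => (rho k n : ℂ) * (cc q n * (n : ℂ) ^ (-s))) (AA q s * ∏ p ∈ k.primeFactors, bet q s p) := by
  have h1 : HasSum (fun n : ℕ => ∑ r ∈ k.divisors, ((ArithmeticFunction.moebius r : ℤ) : ℂ) * ((r : ℂ) / ((Nat.totient r : ℕ) : ℂ)) *
      ((if Nat.Coprime n r then 1 else 0) * (cc q n * (n : ℂ) ^ (-s))))
      (∑ r ∈ k.divisors, ((ArithmeticFunction.moebius r : ℤ) : ℂ) * ((r : ℂ) / ((Nat.totient r : ℕ) : ℂ)) *
        (AA q s * ∏ p ∈ r.primeFactors, Ai q s p)) := by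
    apply hasSum_sum
    intro r hr
    have hr0 : r ≠ 0 := (Nat.pos_of_mem_divisors hr).ne'
    exact (cop_sum q s h hr0).mul_left _
  have h2 : (fun n : ℕ => (rho k n : ℂ) * (cc q n * (n : ℂ) ^ (-s)))
      = fun n : ℕ => ∑ r ∈ k.divisors, ((ArithmeticFunction.moebius r : ℤ) : ℂ) * ((r : ℂ) / ((Nat.totient r : ℕ) : ℂ)) *
      ((if Nat.Coprime n r then 1 else 0) * (cc q n * (n : ℂ) ^ (-s))) := by
    ext n
    rw [rho_eq hk n]
    push_cast
    rw [Finset.sum_mul]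
    apply Finset.sum_congr rfl
    intro r _
    by_cases hc : Nat.Coprime n r
    · rw [if_pos hc, if_pos hc]
      push_cast
      ring
    · rw [if_neg hc, if_neg hc]
      push_cast
      ring
  rw [h2]
  have h3 : AA q s * ∏ p ∈ k.primeFactors, bet q s p
      = ∑ r ∈ k.divisors, ((ArithmeticFunction.moebius r : ℤ) : ℂ) * ((r : ℂ) / ((Nat.totient r : ℕ) : ℂ)) *
        (AA q s * ∏ p ∈ r.primeFactors, Ai q s p) := by
    have h4 := (Nsm_g_mult q s).prodPrimeFactors_one_sub_of_squarefree (Nsm_g q s) hk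
    have h5 : ∏ p ∈ k.primeFactors, bet q s p = ∏ p ∈ k.primeFactors, (1 - Nsm_g q s p) := by
      apply Finset.prod_congr rfl
      intro p hp
      have hpp := Nat.prime_of_mem_primeFactors hp
      rw [Nsm_g_apply, Nat.totient_prime hpp, Nat.cast_sub hpp.one_le, Nat.cast_one, hpp.primeFactors,
        Finset.prod_singleton]
      rfl
    rw [h5, h4, Finset.mul_sum]
    apply Finset.sum_congr rfl
    intro r _
    rw [Nsm_g_apply]
    ring
  rw [h3]
  exact h1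

end H98.SZ
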