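import Pool.Agent.H98.SZ.Defs

/-!
# SZ / Rho: the Ramanujan mean as a combination of coprimality indicators

For squarefree `k`: `∑_{r | k} μ(r) (r/φ(r)) 1[(n,r)=1] = ∏_{p | k} (1 - (p/(p-1)) 1[p ∤ n])` (expand the product over the subsets of `k.primeFactors`; for squarefree `k` the divisors are the
products of the subsets: `Nat.divisors` and `Finset.powerset`, e.g. `Nat.sum_divisors_filter_squarefree`, or the multiplicativity lemma
`ArithmeticFunction.IsMultiplicative.prodPrimeFactors_one_sub_of_squarefree` applied to the multiplicative function `r ↦ (r/φ(r)) 1[(n,r)=1]`) `= ∏_{p | k, p ∤ n} (-1/(p-1))`.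
On the other side `k / (k,n) = ∏_{p | k, p ∤ n} p` is squarefree and `μ/φ` is multiplicative. (Case `n = 0`: `gcd k 0 = k`, both sides `1`.)
`rho_abs_le`: `|μ| ≤ 1`, `φ ≥ 1` unless the argument is `0`, where `μ(0) = 0`.
-/

set_option autoImplicit false

namespace H98.SZ

private theorem Rho_pf {k : ℕ} (hk : Squarefree k) (n : ℕ) :
    (k / Nat.gcd k n).primeFactors = k.primeFactors.filter (fun p => ¬ p ∣ n) := by
  have hk0 : k ≠ 0 := hk.ne_zero
  have hg : Nat.gcd k n ∣ k := Nat.gcd_dvd_left k n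
  have hmul : Nat.gcd k n * (k / Nat.gcd k n) = k := Nat.mul_div_cancel' hg
  have hm0 : k / Nat.gcd k n ≠ 0 := by
    intro h
    rw [h, mul_zero] at hmul
    exact hk0 hmul.symm
  ext p
  simp only [Finset.mem_filter, Nat.mem_primeFactors]
  constructor
  · rintro ⟨hp, hpm, -⟩
    have hpk : p ∣ k := by
      rw [← hmul]
      exact Dvd.dvd.mul_left hpm _
    refine ⟨⟨hp, hpk, hk0⟩, ?_⟩
    intro hpn
    have hpg : p ∣ Nat.gcd k n := Nat.dvd_gcd hpk hpn
    have h2 : p * p ∣ k := by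
      rw [← hmul]
      exact mul_dvd_mul hpg hpm
    have h3 := hk p h2
    exact hp.one_lt.ne' (Nat.isUnit_iff.mp h3)
  · rintro ⟨⟨hp, hpk, -⟩, hpn⟩
    refine ⟨hp, ?_, hm0⟩
    have h1 : p ∣ Nat.gcd k n * (k / Nat.gcd k n) := by
      rw [hmul]
      exact hpk
    rcases (hp.dvd_mul).mp h1 with h | h
    · exact absurd (h.trans (Nat.gcd_dvd_right k n)) hpn
    · exact h

private theorem Rho_sqf {k : ℕ} (hk : Squarefree k) (n : ℕ) : Squarefree (k / Nat.gcd k n) := by
  have hg : Nat.gcd k n ∣ k := Nat.gcd_dvd_left k n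
  have hmul : Nat.gcd k n * (k / Nat.gcd k n) = k := Nat.mul_div_cancel' hg
  exact hk.squarefree_of_dvd ⟨Nat.gcd k n, by rw [mul_comm]; exact hmul.symm⟩

private theorem Rho_tot {m : ℕ} (hm : Squarefree m) :
    (Nat.totient m : ℝ) = ∏ p ∈ m.primeFactors, ((p : ℝ) - 1) := by
  have h1 := Nat.totient_mul_prod_primeFactors m
  rw [Nat.prod_primeFactors_of_squarefree hm] at h1
  have hm0 : 0 < m := Nat.pos_of_ne_zero hm.ne_zero
  rw [mul_comm] at h1
  have h2 : Nat.totient m = ∏ p ∈ m.primeFactors, (p - 1) := Nat.eq_of_mul_eq_mul_left hm0 h1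
  rw [h2, Nat.cast_prod]
  apply Finset.prod_congr rfl
  intro p hp
  have hp1 : 1 ≤ p := (Nat.prime_of_mem_primeFactors hp).one_le
  rw [Nat.cast_sub hp1, Nat.cast_one]

private theorem Rho_mu {m : ℕ} (hm : Squarefree m) :
    (ArithmeticFunction.moebius m : ℝ) = ∏ _p ∈ m.primeFactors, (-1 : ℝ) := by
  have h1 := ArithmeticFunction.isMultiplicative_moebius.map_prod_of_subset_primeFactors m m.primeFactors (Finset.Subset.refl _)
  rw [Nat.prod_primeFactors_of_squarefree hm] at h1
  rw [h1, Int.cast_prod]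
  apply Finset.prod_congr rfl
  intro p hp
  rw [ArithmeticFunction.moebius_apply_prime (Nat.prime_of_mem_primeFactors hp)]
  norm_num

private theorem Rho_prod' {k : ℕ} (hk : Squarefree k) (n : ℕ) :
    rho k n = ∏ p ∈ k.primeFactors, (1 - (p : ℝ) / ((p : ℝ) - 1) * (if p ∣ n then 0 else 1)) := by
  have hs := Rho_sqf hk n
  unfold rho
  rw [Rho_mu hs, Rho_tot hs, ← Finset.prod_div_distrib, Rho_pf hk n, Finset.prod_filter]
  apply Finset.prod_congr rfl
  intro p hp
  have hp2 : (2 : ℝ) ≤ (p : ℝ) := by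
    exact_mod_cast (Nat.prime_of_mem_primeFactors hp).two_le
  have hp1 : (p : ℝ) - 1 ≠ 0 := by
    intro h
    linarith
  by_cases hpn : p ∣ n
  · simp [hpn]
  · rw [if_pos hpn, if_neg hpn, mul_one]
    field_simp
    ring

/-- the multiplicative function `r ↦ (r / φ(r)) 1[(n,r)=1]` -/
private noncomputable def Rho_f (n : ℕ) : ArithmeticFunction ℝ :=
  ⟨fun r => ((r : ℝ) / (Nat.totient r : ℝ)) * (if Nat.Coprime n r then 1 else 0), by simp⟩

private theorem Rho_f_apply (n r : ℕ) :
    Rho_f n r = ((r : ℝ) / (Nat.totient r : ℝ)) * (if Nat.Coprime n r then 1 else 0) := rfl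

private theorem Rho_f_mult (n : ℕ) : (Rho_f n).IsMultiplicative := by
  constructor
  · rw [Rho_f_apply]
    simp
  · intro a b hab
    rw [Rho_f_apply, Rho_f_apply, Rho_f_apply, Nat.totient_mul hab]
    push_cast
    by_cases ha : Nat.Coprime n a
    · by_cases hb : Nat.Coprime n b
      · rw [if_pos ha, if_pos hb, if_pos (Nat.Coprime.mul_right ha hb)]
        rw [mul_one, mul_one, mul_one, mul_div_mul_comm]
      · have hc : ¬ Nat.Coprime n (a * b) := fun h => hb (Nat.Coprime.coprime_mul_left_right h)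
        rw [if_neg hb, if_neg hc]
        ring
    · have hc : ¬ Nat.Coprime n (a * b) := fun h => ha (Nat.Coprime.coprime_mul_right_right h)
      rw [if_neg ha, if_neg hc]
      ring

theorem rho_eq {k : ℕ} (hk : Squarefree k) (n : ℕ) :
    rho k n = ∑ r ∈ k.divisors, (ArithmeticFunction.moebius r : ℝ) * ((r : ℝ) / (Nat.totient r : ℝ)) * (if Nat.Coprime n r then 1 else 0) := by
  rw [Rho_prod' hk n]
  have h1 := (Rho_f_mult n).prodPrimeFactors_one_sub_of_squarefree (Rho_f n) hk
  have h2 : ∏ p ∈ k.primeFactors, (1 - (p : ℝ) / ((p : ℝ) - 1) * (if p ∣ n then 0 else 1))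
      = ∏ p ∈ k.primeFactors, (1 - Rho_f n p) := by
    apply Finset.prod_congr rfl
    intro p hp
    have hpp := Nat.prime_of_mem_primeFactors hp
    rw [Rho_f_apply, Nat.totient_prime hpp, Nat.cast_sub hpp.one_le, Nat.cast_one]
    by_cases hpn : p ∣ n
    · have hc : ¬ Nat.Coprime n p := by
        intro h
        have h3 : p ∣ Nat.gcd n p := Nat.dvd_gcd hpn (dvd_refl p)
        rw [h] at h3
        exact hpp.one_lt.ne' (Nat.dvd_one.mp h3)
      rw [if_pos hpn, if_neg hc]
    · have hc : Nat.Coprime n p := ((Nat.Prime.coprime_iff_not_dvd hpp).mpr hpn).symm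
      rw [if_neg hpn, if_pos hc]
  rw [h2, h1]
  apply Finset.sum_congr rfl
  intro r _
  rw [Rho_f_apply]
  ring

/-- the same, as a product -/
theorem rho_prod {k : ℕ} (hk : Squarefree k) (n : ℕ) :
    rho k n = ∏ p ∈ k.primeFactors, (1 - (p : ℝ) / ((p : ℝ) - 1) * (if p ∣ n then 0 else 1)) :=
  Rho_prod' hk n

theorem rho_abs_le (k n : ℕ) : |rho k n| ≤ 1 := by
  unfold rho
  by_cases h0 : k / Nat.gcd k n = 0
  · rw [h0]
    simp
  · have h1 : 1 ≤ Nat.totient (k / Nat.gcd k n) := Nat.totient_pos.mpr (Nat.pos_of_ne_zero h0)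
    have h2 : (1 : ℝ) ≤ (Nat.totient (k / Nat.gcd k n) : ℝ) := by
      exact_mod_cast h1
    have h3 : |(ArithmeticFunction.moebius (k / Nat.gcd k n) : ℝ)| ≤ 1 := by
      have h4 := ArithmeticFunction.abs_moebius_le_one (n := k / Nat.gcd k n)
      exact_mod_cast h4
    rw [abs_div, abs_of_pos (lt_of_lt_of_le one_pos h2)]
    exact (div_le_one (lt_of_lt_of_le one_pos h2)).mpr (h3.trans h2)

end H98.SZ
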