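import Pool.Agent.H98.SZ.Sld

/-!
# SZ / Sla: product of slots

`Θ = Θ₁ × Θ₂ × Θ₃ × Θ₄`, weight `g₁ g₂ g₃ g₄`, parameter `(a₁, a₂, a₃; b₂, b₃)`, `κ` from the last component.
`PD_prod`: measurability by `fun_prop`/`Measurable.mul`; `(q).nm ≤ (1+‖a₁‖)(1+‖a₂‖+‖b₂‖)(1+‖a₃‖+‖b₃‖)`, so `nm^K` is at most the product of the `K`-th powers: `Integrable.mono'` with
`Integrable.mul_prod` (three times).
`cw_prod`: `cc (q.sc L) n = (pw (a₁/L) * (pw (a₂/L) * mpw (b₂/L)) * (pw (a₃/L) * mpw (b₃/L))) n` (`ring` in `ArithmeticFunction ℂ`) is a finite sum over `n.divisorsAntidiagonal` of products of a function of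
`θ₁`, a function of `θ₂`, a function of `θ₃` (`ArithmeticFunction.mul_apply`). Each `θ ↦ g θ * pw (a θ/L) m` is integrable: for `m = 0` it is `0`, for `m ≥ 1` the norm is `≤ ‖g θ‖ m^(1/(2L)) ≤ ‖g θ‖ m`;
likewise `g θ * (pw * mpw) m` (finite sum), and `g₄ θ winK (κ θ) T r` (`‖r^(κ/L)‖ ≤ exp(|log r| B / L)`). So integrate term by term (`integral_finsetSum`, `integral_prod_mul`).
-/

set_option autoImplicit false

open MeasureTheory Filter Topology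

namespace H98.SZ

variable {Θ₁ Θ₂ Θ₃ Θ₄ : Type} [MeasurableSpace Θ₁] [MeasurableSpace Θ₂] [MeasurableSpace Θ₃] [MeasurableSpace Θ₄]

/-- product weight -/
noncomputable def gP (g1 : Θ₁ → ℂ) (g2 : Θ₂ → ℂ) (g3 : Θ₃ → ℂ) (g4 : Θ₄ → ℂ) (θ : Θ₁ × Θ₂ × Θ₃ × Θ₄) : ℂ :=
  g1 θ.1 * (g2 θ.2.1 * (g3 θ.2.2.1 * g4 θ.2.2.2))

/-- product parameter -/
noncomputable def qP (a1 : Θ₁ → ℂ) (a2 b2 : Θ₂ → ℂ) (a3 b3 : Θ₃ → ℂ) (θ : Θ₁ × Θ₂ × Θ₃ × Θ₄) : Par :=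
  ⟨a1 θ.1, a2 θ.2.1, a3 θ.2.2.1, b2 θ.2.1, b3 θ.2.2.1⟩

/-- product `κ` -/
noncomputable def kP (κ : Θ₄ → ℂ) (θ : Θ₁ × Θ₂ × Θ₃ × Θ₄) : ℂ := κ θ.2.2.2

theorem Sla_int {Θ : Type} [MeasurableSpace Θ] {ν : Measure Θ} {g f : Θ → ℂ} (hg : Integrable g ν)
    (hf : Measurable f) {C : ℝ} (hb : ∀ θ, ‖f θ‖ ≤ C) : Integrable (fun θ => g θ * f θ) ν := by
  have h1 := hg.bdd_mul (c := C) hf.aestronglyMeasurable (Filter.Eventually.of_forall hb)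
  refine h1.congr (Filter.Eventually.of_forall fun θ => ?_)
  show f θ * g θ = g θ * f θ
  exact mul_comm _ _

theorem Sla_pw_meas {Θ : Type} [MeasurableSpace Θ] {a : Θ → ℂ} (ha : Measurable a) (m : ℕ) :
    Measurable fun θ => pw (a θ) m := by
  by_cases hm : m = 0
  · have h1 : (fun θ => pw (a θ) m) = fun _ => (0 : ℂ) := by
      funext θ
      rw [hm, ArithmeticFunction.map_zero]
    rw [h1]
    exact measurable_const
  · have h1 : (fun θ => pw (a θ) m) = fun θ => (m : ℂ) ^ (-(a θ)) := by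
      funext θ
      show (if m = 0 then 0 else (m : ℂ) ^ (-(a θ))) = _
      rw [if_neg hm]
    rw [h1]
    exact measurable_const.pow ha.neg

theorem Sla_mpw_meas {Θ : Type} [MeasurableSpace Θ] {a : Θ → ℂ} (ha : Measurable a) (m : ℕ) :
    Measurable fun θ => mpw (a θ) m := by
  by_cases hm : m = 0
  · have h1 : (fun θ => mpw (a θ) m) = fun _ => (0 : ℂ) := by
      funext θ
      rw [hm, ArithmeticFunction.map_zero]
    rw [h1]
    exact measurable_const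
  · have h1 : (fun θ => mpw (a θ) m) = fun θ => (ArithmeticFunction.moebius m : ℂ) *
        (m : ℂ) ^ (-(a θ)) := by
      funext θ
      show (if m = 0 then 0 else (ArithmeticFunction.moebius m : ℂ) * (m : ℂ) ^ (-(a θ))) = _
      rw [if_neg hm]
    rw [h1]
    exact measurable_const.mul (measurable_const.pow ha.neg)

theorem Sla_pow_le {a : ℂ} (ha : -(1 / 2 : ℝ) ≤ a.re) {L : ℝ} (hL : 1 ≤ L) {m : ℕ} (hm : m ≠ 0) :
    ‖(m : ℂ) ^ (-(a / (L : ℂ)))‖ ≤ m := by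
  have hm1 : (1 : ℝ) ≤ m := by exact_mod_cast Nat.one_le_iff_ne_zero.2 hm
  rw [Complex.norm_natCast_cpow_of_pos (Nat.pos_of_ne_zero hm), Complex.neg_re,
    Complex.div_ofReal_re]
  have hL0 : 0 < L := by linarith
  have h1 : -(a.re / L) ≤ 1 := by
    have h2 : -(a.re / L) = (-a.re) / L := by ring
    rw [h2, div_le_one hL0]
    linarith
  calc (m : ℝ) ^ (-(a.re / L)) ≤ (m : ℝ) ^ (1 : ℝ) := Real.rpow_le_rpow_of_exponent_le hm1 h1
    _ = m := Real.rpow_one _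

theorem Sla_pw_le {a : ℂ} (ha : -(1 / 2 : ℝ) ≤ a.re) {L : ℝ} (hL : 1 ≤ L) (m : ℕ) :
    ‖pw (a / (L : ℂ)) m‖ ≤ m := by
  by_cases hm : m = 0
  · rw [hm, ArithmeticFunction.map_zero, norm_zero, Nat.cast_zero]
  · show ‖(if m = 0 then 0 else (m : ℂ) ^ (-(a / (L : ℂ))))‖ ≤ m
    rw [if_neg hm]
    exact Sla_pow_le ha hL hm

theorem Sla_mpw_le {a : ℂ} (ha : -(1 / 2 : ℝ) ≤ a.re) {L : ℝ} (hL : 1 ≤ L) (m : ℕ) :
    ‖mpw (a / (L : ℂ)) m‖ ≤ m := by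
  by_cases hm : m = 0
  · rw [hm, ArithmeticFunction.map_zero, norm_zero, Nat.cast_zero]
  · show ‖(if m = 0 then 0 else (ArithmeticFunction.moebius m : ℂ) *
      (m : ℂ) ^ (-(a / (L : ℂ))))‖ ≤ m
    rw [if_neg hm, norm_mul]
    have h1 : ‖((ArithmeticFunction.moebius m : ℤ) : ℂ)‖ ≤ 1 := by
      rw [Complex.norm_intCast]
      exact_mod_cast ArithmeticFunction.abs_moebius_le_one
    calc ‖((ArithmeticFunction.moebius m : ℤ) : ℂ)‖ * ‖(m : ℂ) ^ (-(a / (L : ℂ)))‖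
        ≤ 1 * m := mul_le_mul h1 (Sla_pow_le ha hL hm) (norm_nonneg _) zero_le_one
      _ = m := one_mul _

theorem Sla_nint {Θ : Type} [MeasurableSpace Θ] {ν : Measure Θ} {g : Θ → ℂ} (hg : Measurable g)
    (h : Integrable (fun θ => ‖g θ‖) ν) : Integrable g ν :=
  (integrable_norm_iff hg.aestronglyMeasurable).1 h

theorem Sla_g1 {Θ : Type} [MeasurableSpace Θ] {ν : Measure Θ} {g a : Θ → ℂ} (h : S1 ν g a) :
    Integrable g ν := by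
  refine Sla_nint h.mg ?_
  have h1 := h.int 0
  simpa using h1

theorem Sla_g2 {Θ : Type} [MeasurableSpace Θ] {ν : Measure Θ} {g a b : Θ → ℂ} (h : S2 ν g a b) :
    Integrable g ν := by
  refine Sla_nint h.mg ?_
  have h1 := h.int 0
  simpa using h1

theorem Sla_f1 {Θ : Type} [MeasurableSpace Θ] {ν : Measure Θ} {g a : Θ → ℂ} (h : S1 ν g a)
    {L : ℝ} (hL : 1 ≤ L) (m : ℕ) : Integrable (fun θ => g θ * pw (a θ / (L : ℂ)) m) ν :=
  Sla_int (Sla_g1 h) (Sla_pw_meas (h.ma.div_const _) m) (C := m)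
    (fun θ => Sla_pw_le (h.ra θ).1 hL m)

theorem Sla_f2 {Θ : Type} [MeasurableSpace Θ] {ν : Measure Θ} {g a b : Θ → ℂ} (h : S2 ν g a b)
    {L : ℝ} (hL : 1 ≤ L) (m : ℕ) :
    Integrable (fun θ => g θ * (pw (a θ / (L : ℂ)) * mpw (b θ / (L : ℂ))) m) ν := by
  refine Sla_int (Sla_g2 h) ?_
    (C := ∑ x ∈ m.divisorsAntidiagonal, (x.1 : ℝ) * (x.2 : ℝ)) (fun θ => ?_)
  · have h1 : (fun θ => (pw (a θ / (L : ℂ)) * mpw (b θ / (L : ℂ))) m) = fun θ =>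
        ∑ x ∈ m.divisorsAntidiagonal, pw (a θ / (L : ℂ)) x.1 * mpw (b θ / (L : ℂ)) x.2 := by
      funext θ
      rw [ArithmeticFunction.mul_apply]
    rw [h1]
    exact Finset.measurable_sum _ fun x _ =>
      (Sla_pw_meas (h.ma.div_const _) x.1).mul (Sla_mpw_meas (h.mb.div_const _) x.2)
  · rw [ArithmeticFunction.mul_apply]
    refine (norm_sum_le _ _).trans (Finset.sum_le_sum fun x _ => ?_)
    rw [norm_mul]
    exact mul_le_mul (Sla_pw_le (h.ra θ).1 hL x.1) (Sla_mpw_le (h.rb θ).1 hL x.2)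
      (norm_nonneg _) (Nat.cast_nonneg _)

theorem Sla_fK {Θ : Type} [MeasurableSpace Θ] {ν : Measure Θ} {g κ : Θ → ℂ} (h : SK ν g κ)
    {T : ℝ} (hL : 1 ≤ Real.log T) (r : ℝ) : Integrable (fun θ => g θ * winK (κ θ) T r) ν := by
  obtain ⟨B, hB⟩ := h.κle
  by_cases hr : 0 < r
  · refine Sla_int (Sla_nint h.mg h.int) ?_
      (C := ‖(win T r : ℂ)‖ * Real.exp (|Real.log r| * B)) (fun θ => ?_)
    · have h1 : (fun θ => winK (κ θ) T r) = fun θ =>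
          (win T r : ℂ) * (r : ℂ) ^ (κ θ / (Real.log T : ℂ)) := by
        funext θ
        unfold winK
        rw [if_pos hr]
      rw [h1]
      exact measurable_const.mul (measurable_const.pow (h.mκ.div_const _))
    · unfold winK
      rw [if_pos hr, norm_mul]
      refine mul_le_mul_of_nonneg_left ?_ (norm_nonneg _)
      rw [Complex.norm_cpow_eq_rpow_re_of_pos hr, Complex.div_ofReal_re,
        Real.rpow_def_of_pos hr, Real.exp_le_exp]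
      have hL0 : 0 < Real.log T := by linarith
      have h2 : |(κ θ).re / Real.log T| ≤ B := by
        rw [abs_div, abs_of_pos hL0, div_le_iff₀ hL0]
        have h3 := (Complex.abs_re_le_norm (κ θ)).trans (hB θ)
        have h4 : 0 ≤ B := (norm_nonneg _).trans (hB θ)
        nlinarith
      calc Real.log r * ((κ θ).re / Real.log T)
          ≤ |Real.log r * ((κ θ).re / Real.log T)| := le_abs_self _
        _ = |Real.log r| * |(κ θ).re / Real.log T| := abs_mul _ _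
        _ ≤ |Real.log r| * B := mul_le_mul_of_nonneg_left h2 (abs_nonneg _)
  · have h1 : (fun θ => g θ * winK (κ θ) T r) = fun _ => (0 : ℂ) := by
      funext θ
      unfold winK
      rw [if_neg hr, mul_zero]
    rw [h1]
    exact integrable_zero _ _ _

theorem Sla_log {T : ℝ} (hT : 3 ≤ T) : 1 ≤ Real.log T := by
  have h1 : Real.exp 1 ≤ T := by
    have := Real.exp_one_lt_d9
    linarith
  have h2 := Real.log_le_log (Real.exp_pos 1) h1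
  rwa [Real.log_exp] at h2

theorem PD_prod {ν1 : Measure Θ₁} {ν2 : Measure Θ₂} {ν3 : Measure Θ₃} {ν4 : Measure Θ₄} [SFinite ν1] [SFinite ν2] [SFinite ν3] [SFinite ν4]
    {g1 a1 : Θ₁ → ℂ} {g2 a2 b2 : Θ₂ → ℂ} {g3 a3 b3 : Θ₃ → ℂ} {g4 κ : Θ₄ → ℂ}
    (h1 : S1 ν1 g1 a1) (h2 : S2 ν2 g2 a2 b2) (h3 : S2 ν3 g3 a3 b3) (h4 : SK ν4 g4 κ) :
    PD (ν1.prod (ν2.prod (ν3.prod ν4))) (gP g1 g2 g3 g4) (qP a1 a2 b2 a3 b3) (kP κ) := by
  have p2 : Measurable fun θ : Θ₁ × Θ₂ × Θ₃ × Θ₄ => θ.2.1 := measurable_fst.comp measurable_snd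
  have p3 : Measurable fun θ : Θ₁ × Θ₂ × Θ₃ × Θ₄ => θ.2.2.1 :=
    measurable_fst.comp (measurable_snd.comp measurable_snd)
  have p4 : Measurable fun θ : Θ₁ × Θ₂ × Θ₃ × Θ₄ => θ.2.2.2 :=
    measurable_snd.comp (measurable_snd.comp measurable_snd)
  have hmg : Measurable (gP g1 g2 g3 g4) :=
    (h1.mg.comp measurable_fst).mul ((h2.mg.comp p2).mul ((h3.mg.comp p3).mul (h4.mg.comp p4)))
  refine ⟨hmg, h4.mκ.comp p4, ?_, h1.ma.comp measurable_fst, h2.ma.comp p2, h3.ma.comp p3,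
    h2.mb.comp p2, h3.mb.comp p3, ?_, ?_⟩
  · obtain ⟨B, hB⟩ := h4.κle
    exact ⟨B, fun θ => hB _⟩
  · intro θ x hx
    unfold qP at hx
    simp only [Set.mem_insert_iff, Set.mem_singleton_iff] at hx
    rcases hx with rfl | rfl | rfl | rfl | rfl
    · exact h1.ra _
    · exact h2.ra _
    · exact h3.ra _
    · exact h2.rb _
    · exact h3.rb _
  · intro K
    have hd : Integrable (fun θ : Θ₁ × Θ₂ × Θ₃ × Θ₄ => (‖g1 θ.1‖ * (1 + ‖a1 θ.1‖) ^ K) *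
        ((‖g2 θ.2.1‖ * (1 + ‖a2 θ.2.1‖ + ‖b2 θ.2.1‖) ^ K) *
          ((‖g3 θ.2.2.1‖ * (1 + ‖a3 θ.2.2.1‖ + ‖b3 θ.2.2.1‖) ^ K) * ‖g4 θ.2.2.2‖)))
        (ν1.prod (ν2.prod (ν3.prod ν4))) :=
      (h1.int K).mul_prod ((h2.int K).mul_prod ((h3.int K).mul_prod h4.int))
    refine hd.mono' ?_ (Filter.Eventually.of_forall fun θ => ?_)
    · have hnm : Measurable fun θ : Θ₁ × Θ₂ × Θ₃ × Θ₄ => (qP a1 a2 b2 a3 b3 θ).nm := by
        unfold qP Par.nm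
        exact ((((measurable_const.add (h1.ma.comp measurable_fst).norm).add
          (h2.ma.comp p2).norm).add (h3.ma.comp p3).norm).add (h2.mb.comp p2).norm).add
          (h3.mb.comp p3).norm
      exact (hmg.norm.mul (hnm.pow_const K)).aestronglyMeasurable
    · have hn0 : 0 ≤ (qP a1 a2 b2 a3 b3 θ).nm := by
        unfold qP Par.nm
        positivity
      have hle : (qP a1 a2 b2 a3 b3 θ).nm ≤ (1 + ‖a1 θ.1‖) *
          ((1 + ‖a2 θ.2.1‖ + ‖b2 θ.2.1‖) * (1 + ‖a3 θ.2.2.1‖ + ‖b3 θ.2.2.1‖)) := by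
        unfold qP Par.nm
        have e1 := norm_nonneg (a1 θ.1)
        have e2 := norm_nonneg (a2 θ.2.1)
        have e3 := norm_nonneg (a3 θ.2.2.1)
        have e4 := norm_nonneg (b2 θ.2.1)
        have e5 := norm_nonneg (b3 θ.2.2.1)
        have m1 : 0 ≤ (‖a2 θ.2.1‖ + ‖b2 θ.2.1‖) * (‖a3 θ.2.2.1‖ + ‖b3 θ.2.2.1‖) := by positivity
        have m2 : 0 ≤ ‖a1 θ.1‖ * ((‖a2 θ.2.1‖ + ‖b2 θ.2.1‖) +
          (‖a3 θ.2.2.1‖ + ‖b3 θ.2.2.1‖) +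
          (‖a2 θ.2.1‖ + ‖b2 θ.2.1‖) * (‖a3 θ.2.2.1‖ + ‖b3 θ.2.2.1‖)) := by positivity
        nlinarith
      rw [Real.norm_eq_abs, abs_mul, abs_norm, abs_of_nonneg (pow_nonneg hn0 K)]
      have hg : ‖gP g1 g2 g3 g4 θ‖ = ‖g1 θ.1‖ * (‖g2 θ.2.1‖ * (‖g3 θ.2.2.1‖ * ‖g4 θ.2.2.2‖)) := by
        unfold gP
        rw [norm_mul, norm_mul, norm_mul]
      rw [hg]
      calc ‖g1 θ.1‖ * (‖g2 θ.2.1‖ * (‖g3 θ.2.2.1‖ * ‖g4 θ.2.2.2‖)) *
            (qP a1 a2 b2 a3 b3 θ).nm ^ K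
          ≤ ‖g1 θ.1‖ * (‖g2 θ.2.1‖ * (‖g3 θ.2.2.1‖ * ‖g4 θ.2.2.2‖)) *
            ((1 + ‖a1 θ.1‖) *
              ((1 + ‖a2 θ.2.1‖ + ‖b2 θ.2.1‖) * (1 + ‖a3 θ.2.2.1‖ + ‖b3 θ.2.2.1‖))) ^ K := by
            refine mul_le_mul_of_nonneg_left (pow_le_pow_left₀ hn0 hle K) (by positivity)
        _ = _ := by
            rw [mul_pow, mul_pow]
            ring

theorem Sla_cc (q : Par) : cc q = pw q.a1 * (pw q.a2 * mpw q.b1) * (pw q.a3 * mpw q.b2) := by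
  unfold cc
  ring

theorem cw_prod {ν1 : Measure Θ₁} {ν2 : Measure Θ₂} {ν3 : Measure Θ₃} {ν4 : Measure Θ₄} [SFinite ν1] [SFinite ν2] [SFinite ν3] [SFinite ν4]
    {g1 a1 : Θ₁ → ℂ} {g2 a2 b2 : Θ₂ → ℂ} {g3 a3 b3 : Θ₃ → ℂ} {g4 κ : Θ₄ → ℂ}
    (h1 : S1 ν1 g1 a1) (h2 : S2 ν2 g2 a2 b2) (h3 : S2 ν3 g3 a3 b3) (h4 : SK ν4 g4 κ) {T : ℝ} (hT : 3 ≤ T) (n : ℕ) (r : ℝ) :
    cw (ν1.prod (ν2.prod (ν3.prod ν4))) (gP g1 g2 g3 g4) (qP a1 a2 b2 a3 b3) (kP κ) T n r =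
      (F1 ν1 g1 a1 (Real.log T) * F2 ν2 g2 a2 b2 (Real.log T) * F2 ν3 g3 a3 b3 (Real.log T)) n * WK ν4 g4 κ T r := by
  have hL := Sla_log hT
  have i1 := fun m => Sla_f1 h1 hL m
  have i2 := fun m => Sla_f2 h2 hL m
  have i3 := fun m => Sla_f2 h3 hL m
  have i4 := Sla_fK h4 hL r
  have hterm : ∀ (x y z : ℕ),
      Integrable (fun θ : Θ₁ × Θ₂ × Θ₃ × Θ₄ =>
        (g1 θ.1 * pw (a1 θ.1 / (Real.log T : ℂ)) x) *
          ((g2 θ.2.1 * (pw (a2 θ.2.1 / (Real.log T : ℂ)) * mpw (b2 θ.2.1 / (Real.log T : ℂ))) y) *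
            ((g3 θ.2.2.1 * (pw (a3 θ.2.2.1 / (Real.log T : ℂ)) *
              mpw (b3 θ.2.2.1 / (Real.log T : ℂ))) z) *
              (g4 θ.2.2.2 * winK (κ θ.2.2.2) T r)))) (ν1.prod (ν2.prod (ν3.prod ν4))) :=
    fun x y z => (i1 x).mul_prod ((i2 y).mul_prod ((i3 z).mul_prod i4))
  have hval : ∀ (x y z : ℕ),
      ∫ θ : Θ₁ × Θ₂ × Θ₃ × Θ₄,
        (g1 θ.1 * pw (a1 θ.1 / (Real.log T : ℂ)) x) *
          ((g2 θ.2.1 * (pw (a2 θ.2.1 / (Real.log T : ℂ)) * mpw (b2 θ.2.1 / (Real.log T : ℂ))) y) *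
            ((g3 θ.2.2.1 * (pw (a3 θ.2.2.1 / (Real.log T : ℂ)) *
              mpw (b3 θ.2.2.1 / (Real.log T : ℂ))) z) *
              (g4 θ.2.2.2 * winK (κ θ.2.2.2) T r))) ∂(ν1.prod (ν2.prod (ν3.prod ν4))) =
      F1 ν1 g1 a1 (Real.log T) x * (F2 ν2 g2 a2 b2 (Real.log T) y *
        (F2 ν3 g3 a3 b3 (Real.log T) z * WK ν4 g4 κ T r)) := by
    intro x y z
    have e1 := integral_prod_mul (μ := ν1) (ν := ν2.prod (ν3.prod ν4))
      (fun θ => g1 θ * pw (a1 θ / (Real.log T : ℂ)) x)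
      (fun θ : Θ₂ × Θ₃ × Θ₄ =>
        (g2 θ.1 * (pw (a2 θ.1 / (Real.log T : ℂ)) * mpw (b2 θ.1 / (Real.log T : ℂ))) y) *
            ((g3 θ.2.1 * (pw (a3 θ.2.1 / (Real.log T : ℂ)) *
              mpw (b3 θ.2.1 / (Real.log T : ℂ))) z) *
              (g4 θ.2.2 * winK (κ θ.2.2) T r)))
    have e2 := integral_prod_mul (μ := ν2) (ν := ν3.prod ν4)
      (fun θ => g2 θ * (pw (a2 θ / (Real.log T : ℂ)) * mpw (b2 θ / (Real.log T : ℂ))) y)
      (fun θ : Θ₃ × Θ₄ => (g3 θ.1 * (pw (a3 θ.1 / (Real.log T : ℂ)) *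
              mpw (b3 θ.1 / (Real.log T : ℂ))) z) *
              (g4 θ.2 * winK (κ θ.2) T r))
    have e3 := integral_prod_mul (μ := ν3) (ν := ν4)
      (fun θ => g3 θ * (pw (a3 θ / (Real.log T : ℂ)) * mpw (b3 θ / (Real.log T : ℂ))) z)
      (fun θ : Θ₄ => g4 θ * winK (κ θ) T r)
    refine e1.trans ?_
    show (∫ θ, g1 θ * pw (a1 θ / (Real.log T : ℂ)) x ∂ν1) * _ = _
    rw [e2, e3]
    rfl
  have hcw : cw (ν1.prod (ν2.prod (ν3.prod ν4))) (gP g1 g2 g3 g4) (qP a1 a2 b2 a3 b3) (kP κ)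
      T n r = ∫ θ : Θ₁ × Θ₂ × Θ₃ × Θ₄, ∑ u ∈ n.divisorsAntidiagonal,
        ∑ w ∈ u.1.divisorsAntidiagonal,
        (g1 θ.1 * pw (a1 θ.1 / (Real.log T : ℂ)) w.1) *
          ((g2 θ.2.1 * (pw (a2 θ.2.1 / (Real.log T : ℂ)) *
            mpw (b2 θ.2.1 / (Real.log T : ℂ))) w.2) *
            ((g3 θ.2.2.1 * (pw (a3 θ.2.2.1 / (Real.log T : ℂ)) *
              mpw (b3 θ.2.2.1 / (Real.log T : ℂ))) u.2) *
              (g4 θ.2.2.2 * winK (κ θ.2.2.2) T r))) ∂(ν1.prod (ν2.prod (ν3.prod ν4))) := by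
    unfold cw
    refine integral_congr_ae (Filter.Eventually.of_forall fun θ => ?_)
    show gP g1 g2 g3 g4 θ * cc ((qP a1 a2 b2 a3 b3 θ).sc (Real.log T)) n *
      winK (kP κ θ) T r = _
    rw [Sla_cc, ArithmeticFunction.mul_apply, Finset.mul_sum, Finset.sum_mul]
    refine Finset.sum_congr rfl fun u _ => ?_
    rw [ArithmeticFunction.mul_apply, Finset.sum_mul, Finset.mul_sum, Finset.sum_mul]
    refine Finset.sum_congr rfl fun w _ => ?_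
    unfold gP kP qP Par.sc
    ring
  rw [hcw, integral_finsetSum _ (fun u _ => integrable_finsetSum _ fun w _ => hterm _ _ _)]
  rw [ArithmeticFunction.mul_apply, Finset.sum_mul]
  refine Finset.sum_congr rfl fun u _ => ?_
  rw [integral_finsetSum _ (fun w _ => hterm _ _ _), ArithmeticFunction.mul_apply,
    Finset.sum_mul, Finset.sum_mul]
  refine Finset.sum_congr rfl fun w _ => ?_
  rw [hval]
  ring

end H98.SZ
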