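import Pool.Agent.H98.SZ.Sla

/-!
# SZ / Slb: the limit for a product of slots (Fubini)

`NF`: by `cw_prod`, for `T ≥ 3`, `PRA (product) (xx P L) T = PRIN (xx P L) (F1*F2*F2') (WK T)` (unfold both, `rho` factor commutes). `GT` with `PD_prod` gives the limit `LIM`.
`LIM` = iterated integral: `RR (qP ..) t τ = ((τ+a₁)/(t+a₁)) ((τ+a₂)/(t+a₂) (t+b₂)/(τ+b₂)) ((τ+a₃)/(t+a₃) (t+b₃)/(τ+b₃)) / (τ-t)` (`field_simp`/`div_mul_div_comm`; an identity of products of quotients, valid also with zero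
denominators if one only uses `div_eq_mul_inv`, `mul_inv`, `ring`) and `exp(t+κ) = exp t exp κ`. Integrate first over `θ` (`integral_prod_symm`, integrable by `LIM_int`): for fixed `(ξ, y)` the integrand is
`c · (g₁ ..) (g₂ ..) (g₃ ..) (g₄ exp κ)`, its integral over the product measure is the product of the four integrals (`integral_prod_mul`, no integrability needed) = `R1 R2 R2' RK`.
The resulting function of `(ξ, y)` is integrable (`Integrable.integral_prod_right'` or `integral_prod_left`), which is `NF_int`; then `integral_prod` for `(ξ, y)`.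
-/

set_option autoImplicit false

open MeasureTheory Filter Topology

namespace H98.SZ

variable {Θ₁ Θ₂ Θ₃ Θ₄ : Type} [MeasurableSpace Θ₁] [MeasurableSpace Θ₂] [MeasurableSpace Θ₃] [MeasurableSpace Θ₄]

/-- the integrand of the limit in the variables `(ξ, y)` -/
noncomputable def NI (ph : ℝ → ℂ) (R : ℂ → ℂ → ℂ) (c : ℂ) (ξ y : ℝ) : ℂ :=
  ph ξ * (((1 / (2 * Real.pi) : ℝ) : ℂ) * (Complex.exp (1 + Complex.I * y) * R (1 + Complex.I * y) (2 + Complex.I * ξ) /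
    ((2 + Complex.I * ξ) - (1 + Complex.I * y))) * c)

theorem Slb_inner {ν1 : Measure Θ₁} {ν2 : Measure Θ₂} {ν3 : Measure Θ₃} {ν4 : Measure Θ₄} [SFinite ν1] [SFinite ν2] [SFinite ν3] [SFinite ν4]
    (g1 a1 : Θ₁ → ℂ) (g2 a2 b2 : Θ₂ → ℂ) (g3 a3 b3 : Θ₃ → ℂ) (g4 κ : Θ₄ → ℂ) (ph : ℝ → ℂ) (ξ y : ℝ) :
    ∫ θ : Θ₁ × Θ₂ × Θ₃ × Θ₄, ph ξ * gP g1 g2 g3 g4 θ * ((1 / (2 * Real.pi) : ℝ) : ℂ) *
        Complex.exp (1 + Complex.I * y + kP κ θ) *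
        RR (qP a1 a2 b2 a3 b3 θ) (1 + Complex.I * y) (2 + Complex.I * ξ) ∂(ν1.prod (ν2.prod (ν3.prod ν4))) =
      NI ph (fun t τ => R1 ν1 g1 a1 t τ * R2 ν2 g2 a2 b2 t τ * R2 ν3 g3 a3 b3 t τ) (RK ν4 g4 κ) ξ y := by
  obtain ⟨t, ht⟩ : ∃ t : ℂ, t = 1 + Complex.I * (y : ℂ) := ⟨_, rfl⟩
  obtain ⟨τ, hτ⟩ : ∃ τ : ℂ, τ = 2 + Complex.I * (ξ : ℂ) := ⟨_, rfl⟩
  unfold NI
  rw [← ht, ← hτ]
  have key : ∀ θ : Θ₁ × Θ₂ × Θ₃ × Θ₄, ph ξ * gP g1 g2 g3 g4 θ * ((1 / (2 * Real.pi) : ℝ) : ℂ) *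
      Complex.exp (t + kP κ θ) * RR (qP a1 a2 b2 a3 b3 θ) t τ =
      (ph ξ * ((1 / (2 * Real.pi) : ℝ) : ℂ) * Complex.exp t / (τ - t)) *
      ((g1 θ.1 * ((τ + a1 θ.1) / (t + a1 θ.1))) *
       ((g2 θ.2.1 * ((τ + a2 θ.2.1) / (t + a2 θ.2.1) * ((t + b2 θ.2.1) / (τ + b2 θ.2.1)))) *
        ((g3 θ.2.2.1 * ((τ + a3 θ.2.2.1) / (t + a3 θ.2.2.1) * ((t + b3 θ.2.2.1) / (τ + b3 θ.2.2.1)))) *
         (g4 θ.2.2.2 * Complex.exp (κ θ.2.2.2))))) := by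
    intro θ
    unfold gP qP kP RR
    rw [Complex.exp_add]
    simp only [div_eq_mul_inv, mul_inv]
    ring
  rw [integral_congr_ae (Eventually.of_forall key), integral_const_mul]
  rw [integral_prod_mul (fun x : Θ₁ => g1 x * ((τ + a1 x) / (t + a1 x)))
    (fun z : Θ₂ × Θ₃ × Θ₄ => (g2 z.1 * ((τ + a2 z.1) / (t + a2 z.1) * ((t + b2 z.1) / (τ + b2 z.1)))) *
        ((g3 z.2.1 * ((τ + a3 z.2.1) / (t + a3 z.2.1) * ((t + b3 z.2.1) / (τ + b3 z.2.1)))) *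
         (g4 z.2.2 * Complex.exp (κ z.2.2))))]
  rw [integral_prod_mul (fun x : Θ₂ => g2 x * ((τ + a2 x) / (t + a2 x) * ((t + b2 x) / (τ + b2 x))))
    (fun z : Θ₃ × Θ₄ => ((g3 z.1 * ((τ + a3 z.1) / (t + a3 z.1) * ((t + b3 z.1) / (τ + b3 z.1)))) *
         (g4 z.2 * Complex.exp (κ z.2))))]
  rw [integral_prod_mul (fun x : Θ₃ => g3 x * ((τ + a3 x) / (t + a3 x) * ((t + b3 x) / (τ + b3 x))))
    (fun z : Θ₄ => g4 z * Complex.exp (κ z))]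
  unfold R1 R2 RK
  simp only [div_eq_mul_inv]
  ring

theorem NF_int {ν1 : Measure Θ₁} {ν2 : Measure Θ₂} {ν3 : Measure Θ₃} {ν4 : Measure Θ₄} [SFinite ν1] [SFinite ν2] [SFinite ν3] [SFinite ν4]
    {g1 a1 : Θ₁ → ℂ} {g2 a2 b2 : Θ₂ → ℂ} {g3 a3 b3 : Θ₃ → ℂ} {g4 κ : Θ₄ → ℂ}
    (h1 : S1 ν1 g1 a1) (h2 : S2 ν2 g2 a2 b2) (h3 : S2 ν3 g3 a3 b3) (h4 : SK ν4 g4 κ) {P ph : ℝ → ℂ} (hP : FL P ph) :
    Integrable (fun p : ℝ × ℝ => NI ph (fun t τ => R1 ν1 g1 a1 t τ * R2 ν2 g2 a2 b2 t τ * R2 ν3 g3 a3 b3 t τ) (RK ν4 g4 κ) p.1 p.2)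
      (volume.prod volume) := by
  have h := (LIM_int (ν1.prod (ν2.prod (ν3.prod ν4))) (PD_prod h1 h2 h3 h4) hP).integral_prod_right
  refine h.congr (Eventually.of_forall fun p => ?_)
  exact Slb_inner g1 a1 g2 a2 b2 g3 a3 b3 g4 κ ph p.1 p.2

theorem Slb_LIM {ν1 : Measure Θ₁} {ν2 : Measure Θ₂} {ν3 : Measure Θ₃} {ν4 : Measure Θ₄} [SFinite ν1] [SFinite ν2] [SFinite ν3] [SFinite ν4]
    {g1 a1 : Θ₁ → ℂ} {g2 a2 b2 : Θ₂ → ℂ} {g3 a3 b3 : Θ₃ → ℂ} {g4 κ : Θ₄ → ℂ}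
    (h1 : S1 ν1 g1 a1) (h2 : S2 ν2 g2 a2 b2) (h3 : S2 ν3 g3 a3 b3) (h4 : SK ν4 g4 κ) {P ph : ℝ → ℂ} (hP : FL P ph) :
    LIM (ν1.prod (ν2.prod (ν3.prod ν4))) (gP g1 g2 g3 g4) (qP a1 a2 b2 a3 b3) (kP κ) ph =
      ∫ ξ : ℝ, ∫ y : ℝ, NI ph (fun t τ => R1 ν1 g1 a1 t τ * R2 ν2 g2 a2 b2 t τ * R2 ν3 g3 a3 b3 t τ) (RK ν4 g4 κ) ξ y := by
  unfold LIM
  rw [integral_prod_symm _ (LIM_int (ν1.prod (ν2.prod (ν3.prod ν4))) (PD_prod h1 h2 h3 h4) hP)]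
  rw [integral_congr_ae (Eventually.of_forall fun p : ℝ × ℝ =>
    Slb_inner (ν1 := ν1) (ν2 := ν2) (ν3 := ν3) (ν4 := ν4) g1 a1 g2 a2 b2 g3 a3 b3 g4 κ ph p.1 p.2)]
  exact integral_prod _ (NF_int h1 h2 h3 h4 hP)

theorem NF {ν1 : Measure Θ₁} {ν2 : Measure Θ₂} {ν3 : Measure Θ₃} {ν4 : Measure Θ₄} [SFinite ν1] [SFinite ν2] [SFinite ν3] [SFinite ν4]
    {g1 a1 : Θ₁ → ℂ} {g2 a2 b2 : Θ₂ → ℂ} {g3 a3 b3 : Θ₃ → ℂ} {g4 κ : Θ₄ → ℂ}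
    (h1 : S1 ν1 g1 a1) (h2 : S2 ν2 g2 a2 b2) (h3 : S2 ν3 g3 a3 b3) (h4 : SK ν4 g4 κ) {P ph : ℝ → ℂ} (hP : FL P ph) :
    Tendsto (fun T : ℝ => PRIN (xx P (Real.log T))
        (fun n => (F1 ν1 g1 a1 (Real.log T) * F2 ν2 g2 a2 b2 (Real.log T) * F2 ν3 g3 a3 b3 (Real.log T)) n) (WK ν4 g4 κ T) / (om T : ℂ)) atTop
      (𝓝 (∫ ξ : ℝ, ∫ y : ℝ, NI ph (fun t τ => R1 ν1 g1 a1 t τ * R2 ν2 g2 a2 b2 t τ * R2 ν3 g3 a3 b3 t τ) (RK ν4 g4 κ) ξ y)) := by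
  rw [← Slb_LIM h1 h2 h3 h4 hP]
  refine (GT (ν1.prod (ν2.prod (ν3.prod ν4))) (PD_prod h1 h2 h3 h4) hP).congr' ?_
  filter_upwards [eventually_ge_atTop 3] with T hT
  congr 1
  unfold PRA PRIN
  refine tsum_congr fun k => ?_
  congr 1
  refine tsum_congr fun n => ?_
  rw [cw_prod h1 h2 h3 h4 hT]
  ring

end H98.SZ
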