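import Pool.Agent.H98.SZ.Sld

/-!
# SZ / Slc: the elementary slots (Cauchy's formula on the circle of radius 1/4)

`circ_deriv`: for `f` differentiable on `closedBall 0 (1/4)`: `∫ φ, gj j φ * f (cm φ) ∂mc = iteratedDeriv j f 0`: `DifferentiableOn.circleIntegral_one_div_sub_center_pow_smul` with `R = 1/4`, `c = 0`, unfold
`circleIntegral` (`deriv (circleMap 0 R) φ = circleMap 0 R φ * I`), `intervalIntegral.integral_of_le`, cancel `2πI/j!`.
`circ_neg`: `∫ gc φ * f (cm φ) ∂mc = - deriv f 0` (`j = 1`).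
Slots:
* `sl_one`: `Θ = Unit`, `Measure.dirac ()`, `g = 1`, `a = 0`: `F1 = pw 0`, `R1 = τ/t`.
* `sl_log`: `Θ = ℝ`, `mc`, `gc`, `cm`: `F1 n = - d/da n^(-a/L) = log n / L` (`n ≥ 1`), `R1 = - d/da (τ+a)/(t+a) = (τ-t)/t²` (`t + a ≠ 0` on the closed ball because `Re t = 1`).
* `sl_triv`: `dirac`, `1`, `0`, `0`: `pw 0 * mpw 0 = ζ * μ = 1` (`ArithmeticFunction.coe_zeta_mul_coe_moebius` or moebius inversion), `R2 = 1`.
* `sl_Lam`: `mc`, `gc`, `a = cm`, `b = 0`: `F2 n = ∑_{kl=n} (log k/L) μ(l) = Λ(n)/L` (`ArithmeticFunction.log_mul_moebius_eq_vonMangoldt`), `R2 = - d/da [(τ+a)/(t+a)] (t/τ) = (τ-t)/(t τ)`.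
* `sk_j`: `mc`, `gj j`, `cm`: `WK T r = wj j T r / L^j` (`j`-th derivative at `0` of `κ ↦ r^(κ/L) = exp(κ log r/L)` is `(log r/L)^j`), `RK = 1`.
Integrability: `mc` is finite, `‖cm φ‖ = 1/4`, `gc`, `gj` bounded and continuous.
-/

set_option autoImplicit false

open MeasureTheory Filter Topology

namespace H98.SZ

theorem Slc_cm_ne (φ : ℝ) : cm φ ≠ 0 := by
  unfold cm
  exact circleMap_ne_center (by norm_num)

theorem circ_deriv (j : ℕ) {f : ℂ → ℂ} (hf : DifferentiableOn ℂ f (Metric.closedBall 0 (1 / 4))) :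
    ∫ φ, gj j φ * f (cm φ) ∂mc = iteratedDeriv j f 0 := by
  have h1 := hf.circleIntegral_one_div_sub_center_pow_smul (by norm_num) j
  have h2 : (∮ z in C(0, 1 / 4), (1 / (z - 0) ^ (j + 1)) • f z) =
      ∫ φ, Complex.I * ((cm φ)⁻¹ ^ j * f (cm φ)) ∂mc := by
    rw [circleIntegral, intervalIntegral.integral_of_le (by positivity)]
    unfold mc
    refine integral_congr_ae (Filter.Eventually.of_forall fun φ => ?_)
    have h := Slc_cm_ne φ
    unfold cm at h ⊢
    simp only [deriv_circleMap, smul_eq_mul, sub_zero]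
    rw [pow_succ, inv_pow]
    field_simp
  rw [h2, integral_const_mul] at h1
  have h3 : ∫ φ, (cm φ)⁻¹ ^ j * f (cm φ) ∂mc =
      (2 * Real.pi / (j.factorial : ℂ)) * iteratedDeriv j f 0 := by
    have hI := Complex.I_ne_zero
    apply mul_left_cancel₀ hI
    rw [h1, smul_eq_mul]
    ring
  have h4 : ∀ φ, gj j φ * f (cm φ) = ((((j.factorial : ℝ) / (2 * Real.pi) : ℝ) : ℂ)) *
      ((cm φ)⁻¹ ^ j * f (cm φ)) := by
    intro φ
    unfold gj
    ring
  simp only [h4]
  rw [integral_const_mul, h3]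
  have hj : (j.factorial : ℂ) ≠ 0 := by exact_mod_cast j.factorial_ne_zero
  have hpi : (Real.pi : ℂ) ≠ 0 := by exact_mod_cast Real.pi_ne_zero
  push_cast
  field_simp

theorem Slc_gc (φ : ℝ) : gc φ = -gj 1 φ := by
  unfold gc gj
  simp

theorem circ_neg {f : ℂ → ℂ} (hf : DifferentiableOn ℂ f (Metric.closedBall 0 (1 / 4))) :
    ∫ φ, gc φ * f (cm φ) ∂mc = -deriv f 0 := by
  have h := circ_deriv 1 hf
  rw [iteratedDeriv_one] at h
  rw [← h, ← integral_neg]
  refine integral_congr_ae (Filter.Eventually.of_forall fun φ => ?_)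
  simp only [Slc_gc]
  ring

/-- bounds and measurability of the circle weights, for reuse -/
theorem cm_norm (φ : ℝ) : ‖cm φ‖ = 1 / 4 := by
  unfold cm
  rw [norm_circleMap_zero]
  norm_num

theorem gc_norm (φ : ℝ) : ‖gc φ‖ ≤ 1 := by
  unfold gc
  rw [norm_neg, norm_mul, norm_inv, cm_norm, Complex.norm_real, Real.norm_eq_abs,
    abs_of_pos (by positivity)]
  have h := Real.pi_gt_three
  rw [one_div, one_div, inv_inv, inv_mul_le_iff₀ (by positivity)]
  linarith

theorem cm_cont : Continuous cm := by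
  unfold cm
  exact continuous_circleMap 0 (1 / 4)

theorem Slc_inv_cont : Continuous fun φ => (cm φ)⁻¹ :=
  cm_cont.inv₀ Slc_cm_ne

theorem gc_cont : Continuous gc := by
  unfold gc
  exact (continuous_const.mul Slc_inv_cont).neg

theorem Slc_gj_cont (j : ℕ) : Continuous (gj j) := by
  unfold gj
  exact continuous_const.mul (Slc_inv_cont.pow j)

theorem Slc_int {f : ℝ → ℝ} (hf : Continuous f) : Integrable f mc := by
  unfold mc
  exact hf.integrableOn_Ioc

theorem Slc_re (φ : ℝ) : -(1 / 2 : ℝ) ≤ (cm φ).re ∧ (cm φ).re ≤ 3 := by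
  have h1 := Complex.abs_re_le_norm (cm φ)
  rw [cm_norm] at h1
  have h2 := abs_le.1 h1
  constructor <;> linarith [h2.1, h2.2]

theorem Slc_mc_sf : SFinite mc := by
  unfold mc
  infer_instance

theorem Slc_pw0 : pw 0 = ((ArithmeticFunction.zeta : ArithmeticFunction ℕ) : ArithmeticFunction ℂ) := by
  ext n
  by_cases h : n = 0
  · subst h
    simp
  · simp [pw, h, ArithmeticFunction.natCoe_apply, ArithmeticFunction.zeta_apply]

theorem Slc_mpw0 : mpw 0 = ((ArithmeticFunction.moebius : ArithmeticFunction ℤ) : ArithmeticFunction ℂ) := by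
  ext n
  by_cases h : n = 0
  · subst h
    simp
  · simp [mpw, h, ArithmeticFunction.intCoe_apply]

theorem Slc_pm : pw 0 * mpw 0 = 1 := by
  rw [Slc_pw0, Slc_mpw0, ArithmeticFunction.coe_zeta_mul_coe_moebius]

theorem Slc_t (y : ℝ) : (1 + Complex.I * y : ℂ) ≠ 0 := by
  intro h
  have := congrArg Complex.re h
  simp at this

theorem Slc_ta (y : ℝ) {a : ℂ} (ha : a ∈ Metric.closedBall (0 : ℂ) (1 / 4)) :
    (1 + Complex.I * y : ℂ) + a ≠ 0 := by
  intro h
  have h1 := congrArg Complex.re h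
  simp at h1
  have h2 := Complex.abs_re_le_norm a
  rw [mem_closedBall_zero_iff] at ha
  have h3 := abs_le.1 (h2.trans ha)
  linarith [h3.1]

theorem Slc_tau (ξ : ℝ) : (2 + Complex.I * ξ : ℂ) ≠ 0 := by
  intro h
  have := congrArg Complex.re h
  simp at this

theorem sl_one : Sl1 (fun _ => oF) (fun t τ => τ / t) := by
  refine ⟨Unit, inferInstance, Measure.dirac (), inferInstance, fun _ => 1, fun _ => 0, ?_, ?_, ?_⟩
  · refine ⟨measurable_const, measurable_const, ?_, ?_⟩
    · intro θ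
      norm_num
    · intro K
      exact integrable_const _
  · intro L _
    ext n
    simp [F1, oF]
  · intro y ξ
    simp [R1]

theorem Slc_pwd (L : ℝ) (n : ℕ) : Differentiable ℂ fun a : ℂ => pw (a / L) n := by
  unfold pw
  simp only [ArithmeticFunction.coe_mk]
  by_cases h : n = 0
  · simp only [h, if_true]
    exact differentiable_const _
  · simp only [h, if_false]
    have hn : (n : ℂ) ≠ 0 := by exact_mod_cast h
    intro a
    exact ((differentiableAt_id.div_const _).neg).const_cpow (Or.inl hn)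

theorem Slc_F1 (L : ℝ) : F1 mc gc cm L = lgF L := by
  ext n
  have h := circ_neg (f := fun a : ℂ => pw (a / L) n) (Slc_pwd L n).differentiableOn
  have h1 : F1 mc gc cm L n = ∫ φ, gc φ * pw (cm φ / L) n ∂mc := rfl
  rw [h1, h]
  by_cases h0 : n = 0
  · subst h0
    simp
  · have hn : (n : ℂ) ≠ 0 := by exact_mod_cast h0
    have h2 : HasDerivAt (fun a : ℂ => pw (a / L) n) (-(Complex.log n / L)) 0 := by
      have h3 : (fun a : ℂ => pw (a / L) n) = fun a : ℂ => (n : ℂ) ^ (-(a / L)) := by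
        funext a
        simp [pw, h0]
      rw [h3]
      have h4 : HasDerivAt (fun a : ℂ => -(a / (L : ℂ))) (-(1 / (L : ℂ))) 0 :=
        ((hasDerivAt_id (0 : ℂ)).div_const _).neg
      have h5 := h4.const_cpow (c := (n : ℂ)) (Or.inl hn)
      refine h5.congr_deriv ?_
      simp
      ring
    rw [h2.deriv]
    simp only [lgF, ArithmeticFunction.coe_mk, neg_neg]
    rw [← Complex.natCast_log]
    push_cast
    ring

theorem Slc_quo (y ξ : ℝ) : DifferentiableOn ℂ (fun a : ℂ => ((2 + Complex.I * ξ : ℂ) + a) /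
    ((1 + Complex.I * y : ℂ) + a)) (Metric.closedBall 0 (1 / 4)) := by
  intro a ha
  have h1 : DifferentiableAt ℂ (fun a : ℂ => ((2 + Complex.I * ξ : ℂ) + a) /
      ((1 + Complex.I * y : ℂ) + a)) a :=
    ((differentiableAt_const _).add differentiableAt_id).div
      ((differentiableAt_const _).add differentiableAt_id) (Slc_ta y ha)
  exact h1.differentiableWithinAt

theorem Slc_quod (y ξ : ℝ) : deriv (fun a : ℂ => ((2 + Complex.I * ξ : ℂ) + a) /
    ((1 + Complex.I * y : ℂ) + a)) 0 =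
      ((1 + Complex.I * y : ℂ) - (2 + Complex.I * ξ)) / (1 + Complex.I * y : ℂ) ^ 2 := by
  have h1 : HasDerivAt (fun a : ℂ => (2 + Complex.I * ξ : ℂ) + a) 1 0 :=
    (hasDerivAt_id (0 : ℂ)).const_add _
  have h2 : HasDerivAt (fun a : ℂ => (1 + Complex.I * y : ℂ) + a) 1 0 :=
    (hasDerivAt_id (0 : ℂ)).const_add _
  have h3 := h1.div h2 (by simpa using Slc_t y)
  refine h3.deriv.trans ?_
  simp

theorem Slc_R1 (y ξ : ℝ) : R1 mc gc cm (1 + Complex.I * y) (2 + Complex.I * ξ) =
    ((2 + Complex.I * ξ) - (1 + Complex.I * y)) / (1 + Complex.I * y) ^ 2 := by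
  have h := circ_neg (Slc_quo y ξ)
  unfold R1
  rw [h, Slc_quod, ← neg_div]
  ring

theorem Slc_S1 : S1 mc gc cm := by
  refine ⟨gc_cont.measurable, cm_cont.measurable, Slc_re, fun K => Slc_int ?_⟩
  exact gc_cont.norm.mul ((continuous_const.add cm_cont.norm).pow K)

theorem sl_log : Sl1 lgF (fun t τ => (τ - t) / t ^ 2) :=
  ⟨ℝ, inferInstance, mc, Slc_mc_sf, gc, cm, Slc_S1, fun L _ => Slc_F1 L, fun y ξ => Slc_R1 y ξ⟩

theorem sl_triv : Sl2 (fun _ => 1) (fun _ _ => 1) := by
  refine ⟨Unit, inferInstance, Measure.dirac (), inferInstance, fun _ => 1, fun _ => 0, fun _ => 0, ?_, ?_, ?_⟩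
  · refine ⟨measurable_const, measurable_const, measurable_const, ?_, ?_, ?_⟩
    · intro θ
      norm_num
    · intro θ
      norm_num
    · intro K
      exact integrable_const _
  · intro L _
    ext n
    simp only [F2, ArithmeticFunction.coe_mk, integral_dirac, one_mul, zero_div, Slc_pm]
  · intro y ξ
    simp only [R2, integral_dirac, one_mul, add_zero]
    have h1 := Slc_t y
    have h2 := Slc_tau ξ
    field_simp

theorem Slc_F2 (L : ℝ) : F2 mc gc cm (fun _ => 0) L = LaF L := by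
  ext n
  have h1 : F2 mc gc cm (fun _ => 0) L n = ∫ φ, gc φ * (pw (cm φ / L) * mpw (0 / L)) n ∂mc := rfl
  have h2 : ∀ φ, gc φ * (pw (cm φ / L) * mpw (0 / L)) n =
      ∑ x ∈ n.divisorsAntidiagonal, (gc φ * pw (cm φ / L) x.1) * mpw 0 x.2 := by
    intro φ
    rw [ArithmeticFunction.mul_apply, Finset.mul_sum, zero_div]
    exact Finset.sum_congr rfl fun x _ => by ring
  have hc : ∀ k : ℕ, Integrable (fun φ => gc φ * pw (cm φ / L) k) mc := by
    intro k
    unfold mc
    exact (gc_cont.mul ((Slc_pwd L k).continuous.comp cm_cont)).integrableOn_Ioc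
  rw [h1]
  simp only [h2]
  rw [integral_finsetSum _ fun x _ => (hc x.1).mul_const _]
  have h3 : ∀ k : ℕ, ∫ φ, gc φ * pw (cm φ / L) k ∂mc = lgF L k := by
    intro k
    rw [← Slc_F1]
    rfl
  simp only [integral_mul_const, h3]
  have h4 := congrArg (fun F : ArithmeticFunction ℝ => F n)
    ArithmeticFunction.log_mul_moebius_eq_vonMangoldt
  simp only [ArithmeticFunction.mul_apply] at h4
  simp only [LaF, lgF, ArithmeticFunction.coe_mk, Slc_mpw0, ArithmeticFunction.intCoe_apply]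
  rw [← h4]
  simp only [ArithmeticFunction.log_apply, ArithmeticFunction.intCoe_apply]
  push_cast
  rw [Finset.sum_div]
  exact Finset.sum_congr rfl fun x _ => by ring

theorem Slc_R2 (y ξ : ℝ) : R2 mc gc cm (fun _ => 0) (1 + Complex.I * y) (2 + Complex.I * ξ) =
    ((2 + Complex.I * ξ) - (1 + Complex.I * y)) / ((1 + Complex.I * y) * (2 + Complex.I * ξ)) := by
  have h := Slc_R1 y ξ
  unfold R1 at h
  unfold R2
  simp only [add_zero, ← mul_assoc]
  rw [integral_mul_const, h]
  have h1 := Slc_t y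
  have h2 := Slc_tau ξ
  field_simp

theorem sl_Lam : Sl2 LaF (fun t τ => (τ - t) / (t * τ)) := by
  refine ⟨ℝ, inferInstance, mc, Slc_mc_sf, gc, cm, fun _ => 0, ?_, fun L _ => Slc_F2 L, fun y ξ => Slc_R2 y ξ⟩
  refine ⟨gc_cont.measurable, cm_cont.measurable, measurable_const, Slc_re, ?_, fun K => Slc_int ?_⟩
  · intro θ
    norm_num
  · exact gc_cont.norm.mul (((continuous_const.add cm_cont.norm).add continuous_const).pow K)

theorem sk_SK (j : ℕ) : SK mc (gj j) cm := by
  refine ⟨(Slc_gj_cont j).measurable, cm_cont.measurable, ⟨1 / 4, fun θ => (cm_norm θ).le⟩, Slc_int ?_⟩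
  exact (Slc_gj_cont j).norm

theorem Slc_itd (j : ℕ) (c d : ℂ) : iteratedDeriv j (fun κ : ℂ => d * Complex.exp (c * κ)) 0 =
    d * c ^ j := by
  rw [iteratedDeriv_const_mul_field, iteratedDeriv_cexp_const_mul]
  simp

theorem sk_WK (j : ℕ) {T : ℝ} (hT : 3 ≤ T) (r : ℝ) : WK mc (gj j) cm T r = wj j T r / (Real.log T : ℂ) ^ j := by
  unfold WK wj winK
  by_cases hr : 0 < r
  · simp only [hr, if_true]
    have hr0 : (r : ℂ) ≠ 0 := by exact_mod_cast hr.ne'
    have h1 : ∀ κ : ℂ, (win T r : ℂ) * (r : ℂ) ^ (κ / (Real.log T : ℂ)) =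
        (win T r : ℂ) * Complex.exp ((Complex.log r / (Real.log T : ℂ)) * κ) := by
      intro κ
      rw [Complex.cpow_def_of_ne_zero hr0]
      congr 2
      ring
    simp only [h1]
    have h2 := circ_deriv j (f := fun κ : ℂ => (win T r : ℂ) * Complex.exp ((Complex.log r / (Real.log T : ℂ)) * κ))
      (by fun_prop)
    rw [h2, Slc_itd, div_pow, ← Complex.ofReal_log hr.le]
    ring
  · simp [hr]

theorem sk_RK (j : ℕ) : RK mc (gj j) cm = 1 := by
  unfold RK
  have h2 := circ_deriv j (f := fun κ : ℂ => 1 * Complex.exp (1 * κ)) (by fun_prop)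
  rw [Slc_itd] at h2
  simpa using h2

end H98.SZ
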