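import Pool.Agent.H98.SZ.GTm

/-!
# SZ / Sld: slots (definitions)

A slot is a weighted measurable family of shifts; averaging over it gives one factor of the coefficient sequence (`F1`, `F2`, `WK`) and one factor of the limit (`R1`, `R2`, `RK`).
`Sl1 F R`, `Sl2 F R` say that some slot has the coefficients `F L` and the limit factor `R t τ`.
-/

set_option autoImplicit false

open MeasureTheory Filter Topology

namespace H98.SZ

/-- slot with one shift `a` -/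
structure S1 {Θ : Type} [MeasurableSpace Θ] (ν : Measure Θ) (g a : Θ → ℂ) : Prop where
  mg : Measurable g
  ma : Measurable a
  ra : ∀ θ, -(1 / 2 : ℝ) ≤ (a θ).re ∧ (a θ).re ≤ 3
  int : ∀ K : ℕ, Integrable (fun θ => ‖g θ‖ * (1 + ‖a θ‖) ^ K) ν

/-- slot with a pair of shifts `(a; b)` -/
structure S2 {Θ : Type} [MeasurableSpace Θ] (ν : Measure Θ) (g a b : Θ → ℂ) : Prop where
  mg : Measurable g
  ma : Measurable a
  mb : Measurable b
  ra : ∀ θ, -(1 / 2 : ℝ) ≤ (a θ).re ∧ (a θ).re ≤ 3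
  rb : ∀ θ, -(1 / 2 : ℝ) ≤ (b θ).re ∧ (b θ).re ≤ 3
  int : ∀ K : ℕ, Integrable (fun θ => ‖g θ‖ * (1 + ‖a θ‖ + ‖b θ‖) ^ K) ν

/-- window slot -/
structure SK {Θ : Type} [MeasurableSpace Θ] (ν : Measure Θ) (g κ : Θ → ℂ) : Prop where
  mg : Measurable g
  mκ : Measurable κ
  κle : ∃ B : ℝ, ∀ θ, ‖κ θ‖ ≤ B
  int : Integrable (fun θ => ‖g θ‖) ν

/-- coefficients of a one-shift slot -/
noncomputable def F1 {Θ : Type} [MeasurableSpace Θ] (ν : Measure Θ) (g a : Θ → ℂ) (L : ℝ) : ArithmeticFunction ℂ :=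
  ⟨fun n => ∫ θ, g θ * pw (a θ / L) n ∂ν, by simp⟩

/-- coefficients of a pair slot -/
noncomputable def F2 {Θ : Type} [MeasurableSpace Θ] (ν : Measure Θ) (g a b : Θ → ℂ) (L : ℝ) : ArithmeticFunction ℂ :=
  ⟨fun n => ∫ θ, g θ * (pw (a θ / L) * mpw (b θ / L)) n ∂ν, by simp⟩

/-- the averaged window -/
noncomputable def WK {Θ : Type} [MeasurableSpace Θ] (ν : Measure Θ) (g κ : Θ → ℂ) (T r : ℝ) : ℂ :=
  ∫ θ, g θ * winK (κ θ) T r ∂ν

/-- limit factor of a one-shift slot -/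
noncomputable def R1 {Θ : Type} [MeasurableSpace Θ] (ν : Measure Θ) (g a : Θ → ℂ) (t τ : ℂ) : ℂ :=
  ∫ θ, g θ * ((τ + a θ) / (t + a θ)) ∂ν

/-- limit factor of a pair slot -/
noncomputable def R2 {Θ : Type} [MeasurableSpace Θ] (ν : Measure Θ) (g a b : Θ → ℂ) (t τ : ℂ) : ℂ :=
  ∫ θ, g θ * ((τ + a θ) / (t + a θ) * ((t + b θ) / (τ + b θ))) ∂ν

/-- limit factor of the window slot -/
noncomputable def RK {Θ : Type} [MeasurableSpace Θ] (ν : Measure Θ) (g κ : Θ → ℂ) : ℂ :=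
  ∫ θ, g θ * Complex.exp (κ θ) ∂ν

/-- `F L` and `R t τ` come from a one-shift slot -/
def Sl1 (F : ℝ → ArithmeticFunction ℂ) (R : ℂ → ℂ → ℂ) : Prop :=
  ∃ (Θ : Type) (_ : MeasurableSpace Θ) (ν : Measure Θ) (_ : SFinite ν) (g a : Θ → ℂ), S1 ν g a ∧
    (∀ L : ℝ, 1 ≤ L → F1 ν g a L = F L) ∧
    ∀ y ξ : ℝ, R1 ν g a (1 + Complex.I * y) (2 + Complex.I * ξ) = R (1 + Complex.I * y) (2 + Complex.I * ξ)

/-- `F L` and `R t τ` come from a pair slot -/
def Sl2 (F : ℝ → ArithmeticFunction ℂ) (R : ℂ → ℂ → ℂ) : Prop :=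
  ∃ (Θ : Type) (_ : MeasurableSpace Θ) (ν : Measure Θ) (_ : SFinite ν) (g a b : Θ → ℂ), S2 ν g a b ∧
    (∀ L : ℝ, 1 ≤ L → F2 ν g a b L = F L) ∧
    ∀ y ξ : ℝ, R2 ν g a b (1 + Complex.I * y) (2 + Complex.I * ξ) = R (1 + Complex.I * y) (2 + Complex.I * ξ)

/-- the constant function `1` -/
noncomputable def oF : ArithmeticFunction ℂ := pw 0

/-- `log n / L` -/
noncomputable def lgF (L : ℝ) : ArithmeticFunction ℂ := ⟨fun n => ((Real.log n / L : ℝ) : ℂ), by simp⟩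

/-- `Λ n / L` -/
noncomputable def LaF (L : ℝ) : ArithmeticFunction ℂ := ⟨fun n => ((ArithmeticFunction.vonMangoldt n / L : ℝ) : ℂ), by simp⟩

/-- `y(n) = Λ(n) α(log n / L) / L` -/
noncomputable def yF (α : ℝ → ℂ) (L : ℝ) : ArithmeticFunction ℂ :=
  ⟨fun n => ((ArithmeticFunction.vonMangoldt n / L : ℝ) : ℂ) * α (Real.log n / L), by simp⟩

/-- `x(n) = μ(n) P(log n / L)` -/
noncomputable def xF (P : ℝ → ℂ) (L : ℝ) : ArithmeticFunction ℂ :=
  ⟨fun n => (ArithmeticFunction.moebius n : ℂ) * P (Real.log n / L), by simp⟩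

/-- the window `w(r) log^j r` -/
noncomputable def wj (j : ℕ) (T r : ℝ) : ℂ := if 0 < r then (win T r : ℂ) * ((Real.log r : ℝ) : ℂ) ^ j else 0

/-- the measure on the circle parameter -/
noncomputable def mc : Measure ℝ := volume.restrict (Set.Ioc 0 (2 * Real.pi))

/-- the point of the circle of radius `1/4` -/
noncomputable def cm (φ : ℝ) : ℂ := circleMap 0 (1 / 4) φ

/-- the weight for minus the first derivative at `0` -/
noncomputable def gc (φ : ℝ) : ℂ := -(((1 / (2 * Real.pi) : ℝ) : ℂ) * (cm φ)⁻¹)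

/-- the weight for the `j`-th derivative at `0` -/
noncomputable def gj (j : ℕ) (φ : ℝ) : ℂ := (((j.factorial : ℝ) / (2 * Real.pi) : ℝ) : ℂ) * (cm φ)⁻¹ ^ j

end H98.SZ
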