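import Pool.Agent.H98.SZ.Defs

/-!
# SZ / Win: Mellin transform of the window (bound)

`L = log T`, `Δ = T/√L`, `win T r = exp(-u²)`, `u = (T - 2πr)/Δ`, `r = (T - Δu)/(2π)`, `dr = Δ/(2π) du` (up to sign); `u ≤ √L` for `r > 0`. `om T = Δ/(2√π) = ∫ win`.
* `win_conv`: continuous, `≤ exp(-c r²)`-decay at `∞`, bounded at `0`, `Re s > 0` (`mellinConvergent_of_isBigO_rpow_exp` or directly).
* first bound: for `|Re t| ≤ B`, `L ≥ 2B+2`, `T ≥ 10`: `∫ win r^(Re t/L) dr ≤ ∫_0^1 exp(-(T-2π)²/Δ²) r^(-1/2) dr + ∫_1^∞ win r^(B/L) dr`, and `r^(B/L) ≤ (T (1+|u|))^(B/L) ≤ e^B (1+|u|)` for `r ≥ 1`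
  (`r ≤ T(1+|u|)`); `exp(-(T-2π)²/Δ²) ≤ exp(-L/4)` and `om T ≥ 1`.
* second bound: two integrations by parts on `(0,∞)` (`Re(1+z) ≥ 1/2`, boundary terms vanish): `∫ win r^z dr = ((z+1)(z+2))⁻¹ ∫ win'' r^(z+2) dr`, `|win''| ≤ C Δ^(-2) (1+u²) exp(-u²)`,
  `∫ |win''| r^(2+Re z) dr ≤ C Δ^(-2) T² om = C L om`; `|z+1||z+2| ≥ (Im z)²`, `z = t/L`, `Im z = Im t/L`: `≤ C om L³/(Im t)²`.
* combine: for `|Im t| ≥ 1`, `L³/(Im t)² ≤ 2 L³/(1+(Im t)²)`; for `|Im t| < 1` the minimum is `1` (`L³ ≥ 2`).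
-/

set_option autoImplicit false

open Filter Topology MeasureTheory

namespace H98.SZ

/-- the Gaussian -/
noncomputable def Win_g (L x : ℝ) : ℝ := Real.exp (-(L * (1 - x) ^ 2))

lemma Win_eq {T : ℝ} (hT : 3 ≤ T) (r : ℝ) :
    win T r = Win_g (Real.log T) (2 * Real.pi / T * r) := by
  have hT0 : 0 < T := by linarith
  have hL : 0 ≤ Real.log T := Real.log_nonneg (by linarith)
  unfold win Win_g
  congr 2
  have : (T - 2 * Real.pi * r) / (T / Real.sqrt (Real.log T)) =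
      Real.sqrt (Real.log T) * (1 - 2 * Real.pi / T * r) := by
    by_cases h : Real.sqrt (Real.log T) = 0
    · simp [h]
    · field_simp
  rw [this, mul_pow, Real.sq_sqrt hL]

lemma Win_log {T : ℝ} (hT : 3 ≤ T) : 1 < Real.log T := by
  have h1 : Real.exp 1 < T := lt_of_lt_of_le (by have := Real.exp_one_lt_d9; linarith) hT
  have h2 := Real.log_lt_log (Real.exp_pos 1) h1
  rwa [Real.log_exp] at h2

lemma Win_g_le {L : ℝ} (hL : 0 < L) (x : ℝ) :
    Win_g L x ≤ Real.exp (1 + 1 / (4 * L)) * Real.exp (-1 * x) := by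
  unfold Win_g
  rw [← Real.exp_add]
  apply Real.exp_le_exp.mpr
  have h := sq_nonneg (2 * L * (x - 1) - 1)
  have h2 : L * (1 - x) ^ 2 - (x - 1) + 1 / (4 * L) = (2 * L * (x - 1) - 1) ^ 2 / (4 * L) := by
    field_simp; ring
  have h3 : 0 ≤ (2 * L * (x - 1) - 1) ^ 2 / (4 * L) := by positivity
  linarith

lemma Win_g_cont (L : ℝ) : Continuous (Win_g L) := by
  unfold Win_g; fun_prop

lemma Win_g_pos (L x : ℝ) : 0 < Win_g L x := Real.exp_pos _

lemma Win_g_le_one {L : ℝ} (hL : 0 ≤ L) (x : ℝ) : Win_g L x ≤ 1 := by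
  unfold Win_g
  apply Real.exp_le_one_iff.mpr
  have : 0 ≤ L * (1 - x) ^ 2 := by positivity
  linarith

lemma Win_g_conv {L : ℝ} (hL : 0 < L) {s : ℂ} (hs : 0 < s.re) :
    MellinConvergent (fun x : ℝ => (Win_g L x : ℂ)) s := by
  refine mellinConvergent_of_isBigO_rpow_exp (a := 1) (b := 0) one_pos ?_ ?_ ?_ hs
  · exact (Complex.continuous_ofReal.comp (Win_g_cont L)).locallyIntegrable.locallyIntegrableOn _
  · refine Asymptotics.IsBigO.of_bound (Real.exp (1 + 1 / (4 * L))) (Eventually.of_forall fun x => ?_)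
    rw [Complex.norm_real, Real.norm_eq_abs, abs_of_nonneg (Win_g_pos L x).le,
      Real.norm_eq_abs, abs_of_nonneg (Real.exp_pos _).le]
    exact Win_g_le hL x
  · refine Asymptotics.IsBigO.of_bound 1 (Eventually.of_forall fun x => ?_)
    rw [Complex.norm_real, Real.norm_eq_abs, abs_of_nonneg (Win_g_pos L x).le, neg_zero,
      Real.rpow_zero, norm_one, mul_one]
    exact Win_g_le_one hL.le x

lemma Win_gauss {L : ℝ} (hL : 0 < L) :
    Integrable (Win_g (L / 2)) ∧ ∫ x, Win_g (L / 2) x = Real.sqrt (2 * Real.pi / L) := by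
  have h0 : 0 < L / 2 := by positivity
  have e : Win_g (L / 2) = fun x => (fun y : ℝ => Real.exp (-(L / 2) * y ^ 2)) (1 - x) := by
    funext x; unfold Win_g; simp only; congr 1; ring
  constructor
  · rw [e]
    exact (integrable_exp_neg_mul_sq h0).comp_sub_left 1
  · rw [e, integral_sub_left_eq_self (fun y : ℝ => Real.exp (-(L / 2) * y ^ 2)) volume 1,
      integral_gaussian]
    congr 1; field_simp

/-- `u = √L |1 - x|` -/
noncomputable def Win_u (L x : ℝ) : ℝ := Real.sqrt L * |1 - x|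

lemma Win_u_nn (L x : ℝ) : 0 ≤ Win_u L x := by unfold Win_u; positivity

lemma Win_u_sq {L : ℝ} (hL : 0 ≤ L) (x : ℝ) : Win_u L x ^ 2 = L * (1 - x) ^ 2 := by
  unfold Win_u; rw [mul_pow, Real.sq_sqrt hL, sq_abs]

lemma Win_x_le {L : ℝ} (hL : 1 ≤ L) (x : ℝ) : x ≤ 1 + Win_u L x := by
  unfold Win_u
  have h1 : 1 ≤ Real.sqrt L := Real.one_le_sqrt.mpr hL
  have h2 := neg_abs_le (1 - x)
  have h3 := abs_nonneg (1 - x)
  nlinarith

lemma Win_poly {L : ℝ} (hL : 0 ≤ L) (x : ℝ) :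
    (1 + Win_u L x) ^ 5 * Win_g L x ≤ Real.exp (25 / 2) * Win_g (L / 2) x := by
  have hu := Win_u_nn L x
  have h1 : (1 + Win_u L x) ^ 5 ≤ Real.exp (5 * Win_u L x) := by
    have h2 : 1 + Win_u L x ≤ Real.exp (Win_u L x) := by
      have := Real.add_one_le_exp (Win_u L x); linarith
    calc (1 + Win_u L x) ^ 5 ≤ Real.exp (Win_u L x) ^ 5 := by gcongr
      _ = Real.exp (5 * Win_u L x) := by rw [← Real.exp_nat_mul]; norm_num
  have h3 : Real.exp (5 * Win_u L x) ≤ Real.exp (25 / 2 + L * (1 - x) ^ 2 / 2) := by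
    apply Real.exp_le_exp.mpr
    have := sq_nonneg (Win_u L x - 5)
    have h4 := Win_u_sq hL x
    nlinarith
  calc (1 + Win_u L x) ^ 5 * Win_g L x
      ≤ Real.exp (25 / 2 + L * (1 - x) ^ 2 / 2) * Win_g L x := by
        gcongr
        · exact (Win_g_pos L x).le
        · exact h1.trans h3
    _ = _ := by unfold Win_g; rw [← Real.exp_add, ← Real.exp_add]; congr 1; ring

/-- first pointwise bound -/
lemma Win_pt1 {L : ℝ} (hL : 1 ≤ L) {a x : ℝ} (ha : |a| ≤ 1 / 2) (hx : 0 < x) :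
    x ^ a * Win_g L x ≤ Real.exp (-(L / 4)) * (Set.Ioc (0:ℝ) 1).indicator (fun y => y ^ (-(1 / 2) : ℝ)) x +
      2 * Real.exp (25 / 2) * Win_g (L / 2) x := by
  have ha' := abs_le.mp ha
  have hu := Win_u_nn L x
  have hg := Win_g_pos L x
  have hg2 := Win_g_pos (L / 2) x
  rcases le_or_gt x (1 / 2) with h | h
  · have h1 : x ∈ Set.Ioc (0:ℝ) 1 := ⟨hx, by linarith⟩
    rw [Set.indicator_of_mem h1]
    have h2 : x ^ a ≤ x ^ (-(1 / 2) : ℝ) :=
      Real.rpow_le_rpow_of_exponent_ge hx (by linarith) (by linarith)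
    have h3 : Win_g L x ≤ Real.exp (-(L / 4)) := by
      unfold Win_g
      apply Real.exp_le_exp.mpr
      have : (1:ℝ) / 4 ≤ (1 - x) ^ 2 := by nlinarith
      nlinarith
    have h4 : x ^ a * Win_g L x ≤ Real.exp (-(L / 4)) * x ^ (-(1 / 2) : ℝ) := by
      rw [mul_comm (Real.exp _)]
      exact mul_le_mul h2 h3 hg.le (by positivity)
    have h5 : 0 ≤ 2 * Real.exp (25 / 2) * Win_g (L / 2) x := by positivity
    linarith
  · have h1 : x ^ a ≤ 2 * (1 + Win_u L x) := by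
      rcases le_or_gt x 1 with h' | h'
      · have h2 : x ^ a ≤ x ^ (-1 : ℝ) :=
          Real.rpow_le_rpow_of_exponent_ge hx h' (by linarith)
        rw [Real.rpow_neg_one] at h2
        have h3 : x⁻¹ ≤ 2 := by
          rw [inv_le_comm₀ hx (by norm_num)]; linarith
        linarith
      · have h2 : x ^ a ≤ x ^ (1 : ℝ) :=
          Real.rpow_le_rpow_of_exponent_le h'.le (by linarith)
        rw [Real.rpow_one] at h2
        have := Win_x_le hL x
        linarith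
    have h2 : x ^ a * Win_g L x ≤ 2 * Real.exp (25 / 2) * Win_g (L / 2) x := by
      have h3 := Win_poly (by linarith : 0 ≤ L) x
      have h4 : (1 + Win_u L x) ≤ (1 + Win_u L x) ^ 5 := le_self_pow₀ (by linarith) (by norm_num)
      calc x ^ a * Win_g L x ≤ 2 * (1 + Win_u L x) ^ 5 * Win_g L x := by
            gcongr; linarith
        _ ≤ _ := by nlinarith
    have h5 : 0 ≤ Real.exp (-(L / 4)) *
        (Set.Ioc (0:ℝ) 1).indicator (fun y => y ^ (-(1 / 2) : ℝ)) x := by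
      refine mul_nonneg (Real.exp_pos _).le (Set.indicator_nonneg (fun y hy => ?_) x)
      exact Real.rpow_nonneg hy.1.le _
    linarith

/-- second pointwise bound -/
lemma Win_pt2 {L : ℝ} (hL : 1 ≤ L) {b x : ℝ} (hb0 : 0 ≤ b) (hb : b ≤ 3) (hx : 0 < x) :
    x ^ b * (1 + Win_u L x) ^ 2 * Win_g L x ≤ Real.exp (25 / 2) * Win_g (L / 2) x := by
  have hu := Win_u_nn L x
  have hg := Win_g_pos L x
  have h1 : x ^ b ≤ (1 + Win_u L x) ^ 3 := by
    calc x ^ b ≤ (1 + Win_u L x) ^ b := Real.rpow_le_rpow hx.le (Win_x_le hL x) hb0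
      _ ≤ (1 + Win_u L x) ^ (3 : ℝ) := Real.rpow_le_rpow_of_exponent_le (by linarith) hb
      _ = _ := by norm_cast
  calc x ^ b * (1 + Win_u L x) ^ 2 * Win_g L x
      ≤ (1 + Win_u L x) ^ 3 * (1 + Win_u L x) ^ 2 * Win_g L x := by gcongr
    _ = (1 + Win_u L x) ^ 5 * Win_g L x := by ring
    _ ≤ _ := Win_poly (by linarith) x

/-- the first bound for the Mellin transform of the Gaussian -/
lemma Win_m1 {L : ℝ} (hL : 1 ≤ L) {z : ℂ} (hz : |z.re| ≤ 1 / 2) :
    ‖mellin (fun x : ℝ => (Win_g L x : ℂ)) (1 + z)‖ ≤ (2 + 6 * Real.exp (25 / 2)) / Real.sqrt L := by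
  have hL0 : 0 < L := by linarith
  have hs : 0 < Real.sqrt L := Real.sqrt_pos.mpr hL0
  obtain ⟨hgi, hgv⟩ := Win_gauss hL0
  have hi1 : IntegrableOn (fun y : ℝ => y ^ (-(1 / 2) : ℝ)) (Set.Ioc 0 1) := by
    have := intervalIntegral.intervalIntegrable_rpow' (a := 0) (b := 1)
      (r := -(1 / 2)) (by norm_num)
    exact (intervalIntegrable_iff_integrableOn_Ioc_of_le zero_le_one).mp this
  have hi2 : Integrable ((Set.Ioc (0:ℝ) 1).indicator (fun y => y ^ (-(1 / 2) : ℝ))) :=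
    hi1.integrable_indicator measurableSet_Ioc
  have hv : ∫ x, (Set.Ioc (0:ℝ) 1).indicator (fun y => y ^ (-(1 / 2) : ℝ)) x = 2 := by
    rw [integral_indicator measurableSet_Ioc, ← intervalIntegral.integral_of_le zero_le_one,
      integral_rpow (Or.inl (by norm_num))]
    norm_num
  have hm : Integrable (fun x => Real.exp (-(L / 4)) *
      (Set.Ioc (0:ℝ) 1).indicator (fun y => y ^ (-(1 / 2) : ℝ)) x +
        2 * Real.exp (25 / 2) * Win_g (L / 2) x) :=
    (hi2.const_mul _).add (hgi.const_mul _)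
  have h1 : ‖mellin (fun x : ℝ => (Win_g L x : ℂ)) (1 + z)‖ ≤
      ∫ x in Set.Ioi (0:ℝ), (Real.exp (-(L / 4)) *
      (Set.Ioc (0:ℝ) 1).indicator (fun y => y ^ (-(1 / 2) : ℝ)) x +
        2 * Real.exp (25 / 2) * Win_g (L / 2) x) := by
    unfold mellin
    refine norm_integral_le_of_norm_le hm.integrableOn ?_
    refine (ae_restrict_iff' measurableSet_Ioi).mpr (Eventually.of_forall fun x hx => ?_)
    have hx : 0 < x := hx
    rw [norm_smul, Complex.norm_real, Real.norm_eq_abs, abs_of_nonneg (Win_g_pos L x).le,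
      Complex.norm_cpow_eq_rpow_re_of_pos hx, add_sub_cancel_left]
    exact Win_pt1 hL hz hx
  refine h1.trans ?_
  have h2 : ∫ x in Set.Ioi (0:ℝ), (Real.exp (-(L / 4)) *
      (Set.Ioc (0:ℝ) 1).indicator (fun y => y ^ (-(1 / 2) : ℝ)) x +
        2 * Real.exp (25 / 2) * Win_g (L / 2) x) ≤
      ∫ x, (Real.exp (-(L / 4)) *
      (Set.Ioc (0:ℝ) 1).indicator (fun y => y ^ (-(1 / 2) : ℝ)) x +
        2 * Real.exp (25 / 2) * Win_g (L / 2) x) := by
    refine setIntegral_le_integral hm (Eventually.of_forall fun x => ?_)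
    have h5 : 0 ≤ Real.exp (-(L / 4)) *
        (Set.Ioc (0:ℝ) 1).indicator (fun y => y ^ (-(1 / 2) : ℝ)) x := by
      refine mul_nonneg (Real.exp_pos _).le (Set.indicator_nonneg (fun y hy => ?_) x)
      exact Real.rpow_nonneg hy.1.le _
    have h6 := (Win_g_pos (L / 2) x).le
    show (0:ℝ) ≤ _
    positivity
  refine h2.trans ?_
  rw [integral_add (hi2.const_mul _) (hgi.const_mul _), integral_const_mul, integral_const_mul,
    hv, hgv]
  have h3 : Real.exp (-(L / 4)) ≤ 1 / Real.sqrt L := by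
    rw [Real.exp_neg, ← one_div]
    refine one_div_le_one_div_of_le hs ?_
    have h4 := Real.add_one_le_exp (L / 4)
    have h5 := Real.sq_sqrt hL0.le
    have h6 := sq_nonneg (Real.sqrt L - 2)
    nlinarith
  have h4 : Real.sqrt (2 * Real.pi / L) ≤ 3 / Real.sqrt L := by
    rw [Real.sqrt_div (by positivity)]
    gcongr
    rw [Real.sqrt_le_left (by norm_num)]
    have := Real.pi_lt_d2
    linarith
  have h7 := Real.exp_pos (25 / 2 : ℝ)
  calc Real.exp (-(L / 4)) * 2 + 2 * Real.exp (25 / 2) * Real.sqrt (2 * Real.pi / L)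
      ≤ 1 / Real.sqrt L * 2 + 2 * Real.exp (25 / 2) * (3 / Real.sqrt L) := by gcongr
    _ = _ := by ring

lemma Win_der (L x : ℝ) : HasDerivAt (Win_g L) (2 * L * (1 - x) * Win_g L x) x := by
  unfold Win_g
  have h : HasDerivAt (fun y : ℝ => -(L * (1 - y) ^ 2)) (2 * L * (1 - x)) x := by
    have h1 : HasDerivAt (fun y : ℝ => 1 - y) (-1) x := by
      simpa using (hasDerivAt_id x).const_sub 1
    have h2 := ((h1.pow 2).const_mul L).neg
    have e : 2 * L * (1 - x) = -(L * (((2 : ℕ) : ℝ) * (1 - x) ^ (2 - 1) * -1)) := by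
      push_cast; ring
    rw [e]
    exact h2
  have h3 := h.exp
  rw [mul_comm] at h3
  exact h3

lemma Win_der2 (L x : ℝ) : HasDerivAt (fun y => 2 * L * (1 - y) * Win_g L y)
    ((4 * L ^ 2 * (1 - x) ^ 2 - 2 * L) * Win_g L x) x := by
  have h1 : HasDerivAt (fun y : ℝ => 2 * L * (1 - y)) (2 * L * (-1)) x := by
    have : HasDerivAt (fun y : ℝ => 1 - y) (-1) x := by
      simpa using (hasDerivAt_id x).const_sub 1
    exact this.const_mul _
  have h2 := h1.mul (Win_der L x)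
  have e : (4 * L ^ 2 * (1 - x) ^ 2 - 2 * L) * Win_g L x =
      2 * L * (-1) * Win_g L x + 2 * L * (1 - x) * (2 * L * (1 - x) * Win_g L x) := by ring
  rw [e]
  exact h2

/-- the second bound for the Mellin transform of the Gaussian -/
lemma Win_m2 {L : ℝ} (hL : 1 ≤ L) {z : ℂ} (hz : |z.re| ≤ 1 / 2) (hz2 : z.im ≠ 0) :
    ‖mellin (fun x : ℝ => (Win_g L x : ℂ)) (1 + z)‖ ≤
      12 * Real.exp (25 / 2) * Real.sqrt L / z.im ^ 2 := by
  have hL0 : 0 < L := by linarith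
  have ha := abs_le.mp hz
  have hs : 0 < Real.sqrt L := Real.sqrt_pos.mpr hL0
  obtain ⟨hgi, hgv⟩ := Win_gauss hL0
  have hr1 : 0 < (z + 1).re := by rw [Complex.add_re, Complex.one_re]; linarith
  have hr2 : 0 < (z + 1 + 1).re := by
    rw [Complex.add_re, Complex.one_re]; linarith
  have hn1 : z + 1 ≠ 0 := fun h => by rw [h] at hr1; simp at hr1
  have hn2 : z + 1 + 1 ≠ 0 := fun h => by rw [h] at hr2; simp at hr2
  have hz1 : z ≠ -1 := fun h => hn1 (by rw [h]; ring)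
  have hz3 : z + 1 ≠ -1 := fun h => hn2 (by rw [h]; ring)
  -- the primitive functions
  set U1 : ℝ → ℂ := fun y => (y : ℂ) ^ (z + 1) / (z + 1) with hU1
  set U2 : ℝ → ℂ := fun y => (y : ℂ) ^ (z + 1 + 1) / (z + 1 + 1) / (z + 1) with hU2
  set F : ℝ → ℂ := fun y => U1 y * (Win_g L y : ℂ) - U2 y * ((2 * L * (1 - y) * Win_g L y : ℝ) : ℂ)
    with hF
  set F' : ℝ → ℂ := fun y => (y : ℂ) ^ z * (Win_g L y : ℂ) -
    U2 y * (((4 * L ^ 2 * (1 - y) ^ 2 - 2 * L) * Win_g L y : ℝ) : ℂ) with hF'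
  have hdU1 : ∀ x : ℝ, 0 < x → HasDerivAt U1 ((x : ℂ) ^ z) x := fun x hx =>
    hasDerivAt_ofReal_cpow_const' hx.ne' hz1
  have hdU2 : ∀ x : ℝ, 0 < x → HasDerivAt U2 (U1 x) x := fun x hx => by
    have h := (hasDerivAt_ofReal_cpow_const' (x := x) (r := z + 1) hx.ne' hz3).div_const (z + 1)
    exact h
  have hd : ∀ x ∈ Set.Ioi (0:ℝ), HasDerivAt F (F' x) x := by
    intro x hx
    have h1 := (hdU1 x hx).mul (Win_der L x).ofReal_comp
    have h2 := (hdU2 x hx).mul (Win_der2 L x).ofReal_comp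
    have h3 := h1.sub h2
    have e : F' x = ((x : ℂ) ^ z * (Win_g L x : ℂ) + U1 x * ((2 * L * (1 - x) * Win_g L x : ℝ) : ℂ)) -
        (U1 x * ((2 * L * (1 - x) * Win_g L x : ℝ) : ℂ) +
          U2 x * (((4 * L ^ 2 * (1 - x) ^ 2 - 2 * L) * Win_g L x : ℝ) : ℂ)) := by
      rw [hF']; ring
    rw [e]
    exact h3
  -- norms
  have hN1 : ∀ x : ℝ, 0 < x → ‖U1 x‖ = x ^ (z.re + 1) / ‖z + 1‖ := fun x hx => by
    rw [hU1]
    simp only
    rw [norm_div, Complex.norm_cpow_eq_rpow_re_of_pos hx, Complex.add_re, Complex.one_re]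
  have hN2 : ∀ x : ℝ, 0 < x → ‖U2 x‖ = x ^ (z.re + 2) / (‖z + 1 + 1‖ * ‖z + 1‖) := fun x hx => by
    rw [hU2]
    simp only
    rw [norm_div, norm_div, Complex.norm_cpow_eq_rpow_re_of_pos hx, div_div]
    congr 2
    simp; ring
  have hb2 : ∀ x : ℝ, 0 < x →
      ‖U2 x * (((4 * L ^ 2 * (1 - x) ^ 2 - 2 * L) * Win_g L x : ℝ) : ℂ)‖ ≤
        4 * L * Real.exp (25 / 2) / (‖z + 1 + 1‖ * ‖z + 1‖) * Win_g (L / 2) x := by
    intro x hx
    have hg := Win_g_pos L x
    have hu := Win_u_nn L x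
    rw [norm_mul, hN2 x hx, Complex.norm_real, Real.norm_eq_abs, abs_mul, abs_of_pos hg]
    have h1 : |4 * L ^ 2 * (1 - x) ^ 2 - 2 * L| ≤ 4 * L * (1 + Win_u L x) ^ 2 := by
      have h2 := Win_u_sq hL0.le x
      have h3 : 4 * L ^ 2 * (1 - x) ^ 2 = 4 * L * Win_u L x ^ 2 := by rw [h2]; ring
      rw [h3, abs_le]
      constructor
      · nlinarith [mul_nonneg hL0.le (sq_nonneg (Win_u L x)), mul_nonneg hL0.le hu]
      · nlinarith [mul_nonneg hL0.le (sq_nonneg (Win_u L x)), mul_nonneg hL0.le hu]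
    have h4 := Win_pt2 hL (b := z.re + 2) (by linarith) (by linarith) hx
    calc x ^ (z.re + 2) / (‖z + 1 + 1‖ * ‖z + 1‖) * (|4 * L ^ 2 * (1 - x) ^ 2 - 2 * L| * Win_g L x)
        ≤ x ^ (z.re + 2) / (‖z + 1 + 1‖ * ‖z + 1‖) * (4 * L * (1 + Win_u L x) ^ 2 * Win_g L x) := by
          gcongr
      _ = 4 * L / (‖z + 1 + 1‖ * ‖z + 1‖) *
          (x ^ (z.re + 2) * (1 + Win_u L x) ^ 2 * Win_g L x) := by ring
      _ ≤ 4 * L / (‖z + 1 + 1‖ * ‖z + 1‖) * (Real.exp (25 / 2) * Win_g (L / 2) x) := by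
          gcongr
      _ = _ := by ring
  have hbF : ∀ x : ℝ, 0 < x → ‖F x‖ ≤
      (Real.exp (25 / 2) / ‖z + 1‖ + 2 * L * Real.exp (25 / 2) / (‖z + 1 + 1‖ * ‖z + 1‖)) *
        Win_g (L / 2) x := by
    intro x hx
    have hg := Win_g_pos L x
    have hu := Win_u_nn L x
    have h1u : 1 + Win_u L x ≤ (1 + Win_u L x) ^ 2 := le_self_pow₀ (by linarith) (by norm_num)
    have h1u' : 1 ≤ (1 + Win_u L x) ^ 2 := one_le_pow₀ (by linarith)
    rw [hF]
    simp only
    refine (norm_sub_le _ _).trans ?_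
    have h1 : ‖U1 x * (Win_g L x : ℂ)‖ ≤ Real.exp (25 / 2) / ‖z + 1‖ * Win_g (L / 2) x := by
      rw [norm_mul, hN1 x hx, Complex.norm_real, Real.norm_eq_abs, abs_of_pos hg]
      have h4 := Win_pt2 hL (b := z.re + 1) (by linarith) (by linarith) hx
      calc x ^ (z.re + 1) / ‖z + 1‖ * Win_g L x
          = 1 / ‖z + 1‖ * (x ^ (z.re + 1) * 1 * Win_g L x) := by ring
        _ ≤ 1 / ‖z + 1‖ * (x ^ (z.re + 1) * (1 + Win_u L x) ^ 2 * Win_g L x) := by gcongr
        _ ≤ 1 / ‖z + 1‖ * (Real.exp (25 / 2) * Win_g (L / 2) x) := by gcongr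
        _ = _ := by ring
    have h2 : ‖U2 x * ((2 * L * (1 - x) * Win_g L x : ℝ) : ℂ)‖ ≤
        2 * L * Real.exp (25 / 2) / (‖z + 1 + 1‖ * ‖z + 1‖) * Win_g (L / 2) x := by
      rw [norm_mul, hN2 x hx, Complex.norm_real, Real.norm_eq_abs, abs_mul, abs_of_pos hg]
      have h3 : |2 * L * (1 - x)| ≤ 2 * L * (1 + Win_u L x) ^ 2 := by
        rw [abs_mul, abs_of_pos (by positivity : (0:ℝ) < 2 * L)]
        gcongr
        have h5 : |1 - x| ≤ Win_u L x := by
          unfold Win_u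
          have : 1 ≤ Real.sqrt L := Real.one_le_sqrt.mpr hL
          nlinarith [abs_nonneg (1 - x)]
        linarith
      have h4 := Win_pt2 hL (b := z.re + 2) (by linarith) (by linarith) hx
      calc x ^ (z.re + 2) / (‖z + 1 + 1‖ * ‖z + 1‖) * (|2 * L * (1 - x)| * Win_g L x)
          ≤ x ^ (z.re + 2) / (‖z + 1 + 1‖ * ‖z + 1‖) * (2 * L * (1 + Win_u L x) ^ 2 * Win_g L x) := by
            gcongr
        _ = 2 * L / (‖z + 1 + 1‖ * ‖z + 1‖) *
            (x ^ (z.re + 2) * (1 + Win_u L x) ^ 2 * Win_g L x) := by ring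
        _ ≤ 2 * L / (‖z + 1 + 1‖ * ‖z + 1‖) * (Real.exp (25 / 2) * Win_g (L / 2) x) := by
            gcongr
        _ = _ := by ring
    rw [add_mul]
    exact add_le_add h1 h2
  -- continuity and integrability
  have hcp : ∀ w : ℂ, ContinuousOn (fun x : ℝ => (x : ℂ) ^ w) (Set.Ioi 0) := fun w x hx =>
    (Complex.continuousAt_ofReal_cpow_const x w (Or.inr (ne_of_gt hx))).continuousWithinAt
  have hgc : Continuous fun x : ℝ => (Win_g L x : ℂ) := Complex.continuous_ofReal.comp (Win_g_cont L)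
  have hint1 : IntegrableOn (fun y : ℝ => (y : ℂ) ^ z * (Win_g L y : ℂ)) (Set.Ioi 0) := by
    have h := Win_g_conv hL0 (s := 1 + z) (by rw [Complex.add_re, Complex.one_re]; linarith)
    unfold MellinConvergent at h
    simpa only [add_sub_cancel_left, smul_eq_mul] using h
  have hcU2 : ContinuousOn U2 (Set.Ioi 0) := ((hcp (z + 1 + 1)).div_const _).div_const _
  have hc2 : Continuous fun x : ℝ => (((4 * L ^ 2 * (1 - x) ^ 2 - 2 * L) * Win_g L x : ℝ) : ℂ) := by
    have := Win_g_cont L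
    fun_prop
  have hint2 : IntegrableOn (fun y : ℝ => U2 y *
      (((4 * L ^ 2 * (1 - y) ^ 2 - 2 * L) * Win_g L y : ℝ) : ℂ)) (Set.Ioi 0) := by
    refine Integrable.mono' ((hgi.const_mul
      (4 * L * Real.exp (25 / 2) / (‖z + 1 + 1‖ * ‖z + 1‖))).integrableOn) ?_ ?_
    · exact (hcU2.mul hc2.continuousOn).aestronglyMeasurable measurableSet_Ioi
    · exact (ae_restrict_iff' measurableSet_Ioi).mpr (Eventually.of_forall fun x hx => hb2 x hx)
  have hF0 : F 0 = 0 := by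
    rw [hF, hU1, hU2]
    simp only [Complex.ofReal_zero]
    rw [Complex.zero_cpow hn1, Complex.zero_cpow hn2]
    simp
  have hcF : ContinuousWithinAt F (Set.Ici 0) 0 := by
    apply ContinuousAt.continuousWithinAt
    have h1 : ContinuousAt (fun x : ℝ => (x : ℂ) ^ (z + 1)) 0 :=
      Complex.continuousAt_ofReal_cpow_const 0 _ (Or.inl hr1)
    have h2 : ContinuousAt (fun x : ℝ => (x : ℂ) ^ (z + 1 + 1)) 0 :=
      Complex.continuousAt_ofReal_cpow_const 0 _ (Or.inl hr2)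
    have h3 : Continuous fun x : ℝ => ((2 * L * (1 - x) * Win_g L x : ℝ) : ℂ) := by
      have := Win_g_cont L
      fun_prop
    exact ((h1.div_const _).mul hgc.continuousAt).sub
      (((h2.div_const _).div_const _).mul h3.continuousAt)
  have htend : Tendsto F atTop (𝓝 0) := by
    have hexp : Tendsto (fun x : ℝ => Real.exp (-1 * x)) atTop (𝓝 0) := by
      simpa using Real.tendsto_exp_neg_atTop_nhds_zero
    have hW : Tendsto (fun x : ℝ => (Real.exp (25 / 2) / ‖z + 1‖ +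
        2 * L * Real.exp (25 / 2) / (‖z + 1 + 1‖ * ‖z + 1‖)) *
        (Real.exp (1 + 1 / (4 * (L / 2))) * Real.exp (-1 * x))) atTop (𝓝 0) := by
      simpa using (hexp.const_mul (Real.exp (1 + 1 / (4 * (L / 2))))).const_mul
        (Real.exp (25 / 2) / ‖z + 1‖ + 2 * L * Real.exp (25 / 2) / (‖z + 1 + 1‖ * ‖z + 1‖))
    refine squeeze_zero_norm' ?_ hW
    filter_upwards [eventually_gt_atTop 0] with x hx
    refine (hbF x hx).trans ?_
    gcongr
    exact Win_g_le (by positivity) x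
  have hkey := integral_Ioi_of_hasDerivAt_of_tendsto hcF hd (hint1.sub hint2) htend
  rw [hF0, sub_zero] at hkey
  have hkey2 : ∫ y in Set.Ioi (0:ℝ), (y : ℂ) ^ z * (Win_g L y : ℂ) =
      ∫ y in Set.Ioi (0:ℝ), U2 y * (((4 * L ^ 2 * (1 - y) ^ 2 - 2 * L) * Win_g L y : ℝ) : ℂ) := by
    rw [hF', integral_sub hint1 hint2] at hkey
    exact sub_eq_zero.mp hkey
  have hmel : mellin (fun x : ℝ => (Win_g L x : ℂ)) (1 + z) =
      ∫ y in Set.Ioi (0:ℝ), (y : ℂ) ^ z * (Win_g L y : ℂ) := by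
    unfold mellin
    simp only [add_sub_cancel_left, smul_eq_mul]
  rw [hmel, hkey2]
  have h1 : ‖∫ y in Set.Ioi (0:ℝ), U2 y *
      (((4 * L ^ 2 * (1 - y) ^ 2 - 2 * L) * Win_g L y : ℝ) : ℂ)‖ ≤
      ∫ y in Set.Ioi (0:ℝ), 4 * L * Real.exp (25 / 2) / (‖z + 1 + 1‖ * ‖z + 1‖) *
        Win_g (L / 2) y := by
    refine norm_integral_le_of_norm_le (hgi.const_mul _).integrableOn ?_
    exact (ae_restrict_iff' measurableSet_Ioi).mpr (Eventually.of_forall fun x hx => hb2 x hx)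
  have h2 : ∫ y in Set.Ioi (0:ℝ), 4 * L * Real.exp (25 / 2) / (‖z + 1 + 1‖ * ‖z + 1‖) *
        Win_g (L / 2) y ≤ ∫ y, 4 * L * Real.exp (25 / 2) / (‖z + 1 + 1‖ * ‖z + 1‖) *
        Win_g (L / 2) y := by
    refine setIntegral_le_integral (hgi.const_mul _) (Eventually.of_forall fun x => ?_)
    have := (Win_g_pos (L / 2) x).le
    show (0:ℝ) ≤ _
    positivity
  refine (h1.trans h2).trans ?_
  rw [integral_const_mul, hgv]
  have h4 : Real.sqrt (2 * Real.pi / L) ≤ 3 / Real.sqrt L := by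
    rw [Real.sqrt_div (by positivity)]
    gcongr
    rw [Real.sqrt_le_left (by norm_num)]
    have := Real.pi_lt_d2
    linarith
  have h5 : z.im ^ 2 ≤ ‖z + 1 + 1‖ * ‖z + 1‖ := by
    have h6 : |z.im| ≤ ‖z + 1‖ := by
      have := Complex.abs_im_le_norm (z + 1)
      simpa using this
    have h7 : |z.im| ≤ ‖z + 1 + 1‖ := by
      have := Complex.abs_im_le_norm (z + 1 + 1)
      simpa using this
    rw [← sq_abs, sq]
    exact mul_le_mul h7 h6 (abs_nonneg _) (norm_nonneg _)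
  have h8 : 0 < z.im ^ 2 := by positivity
  calc 4 * L * Real.exp (25 / 2) / (‖z + 1 + 1‖ * ‖z + 1‖) * Real.sqrt (2 * Real.pi / L)
      ≤ 4 * L * Real.exp (25 / 2) / z.im ^ 2 * (3 / Real.sqrt L) := by gcongr
    _ = 12 * Real.exp (25 / 2) * (L / Real.sqrt L) / z.im ^ 2 := by ring
    _ = _ := by rw [Real.div_sqrt]

lemma Win_mw {T : ℝ} (hT : 3 ≤ T) (s : ℂ) :
    mw T s = ((2 * Real.pi / T : ℝ) : ℂ) ^ (-s) *
      mellin (fun x : ℝ => (Win_g (Real.log T) x : ℂ)) s := by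
  have hT0 : 0 < T := by linarith
  have e : (fun r : ℝ => (win T r : ℂ)) =
      fun r : ℝ => (fun x : ℝ => (Win_g (Real.log T) x : ℂ)) (2 * Real.pi / T * r) := by
    funext r; rw [Win_eq hT]
  unfold mw
  rw [e, mellin_comp_mul_left (fun x : ℝ => (Win_g (Real.log T) x : ℂ)) s
    (a := 2 * Real.pi / T) (by positivity), smul_eq_mul]

theorem win_conv {T : ℝ} (hT : 3 ≤ T) {s : ℂ} (hs : 0 < s.re) : MellinConvergent (fun r : ℝ => (win T r : ℂ)) s := by
  have hT0 : 0 < T := by linarith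
  have h := (MellinConvergent.comp_mul_left (f := fun x : ℝ => (Win_g (Real.log T) x : ℂ))
    (s := s) (a := 2 * Real.pi / T) (by positivity)).mpr
      (Win_g_conv (by linarith [Win_log hT]) hs)
  have e : (fun r : ℝ => (win T r : ℂ)) =
      fun r : ℝ => (Win_g (Real.log T) (2 * Real.pi / T * r) : ℂ) := by
    funext r; rw [Win_eq hT]
  rw [e]
  exact h

theorem mw_bound (B : ℝ) : ∃ C T0 : ℝ, 0 ≤ C ∧ 3 ≤ T0 ∧ ∀ T : ℝ, T0 ≤ T → ∀ t : ℂ, |t.re| ≤ B →
    ‖mw T (1 + t / (Real.log T : ℂ))‖ ≤ C * om T * min 1 (Real.log T ^ 3 / (1 + t.im ^ 2)) := by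
  set K : ℝ := 2 + 24 * Real.exp (25 / 2) with hK
  have hK0 : 0 < K := by positivity
  refine ⟨Real.exp B * (2 * Real.sqrt Real.pi) * K, max 7 (Real.exp (2 * |B| + 2)), by positivity,
    le_trans (by norm_num) (le_max_left _ _), ?_⟩
  intro T hT t ht
  have hT7 : 7 ≤ T := le_trans (le_max_left _ _) hT
  have hT3 : 3 ≤ T := by linarith
  have hT0 : 0 < T := by linarith
  set L : ℝ := Real.log T with hL
  have hLB : 2 * |B| + 2 ≤ L := by
    rw [hL, Real.le_log_iff_exp_le hT0]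
    exact le_trans (le_max_right _ _) hT
  have hB0 : 0 ≤ B := le_trans (abs_nonneg _) ht
  rw [abs_of_nonneg hB0] at hLB
  have hL2 : 2 ≤ L := by linarith
  have hL0 : 0 < L := by linarith
  have hsL : 0 < Real.sqrt L := Real.sqrt_pos.mpr hL0
  set z : ℂ := t / (L : ℂ) with hz
  have hzre : z.re = t.re / L := by rw [hz, Complex.div_ofReal_re]
  have hzim : z.im = t.im / L := by rw [hz, Complex.div_ofReal_im]
  have hzr : |z.re| ≤ 1 / 2 := by
    rw [hzre, abs_div, abs_of_pos hL0, div_le_iff₀ hL0]; linarith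
  have hzr2 : |z.re| ≤ B / L := by
    rw [hzre, abs_div, abs_of_pos hL0]; gcongr
  -- the factor
  have hfac : ‖((2 * Real.pi / T : ℝ) : ℂ) ^ (-(1 + z))‖ ≤ T * Real.exp B := by
    have hp : 0 < 2 * Real.pi / T := by positivity
    rw [Complex.norm_cpow_eq_rpow_re_of_pos hp]
    have e : (-(1 + z)).re = -(1 + z.re) := by simp
    rw [e, Real.rpow_neg hp.le, ← Real.inv_rpow hp.le, inv_div]
    have hp2 : 0 < T / (2 * Real.pi) := by positivity
    have hp3 : T / (2 * Real.pi) ≤ T := by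
      apply div_le_self hT0.le
      linarith [Real.pi_gt_three]
    have hp4 : 1 ≤ T / (2 * Real.pi) := by
      rw [le_div_iff₀ (by positivity)]
      linarith [Real.pi_lt_d2]
    rw [Real.rpow_add hp2, Real.rpow_one]
    have h1 : (T / (2 * Real.pi)) ^ z.re ≤ Real.exp B := by
      calc (T / (2 * Real.pi)) ^ z.re ≤ (T / (2 * Real.pi)) ^ (B / L) :=
            Real.rpow_le_rpow_of_exponent_le hp4 (le_trans (le_abs_self _) hzr2)
        _ ≤ T ^ (B / L) := Real.rpow_le_rpow hp2.le hp3 (by positivity)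
        _ = Real.exp B := by
            rw [Real.rpow_def_of_pos hT0, ← hL, mul_div_cancel₀ _ hL0.ne']
    exact mul_le_mul hp3 h1 (by positivity) hT0.le
  -- the Mellin transform
  set M : ℝ := ‖mellin (fun x : ℝ => (Win_g L x : ℂ)) (1 + z)‖ with hM
  have hM0 : 0 ≤ M := norm_nonneg _
  have hm1 : M ≤ K / Real.sqrt L := by
    refine (Win_m1 (by linarith) hzr).trans ?_
    gcongr
    have := Real.exp_pos (25 / 2 : ℝ)
    rw [hK]; linarith
  have hmin : M ≤ K / Real.sqrt L * min 1 (L ^ 3 / (1 + t.im ^ 2)) := by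
    have hq : 0 < 1 + t.im ^ 2 := by positivity
    have hKs : 0 < K / Real.sqrt L := by positivity
    rcases lt_or_ge |t.im| 1 with h | h
    · have h1 : (1:ℝ) ≤ L ^ 3 / (1 + t.im ^ 2) := by
        rw [le_div_iff₀ hq]
        have h2 : t.im ^ 2 ≤ 1 := by rw [← sq_abs]; nlinarith [abs_nonneg t.im]
        have h3 : (2:ℝ) ^ 3 ≤ L ^ 3 := by gcongr
        linarith
      rw [min_eq_left h1, mul_one]
      exact hm1
    · rw [mul_min_of_nonneg _ _ hKs.le, mul_one]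
      refine le_min hm1 ?_
      have him : 0 < |t.im| := by linarith
      have him2 : t.im ≠ 0 := abs_pos.mp him
      have h2 := Win_m2 (L := L) (by linarith) hzr (by
        rw [hzim]; exact div_ne_zero him2 hL0.ne')
      refine h2.trans ?_
      rw [hzim]
      have h1 : 1 ≤ t.im ^ 2 := by rw [← sq_abs]; nlinarith
      have h4 : 0 < t.im ^ 2 := by positivity
      have e1 : 12 * Real.exp (25 / 2) * Real.sqrt L / (t.im / L) ^ 2 =
          (12 * Real.exp (25 / 2)) / Real.sqrt L * (L ^ 3 / t.im ^ 2) := by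
        have h5 : Real.sqrt L * Real.sqrt L = L := Real.mul_self_sqrt hL0.le
        rw [div_pow]
        field_simp
        nlinarith [h5]
      rw [e1]
      have h6 : L ^ 3 / t.im ^ 2 ≤ 2 * (L ^ 3 / (1 + t.im ^ 2)) := by
        rw [← mul_div_assoc, div_le_div_iff₀ h4 hq]
        nlinarith [pow_pos hL0 3]
      calc (12 * Real.exp (25 / 2)) / Real.sqrt L * (L ^ 3 / t.im ^ 2)
          ≤ (12 * Real.exp (25 / 2)) / Real.sqrt L * (2 * (L ^ 3 / (1 + t.im ^ 2))) := by gcongr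
        _ = (24 * Real.exp (25 / 2)) / Real.sqrt L * (L ^ 3 / (1 + t.im ^ 2)) := by ring
        _ ≤ K / Real.sqrt L * (L ^ 3 / (1 + t.im ^ 2)) := by
            gcongr
            rw [hK]; linarith
  rw [Win_mw hT3, norm_mul]
  calc ‖((2 * Real.pi / T : ℝ) : ℂ) ^ (-(1 + z))‖ * M
      ≤ (T * Real.exp B) * (K / Real.sqrt L * min 1 (L ^ 3 / (1 + t.im ^ 2))) :=
        mul_le_mul hfac hmin hM0 (by positivity)
    _ = Real.exp B * (2 * Real.sqrt Real.pi) * K * om T * min 1 (L ^ 3 / (1 + t.im ^ 2)) := by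
        unfold om
        rw [← hL]
        have : 0 < Real.sqrt Real.pi := Real.sqrt_pos.mpr Real.pi_pos
        field_simp

end H98.SZ
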